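import Pool.Agent.H84.B.Targets

/-!
# Module HIL1 of MP_02e9fb_an: `T_basic`, `T_indep`, `T_mult`
-/

open scoped ComplexConjugate InnerProductSpace
open Filter Topology

namespace Pool.Agent.H84.B

section HIL1

variable {Λ : Type} [CommRing Λ] {H : Type} [NormedAddCommGroup H] [InnerProductSpace ℂ H]
  [CompleteSpace H]

omit [CompleteSpace H] in
/-- a surjective linear isometry that maps `K` onto `K'` intertwines the projections -/
lemma hil1_map_proj (T : H ≃ₗᵢ[ℂ] H) (K K' : Submodule ℂ H) [K.HasOrthogonalProjection]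
    [K'.HasOrthogonalProjection] (h1 : ∀ z ∈ K, T z ∈ K') (h2 : ∀ z ∈ K', T.symm z ∈ K) (z : H) :
    T (K.starProjection z) = K'.starProjection (T z) := by
  symm
  apply Submodule.eq_starProjection_of_mem_of_inner_eq_zero
  · exact h1 _ (Submodule.starProjection_apply_mem K z)
  · intro w hw
    rw [← map_sub]
    have : w = T (T.symm w) := by simp
    rw [this, LinearIsometryEquiv.inner_map_map]
    exact Submodule.starProjection_inner_eq_zero z _ (h2 w hw)

lemma hil1_V_symm (R : Rep Λ H) (σ : FP) (z : H) : (R.V σ).symm z = R.V σ⁻¹ z := by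
  rw [LinearIsometryEquiv.symm_apply_eq, ← R.V_mul, mul_inv_cancel, R.V_one]

lemma hil1_U_symm (R : Rep Λ H) (c : Y Λ) (z : H) : (R.U c).symm z = R.U (-c) z := by
  have h : c + -c = 0 := add_neg_cancel c
  rw [LinearIsometryEquiv.symm_apply_eq, ← R.U_add, h, R.U_zero]

lemma hil1_inner_U (R : Rep Λ H) (c : Y Λ) (w z : H) : ⟪w, R.U c z⟫_ℂ = ⟪R.U (-c) w, z⟫_ℂ := by
  have h : -c + c = 0 := neg_add_cancel c
  rw [← (R.U (-c)).inner_map_map w, ← R.U_add, h, R.U_zero]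

lemma hil1_U_comm (R : Rep Λ H) (c c' : Y Λ) (z : H) : R.U c (R.U c' z) = R.U c' (R.U c z) := by
  rw [← R.U_add, ← R.U_add, add_comm]

lemma hil1_HB_mono (R : Rep Λ H) {B B' : Finset ℕ} (h : B ⊆ B') : R.HB B ≤ R.HB B' :=
  fun _ hz σ hσ => hz σ fun i hi => hσ i (h hi)

lemma hil1_RB_mono (R : Rep Λ H) {B B' : Finset ℕ} (h : B ⊆ B') : R.RB B ≤ R.RB B' :=
  fun _ hz => ⟨hil1_HB_mono R h hz.1, fun y hy => hz.2 y
    (Finset.disjoint_of_subset_right h hy)⟩

lemma hil1_pY_fix (hh : T_hh) (σ : FP) (c : Y Λ) {B : Finset ℕ} (hc : c.1.support ⊆ B)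
    (hσ : ∀ i ∈ B, σ.1 i = i) : pY σ c = c := by
  obtain ⟨-, -, -, -, -, -, -, -, -, h, -⟩ := hh Λ
  exact h σ c fun i hi => hσ i (hc (Finsupp.mem_support_iff.2 hi))

lemma hil1_U_HB (hh : T_hh) (R : Rep Λ H) (B : Finset ℕ) (c : Y Λ) (z : H)
    (hc : c.1.support ⊆ B) (hz : z ∈ R.HB B) : R.U c z ∈ R.HB B := by
  intro σ hσ
  rw [R.VU, hil1_pY_fix hh σ c hc hσ, hz σ hσ]

lemma hil1_U_RB (hh : T_hh) (R : Rep Λ H) (B : Finset ℕ) (c : Y Λ) (z : H)
    (hc : c.1.support ⊆ B) (hz : z ∈ R.RB B) : R.U c z ∈ R.RB B := by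
  refine ⟨hil1_U_HB hh R B c z hc hz.1, fun y hy => ?_⟩
  rw [hil1_U_comm, hz.2 y hy]

lemma hil1_V_HB (R : Rep Λ H) (B : Finset ℕ) (σ : FP) (z : H) (hz : z ∈ R.HB B) :
    R.V σ z ∈ R.HB (B.map σ.1.toEmbedding) := by
  intro τ hτ
  have h1 : R.V τ (R.V σ z) = R.V σ (R.V (σ⁻¹ * τ * σ) z) := by
    rw [← R.V_mul, ← R.V_mul]
    congr 2
    group
  rw [h1, hz]
  intro i hi
  have h2 : τ.1 (σ.1 i) = σ.1 i := hτ _ (by simpa using hi)
  change (σ.1⁻¹ * τ.1 * σ.1) i = i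
  simp [Equiv.Perm.mul_apply, h2]

lemma hil1_pY_supp (σ : FP) (y : Y Λ) : (pY σ y).1.support = y.1.support.map σ.1.toEmbedding := by
  rfl

lemma hil1_map_map (σ : FP) (B : Finset ℕ) :
    (B.map σ.1.toEmbedding).map (σ⁻¹).1.toEmbedding = B := by
  ext i
  rw [Finset.mem_map_equiv, Finset.mem_map_equiv]
  change σ.1.symm ((σ.1⁻¹).symm i) ∈ B ↔ i ∈ B
  have : σ.1.symm ((σ.1⁻¹).symm i) = i := by
    change σ.1.symm (σ.1 i) = i
    simp
  rw [this]

lemma hil1_map_map' (σ : FP) (B : Finset ℕ) :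
    (B.map (σ⁻¹).1.toEmbedding).map σ.1.toEmbedding = B := by
  have := hil1_map_map σ⁻¹ B
  rwa [inv_inv] at this

lemma hil1_off_map (σ : FP) (y : Y Λ) (B : Finset ℕ) (h : Off y (B.map σ.1.toEmbedding)) :
    Off (pY σ⁻¹ y) B := by
  unfold Off at *
  rw [hil1_pY_supp, ← hil1_map_map σ B]
  exact (Finset.disjoint_map _).2 h

lemma hil1_V_RB (hh : T_hh) (R : Rep Λ H) (B : Finset ℕ) (σ : FP) (z : H) (hz : z ∈ R.RB B) :
    R.V σ z ∈ R.RB (B.map σ.1.toEmbedding) := by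
  refine ⟨hil1_V_HB R B σ z hz.1, fun y hy => ?_⟩
  obtain ⟨-, -, -, h3, h4, -⟩ := hh Λ
  have h1 : pY σ (pY σ⁻¹ y) = y := by
    rw [← h3, mul_inv_cancel, h4]
  rw [← h1, ← R.VU, hz.2 _ (hil1_off_map σ y B hy)]

theorem basic (hh : T_hh) : T_basic := by
  intro Λ _ H _ _ _ R
  refine ⟨fun B B' h => hil1_HB_mono R h, fun B B' h => hil1_RB_mono R h,
    fun B c z hc hz => hil1_U_HB hh R B c z hc hz, fun B c z hc hz => hil1_U_RB hh R B c z hc hz,
    fun B σ z hz => hil1_V_HB R B σ z hz, fun B σ z hz => hil1_V_RB hh R B σ z hz,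
    ?_, ?_, ?_, ?_, ?_, ?_⟩
  · intro B σ z
    apply hil1_map_proj
    · exact fun z hz => hil1_V_HB R B σ z hz
    · intro z hz
      rw [hil1_V_symm]
      have := hil1_V_HB R _ σ⁻¹ z hz
      rwa [hil1_map_map] at this
  · intro B σ z
    apply hil1_map_proj
    · exact fun z hz => hil1_V_RB hh R B σ z hz
    · intro z hz
      rw [hil1_V_symm]
      have := hil1_V_RB hh R _ σ⁻¹ z hz
      rwa [hil1_map_map] at this
  · intro B c z hc
    apply hil1_map_proj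
    · exact fun z hz => hil1_U_HB hh R B c z hc hz
    · intro z hz
      rw [hil1_U_symm]
      exact hil1_U_HB hh R B (-c) z (by simpa using hc) hz
  · intro B c z hc
    apply hil1_map_proj
    · exact fun z hz => hil1_U_RB hh R B c z hc hz
    · intro z hz
      rw [hil1_U_symm]
      exact hil1_U_RB hh R B (-c) z (by simpa using hc) hz
  · intro B y z hy
    apply Submodule.eq_starProjection_of_mem_of_inner_eq_zero
    · exact Submodule.starProjection_apply_mem _ z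
    · intro w hw
      have h1 : ⟪z - (R.RB B).starProjection z, w⟫_ℂ = 0 :=
        Submodule.starProjection_inner_eq_zero z w hw
      rw [inner_sub_left] at h1 ⊢
      rw [← h1]
      congr 1
      have h2 : R.U y w = w := hw.2 y hy
      conv_lhs => rw [← h2]
      rw [LinearIsometryEquiv.inner_map_map]
  · intro B z
    apply Submodule.eq_starProjection_of_mem_of_inner_eq_zero
    · exact Submodule.starProjection_apply_mem _ z
    · intro w hw
      have h1 : ⟪z - (R.RB B).starProjection z, w⟫_ℂ = 0 :=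
        Submodule.starProjection_inner_eq_zero z w hw
      have h2 : ⟪z - (R.HB B).starProjection z, w⟫_ℂ = 0 :=
        Submodule.starProjection_inner_eq_zero z w hw.1
      rw [inner_sub_left] at h1 h2 ⊢
      change ⟪(R.HB B).starProjection z, w⟫_ℂ - ⟪(R.RB B).starProjection z, w⟫_ℂ = 0
      rw [← h1, sub_eq_zero.1 h2]

/-! ### independence -/

lemma hil1_V_agree (R : Rep Λ H) {B : Finset ℕ} {w : H} (hw : w ∈ R.HB B) (σ τ : FP)
    (h : ∀ i ∈ B, σ.1 i = τ.1 i) : R.V σ w = R.V τ w := by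
  have h1 : R.V σ w = R.V τ (R.V (τ⁻¹ * σ) w) := by
    rw [← R.V_mul]
    congr 2
    group
  rw [h1, hw]
  intro i hi
  change (τ.1⁻¹ * σ.1) i = i
  simp [Equiv.Perm.mul_apply, h i hi]

omit [CompleteSpace H] in
/-- the element of minimal norm of a complete convex set -/
lemma hil1_min (C : Set H) (hne : C.Nonempty) (hcp : IsComplete C) (hcv : Convex ℝ C) :
    ∃ v ∈ C, ∀ w ∈ C, ‖v‖ ^ 2 ≤ (⟪v, w⟫_ℂ).re := by
  let : InnerProductSpace ℝ H := InnerProductSpace.complexToReal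
  have hcv' : Convex ℝ C := hcv
  obtain ⟨v, hv, hmin⟩ := exists_norm_eq_iInf_of_complete_convex hne hcp hcv' 0
  rw [norm_eq_iInf_iff_real_inner_le_zero hcv' hv] at hmin
  refine ⟨v, hv, fun w hw => ?_⟩
  have h1 := hmin w hw
  rw [zero_sub, inner_neg_left, inner_sub_right, real_inner_self_eq_norm_sq] at h1
  have h2 : ⟪v, w⟫_ℝ = (⟪v, w⟫_ℂ).re := rfl
  rw [h2] at h1
  linarith

/-- `0` is in the closed convex hull of the orbit of a vector orthogonal to the fixed vectors -/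
lemma hil1_zero_mem (R : Rep Λ H) (D : Finset ℕ) (w : H) (hw : ∀ x ∈ R.HB D, ⟪x, w⟫_ℂ = 0) :
    (0 : H) ∈ closure (convexHull ℝ {x : H | ∃ σ : FP, (∀ i ∈ D, σ.1 i = i) ∧ x = R.V σ w}) := by
  set O : Set H := {x : H | ∃ σ : FP, (∀ i ∈ D, σ.1 i = i) ∧ x = R.V σ w} with hO
  set C : Set H := closure (convexHull ℝ O) with hC
  have hne : C.Nonempty := ⟨w, subset_closure (subset_convexHull ℝ O ⟨1, by simp, by
    rw [R.V_one]⟩)⟩
  have hcv : Convex ℝ C := (convex_convexHull ℝ O).closure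
  have hcp : IsComplete C := isClosed_closure.isComplete
  obtain ⟨v, hv, hmin⟩ := hil1_min C hne hcp hcv
  -- `C` is invariant
  have hinv : ∀ σ : FP, (∀ i ∈ D, σ.1 i = i) → ∀ x ∈ C, R.V σ x ∈ C := by
    intro σ hσ x hx
    have hlin : IsLinearMap ℝ (fun x => R.V σ x) :=
      ⟨fun a b => map_add _ a b, fun a b => map_real_smul (R.V σ) (R.V σ).continuous a b⟩
    have h1 : (fun x => R.V σ x) '' convexHull ℝ O ⊆ convexHull ℝ O := by
      have h2 : (fun x => R.V σ x) '' O ⊆ O := by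
        rintro _ ⟨x, ⟨τ, hτ, rfl⟩, rfl⟩
        refine ⟨σ * τ, fun i hi => ?_, (R.V_mul σ τ w).symm⟩
        change (σ.1 * τ.1) i = i
        rw [Equiv.Perm.mul_apply, hτ i hi, hσ i hi]
      rw [hlin.image_convexHull]
      exact convexHull_mono h2
    have h3 := image_closure_subset_closure_image (R.V σ).continuous (s := convexHull ℝ O)
    have h4 : R.V σ x ∈ closure ((fun x => R.V σ x) '' convexHull ℝ O) := h3 ⟨x, hx, rfl⟩
    exact closure_mono h1 h4
  have hvD : v ∈ R.HB D := by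
    intro σ hσ
    have h3 := hmin _ (hinv σ hσ v hv)
    have h2 : ‖R.V σ v - v‖ ^ 2 = 2 * ‖v‖ ^ 2 - 2 * (⟪v, R.V σ v⟫_ℂ).re := by
      rw [@norm_sub_sq ℂ, LinearIsometryEquiv.norm_map]
      have : RCLike.re ⟪R.V σ v, v⟫_ℂ = (⟪v, R.V σ v⟫_ℂ).re := by
        rw [← inner_conj_symm, RCLike.conj_re]
        rfl
      rw [this]
      ring
    have h5 : ‖R.V σ v - v‖ ^ 2 ≤ 0 := by linarith
    have h6 : ‖R.V σ v - v‖ = 0 := by
      have := sq_nonneg ‖R.V σ v - v‖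
      exact pow_eq_zero_iff (two_ne_zero) |>.1 (le_antisymm h5 this)
    exact sub_eq_zero.1 (norm_eq_zero.1 h6)
  have hperp : ∀ x ∈ C, ⟪v, x⟫_ℂ = 0 := by
    have h1 : C ⊆ {x | ⟪v, x⟫_ℂ = 0} := by
      apply closure_minimal
      · apply convexHull_min
        · rintro _ ⟨σ, hσ, rfl⟩
          change ⟪v, R.V σ w⟫_ℂ = 0
          rw [← hvD σ hσ, LinearIsometryEquiv.inner_map_map]
          exact hw v hvD
        · intro x hx y hy a b _ _ _
          change ⟪v, a • x + b • y⟫_ℂ = 0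
          rw [inner_add_right, inner_smul_right_eq_smul, inner_smul_right_eq_smul]
          rw [show ⟪v, x⟫_ℂ = 0 from hx, show ⟪v, y⟫_ℂ = 0 from hy]
          simp
      · exact isClosed_eq (by fun_prop) continuous_const
    exact fun x hx => h1 hx
  have hv0 : v = 0 := inner_self_eq_zero.1 (hperp v hv)
  rwa [hv0] at hv

lemma hil1_back (hpe : T_perm_extend) (B B' : Finset ℕ) (τ : FP)
    (h1 : ∀ i ∈ B ∩ B', τ.1 i = i) (h2 : ∀ i ∈ B', i ∉ B ∩ B' → τ.1 i ∉ B) :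
    ∃ σ : FP, (∀ i ∈ B, σ.1 i = i) ∧ ∀ i ∈ B', σ.1 (τ.1 i) = i := by
  classical
  obtain ⟨σ, hσ, -⟩ := hpe (B ∪ B'.map τ.1.toEmbedding)
    (fun i => if i ∈ B then i else τ.1.symm i) (by
      intro i hi j hj hij
      simp only [Finset.coe_union, Finset.coe_map, Set.mem_union, Finset.mem_coe, Set.mem_image,
        Equiv.coe_toEmbedding] at hi hj
      have key : ∀ j, j ∉ B → (∃ x ∈ B', τ.1 x = j) → τ.1.symm j ∉ B := by
        rintro _ hj ⟨x, hx, rfl⟩
        rw [Equiv.symm_apply_apply]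
        intro hxB
        apply hj
        rw [h1 x (Finset.mem_inter.2 ⟨hxB, hx⟩)]
        exact hxB
      by_cases hiB : i ∈ B <;> by_cases hjB : j ∈ B
      · simpa [hiB, hjB] using hij
      · simp only [hiB, hjB, if_true, if_false] at hij
        exact absurd (hij ▸ hiB) (key j hjB (hj.resolve_left hjB))
      · simp only [hiB, hjB, if_true, if_false] at hij
        exact absurd (hij ▸ hjB) (key i hiB (hi.resolve_left hiB))
      · simpa [hiB, hjB] using hij)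
  refine ⟨σ, fun i hi => ?_, fun i hi => ?_⟩
  · rw [hσ i (by simp [hi]), if_pos hi]
  · rw [hσ _ (by simp [hi])]
    split_ifs with h
    · by_cases hD : i ∈ B ∩ B'
      · exact h1 i hD
      · exact absurd h (h2 i hi hD)
    · simp

lemma hil1_away (hpe : T_perm_extend) (B D X : Finset ℕ) :
    ∃ τ : FP, (∀ i ∈ D, τ.1 i = i) ∧ ∀ i ∈ X, i ∉ D → τ.1 i ∉ B := by
  classical
  set M : ℕ := (B ∪ D).sup id + 1 with hM
  have hlt : ∀ i ∈ B ∪ D, i < M := fun i hi => by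
    have : id i ≤ (B ∪ D).sup id := Finset.le_sup hi
    simp only [id] at this
    omega
  obtain ⟨τ, hτ, -⟩ := hpe (D ∪ X) (fun i => if i ∈ D then i else i + M) (by
    intro i _ j _ hij
    by_cases hiB : i ∈ D <;> by_cases hjB : j ∈ D
    · simpa [hiB, hjB] using hij
    · simp only [hiB, hjB, if_true, if_false] at hij
      have := hlt i (by simp [hiB])
      omega
    · simp only [hiB, hjB, if_true, if_false] at hij
      have := hlt j (by simp [hjB])
      omega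
    · simpa [hiB, hjB] using hij)
  refine ⟨τ, fun i hi => ?_, fun i hi hiD => ?_⟩
  · rw [hτ i (by simp [hi]), if_pos hi]
  · rw [hτ i (by simp [hi]), if_neg hiD]
    intro h
    have := hlt _ (Finset.mem_union_left D h)
    omega

theorem indep_aux (hpe : T_perm_extend) (R : Rep Λ H) (B B' : Finset ℕ) (z w : H)
    (hz : z ∈ R.HB B) (hw : w ∈ R.HB B') (hperp : ∀ x ∈ R.HB (B ∩ B'), ⟪x, w⟫_ℂ = 0) :
    ⟪z, w⟫_ℂ = 0 := by
  classical
  have key : ∀ τ : FP, (∀ i ∈ B ∩ B', τ.1 i = i) → (∀ i ∈ B', i ∉ B ∩ B' → τ.1 i ∉ B) →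
      ⟪z, R.V τ w⟫_ℂ = ⟪z, w⟫_ℂ := by
    intro τ h1 h2
    obtain ⟨σ, hσ1, hσ2⟩ := hil1_back hpe B B' τ h1 h2
    rw [← (R.V σ).inner_map_map z, hz σ hσ1, ← R.V_mul]
    congr 1
    rw [hil1_V_agree R hw (σ * τ) 1 (fun i hi => by
      change (σ.1 * τ.1) i = i
      rw [Equiv.Perm.mul_apply]
      exact hσ2 i hi), R.V_one]
  have h0 := hil1_zero_mem R (B ∩ B') w hperp
  set P : Set H := {x | ∃ X : Finset ℕ, ∀ τ : FP, (∀ i ∈ B ∩ B', τ.1 i = i) →
    (∀ i ∈ X, i ∉ B ∩ B' → τ.1 i ∉ B) → ⟪z, R.V τ x⟫_ℂ = ⟪z, w⟫_ℂ} with hP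
  have hsub : convexHull ℝ {x : H | ∃ σ : FP, (∀ i ∈ B ∩ B', σ.1 i = i) ∧ x = R.V σ w} ⊆ P := by
    apply convexHull_min
    · rintro _ ⟨σ, hσ, rfl⟩
      refine ⟨B'.map σ.1.toEmbedding, fun τ hτ1 hτ2 => ?_⟩
      rw [← R.V_mul]
      apply key
      · intro i hi
        change (τ.1 * σ.1) i = i
        rw [Equiv.Perm.mul_apply, hσ i hi, hτ1 i hi]
      · intro i hi hiD
        change (τ.1 * σ.1) i ∉ B
        rw [Equiv.Perm.mul_apply]
        apply hτ2 _ (by simpa using hi)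
        intro h
        apply hiD
        have h3 := hσ _ h
        have h4 : σ.1 i = i := σ.1.injective h3
        rwa [h4] at h
    · rintro x ⟨X, hX⟩ y ⟨X', hX'⟩ a b _ _ hab
      refine ⟨X ∪ X', fun τ hτ1 hτ2 => ?_⟩
      have e1 := hX τ hτ1 fun i hi => hτ2 i (Finset.mem_union_left _ hi)
      have e2 := hX' τ hτ1 fun i hi => hτ2 i (Finset.mem_union_right _ hi)
      have e3 : R.V τ (a • x + b • y) = a • R.V τ x + b • R.V τ y := by
        rw [map_add, map_real_smul (R.V τ) (R.V τ).continuous,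
          map_real_smul (R.V τ) (R.V τ).continuous]
      rw [e3, inner_add_right, inner_smul_right_eq_smul, inner_smul_right_eq_smul, e1, e2,
        ← add_smul, hab, one_smul]
  have hbound : ∀ x ∈ P, ‖⟪z, w⟫_ℂ‖ ≤ ‖z‖ * ‖x‖ := by
    rintro x ⟨X, hX⟩
    obtain ⟨τ, h1, h2⟩ := hil1_away hpe B (B ∩ B') X
    rw [← hX τ h1 h2]
    calc ‖⟪z, R.V τ x⟫_ℂ‖ ≤ ‖z‖ * ‖R.V τ x‖ := norm_inner_le_norm _ _
      _ = ‖z‖ * ‖x‖ := by rw [LinearIsometryEquiv.norm_map]
  have hclosed : closure (convexHull ℝ {x : H | ∃ σ : FP, (∀ i ∈ B ∩ B', σ.1 i = i) ∧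
      x = R.V σ w}) ⊆ {x | ‖⟪z, w⟫_ℂ‖ ≤ ‖z‖ * ‖x‖} := by
    apply closure_minimal
    · exact fun x hx => hbound x (hsub hx)
    · exact isClosed_le continuous_const (by fun_prop)
  have h1 : ‖⟪z, w⟫_ℂ‖ ≤ ‖z‖ * ‖(0 : H)‖ := hclosed h0
  rw [norm_zero, mul_zero] at h1
  exact norm_le_zero_iff.1 h1

theorem indep (hpe : T_perm_extend) : T_indep := by
  intro Λ _ H _ _ _ R B B' w hw
  apply Submodule.eq_starProjection_of_mem_of_inner_eq_zero
  · exact hil1_HB_mono R Finset.inter_subset_left (Submodule.starProjection_apply_mem _ w)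
  · intro z hz
    have h0 : ⟪z, w - R.PH (B ∩ B') w⟫_ℂ = 0 := by
      apply indep_aux hpe R B B' z (w - R.PH (B ∩ B') w) hz
        (Submodule.sub_mem _ hw (hil1_HB_mono R Finset.inter_subset_right
          (Submodule.starProjection_apply_mem _ w)))
      intro x hx
      have h1 : ⟪w - R.PH (B ∩ B') w, x⟫_ℂ = 0 := Submodule.starProjection_inner_eq_zero w x hx
      rw [← inner_conj_symm, h1]
      simp
    rw [← inner_conj_symm, h0]
    simp

/-! ### multiplicativity -/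

lemma hil1_PH_ext (R : Rep Λ H) (B : Finset ℕ) (u v : H)
    (h : ∀ w ∈ R.HB B, ⟪w, u⟫_ℂ = ⟪w, v⟫_ℂ) : R.PH B u = R.PH B v := by
  symm
  apply Submodule.eq_starProjection_of_mem_of_inner_eq_zero
  · exact Submodule.starProjection_apply_mem _ u
  · intro w hw
    have h1 : ⟪u - R.PH B u, w⟫_ℂ = 0 :=
      Submodule.starProjection_inner_eq_zero (K := R.HB B) u w hw
    change ⟪v - R.PH B u, w⟫_ℂ = 0
    have h2 : ⟪v, w⟫_ℂ = ⟪u, w⟫_ℂ := by
      rw [← inner_conj_symm, ← h w hw, inner_conj_symm]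
    rw [inner_sub_left] at h1 ⊢
    rw [h2, h1]

lemma hil1_inner_PH (R : Rep Λ H) (B : Finset ℕ) (w u : H) (hw : w ∈ R.HB B) :
    ⟪w, R.PH B u⟫_ℂ = ⟪w, u⟫_ℂ := by
  have h1 : ⟪u - R.PH B u, w⟫_ℂ = 0 :=
    Submodule.starProjection_inner_eq_zero (K := R.HB B) u w hw
  rw [inner_sub_left, sub_eq_zero] at h1
  rw [← inner_conj_symm, ← inner_conj_symm w u, h1]

lemma hil1_inner_indep (hind : T_indep) (R : Rep Λ H) (B B' : Finset ℕ) (w u : H)
    (hw : w ∈ R.HB B) (hu : u ∈ R.HB B') : ⟪w, u⟫_ℂ = ⟪w, R.PH (B ∩ B') u⟫_ℂ := by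
  rw [← hind Λ H R B B' u hu, hil1_inner_PH R B w u hw]

theorem mult (hh : T_hh) (hc : T_conj) (hind : T_indep) : T_mult := by
  classical
  intro Λ _ H _ _ _ R B
  have hsupp : ∀ (w : H) (y : Y Λ), w ∈ R.HB B → R.U (-y) w ∈ R.HB (B ∪ y.1.support) :=
    fun w y hw => hil1_U_HB hh R _ (-y) w (by simp) (hil1_HB_mono R
      Finset.subset_union_left hw)
  have hsupp' : ∀ (w : H) (y : Y Λ), w ∈ R.HB B → R.U y w ∈ R.HB (B ∪ y.1.support) :=
    fun w y hw => hil1_U_HB hh R _ y w (by simp) (hil1_HB_mono R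
      Finset.subset_union_left hw)
  refine ⟨?_, ?_, ?_⟩
  · intro y y' z hz hy hy' hd
    apply hil1_PH_ext
    intro w hw
    rw [R.U_add, hil1_inner_U, hil1_inner_U R y w]
    rw [hil1_inner_indep hind R (B ∪ y.1.support) (B ∪ y'.1.support) _ _ (hsupp w y hw)
      (hsupp' z y' hz)]
    congr 2
    rw [← Finset.union_inter_distrib_left, Finset.disjoint_iff_inter_eq_empty.1 hd,
      Finset.union_empty]
  · intro y y' z hz hy hy' hcp
    obtain ⟨σ, hσ, h⟩ := hc Λ B 1 (fun _ => y) (fun _ => y') (fun _ => hcp) (fun _ => hy)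
      (fun _ => hy') (fun n n' h => absurd (Subsingleton.elim n n') h)
      (fun n n' h => absurd (Subsingleton.elim n n') h)
    have h0 : y' = pY σ y := h 0
    apply hil1_PH_ext
    intro w hw
    have h1 : R.U y' z = R.V σ (R.U y z) := by
      rw [R.VU, hz σ hσ, h0]
    rw [h1]
    conv_lhs => rw [← hw σ hσ]
    rw [LinearIsometryEquiv.inner_map_map]
  · intro X y z hBX hz hy
    apply hil1_PH_ext
    intro w hw
    rw [hil1_inner_U, hil1_inner_U R y w]
    rw [hil1_inner_indep hind R (B ∪ y.1.support) X _ _ (hsupp w y hw) hz]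
    congr 2
    rw [Finset.union_inter_distrib_right, Finset.disjoint_iff_inter_eq_empty.1 hy,
      Finset.union_empty, Finset.inter_eq_left.2 hBX]

end HIL1

end Pool.Agent.H84.B
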