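import Pool.Agent.H84.B.Targets

/-!
# Module HIL2 of MP_02e9fb_an: the targets `T_PRlim` and `T_bblim`

By helper17.  Everything is stated with the targets of PERM and HIL1 as hypotheses.
-/

open scoped ComplexConjugate InnerProductSpace
open Filter Topology

namespace Pool.Agent.H84.B

namespace HIL2

set_option linter.unusedSectionVars false

variable {Λ : Type} [CommRing Λ] {H : Type} [NormedAddCommGroup H] [InnerProductSpace ℂ H]
  [CompleteSpace H] (R : Rep Λ H)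

/-! ## projections -/

lemma PH_mem (B : Finset ℕ) (z : H) : R.PH B z ∈ R.HB B :=
  Submodule.starProjection_apply_mem _ _

lemma PR_mem (B : Finset ℕ) (z : H) : R.PR B z ∈ R.RB B :=
  Submodule.starProjection_apply_mem _ _

lemma PH_of_mem {B : Finset ℕ} {z : H} (hz : z ∈ R.HB B) : R.PH B z = z :=
  Submodule.starProjection_eq_self_iff.2 hz

lemma PH_inner (B : Finset ℕ) (x y : H) : ⟪R.PH B x, y⟫_ℂ = ⟪x, R.PH B y⟫_ℂ :=
  Submodule.inner_starProjection_left_eq_right _ _ _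

lemma PH_inner_mem {B : Finset ℕ} {x : H} (hx : x ∈ R.HB B) (y : H) :
    ⟪x, R.PH B y⟫_ℂ = ⟪x, y⟫_ℂ := by
  rw [← PH_inner, PH_of_mem R hx]

lemma PH_inner_mem' {B : Finset ℕ} {x : H} (hx : x ∈ R.HB B) (y : H) :
    ⟪R.PH B y, x⟫_ℂ = ⟪y, x⟫_ℂ := by
  rw [PH_inner, PH_of_mem R hx]

lemma norm_PH_le (B : Finset ℕ) (x : H) : ‖R.PH B x‖ ≤ ‖x‖ :=
  Submodule.norm_starProjection_apply_le _ _

lemma norm_T_le (B : Finset ℕ) (y : Y Λ) (x : H) : ‖R.PH B (R.U y x)‖ ≤ ‖x‖ :=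
  (norm_PH_le R B _).trans (le_of_eq (LinearIsometryEquiv.norm_map _ _))

lemma U_neg_left (y : Y Λ) (z : H) : R.U (-y) (R.U y z) = z := by
  have h : -y + y = 0 := neg_add_cancel y
  rw [← R.U_add, h, R.U_zero]

lemma U_neg_right (y : Y Λ) (z : H) : R.U y (R.U (-y) z) = z := by
  have h : y + -y = 0 := add_neg_cancel y
  rw [← R.U_add, h, R.U_zero]

lemma U_adj (y : Y Λ) (x z : H) : ⟪x, R.U y z⟫_ℂ = ⟪R.U (-y) x, z⟫_ℂ := by
  rw [← LinearIsometryEquiv.inner_map_map (R.U y) (R.U (-y) x) z, U_neg_right]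

/-! ## supports -/

lemma Off_mono {y : Y Λ} {B B' : Finset ℕ} (h : B ⊆ B') (hy : Off y B') : Off y B :=
  Disjoint.mono_right (by exact_mod_cast h) hy

lemma smul_support (k : Λ) (y : Y Λ) : (k • y).1.support ⊆ y.1.support := by
  intro i hi
  rw [Finsupp.mem_support_iff] at hi ⊢
  intro h
  apply hi
  change (k • y.1) i = 0
  simp [h]

lemma Off_smul {y : Y Λ} {B : Finset ℕ} (k : Λ) (hy : Off y B) : Off (k • y) B :=
  Disjoint.mono_left (smul_support k y) hy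

lemma Dsj_smul {y y' : Y Λ} (k k' : Λ) (h : Dsj y y') : Dsj (k • y) (k' • y') :=
  Disjoint.mono (smul_support k y) (smul_support k' y') h

lemma Dsj_symm {y y' : Y Λ} (h : Dsj y y') : Dsj y' y := Disjoint.symm h

lemma neg_support (y : Y Λ) : (-y).1.support = y.1.support := by
  ext i
  rw [Finsupp.mem_support_iff, Finsupp.mem_support_iff]
  change (-y.1) i ≠ 0 ↔ _
  simp

lemma Off_neg {y : Y Λ} {B : Finset ℕ} (hy : Off y B) : Off (-y) B := by
  unfold Off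
  rw [neg_support]
  exact hy

lemma pr_apply (c : Λ) (i j x : ℕ) :
    (pr c i j).1 x = (if i = x then c else 0) - (if j = x then c else 0) := by
  change (Finsupp.single i c - Finsupp.single j c) x = _
  rw [Finsupp.sub_apply, Finsupp.single_apply, Finsupp.single_apply]

lemma off_iff {y : Y Λ} {B : Finset ℕ} : Off y B ↔ ∀ x, y.1 x ≠ 0 → x ∉ B := by
  unfold Off
  rw [Finset.disjoint_left]
  simp only [Finsupp.mem_support_iff]

lemma dsj_iff {y y' : Y Λ} : Dsj y y' ↔ ∀ x, y.1 x ≠ 0 → y'.1 x = 0 := by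
  unfold Dsj
  rw [Finset.disjoint_left]
  simp only [Finsupp.mem_support_iff, not_not]

lemma pr_off {c : Λ} {i j : ℕ} {B : Finset ℕ} (hi : i ∉ B) (hj : j ∉ B) : Off (pr c i j) B := by
  rw [off_iff]
  intro x hx
  rw [pr_apply] at hx
  by_cases h1 : i = x
  · exact h1 ▸ hi
  · by_cases h2 : j = x
    · exact h2 ▸ hj
    · simp [h1, h2] at hx

/-! ## the operators `T_y = PH_B U_y` on `HB B` -/

/-- the hypotheses from PERM and HIL1 -/
structure Hyp : Prop where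
  ext : T_perm_extend
  cop : T_copies
  hh : T_hh
  bas : T_basic
  ind : T_indep
  mul : T_mult

lemma IsCopy_smul (hy : Hyp) (k : Λ) {y y' : Y Λ} (h : IsCopy y y') : IsCopy (k • y) (k • y') :=
  (hy.hh Λ).2.2.2.2.2.2.2.2.1 k y y' h

lemma IsCopy_symm (hy : Hyp) {y y' : Y Λ} (h : IsCopy y y') : IsCopy y' y :=
  (hy.hh Λ).2.2.2.2.2.2.1 y y' h

lemma IsCopy_trans (hy : Hyp) {y y' y'' : Y Λ} (h : IsCopy y y') (h' : IsCopy y' y'') :
    IsCopy y y'' :=
  (hy.hh Λ).2.2.2.2.2.2.2.1 y y' y'' h h'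

/-- one copy off a given finite set -/
lemma exists_copy (hy : Hyp) (y : Y Λ) (B : Finset ℕ) : ∃ c, IsCopy y c ∧ Off c B := by
  obtain ⟨c, h1, h2, -⟩ := hy.cop Λ y B 1
  exact ⟨c 0, h1 0, h2 0⟩

/-- `T_{y'} = T_y` for copies -/
lemma T_copy (hy : Hyp) {B : Finset ℕ} {y y' : Y Λ} {z : H} (hz : z ∈ R.HB B) (h1 : Off y B)
    (h2 : Off y' B) (h : IsCopy y y') : R.PH B (R.U y' z) = R.PH B (R.U y z) :=
  (hy.mul Λ H R B).2.1 y y' z hz h1 h2 h

/-- `T_{y+y'} = T_y T_{y'}` for disjoint `y, y'` -/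
lemma T_add (hy : Hyp) {B : Finset ℕ} {y y' : Y Λ} {z : H} (hz : z ∈ R.HB B) (h1 : Off y B)
    (h2 : Off y' B) (h : Dsj y y') :
    R.PH B (R.U (y + y') z) = R.PH B (R.U y (R.PH B (R.U y' z))) :=
  (hy.mul Λ H R B).1 y y' z hz h1 h2 h

/-- the operators `T_y` commute -/
lemma T_comm (hy : Hyp) {B : Finset ℕ} {y y' : Y Λ} {z : H} (hz : z ∈ R.HB B) (h1 : Off y B)
    (h2 : Off y' B) :
    R.PH B (R.U y (R.PH B (R.U y' z))) = R.PH B (R.U y' (R.PH B (R.U y z))) := by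
  obtain ⟨c, hc, hoff⟩ := exists_copy hy y' (B ∪ y.1.support)
  have hcB : Off c B := Off_mono Finset.subset_union_left hoff
  have hcy : Dsj y c := Dsj_symm (Off_mono Finset.subset_union_right hoff)
  rw [← T_copy R hy hz h2 hcB hc, ← T_copy R hy (PH_mem R B _) h2 hcB hc,
    ← T_add R hy hz h1 hcB hcy, ← T_add R hy hz hcB h1 (Dsj_symm hcy), add_comm y c]

/-- `⟪x, T_y z⟫ = ⟪T_{-y} x, z⟫` on `HB B` -/
lemma T_adj {B : Finset ℕ} (y : Y Λ) {x z : H} (hx : x ∈ R.HB B) (hz : z ∈ R.HB B) :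
    ⟪x, R.PH B (R.U y z)⟫_ℂ = ⟪R.PH B (R.U (-y) x), z⟫_ℂ := by
  rw [PH_inner_mem R hx, PH_inner_mem' R hz, U_adj]

/-! ## pairs of disjoint copies -/

lemma HB_mono (hy : Hyp) {B B' : Finset ℕ} (h : B ⊆ B') {z : H} (hz : z ∈ R.HB B) :
    z ∈ R.HB B' := (hy.bas Λ H R).1 B B' h hz

lemma U_mem (hy : Hyp) {B : Finset ℕ} {c : Y Λ} {z : H} (hc : c.1.support ⊆ B)
    (hz : z ∈ R.HB B) : R.U c z ∈ R.HB B := (hy.bas Λ H R).2.2.1 B c z hc hz

/-- `⟪U_g y, U_{g'} x⟫ = ⟪T_g y, T_{g'} x⟫` for disjoint `g, g'` off `B` -/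
lemma inner_disj (hy : Hyp) {B : Finset ℕ} {g g' : Y Λ} {x y : H} (hx : x ∈ R.HB B)
    (hyy : y ∈ R.HB B) (hd : Dsj g g') :
    ⟪R.U g y, R.U g' x⟫_ℂ = ⟪R.PH B (R.U g y), R.PH B (R.U g' x)⟫_ℂ := by
  have h1 : R.U g y ∈ R.HB (B ∪ g.1.support) :=
    U_mem R hy Finset.subset_union_right (HB_mono R hy Finset.subset_union_left hyy)
  have h2 : R.U g' x ∈ R.HB (B ∪ g'.1.support) :=
    U_mem R hy Finset.subset_union_right (HB_mono R hy Finset.subset_union_left hx)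
  have h3 := hy.ind Λ H R (B ∪ g.1.support) (B ∪ g'.1.support) (R.U g' x) h2
  have h4 : (B ∪ g.1.support) ∩ (B ∪ g'.1.support) = B := by
    rw [← Finset.union_inter_distrib_left, Finset.disjoint_iff_inter_eq_empty.1 hd,
      Finset.union_empty]
  rw [h4] at h3
  rw [← PH_inner_mem R h1, h3, PH_inner_mem' R (PH_mem R B _)]

lemma inner_T_T (hy : Hyp) {B : Finset ℕ} {g g' : Y Λ} {x y : H} (hx : x ∈ R.HB B)
    (hyy : y ∈ R.HB B) (hd : Dsj g g') :
    ⟪R.PH B (R.U g y), R.PH B (R.U g' x)⟫_ℂ = ⟪y, R.PH B (R.U (g' + -g) x)⟫_ℂ := by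
  have h : - -g = g := neg_neg g
  rw [← inner_disj R hy hx hyy hd, PH_inner_mem R hyy, add_comm g' (-g), R.U_add, U_adj R (-g), h]

/-! ## the positive contractions `Q_c` -/

lemma pY_pr (σ : FP) (c : Λ) (i j : ℕ) : pY σ (pr c i j) = pr c (σ.1 i) (σ.1 j) := by
  apply Subtype.ext
  ext x
  rw [pY_apply, pr_apply, pr_apply]
  simp only [Equiv.eq_symm_apply]

lemma copy_pr (hy : Hyp) (c : Λ) {i j i' j' : ℕ} (h : i ≠ j) (h' : i' ≠ j') :
    IsCopy (pr c i j) (pr c i' j') := by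
  obtain ⟨σ, h1, -⟩ := hy.ext {i, j} (fun x => if x = i then i' else j') (by
    intro x hx y hyy hxy
    simp only [Finset.coe_insert, Finset.coe_singleton, Set.mem_insert_iff,
      Set.mem_singleton_iff] at hx hyy
    rcases hx with rfl | rfl <;> rcases hyy with rfl | rfl
    · rfl
    · simp [Ne.symm h] at hxy
      exact absurd hxy h'
    · simp [Ne.symm h] at hxy
      exact absurd hxy.symm h'
    · rfl)
  refine ⟨σ, ?_⟩
  rw [pY_pr, h1 i (by simp), h1 j (by simp)]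
  simp [Ne.symm h]

lemma neg_pr (c : Λ) (i j : ℕ) : -(pr c i j) = pr c j i := by
  apply Subtype.ext
  ext x
  change (-(pr c i j).1) x = _
  rw [Finsupp.neg_apply, pr_apply, pr_apply]
  ring

lemma add_pr (c : Λ) (i j l : ℕ) : pr c i j + pr c j l = pr c i l := by
  apply Subtype.ext
  ext x
  change ((pr c i j).1 + (pr c j l).1) x = _
  rw [Finsupp.add_apply, pr_apply, pr_apply, pr_apply]
  ring

/-- all `T_{pr c i j}` are equal -/
lemma T_pr (hy : Hyp) {B : Finset ℕ} (c : Λ) {i j i' j' : ℕ} (h : i ≠ j) (h' : i' ≠ j')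
    (hi : i ∉ B) (hj : j ∉ B) (hi' : i' ∉ B) (hj' : j' ∉ B) {x : H} (hx : x ∈ R.HB B) :
    R.PH B (R.U (pr c i j) x) = R.PH B (R.U (pr c i' j') x) :=
  T_copy R hy hx (pr_off hi' hj') (pr_off hi hj) (copy_pr hy c h' h)

lemma exists_off (B : Finset ℕ) : ∃ o, ∀ i, o ≤ i → i ∉ B := by
  refine ⟨B.sup id + 1, fun i hi hB => ?_⟩
  have := Finset.le_sup (f := id) hB
  simp only [id_eq] at this
  omega

/-- `‖Q x‖² ≤ re ⟪x, Q x⟫` -/
lemma Q_ineq (hy : Hyp) {B : Finset ℕ} (c : Λ) {i j : ℕ} (h : i ≠ j) (hi : i ∉ B) (hj : j ∉ B)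
    {x : H} (hx : x ∈ R.HB B) :
    ‖R.PH B (R.U (pr c i j) x)‖ ^ 2 ≤ (⟪x, R.PH B (R.U (pr c i j) x)⟫_ℂ).re := by
  obtain ⟨o, ho⟩ := exists_off B
  set q := R.PH B (R.U (pr c i j) x) with hq
  have h0 : ∀ n : ℕ, R.PH B (R.U (pr c (o + 1 + n) o) x) = q := fun n =>
    T_pr R hy c (by omega) h (ho _ (by omega)) (ho _ le_rfl) hi hj hx
  have h1 : ∀ n m : ℕ, n ≠ m →
      ⟪R.U (pr c (o + 1 + n) o) x, R.U (pr c (o + 1 + m) o) x⟫_ℂ = ⟪x, q⟫_ℂ := by
    intro n m hnm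
    have e : R.U (pr c (o + 1 + m) o) x
        = R.U (pr c (o + 1 + n) o) (R.U (pr c (o + 1 + m) (o + 1 + n)) x) := by
      rw [← R.U_add, add_comm (pr c (o + 1 + n) o), add_pr]
    rw [e, LinearIsometryEquiv.inner_map_map, ← PH_inner_mem R hx, hq,
      T_pr R hy c (i := o + 1 + m) (j := o + 1 + n) (by omega) h (ho _ (by omega))
        (ho _ (by omega)) hi hj hx]
  have h2 : ∀ n : ℕ, ⟪R.U (pr c (o + 1 + n) o) x, R.U (pr c (o + 1 + n) o) x⟫_ℂ = ⟪x, x⟫_ℂ :=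
    fun n => LinearIsometryEquiv.inner_map_map _ _ _
  -- the norm of the sum
  have h3 : ∀ N : ℕ, ‖∑ n ∈ Finset.range N, R.U (pr c (o + 1 + n) o) x‖ ^ 2
      = N * ‖x‖ ^ 2 + (N : ℝ) * ((N : ℝ) - 1) * (⟪x, q⟫_ℂ).re := by
    intro N
    have e1 : ⟪∑ n ∈ Finset.range N, R.U (pr c (o + 1 + n) o) x,
        ∑ n ∈ Finset.range N, R.U (pr c (o + 1 + n) o) x⟫_ℂ
        = ∑ n ∈ Finset.range N, ∑ m ∈ Finset.range N,
          (⟪x, q⟫_ℂ + if n = m then ⟪x, x⟫_ℂ - ⟪x, q⟫_ℂ else 0) := by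
      rw [sum_inner]
      refine Finset.sum_congr rfl fun n _ => ?_
      rw [inner_sum]
      refine Finset.sum_congr rfl fun m _ => ?_
      by_cases hnm : n = m
      · subst hnm
        rw [h2, if_pos rfl]; ring
      · rw [h1 n m hnm, if_neg hnm, add_zero]
    have e2 : ∑ n ∈ Finset.range N, ∑ m ∈ Finset.range N,
          (⟪x, q⟫_ℂ + if n = m then ⟪x, x⟫_ℂ - ⟪x, q⟫_ℂ else 0)
        = (N : ℂ) * (N : ℂ) * ⟪x, q⟫_ℂ + N * (⟪x, x⟫_ℂ - ⟪x, q⟫_ℂ) := by
      simp only [Finset.sum_add_distrib, Finset.sum_const, Finset.card_range, nsmul_eq_mul]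
      have : ∀ n ∈ Finset.range N,
          (∑ m ∈ Finset.range N, if n = m then ⟪x, x⟫_ℂ - ⟪x, q⟫_ℂ else 0)
          = ⟪x, x⟫_ℂ - ⟪x, q⟫_ℂ := by
        intro n hn
        rw [Finset.sum_ite_eq, if_pos hn]
      rw [Finset.sum_congr rfl this]
      simp only [Finset.sum_const, Finset.card_range, nsmul_eq_mul]
      ring
    rw [e2] at e1
    have e3 := congrArg Complex.re e1
    rw [inner_self_eq_norm_sq_to_K, inner_self_eq_norm_sq_to_K] at e3
    have e4 : ((N : ℂ) * (N : ℂ) * ⟪x, q⟫_ℂ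
        + N * (((‖x‖ : ℝ) : ℂ) ^ 2 - ⟪x, q⟫_ℂ)).re
        = N * N * (⟪x, q⟫_ℂ).re + N * (‖x‖ ^ 2 - (⟪x, q⟫_ℂ).re) := by
      have : (N : ℂ) = ((N : ℝ) : ℂ) := by norm_cast
      rw [this, ← Complex.ofReal_pow, ← Complex.ofReal_mul]
      simp only [Complex.add_re, Complex.re_ofReal_mul, Complex.sub_re, Complex.ofReal_re]
    have e5 : ∀ v : H, ((((‖v‖ : ℝ) : ℂ)) ^ 2).re = ‖v‖ ^ 2 := by
      intro v
      rw [← Complex.ofReal_pow, Complex.ofReal_re]
    have e6 := e3.trans e4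
    have e7 := (e5 (∑ n ∈ Finset.range N, R.U (pr c (o + 1 + n) o) x)).symm.trans e6
    rw [e7]; ring
  have h4 : ∀ N : ℕ, (N : ℝ) ^ 2 * ‖q‖ ^ 2
      ≤ N * ‖x‖ ^ 2 + (N : ℝ) * ((N : ℝ) - 1) * (⟪x, q⟫_ℂ).re := by
    intro N
    rw [← h3]
    have e1 : R.PH B (∑ n ∈ Finset.range N, R.U (pr c (o + 1 + n) o) x) = (N : ℂ) • q := by
      rw [map_sum, Finset.sum_congr rfl (fun n _ => h0 n), Finset.sum_const, Finset.card_range,
        Nat.cast_smul_eq_nsmul]
    have e2 := norm_PH_le R B (∑ n ∈ Finset.range N, R.U (pr c (o + 1 + n) o) x)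
    rw [e1, norm_smul, Complex.norm_natCast] at e2
    have e3 : (0 : ℝ) ≤ N * ‖q‖ := by positivity
    calc (N : ℝ) ^ 2 * ‖q‖ ^ 2 = (N * ‖q‖) ^ 2 := by ring
      _ ≤ _ := by gcongr
  by_contra hcon
  push Not at hcon
  set a := ‖q‖ ^ 2
  set d := (⟪x, q⟫_ℂ).re
  obtain ⟨N, hN⟩ := exists_nat_gt ((‖x‖ ^ 2 - d) / (a - d))
  have hpos : 0 < a - d := by linarith
  rw [div_lt_iff₀ hpos] at hN
  have h5 := h4 (N + 1)
  push_cast at h5
  have h6 : ((N : ℝ) + 1) * (((N : ℝ) + 1) * a) ≤ ((N : ℝ) + 1) * (‖x‖ ^ 2 + (N : ℝ) * d) := by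
    nlinarith
  have h7 : ((N : ℝ) + 1) * a ≤ ‖x‖ ^ 2 + (N : ℝ) * d :=
    le_of_mul_le_mul_left h6 (by positivity)
  nlinarith

/-! ## blocks -/

lemma sum_apply {ι : Type} (s : Finset ι) (f : ι → Y Λ) (x : ℕ) :
    (∑ j ∈ s, f j).1 x = ∑ j ∈ s, (f j).1 x := by
  classical
  induction s using Finset.induction_on with
  | empty => simp
  | insert a s ha ih =>
    rw [Finset.sum_insert ha, Finset.sum_insert ha, ← ih]
    rfl

lemma Dblk_apply (p : ℕ) (b : Λ) (o j : ℕ) (hj : j < p) : (Dblk p b o).1 (o + 1 + j) = b := by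
  unfold Dblk
  rw [sum_apply]
  have : ∀ l ∈ Finset.range p, (pr b (o + 1 + l) o).1 (o + 1 + j) = if l = j then b else 0 := by
    intro l _
    rw [pr_apply]
    have h1 : (o + 1 + l = o + 1 + j) ↔ l = j := by omega
    have h2 : ¬ (o = o + 1 + j) := by omega
    simp only [h1, h2, if_false, sub_zero]
  rw [Finset.sum_congr rfl this, Finset.sum_ite_eq', if_pos (Finset.mem_range.2 hj)]

lemma Dblk_supp (hy : Hyp) (p : ℕ) (b : Λ) (o i : ℕ) (h : (Dblk p b o).1 i ≠ 0) :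
    o ≤ i ∧ i < o + (p + 1) := (hy.hh Λ).2.2.2.2.2.2.2.2.2.2.2.1 p b o i h

lemma hh_supp (hy : Hyp) (p : ℕ) (β : ℕ → Λ) (o m i : ℕ) (h : (hh p β o m).1 i ≠ 0) :
    o ≤ i ∧ i < o + (p + 1) * m := (hy.hh Λ).2.2.2.2.2.2.2.2.2.2.2.2.1 p β o m i h

lemma hh_succ (hy : Hyp) (p : ℕ) (β : ℕ → Λ) (o m : ℕ) :
    hh p β o (m + 1) = hh p β o m + Dblk p (β m) (o + (p + 1) * m) :=
  (hy.hh Λ).2.2.2.2.2.2.2.2.2.2.2.2.2 p β o m

lemma hh_copy (hy : Hyp) (p : ℕ) (β : ℕ → Λ) (o m : ℕ) : IsCopy (hh p β 0 m) (hh p β o m) :=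
  (hy.hh Λ).2.2.2.2.2.2.2.2.2.2.1 p β o m

lemma smul_apply' (k : Λ) (y : Y Λ) (x : ℕ) : (k • y).1 x = k * y.1 x := rfl
lemma add_apply' (y y' : Y Λ) (x : ℕ) : (y + y').1 x = y.1 x + y'.1 x := rfl
lemma neg_apply' (y : Y Λ) (x : ℕ) : (-y).1 x = - y.1 x := rfl

/-- `‖T_{kD} x‖ ≤ ‖Q_{kb} x‖` for a block `D` of `b` -/
lemma E_ineq (hy : Hyp) {B : Finset ℕ} (p : ℕ) (hp : 2 ≤ p) (k b : Λ) {i j : ℕ} (h : i ≠ j)
    (hi : i ∉ B) (hj : j ∉ B) (o : ℕ) (ho : ∀ i, o ≤ i → i ∉ B) {x : H} (hx : x ∈ R.HB B) :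
    ‖R.PH B (R.U (k • Dblk p b o) x)‖ ≤ ‖R.PH B (R.U (pr (k * b) i j) x)‖ := by
  set D := Dblk p b o with hD
  obtain ⟨D', ⟨σ, hσ⟩, hoff⟩ := exists_copy hy D (B ∪ D.1.support ∪ Finset.range (o + 3))
  have hDB : Off D B := by
    rw [off_iff]
    intro x hx
    exact ho x (Dblk_supp hy p b o x hx).1
  have hD'B : Off D' B := Off_mono (by
    intro x hx
    simp [hx]) hoff
  have hD'D : Dsj D D' := Dsj_symm (Off_mono (by
    intro x hx
    rw [Finset.mem_union, Finset.mem_union]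
    exact Or.inl (Or.inr hx)) hoff)
  have hD'r : ∀ x, D'.1 x ≠ 0 → o + 3 ≤ x := by
    intro x hx
    have := off_iff.1 hoff x hx
    simp only [Finset.mem_union, Finset.mem_range, not_or, not_lt] at this
    exact this.2
  have hkc : IsCopy (k • D) (k • D') := IsCopy_smul hy k ⟨σ, hσ⟩
  by_cases hb0 : k * b = 0
  · -- then everything is trivial: `pr 0 = 0`
    have e1 : pr (k * b) i j = 0 := by
      apply Subtype.ext
      ext x
      rw [pr_apply, hb0]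
      simp
    rw [e1, R.U_zero, PH_of_mem R hx]
    exact norm_T_le R B _ x
  have hbne : b ≠ 0 := by
    rintro rfl
    exact hb0 (mul_zero k)
  have c1 : D.1 (o + 1) = b := Dblk_apply p b o 0 (by omega)
  have c2 : D.1 (o + 2) = b := Dblk_apply p b o 1 (by omega)
  have s1 : D'.1 (σ.1 (o + 1)) = b := by
    rw [hσ, pY_apply, Equiv.symm_apply_apply, c1]
  have s2 : D'.1 (σ.1 (o + 2)) = b := by
    rw [hσ, pY_apply, Equiv.symm_apply_apply, c2]
  set a1 := σ.1 (o + 1) with ha1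
  set a2 := σ.1 (o + 2) with ha2
  have a12 : a1 ≠ a2 := by
    intro e
    have := σ.1.injective e
    omega
  have g1 : o + 3 ≤ a1 := hD'r a1 (by rw [s1]; exact hbne)
  have g2 : o + 3 ≤ a2 := hD'r a2 (by rw [s2]; exact hbne)
  have z1 : D'.1 (o + 1) = 0 := by
    by_contra h; have := hD'r _ h; omega
  have z2 : D'.1 (o + 2) = 0 := by
    by_contra h; have := hD'r _ h; omega
  have w1 : D.1 a1 = 0 := dsj_iff.1 (Dsj_symm hD'D) a1 (by rw [s1]; exact hbne)
  have w2 : D.1 a2 = 0 := dsj_iff.1 (Dsj_symm hD'D) a2 (by rw [s2]; exact hbne)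
  set v1 := pr (k * b) a1 (o + 1) with hv1
  set v2 := pr (k * b) a2 (o + 2) with hv2
  set r := (k • D' + -(k • D)) + -v1 + -v2 with hr
  have r1 : r.1 a1 = 0 := by
    rw [hr, add_apply', add_apply', add_apply', neg_apply', neg_apply', neg_apply', smul_apply',
      smul_apply', hv1, hv2, pr_apply, pr_apply, s1, w1]
    have h1 : ¬ (o + 1 = a1) := by omega
    have h2 : ¬ (a2 = a1) := fun e => a12 e.symm
    have h3 : ¬ (o + 2 = a1) := by omega
    simp only [h1, h2, h3, if_true, if_false]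
    ring
  have r2 : r.1 (o + 1) = 0 := by
    rw [hr, add_apply', add_apply', add_apply', neg_apply', neg_apply', neg_apply', smul_apply',
      smul_apply', hv1, hv2, pr_apply, pr_apply, c1, z1]
    have h1 : ¬ (a1 = o + 1) := by omega
    have h2 : ¬ (a2 = o + 1) := by omega
    have h3 : ¬ (o + 2 = o + 1) := by omega
    simp only [h1, h2, h3, if_true, if_false]
    ring
  have r3 : r.1 a2 = 0 := by
    rw [hr, add_apply', add_apply', add_apply', neg_apply', neg_apply', neg_apply', smul_apply',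
      smul_apply', hv1, hv2, pr_apply, pr_apply, s2, w2]
    have h1 : ¬ (o + 1 = a2) := by omega
    have h3 : ¬ (o + 2 = a2) := by omega
    simp only [h1, a12, h3, if_true, if_false]
    ring
  have r4 : r.1 (o + 2) = 0 := by
    rw [hr, add_apply', add_apply', add_apply', neg_apply', neg_apply', neg_apply', smul_apply',
      smul_apply', hv1, hv2, pr_apply, pr_apply, c2, z2]
    have h1 : ¬ (a1 = o + 2) := by omega
    have h2 : ¬ (a2 = o + 2) := by omega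
    have h3 : ¬ (o + 1 = o + 2) := by omega
    simp only [h1, h2, h3, if_true, if_false]
    ring
  have hv1s : ∀ x, v1.1 x ≠ 0 → x = a1 ∨ x = o + 1 := by
    intro x hx
    by_contra hcon
    push Not at hcon
    apply hx
    rw [hv1, pr_apply, if_neg (Ne.symm hcon.1), if_neg (Ne.symm hcon.2), sub_zero]
  have hv2s : ∀ x, v2.1 x ≠ 0 → x = a2 ∨ x = o + 2 := by
    intro x hx
    by_contra hcon
    push Not at hcon
    apply hx
    rw [hv2, pr_apply, if_neg (Ne.symm hcon.1), if_neg (Ne.symm hcon.2), sub_zero]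
  have d1 : Dsj v1 (r + v2) := by
    rw [dsj_iff]
    intro x hx
    rw [add_apply']
    rcases hv1s x hx with rfl | rfl
    · rw [r1, hv2, pr_apply, if_neg (fun e => a12 e.symm), if_neg (by omega)]; simp
    · rw [r2, hv2, pr_apply, if_neg (by omega), if_neg (by omega)]; simp
  have d2 : Dsj r v2 := by
    apply Dsj_symm
    rw [dsj_iff]
    intro x hx
    rcases hv2s x hx with rfl | rfl
    · exact r3
    · exact r4
  have b1 : Off v1 B := pr_off (ho _ (by omega)) (ho _ (by omega))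
  have b2 : Off v2 B := pr_off (ho _ (by omega)) (ho _ (by omega))
  have b3 : Off r B := by
    rw [off_iff]
    intro x hx hxB
    apply hx
    have e1 := off_iff.1 hDB
    have e2 := off_iff.1 hD'B
    have e3 := off_iff.1 b1
    have e4 := off_iff.1 b2
    have f1 : D.1 x = 0 := by by_contra h; exact e1 x h hxB
    have f2 : D'.1 x = 0 := by by_contra h; exact e2 x h hxB
    have f3 : v1.1 x = 0 := by by_contra h; exact e3 x h hxB
    have f4 : v2.1 x = 0 := by by_contra h; exact e4 x h hxB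
    rw [hr, add_apply', add_apply', add_apply', neg_apply', neg_apply', neg_apply', smul_apply',
      smul_apply', f1, f2, f3, f4]
    simp
  have b4 : Off (r + v2) B := by
    rw [off_iff]
    intro x hx hxB
    apply hx
    have f3 : r.1 x = 0 := by by_contra h; exact off_iff.1 b3 x h hxB
    have f4 : v2.1 x = 0 := by by_contra h; exact off_iff.1 b2 x h hxB
    rw [add_apply', f3, f4, add_zero]
  have hsum : k • D' + -(k • D) = v1 + (r + v2) := by
    apply Subtype.ext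
    ext x
    rw [add_apply', add_apply', add_apply', hr, add_apply', add_apply', add_apply', neg_apply',
      neg_apply', neg_apply']
    ring
  have hkey : ⟪R.PH B (R.U (k • D) x), R.PH B (R.U (k • D') x)⟫_ℂ
      = ⟪R.PH B (R.U (-v1) x), R.PH B (R.U r (R.PH B (R.U v2 x)))⟫_ℂ := by
    rw [inner_T_T R hy hx hx (Dsj_smul k k hD'D), hsum, T_add R hy hx b1 b4 d1,
      T_add R hy hx b3 b2 d2, T_adj R v1 hx (PH_mem R B _)]
  rw [T_copy R hy hx (Off_smul k hDB) (Off_smul k hD'B) hkc, inner_self_eq_norm_sq_to_K] at hkey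
  have q1 : R.PH B (R.U (-v1) x) = R.PH B (R.U (pr (k * b) i j) x) := by
    rw [hv1, neg_pr]
    exact T_pr R hy _ (by omega) h (ho _ (by omega)) (ho _ (by omega)) hi hj hx
  have q2 : R.PH B (R.U v2 x) = R.PH B (R.U (pr (k * b) i j) x) :=
    T_pr R hy _ (by omega) h (ho _ (by omega)) (ho _ (by omega)) hi hj hx
  rw [q1, q2] at hkey
  set q := R.PH B (R.U (pr (k * b) i j) x)
  have n1 := congrArg norm hkey
  rw [norm_pow] at n1
  have n2 : ‖(((‖R.PH B (R.U (k • D) x)‖ : ℝ) : ℂ))‖ = ‖R.PH B (R.U (k • D) x)‖ := by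
    rw [Complex.norm_real, Real.norm_of_nonneg (norm_nonneg _)]
  have n3 : ‖⟪q, R.PH B (R.U r q)⟫_ℂ‖ ≤ ‖q‖ * ‖q‖ :=
    (norm_inner_le_norm _ _).trans (mul_le_mul_of_nonneg_left (norm_T_le R B r q) (norm_nonneg _))
  have n4 : ‖R.PH B (R.U (k • D) x)‖ ^ 2 ≤ ‖q‖ ^ 2 := by
    rw [← n2]
    refine (le_of_eq n1).trans (n3.trans (le_of_eq (by ring)))
  exact le_of_sq_le_sq n4 (norm_nonneg _)

/-! ## iterates of `Q` -/

/-- the operator `T_{pr c i j}` as a linear map -/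
noncomputable def Qop (B : Finset ℕ) (c : Λ) (i j : ℕ) : H →ₗ[ℂ] H :=
  (R.PH B).toLinearMap ∘ₗ (R.U (pr c i j)).toLinearEquiv.toLinearMap

lemma Qop_apply (B : Finset ℕ) (c : Λ) (i j : ℕ) (x : H) :
    Qop R B c i j x = R.PH B (R.U (pr c i j) x) := rfl

/-- number of `l < m` with `β l = b` -/
noncomputable def cnt (β : ℕ → Λ) (b : Λ) (m : ℕ) : ℕ := by
  classical exact ((Finset.range m).filter (fun l => β l = b)).card

lemma cnt_succ_of_eq (β : ℕ → Λ) (b : Λ) (m : ℕ) (h : β m = b) :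
    cnt β b (m + 1) = cnt β b m + 1 := by
  classical
  unfold cnt
  rw [Finset.range_add_one, Finset.filter_insert, if_pos h, Finset.card_insert_of_notMem]
  simp

lemma cnt_succ_of_ne (β : ℕ → Λ) (b : Λ) (m : ℕ) (h : β m ≠ b) :
    cnt β b (m + 1) = cnt β b m := by
  classical
  unfold cnt
  rw [Finset.range_add_one, Finset.filter_insert, if_neg h]

lemma cnt_mono (β : ℕ → Λ) (b : Λ) : Monotone (cnt β b) := by
  refine monotone_nat_of_le_succ fun m => ?_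
  by_cases h : β m = b
  · rw [cnt_succ_of_eq β b m h]; omega
  · rw [cnt_succ_of_ne β b m h]

lemma cnt_tendsto {p : ℕ} {ρ : Λ →+* ZMod p} {β : ℕ → Λ} (hE : Exh ρ β) {b : Λ} (hb : ρ b = 1)
    (N : ℕ) : ∃ M, ∀ m ≥ M, N ≤ cnt β b m := by
  induction N with
  | zero => exact ⟨0, fun _ _ => Nat.zero_le _⟩
  | succ N ih =>
    obtain ⟨M, hM⟩ := ih
    obtain ⟨l, hl, hlb⟩ := hE.2 b hb M
    refine ⟨l + 1, fun m hm => ?_⟩
    have h1 := hM l hl
    have h2 := cnt_mono β b hm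
    rw [cnt_succ_of_eq β b l hlb] at h2
    omega

/-- `‖T_{k h^{(m)}} x‖ ≤ ‖Q_{kb}^n x‖`, `n` the number of `l < m` with `β l = b` -/
lemma prod_ineq (hy : Hyp) {B : Finset ℕ} (p : ℕ) (hp : 2 ≤ p) (β : ℕ → Λ) (k b : Λ) {i j : ℕ}
    (h : i ≠ j) (hi : i ∉ B) (hj : j ∉ B) (o : ℕ) (ho : ∀ i, o ≤ i → i ∉ B) (m : ℕ) :
    ∀ x ∈ R.HB B, ‖R.PH B (R.U (k • hh p β o m) x)‖
      ≤ ‖(Qop R B (k * b) i j)^[cnt β b m] x‖ := by
  induction m with
  | zero =>
    intro x hx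
    have e0 : cnt β b 0 = 0 := by
      classical
      unfold cnt
      simp
    rw [e0]
    exact norm_T_le R B _ x
  | succ m ih =>
    intro x hx
    have hoffh : Off (hh p β o m) B := by
      rw [off_iff]
      intro y hy'
      exact ho y (hh_supp hy p β o m y hy').1
    have hoffD : Off (Dblk p (β m) (o + (p + 1) * m)) B := by
      rw [off_iff]
      intro y hy'
      have := (Dblk_supp hy p _ _ y hy').1
      exact ho y (by omega)
    have hd : Dsj (hh p β o m) (Dblk p (β m) (o + (p + 1) * m)) := by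
      rw [dsj_iff]
      intro y hy'
      have h1 := (hh_supp hy p β o m y hy').2
      by_contra h2
      have h3 := (Dblk_supp hy p _ _ y h2).1
      omega
    have e1 : R.PH B (R.U (k • hh p β o (m + 1)) x)
        = R.PH B (R.U (k • Dblk p (β m) (o + (p + 1) * m))
          (R.PH B (R.U (k • hh p β o m) x))) := by
      rw [hh_succ hy, smul_add, T_add R hy hx (Off_smul k hoffh) (Off_smul k hoffD)
        (Dsj_smul k k hd), T_comm R hy hx (Off_smul k hoffh) (Off_smul k hoffD)]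
    rw [e1]
    by_cases hb : β m = b
    · rw [cnt_succ_of_eq β b m hb, Function.iterate_succ_apply]
      refine (E_ineq R hy p hp k (β m) h hi hj (o + (p + 1) * m) (fun i hi => ho i (by omega))
        (PH_mem R B _)).trans ?_
      rw [hb, T_comm R hy hx (pr_off hi hj) (Off_smul k hoffh)]
      exact ih _ (PH_mem R B _)
    · rw [cnt_succ_of_ne β b m hb]
      exact (norm_T_le R B _ _).trans (ih x hx)

/-- `(n+1) ‖Q^n (w - Q w)‖² ≤ ‖w‖²` -/
lemma Q_iter (Q : H →ₗ[ℂ] H) (K : Submodule ℂ H) (hK : ∀ x ∈ K, Q x ∈ K)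
    (hQ : ∀ x ∈ K, ‖Q x‖ ^ 2 ≤ (⟪x, Q x⟫_ℂ).re) (hc : ∀ x ∈ K, ‖Q x‖ ≤ ‖x‖) {w : H}
    (hw : w ∈ K) (n : ℕ) : ((n : ℝ) + 1) * ‖Q^[n] (w - Q w)‖ ^ 2 ≤ ‖w‖ ^ 2 := by
  have hmem : ∀ n x, x ∈ K → Q^[n] x ∈ K := by
    intro n
    induction n with
    | zero => intro x hx; exact hx
    | succ n ih =>
      intro x hx
      rw [Function.iterate_succ_apply']
      exact hK _ (ih x hx)
  have hsub : ∀ n, Q^[n] (w - Q w) = Q^[n] w - Q^[n + 1] w := by
    intro n
    rw [Function.iterate_succ_apply]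
    induction n with
    | zero => rfl
    | succ n ih =>
      rw [Function.iterate_succ_apply', Function.iterate_succ_apply', Function.iterate_succ_apply',
        ih, map_sub]
  have h1 : ∀ n, ‖Q^[n] (w - Q w)‖ ^ 2 ≤ ‖Q^[n] w‖ ^ 2 - ‖Q^[n + 1] w‖ ^ 2 := by
    intro n
    rw [hsub, @norm_sub_sq ℂ]
    have h2 := hQ _ (hmem n w hw)
    rw [← Function.iterate_succ_apply' (f := Q)] at h2
    simp only [RCLike.re_to_complex]
    linarith
  have h2 : ∀ n, ‖Q^[n + 1] (w - Q w)‖ ^ 2 ≤ ‖Q^[n] (w - Q w)‖ ^ 2 := by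
    intro n
    have := hc _ (hmem n (w - Q w) (K.sub_mem hw (hK w hw)))
    rw [Function.iterate_succ_apply']
    gcongr
  have h3 : ∀ n : ℕ, ((n : ℝ) + 1) * ‖Q^[n] (w - Q w)‖ ^ 2 ≤ ‖w‖ ^ 2 - ‖Q^[n + 1] w‖ ^ 2 := by
    intro n
    induction n with
    | zero =>
      have := h1 0
      simp only [Function.iterate_zero, id_eq, zero_add, Nat.cast_zero, one_mul] at this ⊢
      exact this
    | succ n ih =>
      have e1 := h1 (n + 1)
      have e2 := h2 n
      push_cast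
      have e3 : ((n : ℝ) + 1) * ‖Q^[n + 1] (w - Q w)‖ ^ 2
          ≤ ((n : ℝ) + 1) * ‖Q^[n] (w - Q w)‖ ^ 2 := by gcongr
      linarith
  have := h3 n
  have e : (0 : ℝ) ≤ ‖Q^[n + 1] w‖ ^ 2 := by positivity
  linarith

/-! ## vectors fixed by all `Q_{kb}` -/

/-- `Q_c z = z` implies that all `U_{pr c i j}` fix `z` -/
lemma fix_of_Q (hy : Hyp) {B : Finset ℕ} (c : Λ) {i j i' j' : ℕ} (h : i ≠ j) (h' : i' ≠ j')
    (hi : i ∉ B) (hj : j ∉ B) (hi' : i' ∉ B) (hj' : j' ∉ B) {z : H} (hz : z ∈ R.HB B)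
    (hq : R.PH B (R.U (pr c i j) z) = z) : R.U (pr c i' j') z = z := by
  have h1 : R.PH B (R.U (pr c i' j') z) = z := by
    rw [T_pr R hy c h' h hi' hj' hi hj hz, hq]
  have h2 : ‖R.U (pr c i' j') z - z‖ ^ 2 = 0 := by
    have e1 : ⟪R.U (pr c i' j') z, z⟫_ℂ = ⟪z, z⟫_ℂ := by
      rw [← PH_inner_mem' R hz, h1]
    rw [@norm_sub_sq ℂ, e1, LinearIsometryEquiv.norm_map, inner_self_eq_norm_sq]
    ring
  have h3 : ‖R.U (pr c i' j') z - z‖ = 0 := by
    simpa using h2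
  exact sub_eq_zero.1 (norm_eq_zero.1 h3)

lemma pr_zero (i j : ℕ) : (pr (0 : Λ) i j) = 0 := by
  apply Subtype.ext
  ext x
  rw [pr_apply]
  simp

lemma pr_add (a b : Λ) (i j : ℕ) : pr (a + b) i j = pr a i j + pr b i j := by
  apply Subtype.ext
  ext x
  rw [add_apply', pr_apply, pr_apply, pr_apply]
  split_ifs <;> ring

lemma pr_neg (a : Λ) (i j : ℕ) : pr (-a) i j = -pr a i j := by
  apply Subtype.ext
  ext x
  rw [neg_apply', pr_apply, pr_apply]
  split_ifs <;> ring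

/-- the additive subgroup of the `λ` with `U_{λ(e_i - e_j)} z = z` for all `i ≠ j` off `B` -/
def Sgrp (B : Finset ℕ) (z : H) : AddSubgroup Λ where
  carrier := {c | ∀ i j, i ∉ B → j ∉ B → i ≠ j → R.U (pr c i j) z = z}
  zero_mem' := by
    intro i j _ _ _
    rw [pr_zero, R.U_zero]
  add_mem' := by
    intro a b ha hb i j hi hj hij
    rw [pr_add, R.U_add, hb i j hi hj hij, ha i j hi hj hij]
  neg_mem' := by
    intro a ha i j hi hj hij
    have h := ha i j hi hj hij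
    rw [pr_neg]
    conv_lhs => rw [← h]
    exact U_neg_left R _ z

/-- if `z` is fixed by `U_{kb(e_i - e_j)}` for all `b` with `ρ b = 1` then `z ∈ RB B` -/
lemma mem_RB {p : ℕ} [Fact p.Prime] (ρ : Λ →+* ZMod p) {B : Finset ℕ} {k : Λ}
    (hk : IsUnit k) {z : H} (hz : z ∈ R.HB B)
    (hf : ∀ b : Λ, ρ b = 1 → k * b ∈ Sgrp R B z) : z ∈ R.RB B := by
  have hall : ∀ c : Λ, c ∈ Sgrp R B z := by
    intro c
    obtain ⟨u, rfl⟩ := hk
    set μ : Λ := ↑u⁻¹ * c with hμ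
    have hc : c = u * μ := by rw [hμ, Units.mul_inv_cancel_left]
    set n : ℕ := (ρ μ).val with hn
    set κ : Λ := μ - n with hκ
    have hκ0 : ρ κ = 0 := by
      rw [hκ, map_sub, map_natCast, hn, ZMod.natCast_zmod_val, sub_self]
    have e : c = n • ((u : Λ) * 1) + ((u : Λ) * (1 + κ) - (u : Λ) * 1) := by
      rw [hc, hκ, nsmul_eq_mul]
      ring
    rw [e]
    refine AddSubgroup.add_mem _ (AddSubgroup.nsmul_mem _ (hf 1 (map_one ρ)) n)
      (AddSubgroup.sub_mem _ (hf _ ?_) (hf 1 (map_one ρ)))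
    rw [map_add, map_one, hκ0, add_zero]
  refine ⟨hz, fun y hyB => ?_⟩
  obtain ⟨o, ho⟩ := exists_off B
  -- `y` is a sum of pairs
  have hsum : y = ∑ i ∈ y.1.support, pr (y.1 i) i o := by
    apply Subtype.ext
    ext x
    rw [sum_apply]
    simp only [pr_apply]
    rw [Finset.sum_sub_distrib]
    have e1 : ∑ i ∈ y.1.support, (if i = x then y.1 i else 0) = y.1 x := by
      rw [Finset.sum_ite_eq']
      split_ifs with h
      · rfl
      · rw [Finsupp.notMem_support_iff] at h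
        exact h.symm
    have e2 : ∑ i ∈ y.1.support, (if o = x then y.1 i else 0) = 0 := by
      by_cases h : o = x
      · simp only [h, if_true]
        have h0 : sumMap Λ y.1 = 0 := y.2
        rw [sumMap, Finsupp.linearCombination_apply, Finsupp.sum] at h0
        simpa using h0
      · simp [h]
    rw [e1, e2, sub_zero]
  have hind : ∀ s : Finset ℕ, s ⊆ y.1.support →
      R.U (∑ i ∈ s, pr (y.1 i) i o) z = z := by
    intro s
    induction s using Finset.induction_on with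
    | empty => intro _; rw [Finset.sum_empty, R.U_zero]
    | insert a s ha ih =>
      intro hs
      rw [Finset.sum_insert ha, R.U_add, ih (fun x hx => hs (Finset.mem_insert_of_mem hx))]
      by_cases hao : a = o
      · have : pr (y.1 a) a o = 0 := by
          apply Subtype.ext
          ext x
          rw [pr_apply, hao]
          simp
        rw [this, R.U_zero]
      · refine hall _ a o ?_ (ho o le_rfl) hao
        exact off_iff.1 hyB a (Finsupp.mem_support_iff.1 (hs (Finset.mem_insert_self a s)))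
  rw [hsum]
  exact hind _ subset_rfl

/-! ## the limit -/

/-- vectors of `HB B` killed in the limit -/
def Zsub (p : ℕ) (β : ℕ → Λ) (k : Λ) (o : ℕ) (B : Finset ℕ) : Submodule ℂ H where
  carrier := {z | z ∈ R.HB B ∧
    Tendsto (fun m => R.PH B (R.U (k • hh p β o m) z)) atTop (𝓝 0)}
  add_mem' := by
    intro a b ha hb
    refine ⟨Submodule.add_mem _ ha.1 hb.1, ?_⟩
    have := ha.2.add hb.2
    simp only [add_zero] at this
    refine this.congr fun m => ?_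
    rw [map_add, map_add]
  zero_mem' := by
    refine ⟨Submodule.zero_mem _, ?_⟩
    simp
  smul_mem' := by
    intro c a ha
    refine ⟨Submodule.smul_mem _ c ha.1, ?_⟩
    have := ha.2.const_smul c
    rw [smul_zero] at this
    refine this.congr fun m => ?_
    rw [map_smul, map_smul]

lemma isClosed_Zsub (p : ℕ) (β : ℕ → Λ) (k : Λ) (o : ℕ) (B : Finset ℕ) :
    IsClosed (Zsub R p β k o B : Set H) := by
  refine isClosed_of_closure_subset fun z hz => ?_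
  refine ⟨?_, ?_⟩
  · have h1 : (Zsub R p β k o B : Set H) ⊆ R.HB B := fun x hx => hx.1
    exact (R.isClosed_HB B).closure_subset_iff.2 h1 hz
  · rw [Metric.tendsto_atTop]
    intro ε hε
    rw [Metric.mem_closure_iff] at hz
    obtain ⟨z1, hz1, hd⟩ := hz (ε / 2) (by positivity)
    have h2 := hz1.2
    rw [Metric.tendsto_atTop] at h2
    obtain ⟨M, hM⟩ := h2 (ε / 2) (by positivity)
    refine ⟨M, fun m hm => ?_⟩
    have h3 := hM m hm
    rw [dist_zero_right] at h3 ⊢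
    have e : R.PH B (R.U (k • hh p β o m) z) = R.PH B (R.U (k • hh p β o m) (z - z1))
        + R.PH B (R.U (k • hh p β o m) z1) := by
      rw [← map_add, ← map_add, sub_add_cancel]
    rw [e]
    refine (norm_add_le _ _).trans_lt ?_
    have h4 := norm_T_le R B (k • hh p β o m) (z - z1)
    rw [dist_eq_norm] at hd
    linarith

/-- `(1 - Q_{kb}) w` is killed in the limit -/
lemma sub_Q_mem (hy : Hyp) {B : Finset ℕ} (p : ℕ) (hp : 2 ≤ p) {ρ : Λ →+* ZMod p} {β : ℕ → Λ}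
    (hE : Exh ρ β) (k : Λ) {b : Λ} (hb : ρ b = 1) {i j : ℕ}
    (h : i ≠ j) (hi : i ∉ B) (hj : j ∉ B) (o : ℕ) (ho : ∀ i, o ≤ i → i ∉ B) {w : H}
    (hw : w ∈ R.HB B) : w - Qop R B (k * b) i j w ∈ Zsub R p β k o B := by
  set Q := Qop R B (k * b) i j with hQ
  have hmem : w - Q w ∈ R.HB B := Submodule.sub_mem _ hw (PH_mem R B _)
  refine ⟨hmem, ?_⟩
  rw [Metric.tendsto_atTop]
  intro ε hε
  obtain ⟨N, hN⟩ := exists_nat_gt (‖w‖ ^ 2 / ε ^ 2)
  obtain ⟨M, hM⟩ := cnt_tendsto hE hb N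
  refine ⟨M, fun m hm => ?_⟩
  rw [dist_zero_right]
  refine (prod_ineq R hy p hp β k b h hi hj o ho m _ hmem).trans_lt ?_
  rw [← hQ]
  have h1 := Q_iter Q (R.HB B) (fun x _ => PH_mem R B _)
    (fun x hx => Q_ineq R hy (k * b) h hi hj hx) (fun x _ => norm_T_le R B _ x) hw (cnt β b m)
  have h2 : (N : ℝ) ≤ cnt β b m := by exact_mod_cast hM m hm
  rw [div_lt_iff₀ (by positivity)] at hN
  by_contra hcon
  push Not at hcon
  have h3 : ε ^ 2 ≤ ‖Q^[cnt β b m] (w - Q w)‖ ^ 2 := by gcongr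
  have h4 : (N : ℝ) * ε ^ 2 ≤ ((cnt β b m : ℝ) + 1) * ‖Q^[cnt β b m] (w - Q w)‖ ^ 2 := by
    have : (N : ℝ) ≤ (cnt β b m : ℝ) + 1 := by linarith
    gcongr
  linarith

/-- the vectors killed in the limit are orthogonal to `RB B` -/
lemma Zsub_orth (hy : Hyp) {p : ℕ} {β : ℕ → Λ} {k : Λ} {o : ℕ} {B : Finset ℕ}
    (ho : ∀ i, o ≤ i → i ∉ B) {z r : H} (hz : z ∈ Zsub R p β k o B) (hr : r ∈ R.RB B) :
    ⟪r, z⟫_ℂ = 0 := by
  have h1 : ∀ m, ⟪r, R.PH B (R.U (k • hh p β o m) z)⟫_ℂ = ⟪r, z⟫_ℂ := by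
    intro m
    have hoff : Off (k • hh p β o m) B := by
      apply Off_smul
      rw [off_iff]
      intro y hy'
      exact ho y (hh_supp hy p β o m y hy').1
    rw [PH_inner_mem R hr.1, U_adj, hr.2 _ (Off_neg hoff)]
  have h2 : Tendsto (fun m => ⟪r, R.PH B (R.U (k • hh p β o m) z)⟫_ℂ) atTop (𝓝 ⟪r, (0 : H)⟫_ℂ) :=
    tendsto_const_nhds.inner hz.2
  rw [inner_zero_right] at h2
  simp only [h1] at h2
  exact tendsto_nhds_unique tendsto_const_nhds h2

/-- the orthogonal complement of `RB B` in `HB B` is killed in the limit -/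
lemma mem_Zsub (hy : Hyp) {p : ℕ} [hp : Fact p.Prime] {ρ : Λ →+* ZMod p} {β : ℕ → Λ}
    (hE : Exh ρ β) {k : Λ} (hk : IsUnit k) {o : ℕ} {B : Finset ℕ}
    (ho : ∀ i, o ≤ i → i ∉ B) {z : H} (hz : z ∈ R.HB B) (horth : ∀ r ∈ R.RB B, ⟪r, z⟫_ℂ = 0) :
    z ∈ Zsub R p β k o B := by
  have hcompl : CompleteSpace (Zsub R p β k o B) := (isClosed_Zsub R p β k o B).completeSpace_coe
  set Z := Zsub R p β k o B with hZ
  set z1 := Z.starProjection z with hz1
  have hz1m : z1 ∈ Z := Submodule.starProjection_apply_mem _ _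
  set z2 := z - z1 with hz2
  have hz2H : z2 ∈ R.HB B := Submodule.sub_mem _ hz hz1m.1
  have hz2o : ∀ v ∈ Z, ⟪z2, v⟫_ℂ = 0 := fun v hv => Submodule.starProjection_inner_eq_zero z v hv
  have hoi : o ∉ B := ho o le_rfl
  have hoj : o + 1 ∉ B := ho (o + 1) (by omega)
  have hR : z2 ∈ R.RB B := by
    refine mem_RB R ρ hk hz2H ?_
    intro b hb i j hi hj hij
    have h1 : z2 - Qop R B (k * b) i j z2 ∈ R.HB B :=
      Submodule.sub_mem _ hz2H (PH_mem R B _)
    have h2 : (z2 - Qop R B (k * b) i j z2) - Qop R B (k * b) i j (z2 - Qop R B (k * b) i j z2)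
        ∈ Z := sub_Q_mem R hy p hp.out.two_le hE k hb hij hi hj o ho h1
    have h3 := hz2o _ h2
    set v := z2 - Qop R B (k * b) i j z2 with hv
    -- self-adjointness
    have hsa : ∀ x y : H, x ∈ R.HB B → y ∈ R.HB B →
        ⟪x, Qop R B (k * b) i j y⟫_ℂ = ⟪Qop R B (k * b) i j x, y⟫_ℂ := by
      intro x y hx hyy
      rw [Qop_apply, Qop_apply, T_adj R _ hx hyy, neg_pr,
        T_pr R hy (k * b) hij.symm hij hj hi hi hj hx]
    have h4 : ⟪v, v⟫_ℂ = 0 := by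
      rw [inner_sub_right, hsa _ _ hz2H h1, ← inner_sub_left] at h3
      exact h3
    have h5 : v = 0 := inner_self_eq_zero.1 h4
    have h6 : R.PH B (R.U (pr (k * b) i j) z2) = z2 := (sub_eq_zero.1 h5).symm
    exact fix_of_Q R hy (k * b) hij hij hi hj hi hj hz2H h6
  have h7 : z2 = 0 := by
    apply inner_self_eq_zero (𝕜 := ℂ).1
    have e1 : ⟪z2, z⟫_ℂ = 0 := horth z2 hR
    have e2 : ⟪z2, z1⟫_ℂ = 0 := hz2o z1 hz1m
    rw [← sub_eq_zero.2 (e1.trans e2.symm), ← inner_sub_right]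
  have h8 : z = z1 := sub_eq_zero.1 h7
  rw [h8]
  exact hz1m

end HIL2

open HIL2 in
/-- target `T_PRlim` -/
theorem PRlim (h1 : T_perm_extend) (h2 : T_copies) (h3 : T_hh) (h4 : T_basic)
    (h5 : T_indep) (h6 : T_mult) : T_PRlim := by
  intro Λ _ H _ _ _ R p _ ρ β k B z ε hE hk hz hε
  have hy : Hyp := ⟨h1, h2, h3, h4, h5, h6⟩
  obtain ⟨o, ho⟩ := exists_off B
  have hPR : R.PR B z ∈ R.RB B := PR_mem R B z
  have horth : ∀ r ∈ R.RB B, ⟪r, z - R.PR B z⟫_ℂ = 0 := by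
    intro r hr
    have : ⟪z - R.PR B z, r⟫_ℂ = 0 := Submodule.starProjection_inner_eq_zero z r hr
    rw [← inner_conj_symm, this, map_zero]
  have hm : z - R.PR B z ∈ R.HB B := Submodule.sub_mem _ hz hPR.1
  have hZ := mem_Zsub R hy hE hk ho hm horth
  have ht := hZ.2
  rw [Metric.tendsto_atTop] at ht
  obtain ⟨M, hM⟩ := ht ε hε
  refine ⟨M, fun m hmM y' hcopy hoff => ?_⟩
  have h7 := hM m hmM
  rw [dist_zero_right] at h7
  have hoffh : Off (k • hh p β o m) B := by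
    apply Off_smul
    rw [off_iff]
    intro y hy'
    exact ho y (hh_supp hy p β o m y hy').1
  have hc : IsCopy (k • hh p β o m) (k • y') :=
    IsCopy_smul hy k (IsCopy_trans hy (IsCopy_symm hy (hh_copy hy p β o m)) hcopy)
  have e1 : R.PH B (R.U (k • y') (z - R.PR B z))
      = R.PH B (R.U (k • hh p β o m) (z - R.PR B z)) :=
    T_copy R hy hm hoffh (Off_smul k hoff) hc
  have e2 : R.PH B (R.U (k • y') z) - R.PR B z = R.PH B (R.U (k • y') (z - R.PR B z)) := by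
    rw [map_sub, map_sub, hPR.2 _ (Off_smul k hoff), PH_of_mem R hPR.1]
  rw [e2, e1]
  exact h7.le

open HIL2 in
/-- target `T_bblim` -/
theorem bblim (h1 : T_perm_extend) (h2 : T_copies) (h3 : T_hh) (h4 : T_basic)
    (h5 : T_indep) (h6 : T_mult) : T_bblim := by
  intro Λ _ H _ _ _ R p _ ρ β k B x y ε hE hk hx hyB hε
  have hy : Hyp := ⟨h1, h2, h3, h4, h5, h6⟩
  have hlim := PRlim h1 h2 h3 h4 h5 h6
  set δ : ℝ := ε / (‖x‖ + ‖y‖ + 1) with hδ
  have hδ0 : 0 < δ := by positivity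
  obtain ⟨M1, hM1⟩ := hlim Λ H R p ρ β k B x δ hE hk hx hδ0
  obtain ⟨M2, hM2⟩ := hlim Λ H R p ρ β k B y δ hE hk hyB hδ0
  refine ⟨max M1 M2, fun m hm g g' hg hg' hgB hg'B hd => ?_⟩
  have a1 := hM1 m (le_trans (le_max_left _ _) hm) g' hg' hg'B
  have a2 := hM2 m (le_trans (le_max_right _ _) hm) g hg hgB
  have e1 : ⟪y, R.U (k • (g' - g)) x⟫_ℂ
      = ⟪R.PH B (R.U (k • g) y), R.PH B (R.U (k • g') x)⟫_ℂ := by
    have e0 : k • (g' - g) = -(k • g) + k • g' := by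
      apply Subtype.ext
      ext x
      rw [add_apply', neg_apply', smul_apply', smul_apply', smul_apply']
      change k * (g'.1 x - g.1 x) = _
      ring
    have e3 : - -(k • g) = k • g := neg_neg (k • g)
    rw [← inner_disj R hy hx hyB (Dsj_smul k k hd), e0, R.U_add, U_adj R (-(k • g)), e3]
  rw [e1]
  set a := R.PH B (R.U (k • g) y)
  set a' := R.PR B y
  set b := R.PH B (R.U (k • g') x)
  set b' := R.PR B x
  have e2 : ⟪a, b⟫_ℂ - ⟪a', b'⟫_ℂ = ⟪a - a', b⟫_ℂ + ⟪a', b - b'⟫_ℂ := by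
    rw [inner_sub_left, inner_sub_right]; ring
  rw [e2]
  have n1 : ‖b‖ ≤ ‖x‖ := norm_T_le R B _ x
  have n2 : ‖a'‖ ≤ ‖y‖ := Submodule.norm_starProjection_apply_le _ _
  have n3 : ‖⟪a - a', b⟫_ℂ‖ ≤ δ * ‖x‖ :=
    (norm_inner_le_norm _ _).trans (mul_le_mul a2 n1 (norm_nonneg _) hδ0.le)
  have n4 : ‖⟪a', b - b'⟫_ℂ‖ ≤ ‖y‖ * δ :=
    (norm_inner_le_norm _ _).trans (mul_le_mul n2 a1 (norm_nonneg _) (norm_nonneg _))
  refine (norm_add_le _ _).trans ?_
  have n5 : δ * (‖x‖ + ‖y‖ + 1) = ε := by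
    rw [hδ]; field_simp
  nlinarith

end Pool.Agent.H84.B
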