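import Pool.Agent.H84.B.Hil1

/-!
# Module PB1 of MP_02e9fb_an: `T_Bd`, `T_cond`
-/

open scoped ComplexConjugate InnerProductSpace
open Filter Topology

namespace Pool.Agent.H84.B

section PB1

variable {Λ : Type} [CommRing Λ] {A : Type} [CommRing A] [StarRing A] [Algebra ℂ A]
    [StarModule ℂ A] {H : Type} [NormedAddCommGroup H] [InnerProductSpace ℂ H] [CompleteSpace H]

lemma pb1_VA_fix (S : Sys Λ A H) (σ : FP) (a : A) (h : S.V σ (S.ι a) = S.ι a) : S.VA σ a = a :=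
  S.ι_inj (by rw [S.ι_V, h])

lemma pb1_UA_fix (S : Sys Λ A H) (y : Y Λ) (a : A) (h : S.U y (S.ι a) = S.ι a) : S.UA y a = a :=
  S.ι_inj (by rw [S.ι_U, h])

lemma pb1_bd_star (S : Sys Λ A H) (C : ℝ) (a : A) (h : S.Bd C a) : S.Bd C (star a) := by
  refine ⟨h.1, fun b => ?_⟩
  have h1 : ‖S.ι (star a * b)‖ ^ 2 ≤ ‖S.ι b‖ * (C * ‖S.ι (star a * b)‖) := by
    have h2 : ⟪S.ι (star a * b), S.ι (star a * b)⟫_ℂ = ⟪S.ι b, S.ι (a * (star a * b))⟫_ℂ := by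
      rw [S.inner_mul, star_star]
    have h3 : (‖S.ι (star a * b)‖ ^ 2 : ℝ) = RCLike.re ⟪S.ι (star a * b), S.ι (star a * b)⟫_ℂ :=
      norm_sq_eq_re_inner _
    rw [h3, h2]
    calc RCLike.re ⟪S.ι b, S.ι (a * (star a * b))⟫_ℂ ≤ ‖⟪S.ι b, S.ι (a * (star a * b))⟫_ℂ‖ :=
          RCLike.re_le_norm _
      _ ≤ ‖S.ι b‖ * ‖S.ι (a * (star a * b))‖ := norm_inner_le_norm _ _
      _ ≤ ‖S.ι b‖ * (C * ‖S.ι (star a * b)‖) :=
          mul_le_mul_of_nonneg_left (h.2 _) (norm_nonneg _)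
  rcases (norm_nonneg (S.ι (star a * b))).eq_or_lt with h0 | h0
  · rw [← h0]
    exact mul_nonneg h.1 (norm_nonneg _)
  · nlinarith

lemma pb1_bd_unitary (S : Sys Λ A H) (a : A) (h : a * star a = 1) : S.Bd 1 a := by
  refine ⟨zero_le_one, fun b => ?_⟩
  have h2 : ⟪S.ι (a * b), S.ι (a * b)⟫_ℂ = ⟪S.ι b, S.ι b⟫_ℂ := by
    rw [S.inner_mul, ← mul_assoc, mul_comm (star a) a, h, one_mul]
  have h3 : ‖S.ι (a * b)‖ ^ 2 = ‖S.ι b‖ ^ 2 := by
    rw [@norm_sq_eq_re_inner ℂ, @norm_sq_eq_re_inner ℂ, h2]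
  rw [one_mul]
  exact ((sq_eq_sq₀ (norm_nonneg _) (norm_nonneg _)).1 h3).le

lemma pb1_bd_proj (S : Sys Λ A H) (a : A) (h : star a = a) (h' : a * a = a) : S.Bd 1 a := by
  refine ⟨zero_le_one, fun b => ?_⟩
  have h2 : ⟪S.ι (a * b), S.ι (a * b)⟫_ℂ = ⟪S.ι b, S.ι (a * b)⟫_ℂ := by
    rw [S.inner_mul, h, ← mul_assoc, h']
  have h1 : ‖S.ι (a * b)‖ ^ 2 ≤ ‖S.ι b‖ * ‖S.ι (a * b)‖ := by
    rw [@norm_sq_eq_re_inner ℂ, h2]
    exact (RCLike.re_le_norm _).trans (norm_inner_le_norm _ _)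
  rw [one_mul]
  rcases (norm_nonneg (S.ι (a * b))).eq_or_lt with h0 | h0
  · rw [← h0]
    exact norm_nonneg _
  · nlinarith

lemma pb1_UA_add (S : Sys Λ A H) (y y' : Y Λ) (a : A) :
    S.UA (y + y') a = S.UA y (S.UA y' a) :=
  S.ι_inj (by rw [S.ι_U, S.ι_U, S.ι_U, S.U_add])

lemma pb1_UA_zero (S : Sys Λ A H) (a : A) : S.UA 0 a = a :=
  S.ι_inj (by rw [S.ι_U, S.U_zero])

lemma pb1_UA_neg (S : Sys Λ A H) (y : Y Λ) (a : A) : S.UA y (S.UA (-y) a) = a := by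
  have h : y + -y = 0 := add_neg_cancel y
  rw [← pb1_UA_add, h, pb1_UA_zero]

lemma pb1_VA_mul (S : Sys Λ A H) (σ τ : FP) (a : A) :
    S.VA (σ * τ) a = S.VA σ (S.VA τ a) :=
  S.ι_inj (by rw [S.ι_V, S.ι_V, S.ι_V, S.V_mul])

lemma pb1_VA_one (S : Sys Λ A H) (a : A) : S.VA 1 a = a :=
  S.ι_inj (by rw [S.ι_V, S.V_one])

lemma pb1_bd_UA (S : Sys Λ A H) (C : ℝ) (a : A) (y : Y Λ) (h : S.Bd C a) :
    S.Bd C (S.UA y a) := by
  refine ⟨h.1, fun b => ?_⟩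
  have h1 : S.UA y a * b = S.UA y (a * S.UA (-y) b) := by
    rw [map_mul, pb1_UA_neg]
  rw [h1, S.ι_U, LinearIsometryEquiv.norm_map]
  refine (h.2 _).trans ?_
  rw [S.ι_U, LinearIsometryEquiv.norm_map]

lemma pb1_bd_VA (S : Sys Λ A H) (C : ℝ) (a : A) (σ : FP) (h : S.Bd C a) :
    S.Bd C (S.VA σ a) := by
  refine ⟨h.1, fun b => ?_⟩
  have h1 : S.VA σ a * b = S.VA σ (a * S.VA σ⁻¹ b) := by
    rw [map_mul, ← pb1_VA_mul, mul_inv_cancel, pb1_VA_one]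
  rw [h1, S.ι_V, LinearIsometryEquiv.norm_map]
  refine (h.2 _).trans ?_
  rw [S.ι_V, LinearIsometryEquiv.norm_map]

lemma pb1_HB_mul (S : Sys Λ A H) (B : Finset ℕ) (a b : A) (ha : S.ι a ∈ S.HB B)
    (hb : S.ι b ∈ S.HB B) : S.ι (a * b) ∈ S.HB B := by
  intro σ hσ
  rw [← S.ι_V, map_mul, pb1_VA_fix S σ a (ha σ hσ), pb1_VA_fix S σ b (hb σ hσ)]

lemma pb1_HB_star (S : Sys Λ A H) (B : Finset ℕ) (a : A) (ha : S.ι a ∈ S.HB B) :
    S.ι (star a) ∈ S.HB B := by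
  intro σ hσ
  rw [← S.ι_V, map_star, pb1_VA_fix S σ a (ha σ hσ)]

lemma pb1_RB_mul (S : Sys Λ A H) (B : Finset ℕ) (a b : A) (ha : S.ι a ∈ S.RB B)
    (hb : S.ι b ∈ S.RB B) : S.ι (a * b) ∈ S.RB B := by
  refine ⟨pb1_HB_mul S B a b ha.1 hb.1, fun y hy => ?_⟩
  rw [← S.ι_U, map_mul, pb1_UA_fix S y a (ha.2 y hy), pb1_UA_fix S y b (hb.2 y hy)]

lemma pb1_RB_star (S : Sys Λ A H) (B : Finset ℕ) (a : A) (ha : S.ι a ∈ S.RB B) :
    S.ι (star a) ∈ S.RB B := by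
  refine ⟨pb1_HB_star S B a ha.1, fun y hy => ?_⟩
  rw [← S.ι_U, map_star, pb1_UA_fix S y a (ha.2 y hy)]

lemma pb1_RB_one (S : Sys Λ A H) (B : Finset ℕ) : S.ι 1 ∈ S.RB B :=
  ⟨fun σ _ => by rw [← S.ι_V, map_one], fun y _ => by rw [← S.ι_U, map_one]⟩

lemma pb1_tr_star_mul (S : Sys Λ A H) (a b : A) : S.tr (star a * b) = ⟪S.ι a, S.ι b⟫_ℂ := by
  unfold Sys.tr
  rw [← S.inner_mul, mul_one]

theorem bd : T_Bd := by
  intro Λ _ A _ _ _ _ H _ _ _ S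
  refine ⟨pb1_tr_star_mul S, ?_, ?_, ?_, pb1_bd_star S, ?_, ?_, ?_, ?_, pb1_bd_UA S, pb1_bd_VA S,
    pb1_bd_unitary S, pb1_bd_proj S, pb1_HB_mul S, pb1_HB_star S, pb1_RB_mul S, pb1_RB_star S,
    pb1_RB_one S, pb1_UA_zero S, pb1_UA_add S, ?_, ?_, ?_⟩
  · intro a
    have h1 := pb1_tr_star_mul S a 1
    rw [mul_one] at h1
    rw [h1]
    unfold Sys.tr
    rw [inner_conj_symm]
  · intro a
    obtain ⟨C, h0, h⟩ := S.bd_exists a
    exact ⟨C, h0, h⟩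
  · intro C a h
    have h1 := h.2 1
    rw [mul_one, S.norm_one, mul_one] at h1
    exact h1
  · intro C D a b ha hb
    refine ⟨mul_nonneg ha.1 hb.1, fun c => ?_⟩
    rw [mul_assoc, mul_assoc]
    exact (ha.2 _).trans (mul_le_mul_of_nonneg_left (hb.2 c) ha.1)
  · intro C D a b ha hb
    refine ⟨add_nonneg ha.1 hb.1, fun c => ?_⟩
    rw [add_mul, map_add, add_mul]
    exact (norm_add_le _ _).trans (add_le_add (ha.2 c) (hb.2 c))
  · intro C D a ha hCD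
    exact ⟨ha.1.trans hCD, fun c => (ha.2 c).trans
      (mul_le_mul_of_nonneg_right hCD (norm_nonneg _))⟩
  · intro c C a ha
    refine ⟨mul_nonneg (norm_nonneg _) ha.1, fun b => ?_⟩
    rw [smul_mul_assoc, map_smul, norm_smul, mul_assoc]
    exact mul_le_mul_of_nonneg_left (ha.2 b) (norm_nonneg _)
  · intro σ y a
    apply S.ι_inj
    rw [S.ι_V, S.ι_U, S.VU, S.ι_U, S.ι_V]
  · intro y a
    unfold Sys.tr
    rw [S.ι_U]
    conv_lhs => rw [← (pb1_RB_one S ∅).2 y (by simp [Off])]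
    rw [LinearIsometryEquiv.inner_map_map]
  · intro σ a
    unfold Sys.tr
    rw [S.ι_V]
    conv_lhs => rw [← (pb1_RB_one S ∅).1 σ (by simp)]
    rw [LinearIsometryEquiv.inner_map_map]

/-! ### conditional expectations -/

lemma pb1_proj (S : Sys Λ A H) (K : Submodule ℂ H) [K.HasOrthogonalProjection]
    (G : Set (H ≃ₗᵢ[ℂ] H)) (hK : ∀ z, z ∈ K ↔ ∀ T ∈ G, T z = z)
    (hG : ∀ T ∈ G, ∀ (C : ℝ) (a : A), S.Bd C a → ∃ a' : A, S.ι a' = T (S.ι a) ∧ S.Bd C a')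
    (C : ℝ) (a : A) (ha : S.Bd C a) :
    ∃ a' : A, S.ι a' = K.starProjection (S.ι a) ∧ S.Bd C a' := by
  set E : Set H := {x | ∃ a' : A, S.ι a' = x ∧ S.Bd C a'} with hE
  have hEcl : IsClosed E := by
    apply IsSeqClosed.isClosed
    intro x z hx hz
    choose b hb1 hb2 using hx
    have h1 : CauchySeq (fun n => S.ι (b n)) := by
      have : (fun n => S.ι (b n)) = x := funext hb1
      rw [this]
      exact hz.cauchySeq
    obtain ⟨c, hc1, hc2⟩ := S.bd_complete C b (fun n c => (hb2 n).2 c) h1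
    refine ⟨c, ?_, ha.1, hc1⟩
    apply tendsto_nhds_unique hc2
    have : (fun n => S.ι (b n)) = x := funext hb1
    rw [this]
    exact hz
  have hEcv : Convex ℝ E := by
    rintro _ ⟨x, rfl, hx⟩ _ ⟨y, rfl, hy⟩ s t hs ht hst
    refine ⟨(s : ℂ) • x + (t : ℂ) • y, ?_, ?_⟩
    · rw [map_add, map_smul, map_smul]
      simp
    · refine ⟨ha.1, fun b => ?_⟩
      rw [add_mul, map_add, smul_mul_assoc, smul_mul_assoc, map_smul, map_smul]
      calc ‖(s : ℂ) • S.ι (x * b) + (t : ℂ) • S.ι (y * b)‖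
          ≤ ‖(s : ℂ) • S.ι (x * b)‖ + ‖(t : ℂ) • S.ι (y * b)‖ := norm_add_le _ _
        _ ≤ s * (C * ‖S.ι b‖) + t * (C * ‖S.ι b‖) := by
            rw [norm_smul, norm_smul]
            simp only [Complex.norm_real, Real.norm_eq_abs, abs_of_nonneg hs, abs_of_nonneg ht]
            exact add_le_add (mul_le_mul_of_nonneg_left (hx.2 b) hs)
              (mul_le_mul_of_nonneg_left (hy.2 b) ht)
        _ = C * ‖S.ι b‖ := by rw [← add_mul, hst, one_mul]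
  set F : Set H := E ∩ {x | ∀ w ∈ K, ⟪w, x⟫_ℂ = ⟪w, S.ι a⟫_ℂ} with hF
  have hFcl : IsClosed F := by
    apply hEcl.inter
    have : {x : H | ∀ w ∈ K, ⟪w, x⟫_ℂ = ⟪w, S.ι a⟫_ℂ} = ⋂ w ∈ K, {x | ⟪w, x⟫_ℂ = ⟪w, S.ι a⟫_ℂ} := by
      ext x; simp
    rw [this]
    exact isClosed_iInter fun w => isClosed_iInter fun _ =>
      isClosed_eq (by fun_prop) continuous_const
  have hFcv : Convex ℝ F := by
    apply hEcv.inter
    intro x hx y hy s t hs ht hst w hw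
    rw [inner_add_right, inner_smul_right_eq_smul, inner_smul_right_eq_smul, hx w hw, hy w hw,
      ← add_smul, hst, one_smul]
  have hFne : F.Nonempty := ⟨S.ι a, ⟨a, rfl, ha⟩, fun w _ => rfl⟩
  obtain ⟨v, hv, hmin⟩ := hil1_min F hFne hFcl.isComplete hFcv
  have hvK : v ∈ K := by
    rw [hK]
    intro T hT
    have hTF : T v ∈ F := by
      refine ⟨?_, fun w hw => ?_⟩
      · obtain ⟨a', rfl, ha'⟩ := hv.1
        exact hG T hT C a' ha'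
      · rw [← (hK w).1 hw T hT, LinearIsometryEquiv.inner_map_map, (hK w).1 hw T hT]
        exact hv.2 w hw
    have h3 := hmin _ hTF
    have h2 : ‖T v - v‖ ^ 2 = 2 * ‖v‖ ^ 2 - 2 * (⟪v, T v⟫_ℂ).re := by
      rw [@norm_sub_sq ℂ, LinearIsometryEquiv.norm_map]
      have : RCLike.re ⟪T v, v⟫_ℂ = (⟪v, T v⟫_ℂ).re := by
        rw [← inner_conj_symm, RCLike.conj_re]
        rfl
      rw [this]
      ring
    have h5 : ‖T v - v‖ ^ 2 ≤ 0 := by linarith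
    have h6 : ‖T v - v‖ = 0 := by
      have := sq_nonneg ‖T v - v‖
      exact pow_eq_zero_iff (two_ne_zero) |>.1 (le_antisymm h5 this)
    exact sub_eq_zero.1 (norm_eq_zero.1 h6)
  have hproj : K.starProjection (S.ι a) = v := by
    apply Submodule.eq_starProjection_of_mem_of_inner_eq_zero hvK
    intro w hw
    rw [← inner_conj_symm, inner_sub_right, hv.2 w hw, sub_self]
    simp
  rw [hproj]
  exact hv.1

lemma pb1_condH (S : Sys Λ A H) (B : Finset ℕ) (C : ℝ) (a : A) (ha : S.Bd C a) :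
    ∃ a' : A, S.ι a' = S.PH B (S.ι a) ∧ S.Bd C a' := by
  apply pb1_proj S (S.HB B) {T | ∃ σ : FP, (∀ i ∈ B, σ.1 i = i) ∧ T = S.V σ} _ _ C a ha
  · intro z
    constructor
    · rintro hz _ ⟨σ, hσ, rfl⟩
      exact hz σ hσ
    · intro hz σ hσ
      exact hz _ ⟨σ, hσ, rfl⟩
  · rintro _ ⟨σ, hσ, rfl⟩ C a ha
    exact ⟨S.VA σ a, S.ι_V σ a, pb1_bd_VA S C a σ ha⟩

lemma pb1_condR (S : Sys Λ A H) (B : Finset ℕ) (C : ℝ) (a : A) (ha : S.Bd C a) :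
    ∃ a' : A, S.ι a' = S.PR B (S.ι a) ∧ S.Bd C a' := by
  apply pb1_proj S (S.RB B) ({T | ∃ σ : FP, (∀ i ∈ B, σ.1 i = i) ∧ T = S.V σ} ∪
    {T | ∃ y : Y Λ, Off y B ∧ T = S.U y}) _ _ C a ha
  · intro z
    constructor
    · rintro hz _ (⟨σ, hσ, rfl⟩ | ⟨y, hy, rfl⟩)
      · exact hz.1 σ hσ
      · exact hz.2 y hy
    · intro hz
      exact ⟨fun σ hσ => hz _ (Or.inl ⟨σ, hσ, rfl⟩), fun y hy => hz _ (Or.inr ⟨y, hy, rfl⟩)⟩
  · rintro _ (⟨σ, hσ, rfl⟩ | ⟨y, hy, rfl⟩) C a ha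
    · exact ⟨S.VA σ a, S.ι_V σ a, pb1_bd_VA S C a σ ha⟩
    · exact ⟨S.UA y a, S.ι_U y a, pb1_bd_UA S C a y ha⟩

/-- density -/
lemma pb1_dense (S : Sys Λ A H) (K : Submodule ℂ H) [K.HasOrthogonalProjection]
    (hK : ∀ a : A, ∃ a' : A, S.ι a' = K.starProjection (S.ι a)) (z : H) (ε : ℝ) (hz : z ∈ K)
    (hε : 0 < ε) : ∃ a : A, S.ι a ∈ K ∧ ‖z - S.ι a‖ ≤ ε := by
  obtain ⟨a, ha⟩ := Metric.denseRange_iff.1 S.ι_dense z ε hε
  obtain ⟨a', ha'⟩ := hK a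
  refine ⟨a', by rw [ha']; exact Submodule.starProjection_apply_mem _ _, ?_⟩
  have h1 : z - S.ι a' = K.starProjection (z - S.ι a) := by
    rw [map_sub, ha', Submodule.starProjection_eq_self_iff.2 hz]
  rw [h1]
  exact (Submodule.norm_starProjection_apply_le K _).trans (by rw [← dist_eq_norm]; exact ha.le)

/-- characterisation of the projection by testing against `A` -/
lemma pb1_char (S : Sys Λ A H) (K : Submodule ℂ H) [K.HasOrthogonalProjection]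
    (hK : ∀ a : A, ∃ a' : A, S.ι a' = K.starProjection (S.ι a)) (x y : H) (hy : y ∈ K)
    (h : ∀ w : A, S.ι w ∈ K → ⟪S.ι w, x⟫_ℂ = ⟪S.ι w, y⟫_ℂ) : y = K.starProjection x := by
  symm
  apply Submodule.eq_starProjection_of_mem_of_inner_eq_zero hy
  intro w hw
  rw [← inner_conj_symm]
  suffices hs : ⟪w, x - y⟫_ℂ = 0 by rw [hs]; simp
  by_contra hne
  have hpos : 0 < ‖⟪w, x - y⟫_ℂ‖ := norm_pos_iff.2 hne
  have hpos2 : 0 < ‖x - y‖ := by
    rw [norm_pos_iff]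
    intro h0
    rw [h0, inner_zero_right] at hne
    exact hne rfl
  obtain ⟨a, ha1, ha2⟩ := pb1_dense S K hK w (‖⟪w, x - y⟫_ℂ‖ / (2 * ‖x - y‖)) hw (by positivity)
  have h1 : ⟪w, x - y⟫_ℂ = ⟪w - S.ι a, x - y⟫_ℂ := by
    rw [inner_sub_left, inner_sub_right (S.ι a), h a ha1, sub_self, sub_zero]
  have h2 : ‖⟪w, x - y⟫_ℂ‖ ≤ ‖⟪w, x - y⟫_ℂ‖ / (2 * ‖x - y‖) * ‖x - y‖ := by
    conv_lhs => rw [h1]
    exact (norm_inner_le_norm _ _).trans (mul_le_mul_of_nonneg_right ha2 (norm_nonneg _))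
  have h3 : ‖⟪w, x - y⟫_ℂ‖ / (2 * ‖x - y‖) * ‖x - y‖ = ‖⟪w, x - y⟫_ℂ‖ / 2 := by
    field_simp
  rw [h3] at h2
  linarith

omit [CompleteSpace H] in
lemma pb1_inner_proj (K : Submodule ℂ H) [K.HasOrthogonalProjection] (w u : H) (hw : w ∈ K) :
    ⟪w, K.starProjection u⟫_ℂ = ⟪w, u⟫_ℂ := by
  have h1 := Submodule.starProjection_inner_eq_zero (K := K) u w hw
  rw [inner_sub_left, sub_eq_zero] at h1
  rw [← inner_conj_symm, ← inner_conj_symm w u, h1]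

lemma pb1_star (S : Sys Λ A H) (K : Submodule ℂ H) [K.HasOrthogonalProjection]
    (hK : ∀ a : A, ∃ a' : A, S.ι a' = K.starProjection (S.ι a))
    (hs : ∀ a : A, S.ι a ∈ K → S.ι (star a) ∈ K) (a a' : A)
    (h : S.ι a' = K.starProjection (S.ι a)) :
    S.ι (star a') = K.starProjection (S.ι (star a)) := by
  apply pb1_char S K hK
  · exact hs _ (by rw [h]; exact Submodule.starProjection_apply_mem _ _)
  · intro w hw
    rw [← pb1_tr_star_mul, ← pb1_tr_star_mul]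
    have h1 : ∀ b : A, S.tr (star w * star b) = conj ⟪S.ι (star w), S.ι b⟫_ℂ := by
      intro b
      rw [← pb1_tr_star_mul, star_star]
      have h2 := pb1_tr_star_mul S (w * b) 1
      rw [mul_one, star_mul, mul_comm (star b)] at h2
      rw [h2]
      unfold Sys.tr
      rw [inner_conj_symm]
    rw [h1, h1, h, pb1_inner_proj K _ _ (hs w hw)]

lemma pb1_module (S : Sys Λ A H) (K : Submodule ℂ H) [K.HasOrthogonalProjection]
    (hK : ∀ a : A, ∃ a' : A, S.ι a' = K.starProjection (S.ι a))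
    (hs : ∀ a : A, S.ι a ∈ K → S.ι (star a) ∈ K)
    (hm : ∀ a b : A, S.ι a ∈ K → S.ι b ∈ K → S.ι (a * b) ∈ K) (r a a' : A) (hr : S.ι r ∈ K)
    (h : S.ι a' = K.starProjection (S.ι a)) :
    K.starProjection (S.ι (r * a)) = S.ι (r * a') := by
  symm
  apply pb1_char S K hK
  · exact hm _ _ hr (by rw [h]; exact Submodule.starProjection_apply_mem _ _)
  · intro w hw
    have h1 : ∀ b : A, ⟪S.ι w, S.ι (r * b)⟫_ℂ = ⟪S.ι (star r * w), S.ι b⟫_ℂ := by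
      intro b
      rw [S.inner_mul, star_star]
    rw [h1, h1, h, pb1_inner_proj K _ _ (hm _ _ (hs r hr) hw)]

theorem cond : T_cond := by
  intro Λ _ A _ _ _ _ H _ _ _ S B
  have hH : ∀ a : A, ∃ a' : A, S.ι a' = (S.HB B).starProjection (S.ι a) := by
    intro a
    obtain ⟨C, h0, hC⟩ := S.bd_exists a
    obtain ⟨a', h1, -⟩ := pb1_condH S B C a ⟨h0, hC⟩
    exact ⟨a', h1⟩
  have hR : ∀ a : A, ∃ a' : A, S.ι a' = (S.RB B).starProjection (S.ι a) := by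
    intro a
    obtain ⟨C, h0, hC⟩ := S.bd_exists a
    obtain ⟨a', h1, -⟩ := pb1_condR S B C a ⟨h0, hC⟩
    exact ⟨a', h1⟩
  refine ⟨pb1_condH S B, pb1_condR S B, ?_, ?_, ?_, ?_, ?_⟩
  · exact fun a a' h => pb1_star S _ hH (pb1_HB_star S B) a a' h
  · exact fun a a' h => pb1_star S _ hR (pb1_RB_star S B) a a' h
  · exact fun r a a' hr h => pb1_module S _ hH (pb1_HB_star S B) (pb1_HB_mul S B) r a a' hr h
  · exact fun r a a' hr h => pb1_module S _ hR (pb1_RB_star S B) (pb1_RB_mul S B) r a a' hr h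
  · exact fun z ε hz hε => pb1_dense S _ hH z ε hz hε

end PB1

end Pool.Agent.H84.B
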