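import Pool.Agent.H84.B.Targets

/-!
# Target statements for the measure theoretic modules of MP_02e9fb_an
-/

open scoped ComplexConjugate InnerProductSpace
open Filter Topology MeasureTheory

namespace Pool.Agent.H84.B

/-! ## The sequence space -/

/-- the sequence space `{0,1}^{Λ^(ℕ)}` -/
abbrev Om (Λ : Type) [CommRing Λ] : Type := (ℕ →₀ Λ) → Bool

/-- the shift by `h` -/
noncomputable def shiftOm {Λ : Type} [CommRing Λ] (h : ℕ →₀ Λ) (a : Om Λ) : Om Λ := fun u => a (u + h)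

/-- the action of a permutation: `(permOm σ a) u = a (σ u)` with `(σ u) (σ i) = u i` -/
noncomputable def permOm {Λ : Type} [CommRing Λ] (σ : Equiv.Perm ℕ) (a : Om Λ) : Om Λ :=
  fun u => a (Finsupp.equivMapDomain σ u)

/-- invariance under shifts and finitary permutations -/
structure Exch {Λ : Type} [CommRing Λ] (m : Measure (Om Λ)) : Prop where
  prob : IsProbabilityMeasure m
  shift : ∀ h : ℕ →₀ Λ, MeasurePreserving (shiftOm h) m m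
  perm : ∀ σ : FP, MeasurePreserving (permOm σ.1) m m

/-- admissible integer or `Λ`-vectors: the residues are `0` or `1` and the number of ones is
`p * t` with `t ≡ 1` mod `p` -/
def AdmF {p : ℕ} {Λ : Type} [CommRing Λ] (ρ : Λ →+* ZMod p) (g : ℕ →₀ Λ) : Prop :=
  (∀ i, ρ (g i) = 0 ∨ ρ (g i) = 1) ∧
    ∃ t : ℕ, {i | ρ (g i) = 1}.ncard = p * t ∧ t ≡ 1 [MOD p]

/-- the limit of probability measures on `{0,1}^I`, `I` countable, along an ultrafilter -/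
def T_lim : Prop := ∀ (I : Type) [Countable I] (μ : ℕ → Measure (I → Bool)),
  (∀ n, IsProbabilityMeasure (μ n)) →
  ∃ m : Measure (I → Bool), IsProbabilityMeasure m ∧
    ∃ U : Ultrafilter ℕ, (U : Filter ℕ) ≤ atTop ∧
      ∀ (s : Finset I) (C : Set (I → Bool)),
        (∀ a b : I → Bool, (∀ i ∈ s, a i = b i) → (a ∈ C ↔ b ∈ C)) →
        MeasurableSet C ∧ Tendsto (fun n => μ n C) U (𝓝 (m C))

/-- two probability measures on `{0,1}^I` that agree on cylinders are equal -/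
def T_cylext : Prop := ∀ (I : Type) [Countable I] (μ ν : Measure (I → Bool)),
  IsProbabilityMeasure μ → IsProbabilityMeasure ν →
  (∀ (s : Finset I) (C : Set (I → Bool)),
    (∀ a b : I → Bool, (∀ i ∈ s, a i = b i) → (a ∈ C ↔ b ∈ C)) → μ C = ν C) → μ = ν

/-- the ring `ℤ_(p)` -/
def T_Zp : Prop := ∀ (p : ℕ) [Fact p.Prime],
  ∃ (Λ : Type) (_ : CommRing Λ) (_ : CharZero Λ) (_ : Countable Λ) (ρ : Λ →+* ZMod p) (Q : ℕ → ℕ),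
    (∀ R, (Q R : ZMod p) = 1) ∧
    (∀ u : Λ, ∀ᶠ R in atTop, ∃ z : ℤ, (z : Λ) = (Q R : Λ) * u) ∧
    (∀ k : ℤ, (k : ZMod p) ≠ 0 → IsUnit (k : Λ))

/-- an exhausting sequence exists -/
def T_Exh : Prop := ∀ (p : ℕ) [Fact p.Prime] (Λ : Type) [CommRing Λ] [Countable Λ]
  (ρ : Λ →+* ZMod p), ∃ β : ℕ → Λ, Exh ρ β

/-- C1: the exchangeable limit measure -/
def T_C1.{u} : Prop := ∀ (p : ℕ) [Fact p.Prime] (Λ : Type) [CommRing Λ] [CharZero Λ] [Countable Λ]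
    (ρ : Λ →+* ZMod p) (Q : ℕ → ℕ) (X : Type u) [MeasurableSpace X] (μ : Measure X)
    (T : X ≃ᵐ X) (A : Set X) (k1 k2 : ℤ) (nn : ℕ → ℤ) (G : ℕ → ℕ),
  (∀ R, (Q R : ZMod p) = 1) → (∀ u : Λ, ∀ᶠ R in atTop, ∃ z : ℤ, (z : Λ) = (Q R : Λ) * u) →
  IsProbabilityMeasure μ → MeasurePreserving T μ μ → MeasurableSet A → Tendsto G atTop atTop →
  (∀ g : ℕ →₀ ℤ, (∀ i, (g i).natAbs ≤ G i) → AdmF (Int.castRingHom (ZMod p)) g →
    μ (A ∩ (T.toEquiv ^ (k1 * g.sum fun i x => x * nn i)) ⁻¹' A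
        ∩ (T.toEquiv ^ (k2 * g.sum fun i x => x * nn i)) ⁻¹' A) = 0) →
  ∃ m : Measure (Om Λ), Exch m ∧ m {a | a 0 = true} = μ A ∧
    ∀ g : ℕ →₀ Λ, AdmF ρ g →
      m {a | a 0 = true ∧ a ((k1 : Λ) • g) = true ∧ a ((k2 : Λ) • g) = true} = 0

/-- A measure preserving system for the groups `Y Λ` and `FP`, ergodic. -/
structure MSys (Λ : Type) [CommRing Λ] (Ω : Type) [MeasurableSpace Ω] (ν : Measure Ω) where
  prob : IsProbabilityMeasure ν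
  U : Y Λ → Ω ≃ᵐ Ω
  V : FP → Ω ≃ᵐ Ω
  U_mp : ∀ y, MeasurePreserving (U y) ν ν
  V_mp : ∀ σ, MeasurePreserving (V σ) ν ν
  U_zero : ∀ ω, U 0 ω = ω
  U_add : ∀ y y' ω, U (y + y') ω = U y (U y' ω)
  V_one : ∀ ω, V 1 ω = ω
  V_mul : ∀ σ τ ω, V (σ * τ) ω = V τ (V σ ω)
  VU : ∀ σ y ω, U y (V σ ω) = V σ (U (pY σ y) ω)
  erg : ∀ f : Ω → ℂ, MemLp f 2 ν → (∀ y, f ∘ U y =ᵐ[ν] f) → (∀ σ, f ∘ V σ =ᵐ[ν] f) →
    ∃ c : ℂ, f =ᵐ[ν] fun _ => c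

/-- indicator function -/
noncomputable def ind {Ω : Type} (E : Set Ω) : Ω → ℝ := E.indicator (fun _ => (1 : ℝ))

/-- the law of large numbers, for sets -/
def MSys.LLN {Λ : Type} [CommRing Λ] {Ω : Type} [MeasurableSpace Ω] {ν : Measure Ω}
    (M : MSys Λ Ω ν) (p : ℕ) (β : ℕ → Λ) (k : Λ) (E : Set Ω) : Prop :=
  ∃ φ : ℕ → ℕ, StrictMono φ ∧ ∀ (r : ℕ) (ε : ℝ), 0 < ε →
    ∃ N : ℕ, 0 < N ∧ (1 : ℝ) / N ≤ ε ∧ ∃ v : Fin N → Set Ω,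
      (∀ n, MeasurableSet (v n) ∧ ∀ σ, (M.V σ) ⁻¹' (v n) = v n) ∧
      ∀ l : ℕ, ∀ c : Fin N → Y Λ, (∀ n, IsCopy (hh p β 0 r) (c n)) →
        (∀ n, Off (c n) (W p (φ l))) → (∀ n n', n ≠ n' → Dsj (c n) (c n')) →
        ∫ ω, ((1 / (N : ℝ)) * ∑ n, ind (v n) (M.U (k • bb p β (φ l)) ω) * ind (v n) ω
          - (1 / (N : ℝ)) * ∑ n, ind E (M.U (k • bb p β (φ l)) (M.U (k • c n) ω)) *
              ind E (M.U (k • c n) ω)) ^ 2 ∂ν ≤ ε ^ 2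

/-- existence of ergodic components for a countable group of measure preserving bijections -/
def T_erg : Prop := ∀ (Ω : Type) [MeasurableSpace Ω] [StandardBorelSpace Ω] (m : Measure Ω)
    (G : Set (Ω ≃ᵐ Ω)),
  IsProbabilityMeasure m → G.Countable → MeasurableEquiv.refl Ω ∈ G →
  (∀ g ∈ G, ∀ h ∈ G, g.trans h ∈ G) → (∀ g ∈ G, g.symm ∈ G) →
  (∀ g ∈ G, MeasurePreserving g m m) →
  ∃ κ : ProbabilityTheory.Kernel Ω Ω, ProbabilityTheory.IsMarkovKernel κ ∧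
    (∀ B : Set Ω, MeasurableSet B → m B = ∫⁻ ω, κ ω B ∂m) ∧
    ∀ᵐ ω ∂m, (∀ g ∈ G, MeasurePreserving g (κ ω) (κ ω)) ∧
      ∀ f : Ω → ℂ, MemLp f 2 (κ ω) → (∀ g ∈ G, f ∘ g =ᵐ[κ ω] f) →
        ∃ c : ℂ, f =ᵐ[κ ω] fun _ => c

/-- C2: the ergodic component -/
def T_C2 : Prop := ∀ (p : ℕ) [Fact p.Prime] (Λ : Type) [CommRing Λ] [Countable Λ]
    (ρ : Λ →+* ZMod p) (β : ℕ → Λ) (k1 k2 : Λ) (m : Measure (Om Λ)),
  Exch m → m {a | a 0 = true} ≠ 0 →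
  (∀ g : ℕ →₀ Λ, AdmF ρ g → m {a | a 0 = true ∧ a (k1 • g) = true ∧ a (k2 • g) = true} = 0) →
  ∃ (ν : Measure (Om Λ)) (M : MSys Λ (Om Λ) ν) (E : Set (Om Λ)),
    MeasurableSet E ∧ (∀ σ, (M.V σ) ⁻¹' E = E) ∧ ν E ≠ 0 ∧
    M.LLN p β k1 E ∧ M.LLN p β k2 E ∧
    ∀ (g : Y Λ) (t : ℕ), Adm ρ g → units ρ g = p * t → t ≡ 1 [MOD p] →
      ν (E ∩ (M.U (k1 • g)) ⁻¹' E ∩ (M.U (k2 • g)) ⁻¹' E) = 0

/-- the main theorem for measure preserving systems -/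
def T_MainMS : Prop := ∀ (Λ : Type) [CommRing Λ] (Ω : Type) [MeasurableSpace Ω] (ν : Measure Ω)
    (M : MSys Λ Ω ν) (p : ℕ) [Fact p.Prime] (ρ : Λ →+* ZMod p) (β : ℕ → Λ) (k1 k2 : Λ)
    (E : Set Ω),
  p ≠ 2 → Exh ρ β → IsUnit k1 → IsUnit k2 → IsUnit (k1 - k2) → MeasurableSet E →
  (∀ σ, (M.V σ) ⁻¹' E = E) → ν E ≠ 0 → M.LLN p β k1 E → M.LLN p β k2 E →
  (∀ (g : Y Λ) (t : ℕ), Adm ρ g → units ρ g = p * t → t ≡ 1 [MOD p] →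
    ν (E ∩ (M.U (k1 • g)) ⁻¹' E ∩ (M.U (k2 • g)) ⁻¹' E) = 0) → False

/-- C3: from the abstract theorem to measure preserving systems -/
def T_C3 : Prop := T_MainAbs → T_MainMS

/-- the powers half of the theorem, for one pair `k1, k2` -/
def T_Powers.{u} : Prop := ∀ (p : ℕ) [Fact p.Prime] (X : Type u) [MeasurableSpace X]
    (μ : Measure X) (T : X ≃ᵐ X) (A : Set X) (k1 k2 : ℤ) (nn : ℕ → ℤ) (G : ℕ → ℕ),
  p ≠ 2 → (k1 : ZMod p) ≠ 0 → (k2 : ZMod p) ≠ 0 → (k1 : ZMod p) ≠ (k2 : ZMod p) →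
  IsProbabilityMeasure μ → MeasurePreserving T μ μ → MeasurableSet A → μ A ≠ 0 →
  Tendsto G atTop atTop →
  ∃ g : ℕ →₀ ℤ, (∀ i, (g i).natAbs ≤ G i) ∧ AdmF (Int.castRingHom (ZMod p)) g ∧
    μ (A ∩ (T.toEquiv ^ (k1 * g.sum fun i x => x * nn i)) ⁻¹' A
        ∩ (T.toEquiv ^ (k2 * g.sum fun i x => x * nn i)) ⁻¹' A) ≠ 0

/-! ## C4: the commuting counterexample -/

/-- C4: the corner-bad system -/
def T_C4 : Prop := ∀ (pp nn G : ℕ → ℕ),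
  (∀ e, (pp e).Prime ∧ pp e ≠ 2) → (∀ e, 0 < nn e) → (∀ e, pp e * nn e ∣ nn (e + 1)) →
  (∀ e, 2 ^ (e + 4) * (∑ i ∈ Finset.range e, G i * nn i) ≤ nn e) →
  ∃ (Ω : Type) (_ : MeasurableSpace Ω) (ν : Measure Ω) (T1 T2 : Ω ≃ᵐ Ω) (B : Set Ω),
    IsProbabilityMeasure ν ∧ MeasurePreserving T1 ν ν ∧ MeasurePreserving T2 ν ν ∧
    (∀ ω, T1 (T2 ω) = T2 (T1 ω)) ∧ MeasurableSet B ∧ ν B ≠ 0 ∧
    ∀ (q : ℕ) (g : ℕ →₀ ℤ), q.Prime → (∀ e, g e ≠ 0 → pp e = q) → (∀ e, (g e).natAbs ≤ G e) →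
      AdmF (Int.castRingHom (ZMod q)) g →
      ν (B ∩ (T1.toEquiv ^ (g.sum fun e x => x * nn e)) ⁻¹' B
          ∩ (T2.toEquiv ^ (g.sum fun e x => x * nn e)) ⁻¹' B) = 0

/-! ## The final theorem -/

/-- good for 2-recurrence of powers -/
def GoodPowers.{u} (a : ℕ → ℤ) : Prop :=
  ∀ (k1 k2 : ℤ) (X : Type u) [MeasurableSpace X] (μ : Measure X) [IsProbabilityMeasure μ]
    (T : X ≃ᵐ X), MeasurePreserving T μ μ → ∀ A : Set X, MeasurableSet A → 0 < μ A →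
    ∃ n, a n ≠ 0 ∧ 0 < μ (A ∩ (T.toEquiv ^ (k1 * a n)) ⁻¹' A ∩ (T.toEquiv ^ (k2 * a n)) ⁻¹' A)

/-- good for 2-recurrence of commuting transformations -/
def GoodCommuting.{u} (a : ℕ → ℤ) : Prop :=
  ∀ (X : Type u) [MeasurableSpace X] (μ : Measure X) [IsProbabilityMeasure μ]
    (T1 T2 : X ≃ᵐ X), MeasurePreserving T1 μ μ → MeasurePreserving T2 μ μ →
    (∀ x, T1 (T2 x) = T2 (T1 x)) → ∀ A : Set X, MeasurableSet A → 0 < μ A →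
    ∃ n, a n ≠ 0 ∧ 0 < μ (A ∩ (T1.toEquiv ^ a n) ⁻¹' A ∩ (T2.toEquiv ^ a n) ⁻¹' A)

/-- C5: the final assembly -/
def T_C5.{u} : Prop := T_Powers.{u} → T_C4 →
  ∃ a : ℕ → ℤ, GoodPowers.{u} a ∧ ¬ GoodCommuting.{0} a

end Pool.Agent.H84.B
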