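import Mathlib
import Pool.Agent.H84.B.TargetsM

/-!
# ERG: ergodic components for a countable group of measure preserving bijections (`MP_02e9fb_an`)
-/

set_option autoImplicit false

open scoped ComplexConjugate InnerProductSpace ENNReal
open Filter Topology MeasureTheory ProbabilityTheory

namespace Pool.Agent.H84.B.Erg

variable {Ω : Type}

/-- strictly invariant measurable sets -/
@[reducible] def Inv [mΩ : MeasurableSpace Ω] (G : Set (Ω ≃ᵐ Ω)) : MeasurableSpace Ω where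
  MeasurableSet' A := MeasurableSet A ∧ ∀ g ∈ G, g ⁻¹' A = A
  measurableSet_empty := ⟨MeasurableSet.empty, fun g _ => Set.preimage_empty⟩
  measurableSet_compl := fun A hA => ⟨hA.1.compl, fun g hg => by
    rw [Set.preimage_compl, hA.2 g hg]⟩
  measurableSet_iUnion := fun f hf => ⟨MeasurableSet.iUnion fun i => (hf i).1, fun g hg => by
    rw [Set.preimage_iUnion]
    exact Set.iUnion_congr fun i => (hf i).2 g hg⟩

variable [mΩ : MeasurableSpace Ω] {G : Set (Ω ≃ᵐ Ω)}

lemma inv_le : Inv G ≤ mΩ := fun _ hA => hA.1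

lemma measurableSet_inv {A : Set Ω} :
    MeasurableSet[Inv G] A ↔ MeasurableSet A ∧ ∀ g ∈ G, g ⁻¹' A = A := Iff.rfl

/-- an invariant measurable function is measurable for the invariant σ-algebra -/
lemma measurable_inv {β : Type} [MeasurableSpace β] {φ : Ω → β} (hφ : Measurable φ)
    (h : ∀ g ∈ G, ∀ ω, φ (g ω) = φ ω) : Measurable[Inv G] φ := by
  intro B hB
  refine ⟨hφ hB, fun g hg => ?_⟩
  ext ω
  simp only [Set.mem_preimage]
  rw [h g hg]

variable [StandardBorelSpace Ω] (m : Measure Ω) [IsProbabilityMeasure m]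

/-- the components -/
noncomputable def ker (G : Set (Ω ≃ᵐ Ω)) : Kernel Ω Ω :=
  Kernel.comap (condExpKernel m (Inv G)) id (measurable_id'' inv_le)

lemma ker_apply (ω : Ω) : ker m G ω = condExpKernel m (Inv G) ω := by
  unfold ker
  rw [Kernel.comap_apply, id]

instance : IsMarkovKernel (ker m G) := by
  unfold ker
  infer_instance

lemma measurable_ker {B : Set Ω} (hB : MeasurableSet B) :
    Measurable[Inv G] (fun ω => ker m G ω B) := by
  simp_rw [ker_apply]
  exact measurable_condExpKernel hB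

lemma lintegral_ker {B : Set Ω} (hB : MeasurableSet B) : m B = ∫⁻ ω, ker m G ω B ∂m := by
  have h1 := condExpKernel_comp_trim (μ := m) (m := Inv G) inv_le
  calc m B = (condExpKernel m (Inv G) ∘ₘ m.trim (inv_le (G := G))) B := by rw [h1]
    _ = ∫⁻ ω, condExpKernel m (Inv G) ω B ∂(m.trim (inv_le (G := G))) :=
        Measure.bind_apply hB (Kernel.aemeasurable _)
    _ = ∫⁻ ω, condExpKernel m (Inv G) ω B ∂m :=
        lintegral_trim inv_le (measurable_condExpKernel hB)
    _ = ∫⁻ ω, ker m G ω B ∂m := by simp_rw [ker_apply]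

lemma bind_ker : m.bind (ker m G) = m := by
  ext B hB
  rw [Measure.bind_apply hB (Kernel.aemeasurable _), ← lintegral_ker m hB]

lemma lintegral_ker' {f : Ω → ℝ≥0∞} (hf : AEMeasurable f m) :
    ∫⁻ ω, ∫⁻ x, f x ∂(ker m G ω) ∂m = ∫⁻ x, f x ∂m := by
  have h1 := bind_ker (G := G) m
  have h2 : ∫⁻ x, f x ∂m = ∫⁻ x, f x ∂(m.bind (ker m G)) := by rw [h1]
  rw [h2, Measure.lintegral_bind (Kernel.aemeasurable _) (by rw [h1]; exact hf)]

lemma ae_ker {P : Ω → Prop} (h : ∀ᵐ x ∂m, P x) : ∀ᵐ ω ∂m, ∀ᵐ x ∂(ker m G ω), P x := by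
  apply Measure.ae_ae_of_ae_comp
  have h1 := bind_ker (G := G) m
  rw [h1]
  exact h

/-- conditional expectation of functions -/
lemma condExp_eq {f : Ω → ℂ} (hf : Integrable f m) :
    m[f | Inv G] =ᵐ[m] fun ω => ∫ y, f y ∂(ker m G ω) := by
  simp_rw [ker_apply]
  exact condExp_ae_eq_integral_condExpKernel inv_le hf

lemma ker_inv_set {A : Set Ω} (hA : MeasurableSet[Inv G] A) :
    ∀ᵐ ω ∂m, ker m G ω A = A.indicator (fun _ => (1 : ℝ≥0∞)) ω := by
  have h1 := condExpKernel_ae_eq_condExp (μ := m) (m := Inv G) inv_le (inv_le (G := G) A hA)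
  have h2 : m[(A.indicator fun _ => (1 : ℝ)) | Inv G] = A.indicator fun _ => (1 : ℝ) := by
    apply condExp_of_stronglyMeasurable inv_le
    · exact (StronglyMeasurable.indicator stronglyMeasurable_const hA)
    · exact (integrable_const (1 : ℝ)).indicator (inv_le (G := G) A hA)
  filter_upwards [h1] with ω hω
  rw [ker_apply]
  rw [h2] at hω
  have h3 : condExpKernel m (Inv G) ω A ≠ ∞ := measure_ne_top _ _
  rw [← ENNReal.ofReal_toReal h3]
  have h4 : (condExpKernel m (Inv G) ω A).toReal = (A.indicator (fun _ => (1 : ℝ)) ω) := hω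
  rw [h4]
  by_cases hωA : ω ∈ A
  · simp [hωA]
  · simp [hωA]

/-- functions measurable for the invariant σ-algebra are constant for the components -/
lemma ker_inv_fun {φ : Ω → ℂ} (hφ : Measurable[Inv G] φ) :
    ∀ᵐ ω ∂m, ∀ᵐ x ∂(ker m G ω), φ x = φ ω := by
  have h1 : ∀ᵐ ω ∂m, ∀ B ∈ TopologicalSpace.countableBasis ℂ,
      ker m G ω (φ ⁻¹' B) = (φ ⁻¹' B).indicator (fun _ => (1 : ℝ≥0∞)) ω := by
    rw [ae_ball_iff (TopologicalSpace.countable_countableBasis ℂ)]
    intro B hB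
    apply ker_inv_set
    exact hφ (TopologicalSpace.isOpen_of_mem_countableBasis hB).measurableSet
  filter_upwards [h1] with ω hω
  rw [ae_iff]
  have h2 : {x | ¬ φ x = φ ω} ⊆ ⋃ B ∈ {B ∈ TopologicalSpace.countableBasis ℂ | φ ω ∉ B}, φ ⁻¹' B := by
    intro x hx
    have hx' : φ x ∈ ({φ ω} : Set ℂ)ᶜ := hx
    obtain ⟨B, hB, hxB, hBs⟩ := (TopologicalSpace.isBasis_countableBasis ℂ).exists_subset_of_mem_open
      hx' isOpen_compl_singleton
    rw [Set.mem_iUnion₂]
    refine ⟨B, ⟨hB, fun h => ?_⟩, hxB⟩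
    exact hBs h rfl
  refine measure_mono_null h2 ?_
  rw [measure_biUnion_null_iff]
  · intro B hB
    rw [hω B hB.1, Set.indicator_of_notMem]
    exact hB.2
  · exact (TopologicalSpace.countable_countableBasis ℂ).mono (Set.sep_subset _ _)

/-- invariance of the components on a fixed set -/
lemma ker_preimage {g : Ω ≃ᵐ Ω} (hg : g ∈ G) (hgm : MeasurePreserving g m m) {B : Set Ω}
    (hB : MeasurableSet B) : ∀ᵐ ω ∂m, ker m G ω (g ⁻¹' B) = ker m G ω B := by
  have h1 := condExpKernel_ae_eq_condExp (μ := m) (m := Inv G) inv_le hB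
  have h2 := condExpKernel_ae_eq_condExp (μ := m) (m := Inv G) inv_le (g.measurable hB)
  have h3 : m[((g ⁻¹' B).indicator fun _ => (1 : ℝ)) | Inv G]
      =ᵐ[m] m[(B.indicator fun _ => (1 : ℝ)) | Inv G] := by
    apply ae_eq_condExp_of_forall_setIntegral_eq inv_le
    · exact (integrable_const (1 : ℝ)).indicator hB
    · intro s _ _
      exact integrable_condExp.integrableOn
    · intro s hs _
      rw [setIntegral_condExp inv_le ((integrable_const (1 : ℝ)).indicator (g.measurable hB)) hs]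
      rw [integral_indicator (g.measurable hB), integral_indicator hB,
        Measure.restrict_restrict (g.measurable hB), Measure.restrict_restrict hB]
      simp only [integral_const, smul_eq_mul, mul_one]
      unfold Measure.real
      rw [Measure.restrict_apply MeasurableSet.univ, Measure.restrict_apply MeasurableSet.univ,
        Set.univ_inter, Set.univ_inter]
      congr 1
      have h4 : g ⁻¹' B ∩ s = g ⁻¹' (B ∩ s) := by
        rw [Set.preimage_inter, hs.2 g hg]
      rw [h4, hgm.measure_preimage (hB.inter hs.1).nullMeasurableSet]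
    · exact stronglyMeasurable_condExp.aestronglyMeasurable
  filter_upwards [h1, h2, h3] with ω h1 h2 h3
  rw [ker_apply]
  have h5 : (condExpKernel m (Inv G) ω).real (g ⁻¹' B) = (condExpKernel m (Inv G) ω).real B := by
    rw [h1, h2, h3]
  exact (measureReal_eq_measureReal_iff).mp h5

/-- countable algebra generating the σ-algebra -/
def Alg (Ω : Type) [MeasurableSpace Ω] [MeasurableSpace.CountablyGenerated Ω] : Set (Set Ω) :=
  generateSetAlgebra (MeasurableSpace.countableGeneratingSet Ω)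

lemma alg_countable : (Alg Ω).Countable :=
  countable_generateSetAlgebra MeasurableSpace.countable_countableGeneratingSet

lemma alg_gen : mΩ = MeasurableSpace.generateFrom (Alg Ω) := by
  unfold Alg
  rw [generateFrom_generateSetAlgebra_eq, MeasurableSpace.generateFrom_countableGeneratingSet]

lemma alg_meas {B : Set Ω} (hB : B ∈ Alg Ω) : MeasurableSet B := by
  rw [alg_gen (Ω := Ω)]
  exact MeasurableSpace.measurableSet_generateFrom hB

lemma alg_pi : IsPiSystem (Alg Ω) := by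
  intro s hs t ht _
  exact isSetAlgebra_generateSetAlgebra.inter_mem hs ht

lemma ker_mp (hc : G.Countable) (hG : ∀ g ∈ G, MeasurePreserving g m m) :
    ∀ᵐ ω ∂m, ∀ g ∈ G, MeasurePreserving g (ker m G ω) (ker m G ω) := by
  have h1 : ∀ᵐ ω ∂m, ∀ g ∈ G, ∀ B ∈ Alg Ω, ker m G ω (g ⁻¹' B) = ker m G ω B := by
    rw [ae_ball_iff hc]
    intro g hg
    rw [ae_ball_iff alg_countable]
    intro B hB
    exact ker_preimage m hg (hG g hg) (alg_meas hB)
  filter_upwards [h1] with ω hω g hg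
  refine ⟨g.measurable, ?_⟩
  have : IsProbabilityMeasure ((ker m G ω).map g) :=
    Measure.isProbabilityMeasure_map g.measurable.aemeasurable
  apply ext_of_generate_finite (Alg Ω) alg_gen alg_pi
  · intro B hB
    rw [Measure.map_apply g.measurable (alg_meas hB)]
    exact hω g hg B hB
  · rw [measure_univ, measure_univ]

/-! ### square integrable functions -/

lemma memLp_ker {w : Ω → ℂ} (hw : MemLp w 2 m) : ∀ᵐ ω ∂m, MemLp w 2 (ker m G ω) := by
  obtain ⟨w', hw's, hww'⟩ := hw.1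
  have h1 : ∀ᵐ ω ∂m, w =ᵐ[ker m G ω] w' := ae_ker m hww'
  have h2 : MemLp w' 2 m := (memLp_congr_ae hww').mp hw
  have h3 : ∫⁻ x, ‖w' x‖ₑ ^ (2 : ℝ) ∂m < ∞ := by
    have := (eLpNorm_lt_top_iff_lintegral_rpow_enorm_lt_top two_ne_zero ENNReal.ofNat_ne_top).mp h2.2
    simpa using this
  have hmeas : Measurable (fun x => ‖w' x‖ₑ ^ (2 : ℝ)) := hw's.measurable.enorm.pow_const 2
  rw [← lintegral_ker' (G := G) m hmeas.aemeasurable] at h3
  have h4 : ∀ᵐ ω ∂m, ∫⁻ x, ‖w' x‖ₑ ^ (2 : ℝ) ∂(ker m G ω) < ∞ := by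
    apply ae_lt_top _ h3.ne
    exact hmeas.lintegral_kernel
  filter_upwards [h1, h4] with ω h1 h4
  rw [memLp_congr_ae h1]
  refine ⟨hw's.aestronglyMeasurable, ?_⟩
  rw [eLpNorm_lt_top_iff_lintegral_rpow_enorm_lt_top two_ne_zero ENNReal.ofNat_ne_top]
  simpa using h4

/-- invariant square integrable functions for the component at `ω` -/
def Good (G : Set (Ω ≃ᵐ Ω)) (ω : Ω) (z : Ω → ℂ) : Prop :=
  MemLp z 2 (ker m G ω) ∧ ∀ g ∈ G, z ∘ g =ᵐ[ker m G ω] z

/-- `w` is orthogonal to the invariant functions for almost every component -/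
def IsNul (G : Set (Ω ≃ᵐ Ω)) (w : Ω → ℂ) : Prop :=
  ∀ᵐ ω ∂m, ∀ z, Good m G ω z → ∫ x, w x * conj (z x) ∂(ker m G ω) = 0

omit [StandardBorelSpace Ω] in
lemma memLp_conj {ν : Measure Ω} {z : Ω → ℂ} (hz : MemLp z 2 ν) :
    MemLp (fun x => conj (z x)) 2 ν := hz.star

omit [StandardBorelSpace Ω] in
lemma integrable_mul_conj {ν : Measure Ω} {w z : Ω → ℂ} (hw : MemLp w 2 ν) (hz : MemLp z 2 ν) :
    Integrable (fun x => w x * conj (z x)) ν :=
  MemLp.integrable_mul hw (memLp_conj hz)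

lemma isNul_congr {w w' : Ω → ℂ} (h : w =ᵐ[m] w') (hw : IsNul m G w) : IsNul m G w' := by
  have h1 : ∀ᵐ ω ∂m, w =ᵐ[ker m G ω] w' := ae_ker m h
  filter_upwards [h1, hw] with ω h1 h2 z hz
  rw [← h2 z hz]
  apply integral_congr_ae
  filter_upwards [h1] with x hx
  rw [hx]

lemma isNul_add {w w' : Ω → ℂ} (h : MemLp w 2 m) (h' : MemLp w' 2 m) (hw : IsNul m G w)
    (hw' : IsNul m G w') : IsNul m G (w + w') := by
  filter_upwards [hw, hw', memLp_ker (G := G) m h, memLp_ker (G := G) m h'] with ω h1 h2 h3 h4 z hz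
  have e1 : (fun x => (w + w') x * conj (z x)) = fun x => w x * conj (z x) + w' x * conj (z x) := by
    ext x
    simp only [Pi.add_apply]
    ring
  rw [e1, integral_add (integrable_mul_conj h3 hz.1) (integrable_mul_conj h4 hz.1), h1 z hz,
    h2 z hz, add_zero]

lemma isNul_smul (c : ℂ) {w : Ω → ℂ} (hw : IsNul m G w) : IsNul m G (c • w) := by
  filter_upwards [hw] with ω h1 z hz
  have e1 : (fun x => (c • w) x * conj (z x)) = fun x => c * (w x * conj (z x)) := by
    ext x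
    simp only [Pi.smul_apply, smul_eq_mul]
    ring
  rw [e1, integral_const_mul, h1 z hz, mul_zero]

/-- the null space -/
def Nul (G : Set (Ω ≃ᵐ Ω)) : Submodule ℂ (Lp ℂ 2 m) where
  carrier := {w | IsNul m G w}
  add_mem' := by
    intro a b ha hb
    exact isNul_congr m (Lp.coeFn_add a b).symm
      (isNul_add m (Lp.memLp a) (Lp.memLp b) ha hb)
  zero_mem' := by
    have h1 : IsNul m G (fun _ => (0 : ℂ)) := by
      filter_upwards with ω z hz
      simp
    exact isNul_congr m (Lp.coeFn_zero ℂ 2 m).symm h1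
  smul_mem' := by
    intro c a ha
    exact isNul_congr m (Lp.coeFn_smul c a).symm (isNul_smul m c ha)

/-- coboundaries are null -/
lemma cob_mem (hc : G.Countable) (hG : ∀ g ∈ G, MeasurePreserving g m m) {g : Ω ≃ᵐ Ω}
    (hg : g ∈ G) (u : Lp ℂ 2 m) :
    Lp.compMeasurePreserving g (hG g hg) u - u ∈ Nul m G := by
  change IsNul m G _
  have h1 : (fun x => u (g x) - u x) =ᵐ[m]
      ((Lp.compMeasurePreserving g (hG g hg) u - u : Lp ℂ 2 m) : Ω → ℂ) := by
    filter_upwards [Lp.coeFn_sub (Lp.compMeasurePreserving g (hG g hg) u) u,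
      Lp.coeFn_compMeasurePreserving u (hG g hg)] with x h1 h2
    rw [h1, Pi.sub_apply, h2, Function.comp_apply]
  refine isNul_congr m h1 ?_
  filter_upwards [memLp_ker (G := G) m (Lp.memLp u), ker_mp m hc hG] with ω h3 h4 z hz
  have hmp := h4 g hg
  have h5 : MemLp (fun x => u (g x)) 2 (ker m G ω) := h3.comp_measurePreserving hmp
  have e1 : (fun x => (u (g x) - u x) * conj (z x))
      = fun x => u (g x) * conj (z x) - u x * conj (z x) := by
    ext x; ring
  rw [e1, integral_sub (integrable_mul_conj h5 hz.1) (integrable_mul_conj h3 hz.1)]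
  have e2 : ∫ x, u (g x) * conj (z x) ∂(ker m G ω)
      = ∫ x, (fun y => u y * conj (z y)) (g x) ∂(ker m G ω) := by
    apply integral_congr_ae
    filter_upwards [hz.2 g hg] with x hx
    rw [← hx, Function.comp_apply]
  have e3 := hmp.integral_comp g.measurableEmbedding (fun y => u y * conj (z y))
  rw [e2, e3, sub_self]

/-- the null space is closed -/
lemma nul_closed : IsClosed (Nul m G : Set (Lp ℂ 2 m)) := by
  rw [← closure_subset_iff_isClosed]
  intro w hw
  rw [Metric.mem_closure_iff] at hw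
  have h1 : ∀ n : ℕ, ∃ v ∈ Nul m G, dist w v < (1 / 2) ^ n := fun n => hw _ (by positivity)
  choose v hv hvd using h1
  -- the functions
  set F : ℕ → Ω → ℝ≥0∞ := fun n x => ‖(w - v n : Lp ℂ 2 m) x‖ₑ ^ (2 : ℝ) with hF
  have hFm : ∀ n, Measurable (F n) := fun n =>
    (Lp.stronglyMeasurable (w - v n)).measurable.enorm.pow_const 2
  have hFi : ∀ n, ∫⁻ x, F n x ∂m ≤ ENNReal.ofReal ((1 / 2) ^ n) := by
    intro n
    have h2 : ‖w - v n‖ < (1 / 2) ^ n := by
      rw [← dist_eq_norm]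
      exact hvd n
    have h3 : eLpNorm (w - v n : Lp ℂ 2 m) 2 m = (∫⁻ x, F n x ∂m) ^ (1 / (2 : ℝ)) := by
      rw [eLpNorm_eq_lintegral_rpow_enorm_toReal two_ne_zero ENNReal.ofNat_ne_top]
      simp [hF]
    have h4 : eLpNorm (w - v n : Lp ℂ 2 m) 2 m = ENNReal.ofReal ‖w - v n‖ := by
      rw [Lp.norm_def, ENNReal.ofReal_toReal (Lp.eLpNorm_ne_top _)]
    have h5 : (∫⁻ x, F n x ∂m) = ENNReal.ofReal ‖w - v n‖ ^ (2 : ℝ) := by
      rw [← h4, h3, ← ENNReal.rpow_mul]
      norm_num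
    rw [h5, ENNReal.ofReal_rpow_of_nonneg (norm_nonneg _) (by norm_num)]
    apply ENNReal.ofReal_le_ofReal
    have h6 : ‖w - v n‖ ^ (2 : ℝ) = ‖w - v n‖ ^ 2 := by
      rw [← Real.rpow_natCast]
      norm_num
    rw [h6]
    have h7 : ((1 : ℝ) / 2) ^ n ≤ 1 := pow_le_one₀ (by norm_num) (by norm_num)
    nlinarith [norm_nonneg (w - v n)]
  have hsum : ∫⁻ ω, ∑' n, ∫⁻ x, F n x ∂(ker m G ω) ∂m ≠ ∞ := by
    rw [lintegral_tsum (fun n => (hFm n).lintegral_kernel.aemeasurable)]
    simp_rw [lintegral_ker' (G := G) m (hFm _).aemeasurable]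
    apply ne_top_of_le_ne_top _ (ENNReal.tsum_le_tsum hFi)
    rw [← ENNReal.ofReal_tsum_of_nonneg (fun n => by positivity)
      (summable_geometric_of_lt_one (by norm_num) (by norm_num))]
    exact ENNReal.ofReal_ne_top
  have hae : ∀ᵐ ω ∂m, ∑' n, ∫⁻ x, F n x ∂(ker m G ω) < ∞ := by
    apply ae_lt_top _ hsum
    exact Measurable.tsum (fun n => (hFm n).lintegral_kernel)
  have hall : ∀ᵐ ω ∂m, ∀ n, (∀ z, Good m G ω z → ∫ x, v n x * conj (z x) ∂(ker m G ω) = 0) ∧
      MemLp (v n) 2 (ker m G ω) ∧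
      ((w - v n : Lp ℂ 2 m) : Ω → ℂ) =ᵐ[ker m G ω] fun x => w x - v n x := by
    rw [ae_all_iff]
    intro n
    have h2 : ((w - v n : Lp ℂ 2 m) : Ω → ℂ) =ᵐ[m] fun x => w x - v n x := Lp.coeFn_sub w (v n)
    filter_upwards [hv n, memLp_ker (G := G) m (Lp.memLp (v n)), ae_ker (G := G) m h2]
      with ω a1 a2 a3
    exact ⟨a1, a2, a3⟩
  change IsNul m G w
  filter_upwards [hae, hall, memLp_ker (G := G) m (Lp.memLp w)] with ω h2 h3 h4 z hz
  have h5 : Tendsto (fun n => ∫⁻ x, F n x ∂(ker m G ω)) atTop (𝓝 0) :=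
    ENNReal.tendsto_atTop_zero_of_tsum_ne_top h2.ne
  set Z := (∫⁻ x, ‖z x‖ₑ ^ (2 : ℝ) ∂(ker m G ω)) ^ (1 / (2 : ℝ)) with hZ
  have hZtop : Z ≠ ∞ := by
    have := (eLpNorm_lt_top_iff_lintegral_rpow_enorm_lt_top two_ne_zero
      ENNReal.ofNat_ne_top).mp hz.1.2
    apply ENNReal.rpow_ne_top_of_nonneg (by norm_num)
    simpa using this.ne
  have key : ∀ n, ‖∫ x, w x * conj (z x) ∂(ker m G ω)‖ₑ
      ≤ (∫⁻ x, F n x ∂(ker m G ω)) ^ (1 / (2 : ℝ)) * Z := by
    intro n
    obtain ⟨a1, a2, a3⟩ := h3 n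
    have e1 : ∫ x, w x * conj (z x) ∂(ker m G ω)
        = ∫ x, (w - v n : Lp ℂ 2 m) x * conj (z x) ∂(ker m G ω) := by
      have e2 : ∫ x, (w - v n : Lp ℂ 2 m) x * conj (z x) ∂(ker m G ω)
          = ∫ x, (w x * conj (z x) - v n x * conj (z x)) ∂(ker m G ω) := by
        apply integral_congr_ae
        filter_upwards [a3] with x hx
        rw [hx]
        ring
      rw [e2, integral_sub (integrable_mul_conj h4 hz.1) (integrable_mul_conj a2 hz.1),
        a1 z hz, sub_zero]
    rw [e1]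
    refine (enorm_integral_le_lintegral_enorm _).trans ?_
    have e3 : ∀ x, ‖(w - v n : Lp ℂ 2 m) x * conj (z x)‖ₑ
        = (fun x => ‖(w - v n : Lp ℂ 2 m) x‖ₑ) x * (fun x => ‖z x‖ₑ) x := by
      intro x
      rw [enorm_mul]
      congr 1
      simp [enorm_eq_nnnorm]
    simp_rw [e3]
    exact ENNReal.lintegral_mul_le_Lp_mul_Lq (ker m G ω) Real.HolderConjugate.two_two
      (Lp.stronglyMeasurable (w - v n)).measurable.enorm.aemeasurable hz.1.1.enorm
  have h6 : Tendsto (fun n => (∫⁻ x, F n x ∂(ker m G ω)) ^ (1 / (2 : ℝ)) * Z) atTop (𝓝 0) := by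
    have h7 := h5.ennrpow_const (1 / (2 : ℝ))
    rw [ENNReal.zero_rpow_of_pos (by norm_num)] at h7
    have h8 := ENNReal.Tendsto.mul_const h7 (Or.inr hZtop)
    rw [zero_mul] at h8
    exact h8
  have h7 : ‖∫ x, w x * conj (z x) ∂(ker m G ω)‖ₑ ≤ 0 := ge_of_tendsto' h6 key
  exact enorm_eq_zero.mp (le_antisymm h7 zero_le)

/-- the coboundaries -/
def Cob (hG : ∀ g ∈ G, MeasurePreserving g m m) : Set (Lp ℂ 2 m) :=
  {w | ∃ (g : Ω ≃ᵐ Ω) (hg : g ∈ G) (u : Lp ℂ 2 m), w = Lp.compMeasurePreserving g (hG g hg) u - u}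

omit [StandardBorelSpace Ω] [IsProbabilityMeasure m] in
/-- elements orthogonal to the coboundaries are measurable for the invariant σ-algebra -/
lemma orth_meas (hc : G.Countable) (hG : ∀ g ∈ G, MeasurePreserving g m m)
    (hmul : ∀ g ∈ G, ∀ h ∈ G, g.trans h ∈ G) (hinv : ∀ g ∈ G, g.symm ∈ G)
    {x : Lp ℂ 2 m} (hx : x ∈ (Submodule.span ℂ (Cob m hG))ᗮ) :
    AEStronglyMeasurable[Inv G] (x : Ω → ℂ) m := by
  have h1 : ∀ g ∈ G, (fun ω => x (g ω)) =ᵐ[m] x := by
    intro g hg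
    set y := Lp.compMeasurePreserving g (hG g hg) x with hy
    have h2 : ⟪y - x, x⟫_ℂ = 0 := by
      apply hx
      exact Submodule.subset_span ⟨g, hg, x, rfl⟩
    have h3 : ‖y‖ = ‖x‖ := Lp.norm_compMeasurePreserving x (hG g hg)
    have h4 : ‖y - x‖ ^ 2 = 0 := by
      have h5 : ‖y - x‖ ^ 2 = ‖y‖ ^ 2 - 2 * RCLike.re ⟪y, x⟫_ℂ + ‖x‖ ^ 2 := norm_sub_sq y x
      have h6 : RCLike.re ⟪y, x⟫_ℂ = ‖x‖ ^ 2 := by
        rw [inner_sub_left, sub_eq_zero] at h2
        rw [h2, inner_self_eq_norm_sq]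
      rw [h5, h6, h3]
      ring
    have h5 : y = x := by
      have := (pow_eq_zero_iff two_ne_zero).mp h4
      exact sub_eq_zero.mp (norm_eq_zero.mp this)
    have h6 := Lp.coeFn_compMeasurePreserving x (hG g hg)
    rw [← hy, h5] at h6
    exact h6.symm
  set N : Set Ω := {ω | ∀ g ∈ G, x (g ω) = x ω} with hN
  have hxm : Measurable (x : Ω → ℂ) := (Lp.stronglyMeasurable x).measurable
  have hNm : MeasurableSet N := by
    have : N = ⋂ g ∈ G, {ω | x (g ω) = x ω} := by
      ext ω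
      simp [hN]
    rw [this]
    exact MeasurableSet.biInter hc
      (fun g _ => measurableSet_eq_fun (hxm.comp g.measurable) hxm)
  have hNae : ∀ᵐ ω ∂m, ω ∈ N := by
    have : ∀ᵐ ω ∂m, ∀ g ∈ G, x (g ω) = x ω := by
      rw [ae_ball_iff hc]
      intro g hg
      exact h1 g hg
    exact this
  have hNinv : ∀ g ∈ G, ∀ ω, (g ω ∈ N ↔ ω ∈ N) := by
    have hstep : ∀ g ∈ G, ∀ ω, ω ∈ N → g ω ∈ N := by
      intro g hg ω hω h hh
      have h2 : x (h (g ω)) = x ω := hω (g.trans h) (hmul g hg h hh)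
      rw [h2, hω g hg]
    intro g hg ω
    refine ⟨fun h => ?_, hstep g hg ω⟩
    have := hstep g.symm (hinv g hg) (g ω) h
    rwa [g.symm_apply_apply] at this
  have hφm : Measurable[Inv G] (N.indicator (x : Ω → ℂ)) := by
    apply measurable_inv (hxm.indicator hNm)
    intro g hg ω
    by_cases hω : ω ∈ N
    · rw [Set.indicator_of_mem hω, Set.indicator_of_mem ((hNinv g hg ω).mpr hω), hω g hg]
    · rw [Set.indicator_of_notMem hω,
        Set.indicator_of_notMem (fun h => hω ((hNinv g hg ω).mp h))]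
  refine ⟨N.indicator x, hφm.stronglyMeasurable, ?_⟩
  filter_upwards [hNae] with ω hω
  rw [Set.indicator_of_mem hω]

lemma sub_condExp_nul (hc : G.Countable) (hG : ∀ g ∈ G, MeasurePreserving g m m)
    (hmul : ∀ g ∈ G, ∀ h ∈ G, g.trans h ∈ G) (hinv : ∀ g ∈ G, g.symm ∈ G)
    {f : Ω → ℂ} (hf : MemLp f 2 m) :
    IsNul m G (fun ω => f ω - ∫ y, f y ∂(ker m G ω)) := by
  have : Fact (Inv G ≤ mΩ) := ⟨inv_le⟩
  set F : Lp ℂ 2 m := hf.toLp f with hF
  set P : Lp ℂ 2 m := (condExpL2 ℂ ℂ (inv_le (G := G)) F : Lp ℂ 2 m) with hP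
  have h1 : F - P ∈ (lpMeas ℂ ℂ (Inv G) 2 m)ᗮ := by
    have := (lpMeas ℂ ℂ (Inv G) 2 m).sub_starProjection_mem_orthogonal F
    exact this
  have h2 : (Submodule.span ℂ (Cob m hG))ᗮ ≤ lpMeas ℂ ℂ (Inv G) 2 m := by
    intro x hx
    rw [mem_lpMeas_iff_aestronglyMeasurable]
    exact orth_meas m hc hG hmul hinv hx
  have h3 : F - P ∈ (Submodule.span ℂ (Cob m hG))ᗮᗮ := Submodule.orthogonal_le h2 h1
  rw [Submodule.orthogonal_orthogonal_eq_closure] at h3
  have h4 : Submodule.span ℂ (Cob m hG) ≤ Nul m G := by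
    rw [Submodule.span_le]
    rintro w ⟨g, hg, u, rfl⟩
    exact cob_mem m hc hG hg u
  have h5 : F - P ∈ Nul m G :=
    (Submodule.topologicalClosure_minimal _ h4 (nul_closed m)) h3
  have h6 : IsNul m G ((F - P : Lp ℂ 2 m) : Ω → ℂ) := h5
  refine isNul_congr m ?_ h6
  have h7 : (P : Ω → ℂ) =ᵐ[m] m[f | Inv G] := hf.condExpL2_ae_eq_condExp inv_le
  have h8 := condExp_eq (G := G) m (memLp_one_iff_integrable.mp (hf.mono_exponent one_le_two))
  filter_upwards [Lp.coeFn_sub F P, hf.coeFn_toLp, h7, h8] with ω a1 a2 a3 a4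
  rw [a1, Pi.sub_apply, a3, a4]
  rw [hF, a2]

/-- product formula on a fixed set -/
lemma prod_formula (hc : G.Countable) (hG : ∀ g ∈ G, MeasurePreserving g m m)
    (hmul : ∀ g ∈ G, ∀ h ∈ G, g.trans h ∈ G) (hinv : ∀ g ∈ G, g.symm ∈ G)
    {B : Set Ω} (hB : MeasurableSet B) :
    ∀ᵐ ω ∂m, ∀ z, Good m G ω z → ∫ x in B, conj (z x) ∂(ker m G ω)
      = ((ker m G ω).real B : ℂ) * ∫ x, conj (z x) ∂(ker m G ω) := by
  set f : Ω → ℂ := B.indicator (fun _ => (1 : ℂ)) with hf
  have hfL : MemLp f 2 m := (memLp_const (1 : ℂ)).indicator hB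
  have hval : ∀ ω, ∫ y, f y ∂(ker m G ω) = ((ker m G ω).real B : ℂ) := by
    intro ω
    rw [hf, integral_indicator hB]
    simp [Measure.real]
  have hφ : Measurable[Inv G] (fun ω => ((ker m G ω).real B : ℂ)) := by
    have := (measurable_ker (G := G) m hB).ennreal_toReal
    exact Complex.measurable_ofReal.comp this
  filter_upwards [sub_condExp_nul m hc hG hmul hinv hfL, ker_inv_fun m hφ] with ω h1 h2 z hz
  have h3 := h1 z hz
  have h4 : ∫ x, (f x - ∫ y, f y ∂(ker m G x)) * conj (z x) ∂(ker m G ω)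
      = ∫ x, (f x * conj (z x) - ((ker m G ω).real B : ℂ) * conj (z x)) ∂(ker m G ω) := by
    apply integral_congr_ae
    filter_upwards [h2] with x hx
    rw [hval, hx]
    ring
  have hzi : Integrable (fun x => conj (z x)) (ker m G ω) :=
    memLp_one_iff_integrable.mp ((memLp_conj hz.1).mono_exponent one_le_two)
  have e1 : (fun x => f x * conj (z x)) = B.indicator (fun x => conj (z x)) := by
    ext x
    by_cases hx : x ∈ B
    · simp [hf, hx]
    · simp [hf, hx]
  have hi1 : Integrable (fun x => f x * conj (z x)) (ker m G ω) := by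
    rw [e1]
    exact hzi.indicator hB
  rw [h4, integral_sub hi1 (hzi.const_mul _), e1, integral_indicator hB,
    integral_const_mul, sub_eq_zero] at h3
  exact h3

/-- ergodicity of the components -/
lemma ker_erg (hc : G.Countable) (hG : ∀ g ∈ G, MeasurePreserving g m m)
    (hmul : ∀ g ∈ G, ∀ h ∈ G, g.trans h ∈ G) (hinv : ∀ g ∈ G, g.symm ∈ G) :
    ∀ᵐ ω ∂m, ∀ z, Good m G ω z → ∃ c : ℂ, z =ᵐ[ker m G ω] fun _ => c := by
  have h1 : ∀ᵐ ω ∂m, ∀ B ∈ Alg Ω, ∀ z, Good m G ω z → ∫ x in B, conj (z x) ∂(ker m G ω)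
      = ((ker m G ω).real B : ℂ) * ∫ x, conj (z x) ∂(ker m G ω) := by
    rw [ae_ball_iff alg_countable]
    intro B hB
    exact prod_formula m hc hG hmul hinv (alg_meas hB)
  filter_upwards [h1] with ω hω z hz
  set ν := ker m G ω with hν
  set c : ℂ := ∫ x, conj (z x) ∂ν with hcdef
  have hzi : Integrable (fun x => conj (z x)) ν :=
    memLp_one_iff_integrable.mp ((memLp_conj hz.1).mono_exponent one_le_two)
  have hint : Integrable (fun x => conj (z x) - c) ν := hzi.sub (integrable_const c)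
  have hbase : ∀ B ∈ Alg Ω, ∫ x in B, (conj (z x) - c) ∂ν = 0 := by
    intro B hB
    rw [integral_sub hzi.integrableOn (integrable_const c).integrableOn, hω B hB z hz]
    rw [integral_const, ← hcdef]
    simp [Measure.real]
  have hall : ∀ B : Set Ω, MeasurableSet B → ∫ x in B, (conj (z x) - c) ∂ν = 0 := by
    intro B hB
    refine MeasurableSpace.induction_on_inter
      (C := fun B _ => ∫ x in B, (conj (z x) - c) ∂ν = 0) alg_gen alg_pi ?_ ?_ ?_ ?_ B hB
    · simp
    · intro t ht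
      exact hbase t ht
    · intro t htm ih
      have h2 := integral_add_compl htm hint
      have h3 : ∫ x, (conj (z x) - c) ∂ν = 0 := by
        rw [integral_sub hzi (integrable_const c), integral_const, ← hcdef]
        simp
      rw [ih, h3, zero_add] at h2
      exact h2
    · intro f hd hm ih
      rw [integral_iUnion hm hd hint.integrableOn]
      simp [ih]
  have h2 := hint.ae_eq_zero_of_forall_setIntegral_eq_zero (fun s hs _ => hall s hs)
  refine ⟨conj c, ?_⟩
  filter_upwards [h2] with x hx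
  have h3 : conj (z x) = c := by
    have : conj (z x) - c = 0 := hx
    linear_combination this
  rw [← h3, Complex.conj_conj]

end Pool.Agent.H84.B.Erg

namespace Pool.Agent.H84.B

/-- existence of ergodic components -/
theorem erg : T_erg := by
  intro Ω _ _ m G hm hc _ hmul hinv hG
  refine ⟨Erg.ker m G, inferInstance, fun B hB => Erg.lintegral_ker m hB, ?_⟩
  filter_upwards [Erg.ker_mp m hc hG, Erg.ker_erg m hc hG hmul hinv] with ω h1 h2
  exact ⟨h1, fun f hf hinv' => h2 f ⟨hf, hinv'⟩⟩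

end Pool.Agent.H84.B
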