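import Mathlib

/-!
# Module ALG, abstract part (helper25)
-/

namespace Pool.Agent.H84.B

section Comb

variable {p : ℕ} [Fact p.Prime]

theorem alg_sum_range {N : Type*} [AddCommMonoid N] (f : ZMod p → N) :
    ∑ m ∈ Finset.range p, f (m : ZMod p) = ∑ r : ZMod p, f r := by
  have hp : 0 < p := (Fact.out : p.Prime).pos
  have : NeZero p := ⟨hp.ne'⟩
  refine Finset.sum_bij' (fun m _ => (m : ZMod p)) (fun r _ => r.val) ?_ ?_ ?_ ?_ ?_
  · intro m _; exact Finset.mem_univ _
  · intro r _; exact Finset.mem_range.mpr (ZMod.val_lt r)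
  · intro m hm
    exact ZMod.val_cast_of_lt (Finset.mem_range.mp hm)
  · intro r _
    exact ZMod.natCast_zmod_val r
  · intro m _; rfl

theorem alg_sum_affine {N : Type*} [AddCommMonoid N] (f : ZMod p → N) {u : ZMod p} (hu : u ≠ 0)
    (b : ZMod p) : ∑ m ∈ Finset.range p, f (u * (m : ZMod p) + b) = ∑ r : ZMod p, f r := by
  rw [alg_sum_range (fun r => f (u * r + b))]
  refine Fintype.sum_bijective (fun r => u * r + b) ?_ _ _ (fun r => rfl)
  refine Finite.injective_iff_bijective.mp ?_
  intro x y hxy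
  have h1 : u * x = u * y := add_right_cancel hxy
  exact mul_left_cancel₀ hu h1

/-- the number of representations -/
def algS (α k2 : ZMod p) (v : ZMod p → ℤ) : ℤ :=
  ∑ m ∈ Finset.range (p - 1), ∑ i ∈ Finset.range (m + 1),
    v (-(k2 * (m : ZMod p)) + α - α * (i : ZMod p))

theorem algS_shift {α k2 : ZMod p} (hk2 : k2 ≠ 0) (hk1 : k2 + α ≠ 0)
    (v : ZMod p → ℤ) : algS α k2 (fun r => v (r - α)) = algS α k2 v := by
  have hp : 0 < p := (Fact.out : p.Prime).pos
  have hp1 : p - 1 + 1 = p := Nat.sub_add_cancel hp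
  have hcast : ((p - 1 : ℕ) : ZMod p) = -1 := by
    have h : ((p - 1 + 1 : ℕ) : ZMod p) = 0 := by rw [hp1]; exact ZMod.natCast_self p
    rw [Nat.cast_add, Nat.cast_one] at h
    exact eq_neg_of_add_eq_zero_left h
  rw [← sub_eq_zero]
  unfold algS
  rw [← Finset.sum_sub_distrib]
  have h1 : ∀ m ∈ Finset.range (p - 1),
      (∑ i ∈ Finset.range (m + 1), v (-(k2 * (m : ZMod p)) + α - α * (i : ZMod p) - α)
        - ∑ i ∈ Finset.range (m + 1), v (-(k2 * (m : ZMod p)) + α - α * (i : ZMod p)))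
      = v (-(k2 + α) * (m : ZMod p) + 0) - v (-k2 * (m : ZMod p) + α) := by
    intro m _
    rw [← Finset.sum_sub_distrib]
    have h2 := Finset.sum_range_sub
      (fun i : ℕ => v (-(k2 * (m : ZMod p)) + α - α * (i : ZMod p))) (m + 1)
    have h3 : ∀ i ∈ Finset.range (m + 1),
        v (-(k2 * (m : ZMod p)) + α - α * (i : ZMod p) - α)
          - v (-(k2 * (m : ZMod p)) + α - α * (i : ZMod p))
        = v (-(k2 * (m : ZMod p)) + α - α * ((i + 1 : ℕ) : ZMod p))
          - v (-(k2 * (m : ZMod p)) + α - α * (i : ZMod p)) := by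
      intro i _
      congr 2
      push_cast
      ring
    rw [Finset.sum_congr rfl h3, h2]
    congr 2
    · push_cast; ring
    · push_cast; ring
  rw [Finset.sum_congr rfl h1, Finset.sum_sub_distrib]
  have h4 := alg_sum_affine v (u := -(k2 + α)) (neg_ne_zero.mpr hk1) 0
  have h5 := alg_sum_affine v (u := -k2) (neg_ne_zero.mpr hk2) α
  have hrange : Finset.range p = Finset.range (p - 1 + 1) := by rw [hp1]
  rw [hrange, Finset.sum_range_succ] at h4 h5
  rw [hcast] at h4 h5
  have e1 : -(k2 + α) * (-1 : ZMod p) + 0 = k2 + α := by ring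
  have e2 : -k2 * (-1 : ZMod p) + α = k2 + α := by ring
  rw [e1] at h4
  rw [e2] at h5
  linarith

theorem algS_const {α k2 : ZMod p} (hα : α ≠ 0) (hk2 : k2 ≠ 0) (hk1 : k2 + α ≠ 0)
    (r : ZMod p) : algS α k2 (fun x => if x = r then 1 else 0)
      = algS α k2 (fun x => if x = 0 then 1 else 0) := by
  have hp : 0 < p := (Fact.out : p.Prime).pos
  have : NeZero p := ⟨hp.ne'⟩
  have hstep : ∀ s : ZMod p, algS α k2 (fun x => if x = s + α then 1 else 0)
      = algS α k2 (fun x => if x = s then 1 else 0) := by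
    intro s
    rw [← algS_shift hk2 hk1 (fun x => if x = s then 1 else 0)]
    congr 1
    ext x
    simp only [sub_eq_iff_eq_add]
  have hall : ∀ n : ℕ, algS α k2 (fun x => if x = (n : ZMod p) * α then 1 else 0)
      = algS α k2 (fun x => if x = 0 then 1 else 0) := by
    intro n
    induction n with
    | zero => simp
    | succ n ih =>
      rw [← ih, ← hstep ((n : ZMod p) * α)]
      congr 1
      ext x
      push_cast
      rw [add_mul, one_mul]
  have h := hall (r * α⁻¹).val
  rw [ZMod.natCast_zmod_val, mul_assoc, inv_mul_cancel₀ hα, mul_one] at h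
  exact h

/-- the combinatorial identity -/
theorem alg_comb {N : Type*} [AddCommGroup N] {α k2 : ZMod p} (hα : α ≠ 0) (hk2 : k2 ≠ 0)
    (hk1 : k2 + α ≠ 0) (v : ZMod p → N) (hv : ∑ r : ZMod p, v r = 0) :
    ∑ m ∈ Finset.range (p - 1), ∑ i ∈ Finset.range (m + 1),
      v (-(k2 * (m : ZMod p)) + α - α * (i : ZMod p)) = 0 := by
  have h1 : ∀ x : ZMod p, v x = ∑ r : ZMod p, (if x = r then (1 : ℤ) else 0) • v r := by
    intro x
    rw [Finset.sum_eq_single x]
    · simp
    · intro r _ hr
      rw [if_neg (Ne.symm hr), zero_smul]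
    · intro h; exact absurd (Finset.mem_univ x) h
  have h2 : ∑ m ∈ Finset.range (p - 1), ∑ i ∈ Finset.range (m + 1),
      v (-(k2 * (m : ZMod p)) + α - α * (i : ZMod p))
      = ∑ r : ZMod p, algS α k2 (fun x => if x = r then 1 else 0) • v r := by
    unfold algS
    simp_rw [Finset.sum_smul]
    rw [Finset.sum_comm]
    refine Finset.sum_congr rfl fun m _ => ?_
    rw [Finset.sum_comm]
    refine Finset.sum_congr rfl fun i _ => ?_
    exact h1 _
  rw [h2]
  simp_rw [algS_const hα hk2 hk1]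
  rw [← Finset.smul_sum, hv, smul_zero]

end Comb

section Core

variable {Λ : Type*} [CommRing Λ] {N : Type*} [AddCommGroup N]

/-- an action `X` with a symmetric bi-cocycle `M` -/
structure AlgBi (X : Λ → N →+ N) (M : Λ → Λ → N) : Prop where
  zero : ∀ x, X 0 x = x
  add : ∀ g h x, X (g + h) x = X g (X h x)
  symm : ∀ g d, M g d = M d g
  coc : ∀ g g' d, M (g + g') d = M g d + X g (M g' d)

/-- the left side of (5g) -/
def algF (X : Λ → N →+ N) (M : Λ → Λ → N) (k1 k2 : Λ) : Λ → List Λ → N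
  | _, [] => 0
  | s, g :: L => X (-(k2 * s) + (k1 - k2) * g) (M (-((k1 - k2) * (s + g))) (-(k1 * g)))
      + algF X M k1 k2 (s + g) L

/-- the left side of (E1) -/
def algG (X : Λ → N →+ N) (M : Λ → Λ → N) (k1 k2 x : Λ) : Λ → List Λ → N
  | _, [] => 0
  | s, g :: L => X (-(k2 * s) + (k1 - k2) * g) (M x (-(k1 * g)))
      + algG X M k1 k2 x (s + g) L

/-- admissible lists -/
def AlgAdm {p : ℕ} (ρ : Λ →+* ZMod p) (L : List Λ) (t : ℕ) : Prop :=
  (∀ g ∈ L, ρ g = 0 ∨ ρ g = 1) ∧ (ρ (-L.sum) = 0 ∨ ρ (-L.sum) = 1) ∧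
    (L.countP (fun g => decide (ρ g = 1))) + (if ρ (-L.sum) = 1 then 1 else 0) = p * t

variable {X : Λ → N →+ N} {M : Λ → Λ → N} {k1 k2 : Λ}

theorem algF_shift (h : AlgBi X M) (c : Λ) (L : List Λ) : ∀ s : Λ,
    algF X M k1 k2 (c + s) L
      = X (-(k2 * c)) (algG X M k1 k2 (-((k1 - k2) * c)) s L) + X (-(k1 * c)) (algF X M k1 k2 s L) := by
  induction L with
  | nil => intro s; simp [algF, algG]
  | cons g L ih =>
    intro s
    rw [algF, algF, algG, add_assoc c s g, ih (s + g)]
    have e1 : -((k1 - k2) * (c + (s + g))) = -((k1 - k2) * c) + -((k1 - k2) * (s + g)) := by ring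
    rw [e1, h.coc, map_add, map_add, map_add]
    have e2 : -(k2 * (c + s)) + (k1 - k2) * g = -(k2 * c) + (-(k2 * s) + (k1 - k2) * g) := by ring
    rw [e2, h.add, ← h.add _ (-((k1 - k2) * c))]
    have e3 : -(k2 * c) + (-(k2 * s) + (k1 - k2) * g) + -((k1 - k2) * c)
      = -(k1 * c) + (-(k2 * s) + (k1 - k2) * g) := by ring
    rw [e3, h.add (-(k1 * c))]
    abel

theorem algG_append (x : Λ) (L₁ L₂ : List Λ) : ∀ s : Λ,
    algG X M k1 k2 x s (L₁ ++ L₂)
      = algG X M k1 k2 x s L₁ + algG X M k1 k2 x (s + L₁.sum) L₂ := by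
  induction L₁ with
  | nil => intro s; simp [algG]
  | cons g L ih =>
    intro s
    rw [List.cons_append, algG, algG, ih, List.sum_cons, add_assoc s g, add_assoc]

theorem AlgBi.inj (h : AlgBi X M) {g : Λ} {x : N} (hx : X g x = 0) : x = 0 := by
  have h1 := h.add (-g) g x
  rw [neg_add_cancel, h.zero, hx, map_zero] at h1
  exact h1

theorem AlgBi.coc' (h : AlgBi X M) (g d d' : Λ) : M g (d + d') = M g d + X d (M g d') := by
  rw [h.symm g, h.coc, h.symm d, h.symm d']

theorem AlgBi.zero_right (h : AlgBi X M) (g : Λ) : M g 0 = 0 := by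
  have h1 := h.coc' g 0 0
  rw [add_zero, h.zero] at h1
  exact left_eq_add.mp h1

/-- **The abstract core of the algebraic lemma.** -/
theorem alg_core {p : ℕ} [Fact p.Prime] (ρ : Λ →+* ZMod p) (h : AlgBi X M) {κ : N}
    (hκ : ∀ g, X g κ = κ) (hk1 : IsUnit k1) (hk2 : IsUnit k2) (ha : IsUnit (k1 - k2))
    (H5 : ∀ (L : List Λ) (t : ℕ), AlgAdm ρ L t → algF X M k1 k2 0 L = t • κ) : κ = 0 := by
  have hp : 0 < p := (Fact.out : p.Prime).pos
  have hp1 : p - 1 + 1 = p := Nat.sub_add_cancel hp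
  obtain ⟨u1, hu1⟩ := hk1.exists_right_inv
  obtain ⟨ua, hua⟩ := ha.exists_right_inv
  have h01 : (0 : ZMod p) ≠ 1 := zero_ne_one
  -- Step D
  have hD : ∀ x y : Λ, ρ x = 0 → ρ y = 0 → M x y = 0 := by
    have hD1 : ∀ g : Λ, ρ g = 0 → M (-((k1 - k2) * g)) (-(k1 * g)) = 0 := by
      intro g hg
      have := H5 [g] 0 ⟨by simpa using Or.inl hg, by simp [hg], by simp [hg]⟩
      simp only [algF, zero_add, mul_zero, neg_zero, add_zero, zero_smul] at this
      exact h.inj this
    have hD2 : ∀ g g' : Λ, ρ g = 0 → ρ g' = 0 → M (-((k1 - k2) * (g + g'))) (-(k1 * g')) = 0 := by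
      intro g g' hg hg'
      have := H5 [g, g'] 0 ⟨by simp [hg, hg'], by simp [hg, hg'], by simp [hg, hg']⟩
      simp only [algF, zero_add, mul_zero, neg_zero, add_zero, zero_smul] at this
      rw [hD1 g hg, map_zero, zero_add] at this
      exact h.inj this
    intro x y hx hy
    have h1 := hD2 (-(ua * x) + u1 * y) (-(u1 * y)) (by simp [hx, hy]) (by simp [hy])
    have e1 : -((k1 - k2) * (-(ua * x) + u1 * y + -(u1 * y))) = ((k1 - k2) * ua) * x := by ring
    have e2 : -(k1 * -(u1 * y)) = (k1 * u1) * y := by ring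
    rw [e1, e2, hua, hu1, one_mul, one_mul] at h1
    exact h1
  -- (E1)
  have hE1 : ∀ (x : Λ) (L : List Λ) (t : ℕ), ρ x = 0 → AlgAdm ρ L t →
      algG X M k1 k2 x 0 L = 0 := by
    intro x L t hx hL
    set c : Λ := -(ua * x) with hc
    have hρc : ρ c = 0 := by simp [hc, hx]
    have hadm : AlgAdm ρ (c :: L) t := by
      obtain ⟨h1, h2, h3⟩ := hL
      have e : ρ (-(c :: L).sum) = ρ (-L.sum) := by
        rw [List.sum_cons, neg_add, map_add, map_neg ρ c, hρc, neg_zero, zero_add]
      refine ⟨?_, ?_, ?_⟩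
      · intro g hg
        rcases List.mem_cons.mp hg with rfl | hg
        · exact Or.inl hρc
        · exact h1 g hg
      · rw [e]; exact h2
      · rw [e, List.countP_cons]
        simp only [hρc, h01, decide_false, Bool.false_eq_true, if_false, add_zero]
        exact h3
    have f1 := H5 _ _ hadm
    have f2 := H5 _ _ hL
    rw [algF] at f1
    simp only [mul_zero, neg_zero, zero_add] at f1
    rw [hD (-((k1 - k2) * c)) (-(k1 * c)) (by simp [hρc]) (by simp [hρc]), map_zero, zero_add] at f1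
    have f3 := algF_shift (k1 := k1) (k2 := k2) h c L 0
    rw [add_zero, f1, f2, map_nsmul, hκ] at f3
    have f4 : X (-(k2 * c)) (algG X M k1 k2 (-((k1 - k2) * c)) 0 L) = 0 := by
      have := f3
      exact left_eq_add.mp (by rw [add_comm]; exact f3)
    have f5 := h.inj f4
    have e1 : -((k1 - k2) * c) = ((k1 - k2) * ua) * x := by rw [hc]; ring
    rw [e1, hua, one_mul] at f5
    exact f5
  -- the two admissible lists
  have hcast : ((p - 1 : ℕ) : ZMod p) = -1 := by
    have h : ((p - 1 + 1 : ℕ) : ZMod p) = 0 := by rw [hp1]; exact ZMod.natCast_self p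
    rw [Nat.cast_add, Nat.cast_one] at h
    exact eq_neg_of_add_eq_zero_left h
  have hρsum : ρ (List.replicate (p - 1) (1 : Λ)).sum = -1 := by
    rw [List.sum_replicate, nsmul_eq_mul, mul_one, map_natCast, hcast]
  have hL1 : AlgAdm ρ (List.replicate (p - 1) (1 : Λ)) 1 := by
    refine ⟨?_, ?_, ?_⟩
    · intro g hg
      rw [(List.mem_replicate.mp hg).2]
      right; exact map_one ρ
    · right
      rw [map_neg, hρsum, neg_neg]
    · rw [map_neg, hρsum, neg_neg, if_pos rfl, List.countP_replicate, if_pos (by simp), hp1, mul_one]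
  have hL2 : ∀ g : Λ, ρ g = 1 → AlgAdm ρ (List.replicate (p - 1) (1 : Λ) ++ [g]) 1 := by
    intro g hg
    have e : ρ (-(List.replicate (p - 1) (1 : Λ) ++ [g]).sum) = 0 := by
      rw [map_neg, List.sum_append, map_add, hρsum, List.sum_singleton, hg]
      simp
    refine ⟨?_, Or.inl e, ?_⟩
    · intro x hx
      rcases List.mem_append.mp hx with hx | hx
      · rw [(List.mem_replicate.mp hx).2]
        right; exact map_one ρ
      · rw [List.mem_singleton.mp hx]
        right; exact hg
    · rw [e, if_neg h01, List.countP_append, List.countP_replicate, if_pos (by simp)]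
      simp [hg, hp1]
  -- Step E
  have hE : ∀ x y : Λ, ρ x = 0 → M x y = 0 := by
    intro x y hx
    have h1 : ∀ g : Λ, ρ g = 1 → M x (-(k1 * g)) = 0 := by
      intro g hg
      have f1 := hE1 x _ 1 hx hL1
      have f2 := hE1 x _ 1 hx (hL2 g hg)
      rw [algG_append, f1, zero_add, algG, algG, add_zero] at f2
      exact h.inj f2
    have h2 : ∀ (n : ℕ) (c : Λ), ρ c = 0 → M x (-(k1 * ((n : Λ) + c))) = 0 := by
      intro n
      induction n with
      | zero =>
        intro c hc
        exact hD _ _ hx (by simp [hc])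
      | succ n ih =>
        intro c hc
        have e : -(k1 * (((n + 1 : ℕ) : Λ) + c)) = -(k1 * 1) + -(k1 * ((n : Λ) + c)) := by
          push_cast; ring
        rw [e, h.coc', h1 1 (map_one ρ), ih c hc, map_zero, add_zero]
    have hNe : NeZero p := ⟨hp.ne'⟩
    set z : Λ := -(u1 * y) with hz
    have h3 := h2 (ρ z).val (z - ((ρ z).val : Λ)) (by
      rw [map_sub, map_natCast, ZMod.natCast_zmod_val, sub_self])
    have e : -(k1 * (((ρ z).val : Λ) + (z - ((ρ z).val : Λ)))) = (k1 * u1) * y := by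
      rw [hz]; ring
    rw [e, hu1, one_mul] at h3
    exact h3
  -- Step F
  set a : Λ := k1 - k2 with haa
  set w : N := M (-a) (-k1) with hw
  have hinv : ∀ c : Λ, ρ c = 0 → X c w = w := by
    intro c hc
    have f1 := h.coc c (-a) (-k1)
    have f2 := h.coc (-a) c (-k1)
    rw [hE c _ hc, zero_add] at f1
    rw [hE c _ hc, map_zero, add_zero, add_comm] at f2
    rw [hw, ← f1, f2]
  have hNe : NeZero p := ⟨hp.ne'⟩
  set v : ZMod p → N := fun r => X ((r.val : ℕ) : Λ) w with hv
  have hXv : ∀ g : Λ, X g w = v (ρ g) := by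
    intro g
    have e : g = (((ρ g).val : ℕ) : Λ) + (g - (((ρ g).val : ℕ) : Λ)) := by ring
    have f : ρ (g - (((ρ g).val : ℕ) : Λ)) = 0 := by
      rw [map_sub, map_natCast, ZMod.natCast_zmod_val, sub_self]
    conv_lhs => rw [e, h.add, hinv _ f]
  have hMn : ∀ n : ℕ, M (-(a * (n : Λ))) (-k1) = ∑ i ∈ Finset.range n, X (-(a * (i : Λ))) w := by
    intro n
    induction n with
    | zero =>
      rw [Nat.cast_zero, mul_zero, neg_zero, h.symm, h.zero_right, Finset.sum_range_zero]
    | succ n ih =>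
      rw [Finset.sum_range_succ, ← ih]
      have e : -(a * ((n + 1 : ℕ) : Λ)) = -(a * (n : Λ)) + -a := by push_cast; ring
      rw [e, h.coc]
  have hFrep : ∀ (n : ℕ) (s : Λ), algF X M k1 k2 s (List.replicate n 1)
      = ∑ m ∈ Finset.range n, X (-(k2 * (s + (m : Λ))) + a) (M (-(a * (s + (m : Λ) + 1))) (-k1)) := by
    intro n
    induction n with
    | zero => intro s; simp [algF]
    | succ n ih =>
      intro s
      rw [List.replicate_succ, algF, ih, Finset.sum_range_succ']
      rw [add_comm]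
      congr 1
      · refine Finset.sum_congr rfl fun m _ => ?_
        push_cast
        congr 2
        · ring_nf
        · ring_nf
      · push_cast
        rw [← haa]
        simp only [mul_one, add_zero]
  have hκ2 : κ = ∑ m ∈ Finset.range (p - 1), ∑ i ∈ Finset.range (m + 1),
      v (-(ρ k2 * (m : ZMod p)) + ρ a - ρ a * (i : ZMod p)) := by
    have f1 := H5 _ 1 hL1
    rw [one_smul, hFrep] at f1
    rw [← f1]
    refine Finset.sum_congr rfl fun m _ => ?_
    rw [zero_add]
    have e : -(a * ((m : Λ) + 1)) = -(a * (((m + 1 : ℕ)) : Λ)) := by push_cast; ring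
    rw [e, hMn, map_sum]
    refine Finset.sum_congr rfl fun i _ => ?_
    rw [← h.add, hXv]
    congr 1
    simp only [map_add, map_neg, map_mul, map_natCast]
    ring
  have hαu : ρ a ≠ 0 := (ha.map ρ).ne_zero
  have hk2u : ρ k2 ≠ 0 := (hk2.map ρ).ne_zero
  have hk1u : ρ k2 + ρ a ≠ 0 := by
    have e : ρ k2 + ρ a = ρ k1 := by rw [haa, map_sub]; ring
    rw [e]
    exact (hk1.map ρ).ne_zero
  have hsum : ∑ r : ZMod p, v r = 0 := by
    have f1 := hMn p
    rw [hE _ _ (by simp)] at f1
    rw [← alg_sum_affine v (u := -ρ a) (neg_ne_zero.mpr hαu) 0, f1]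
    refine Finset.sum_congr rfl fun i _ => ?_
    rw [hXv]
    congr 1
    simp
  rw [hκ2]
  exact alg_comb hαu hk2u hk1u v hsum

end Core

end Pool.Agent.H84.B
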