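import Pool.Agent.H84.B.Defs

/-!
# Target statements for the modules of MP_02e9fb_an

Every `T_xxx : Prop` below is to be proved as a theorem (`theorem xxx : T_xxx`) in its own file,
see the table `be_modules` in the team database and the note with the paper proof.
-/

open scoped ComplexConjugate InnerProductSpace
open Filter Topology MeasureTheory

namespace Pool.Agent.H84.B

/-! ## PERM: finitary permutations and copies -/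

/-- an injective map on a finite set extends to a finitary permutation, the identity off
`s ∪ f(s)` -/
def T_perm_extend : Prop := ∀ (s : Finset ℕ) (f : ℕ → ℕ), Set.InjOn f s →
  ∃ σ : FP, (∀ i ∈ s, σ.1 i = f i) ∧ (∀ i, i ∉ s → i ∉ s.image f → σ.1 i = i)

/-- disjoint copies off `B` exist -/
def T_copies : Prop := ∀ (Λ : Type) [CommRing Λ] (y : Y Λ) (B : Finset ℕ) (N : ℕ),
  ∃ c : Fin N → Y Λ, (∀ n, IsCopy y (c n)) ∧ (∀ n, Off (c n) B) ∧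
    ∀ n n', n ≠ n' → Dsj (c n) (c n')

/-- two disjoint families off `B` with the same shapes are conjugate under a finitary permutation
fixing `B` pointwise -/
def T_conj : Prop := ∀ (Λ : Type) [CommRing Λ] (B : Finset ℕ) (N : ℕ) (c c' : Fin N → Y Λ),
  (∀ n, IsCopy (c n) (c' n)) → (∀ n, Off (c n) B) → (∀ n, Off (c' n) B) →
  (∀ n n', n ≠ n' → Dsj (c n) (c n')) → (∀ n n', n ≠ n' → Dsj (c' n) (c' n')) →
  ∃ σ : FP, (∀ i ∈ B, σ.1 i = i) ∧ ∀ n, c' n = pY σ (c n)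

/-- elementary facts on `pY`, `IsCopy` and `hh` -/
def T_hh : Prop := ∀ (Λ : Type) [CommRing Λ],
  (∀ (σ : FP) (y y' : Y Λ), pY σ (y + y') = pY σ y + pY σ y') ∧
  (∀ (σ : FP) (k : Λ) (y : Y Λ), pY σ (k • y) = k • pY σ y) ∧
  (∀ (σ : FP) (y : Y Λ), pY σ (-y) = -pY σ y) ∧
  (∀ (σ τ : FP) (y : Y Λ), pY (σ * τ) y = pY σ (pY τ y)) ∧
  (∀ (y : Y Λ), pY 1 y = y) ∧
  (∀ (y : Y Λ), IsCopy y y) ∧ (∀ (y y' : Y Λ), IsCopy y y' → IsCopy y' y) ∧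
  (∀ (y y' y'' : Y Λ), IsCopy y y' → IsCopy y' y'' → IsCopy y y'') ∧
  (∀ (k : Λ) (y y' : Y Λ), IsCopy y y' → IsCopy (k • y) (k • y')) ∧
  (∀ (σ : FP) (y : Y Λ), (∀ i, y.1 i ≠ 0 → σ.1 i = i) → pY σ y = y) ∧
  (∀ (p : ℕ) (β : ℕ → Λ) (o m : ℕ), IsCopy (hh p β 0 m) (hh p β o m)) ∧
  (∀ (p : ℕ) (b : Λ) (o i : ℕ), (Dblk p b o).1 i ≠ 0 → o ≤ i ∧ i < o + (p + 1)) ∧
  (∀ (p : ℕ) (β : ℕ → Λ) (o m i : ℕ), (hh p β o m).1 i ≠ 0 → o ≤ i ∧ i < o + (p + 1) * m) ∧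
  (∀ (p : ℕ) (β : ℕ → Λ) (o m : ℕ),
    hh p β o (m + 1) = hh p β o m + Dblk p (β m) (o + (p + 1) * m))

/-- admissibility and units -/
def T_adm : Prop := ∀ (Λ : Type) [CommRing Λ] (p : ℕ) [Fact p.Prime] (ρ : Λ →+* ZMod p),
  (∀ (σ : FP) (y : Y Λ), Adm ρ (pY σ y) ↔ Adm ρ y) ∧
  (∀ (σ : FP) (y : Y Λ), units ρ (pY σ y) = units ρ y) ∧
  (∀ (y y' : Y Λ), Dsj y y' → Adm ρ y → Adm ρ y' → Adm ρ (y + y')) ∧
  (∀ (y y' : Y Λ), Dsj y y' → units ρ (y + y') = units ρ y + units ρ y') ∧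
  (∀ (b : Λ) (o : ℕ), ρ b = 1 → Adm ρ (Dblk p b o) ∧ units ρ (Dblk p b o) = p) ∧
  (∀ (β : ℕ → Λ) (o m : ℕ), (∀ l, ρ (β l) = 1) →
    Adm ρ (hh p β o m) ∧ units ρ (hh p β o m) = p * m) ∧
  (∀ (y : Y Λ), Adm ρ y → p ∣ units ρ y)

/-! ## HIL: Hilbert space facts for `Rep` -/

/-- elementary invariance properties -/
def T_basic : Prop := ∀ (Λ : Type) [CommRing Λ] (H : Type) [NormedAddCommGroup H]
    [InnerProductSpace ℂ H] [CompleteSpace H] (R : Rep Λ H),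
  (∀ B B' : Finset ℕ, B ⊆ B' → R.HB B ≤ R.HB B') ∧
  (∀ B B' : Finset ℕ, B ⊆ B' → R.RB B ≤ R.RB B') ∧
  (∀ (B : Finset ℕ) (c : Y Λ) (z : H), c.1.support ⊆ B → z ∈ R.HB B → R.U c z ∈ R.HB B) ∧
  (∀ (B : Finset ℕ) (c : Y Λ) (z : H), c.1.support ⊆ B → z ∈ R.RB B → R.U c z ∈ R.RB B) ∧
  (∀ (B : Finset ℕ) (σ : FP) (z : H), z ∈ R.HB B → R.V σ z ∈ R.HB (B.map σ.1.toEmbedding)) ∧
  (∀ (B : Finset ℕ) (σ : FP) (z : H), z ∈ R.RB B → R.V σ z ∈ R.RB (B.map σ.1.toEmbedding)) ∧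
  (∀ (B : Finset ℕ) (σ : FP) (z : H), R.V σ (R.PH B z) = R.PH (B.map σ.1.toEmbedding) (R.V σ z)) ∧
  (∀ (B : Finset ℕ) (σ : FP) (z : H), R.V σ (R.PR B z) = R.PR (B.map σ.1.toEmbedding) (R.V σ z)) ∧
  (∀ (B : Finset ℕ) (c : Y Λ) (z : H), c.1.support ⊆ B → R.U c (R.PH B z) = R.PH B (R.U c z)) ∧
  (∀ (B : Finset ℕ) (c : Y Λ) (z : H), c.1.support ⊆ B → R.U c (R.PR B z) = R.PR B (R.U c z)) ∧
  (∀ (B : Finset ℕ) (y : Y Λ) (z : H), Off y B → R.PR B (R.U y z) = R.PR B z) ∧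
  (∀ (B : Finset ℕ) (z : H), R.PR B (R.PH B z) = R.PR B z)

/-- independence: `H_B` and `H_{B'}` are orthogonal over `H_{B ∩ B'}` -/
def T_indep : Prop := ∀ (Λ : Type) [CommRing Λ] (H : Type) [NormedAddCommGroup H]
    [InnerProductSpace ℂ H] [CompleteSpace H] (R : Rep Λ H) (B B' : Finset ℕ) (w : H),
  w ∈ R.HB B' → R.PH B w = R.PH (B ∩ B') w

/-- multiplicativity on disjoint elements off `B`, and dependence on the copy class only -/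
def T_mult : Prop := ∀ (Λ : Type) [CommRing Λ] (H : Type) [NormedAddCommGroup H]
    [InnerProductSpace ℂ H] [CompleteSpace H] (R : Rep Λ H) (B : Finset ℕ),
  (∀ (y y' : Y Λ) (z : H), z ∈ R.HB B → Off y B → Off y' B → Dsj y y' →
    R.PH B (R.U (y + y') z) = R.PH B (R.U y (R.PH B (R.U y' z)))) ∧
  (∀ (y y' : Y Λ) (z : H), z ∈ R.HB B → Off y B → Off y' B → IsCopy y y' →
    R.PH B (R.U y' z) = R.PH B (R.U y z)) ∧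
  (∀ (X : Finset ℕ) (y : Y Λ) (z : H), B ⊆ X → z ∈ R.HB X → Off y X →
    R.PH B (R.U y z) = R.PH B (R.U y (R.PH B z)))

/-- the main limit: `PH_B U_{k y} z → PR_B z` along copies `y` of `h^{(m)}` off `B` -/
def T_PRlim : Prop := ∀ (Λ : Type) [CommRing Λ] (H : Type) [NormedAddCommGroup H]
    [InnerProductSpace ℂ H] [CompleteSpace H] (R : Rep Λ H) (p : ℕ) [Fact p.Prime]
    (ρ : Λ →+* ZMod p) (β : ℕ → Λ) (k : Λ) (B : Finset ℕ) (z : H) (ε : ℝ),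
  Exh ρ β → IsUnit k → z ∈ R.HB B → 0 < ε →
  ∃ M, ∀ m ≥ M, ∀ y' : Y Λ, IsCopy (hh p β 0 m) y' → Off y' B →
    ‖R.PH B (R.U (k • y') z) - R.PR B z‖ ≤ ε

/-- consequence for differences of two disjoint copies -/
def T_bblim : Prop := ∀ (Λ : Type) [CommRing Λ] (H : Type) [NormedAddCommGroup H]
    [InnerProductSpace ℂ H] [CompleteSpace H] (R : Rep Λ H) (p : ℕ) [Fact p.Prime]
    (ρ : Λ →+* ZMod p) (β : ℕ → Λ) (k : Λ) (B : Finset ℕ) (x y : H) (ε : ℝ),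
  Exh ρ β → IsUnit k → x ∈ R.HB B → y ∈ R.HB B → 0 < ε →
  ∃ M, ∀ m ≥ M, ∀ g g' : Y Λ, IsCopy (hh p β 0 m) g → IsCopy (hh p β 0 m) g' →
    Off g B → Off g' B → Dsj g g' →
    ‖⟪y, R.U (k • (g' - g)) x⟫_ℂ - ⟪R.PR B y, R.PR B x⟫_ℂ‖ ≤ ε

/-! ## PB: facts for `Sys` -/

/-- calculus of `Bd` and `tr` -/
def T_Bd : Prop := ∀ (Λ : Type) [CommRing Λ] (A : Type) [CommRing A] [StarRing A] [Algebra ℂ A]
    [StarModule ℂ A] (H : Type) [NormedAddCommGroup H] [InnerProductSpace ℂ H] [CompleteSpace H]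
    (S : Sys Λ A H),
  (∀ a b : A, S.tr (star a * b) = ⟪S.ι a, S.ι b⟫_ℂ) ∧
  (∀ a : A, S.tr (star a) = conj (S.tr a)) ∧
  (∀ a : A, ∃ C, S.Bd C a) ∧
  (∀ C (a : A), S.Bd C a → ‖S.ι a‖ ≤ C) ∧
  (∀ C (a : A), S.Bd C a → S.Bd C (star a)) ∧
  (∀ C D (a b : A), S.Bd C a → S.Bd D b → S.Bd (C * D) (a * b)) ∧
  (∀ C D (a b : A), S.Bd C a → S.Bd D b → S.Bd (C + D) (a + b)) ∧
  (∀ C D (a : A), S.Bd C a → C ≤ D → S.Bd D a) ∧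
  (∀ (c : ℂ) C (a : A), S.Bd C a → S.Bd (‖c‖ * C) (c • a)) ∧
  (∀ C (a : A) (y : Y Λ), S.Bd C a → S.Bd C (S.UA y a)) ∧
  (∀ C (a : A) (σ : FP), S.Bd C a → S.Bd C (S.VA σ a)) ∧
  (∀ a : A, a * star a = 1 → S.Bd 1 a) ∧
  (∀ a : A, star a = a → a * a = a → S.Bd 1 a) ∧
  (∀ (B : Finset ℕ) (a b : A), S.ι a ∈ S.HB B → S.ι b ∈ S.HB B → S.ι (a * b) ∈ S.HB B) ∧
  (∀ (B : Finset ℕ) (a : A), S.ι a ∈ S.HB B → S.ι (star a) ∈ S.HB B) ∧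
  (∀ (B : Finset ℕ) (a b : A), S.ι a ∈ S.RB B → S.ι b ∈ S.RB B → S.ι (a * b) ∈ S.RB B) ∧
  (∀ (B : Finset ℕ) (a : A), S.ι a ∈ S.RB B → S.ι (star a) ∈ S.RB B) ∧
  (∀ (B : Finset ℕ), S.ι 1 ∈ S.RB B) ∧
  (∀ a : A, S.UA 0 a = a) ∧ (∀ (y y' : Y Λ) (a : A), S.UA (y + y') a = S.UA y (S.UA y' a)) ∧
  (∀ (σ : FP) (y : Y Λ) (a : A), S.VA σ (S.UA y a) = S.UA (pY σ y) (S.VA σ a)) ∧
  (∀ (y : Y Λ) (a : A), S.tr (S.UA y a) = S.tr a) ∧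
  (∀ (σ : FP) (a : A), S.tr (S.VA σ a) = S.tr a)

/-- the conditional expectations on the level of `A` -/
def T_cond : Prop := ∀ (Λ : Type) [CommRing Λ] (A : Type) [CommRing A] [StarRing A] [Algebra ℂ A]
    [StarModule ℂ A] (H : Type) [NormedAddCommGroup H] [InnerProductSpace ℂ H] [CompleteSpace H]
    (S : Sys Λ A H) (B : Finset ℕ),
  (∀ C (a : A), S.Bd C a → ∃ a' : A, S.ι a' = S.PH B (S.ι a) ∧ S.Bd C a') ∧
  (∀ C (a : A), S.Bd C a → ∃ a' : A, S.ι a' = S.PR B (S.ι a) ∧ S.Bd C a') ∧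
  (∀ a a' : A, S.ι a' = S.PH B (S.ι a) → S.ι (star a') = S.PH B (S.ι (star a))) ∧
  (∀ a a' : A, S.ι a' = S.PR B (S.ι a) → S.ι (star a') = S.PR B (S.ι (star a))) ∧
  (∀ r a a' : A, S.ι r ∈ S.HB B → S.ι a' = S.PH B (S.ι a) → S.PH B (S.ι (r * a)) = S.ι (r * a')) ∧
  (∀ r a a' : A, S.ι r ∈ S.RB B → S.ι a' = S.PR B (S.ι a) → S.PR B (S.ι (r * a)) = S.ι (r * a')) ∧
  (∀ (z : H) (ε : ℝ), z ∈ S.HB B → 0 < ε → ∃ a : A, S.ι a ∈ S.HB B ∧ ‖z - S.ι a‖ ≤ ε)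

/-- `R_B` and the base are independent -/
def T_RBind : Prop := ∀ (Λ : Type) [CommRing Λ] (A : Type) [CommRing A] [StarRing A] [Algebra ℂ A]
    [StarModule ℂ A] (H : Type) [NormedAddCommGroup H] [InnerProductSpace ℂ H] [CompleteSpace H]
    (S : Sys Λ A H) (B : Finset ℕ),
  (∀ r : H, r ∈ S.RB B → S.PH ∅ r = ⟪S.ι 1, r⟫_ℂ • S.ι 1) ∧
  (∀ (B' : Finset ℕ) (z : H), Disjoint B B' → z ∈ S.HB B' → S.PR B z = ⟪S.ι 1, z⟫_ℂ • S.ι 1) ∧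
  (∀ (B' : Finset ℕ) (r z : A), Disjoint B B' → S.ι r ∈ S.RB B → S.ι z ∈ S.HB B' →
    S.tr (r * z) = S.tr r * S.tr z) ∧
  (∀ (c : Y Λ) (z : H), c.1.support ⊆ B → z ∈ S.HB ∅ → S.PR B (S.U c z) = ⟪S.ι 1, z⟫_ℂ • S.ι 1) ∧
  (∀ (c : Y Λ) (r z : A), c.1.support ⊆ B → S.ι r ∈ S.RB B → S.ι z ∈ S.HB ∅ →
    S.tr (r * S.UA c z) = S.tr r * S.tr z)

/-! ## VDC -/

/-- van der Corput estimate -/
def T_VDC : Prop := ∀ (Λ : Type) [CommRing Λ] (A : Type) [CommRing A] [StarRing A] [Algebra ℂ A]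
    [StarModule ℂ A] (H : Type) [NormedAddCommGroup H] [InnerProductSpace ℂ H] [CompleteSpace H]
    (S : Sys Λ A H) (p : ℕ) [Fact p.Prime] (ρ : Λ →+* ZMod p) (β : ℕ → Λ) (k1 k2 : Λ)
    (f1 f2 : A) (C : ℝ) (m : ℕ) (ε : ℝ),
  Exh ρ β → IsUnit k1 → IsUnit k2 → IsUnit (k2 - k1) → S.ι f1 ∈ S.HB ∅ → S.ι f2 ∈ S.HB ∅ →
  S.Bd C f1 → 0 < ε →
  ∃ M, ∀ m' ≥ M, ∀ g h y : Y Λ, IsCopy (hh p β 0 m) g → IsCopy (hh p β 0 m') h →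
    Dsj g h → Dsj g y → Dsj h y → ∀ f0 : A, S.ι f0 ∈ S.HB ∅ →
    ‖S.tr (f0 * S.UA (k1 • (g + h + y)) f1 * S.UA (k2 • (g + h + y)) f2)‖ ^ 2
      ≤ ‖S.ι f0‖ ^ 2 * (C ^ 2 * S.q p β k2 m f2 + ε)

/-! ## MONO -/

/-- the approximants of the vdC seminorm decrease -/
def T_qanti : Prop := ∀ (Λ : Type) [CommRing Λ] (A : Type) [CommRing A] [StarRing A] [Algebra ℂ A]
    [StarModule ℂ A] (H : Type) [NormedAddCommGroup H] [InnerProductSpace ℂ H] [CompleteSpace H]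
    (S : Sys Λ A H) (p : ℕ) [Fact p.Prime] (ρ : Λ →+* ZMod p) (β : ℕ → Λ) (k : Λ) (u : A),
  Exh ρ β → IsUnit k → S.ι u ∈ S.HB ∅ → Antitone (fun m => S.q p β k m u)

/-- `F_m = PR_{W_m}(T^{k b_m} f · f*)` is approximated by averages of `T^{k b_m} v_n · v_n*`,
`v_n` in the base -/
def FA {Λ : Type} [CommRing Λ] {A : Type} [CommRing A] [StarRing A] [Algebra ℂ A]
    [StarModule ℂ A] {H : Type} [NormedAddCommGroup H] [InnerProductSpace ℂ H] [CompleteSpace H]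
    (S : Sys Λ A H) (p : ℕ) (β : ℕ → Λ) (k : Λ) (f : A) (φ : ℕ → ℕ) : Prop :=
  ∀ ε : ℝ, 0 < ε → ∃ N : ℕ, 0 < N ∧ ∃ v : Fin N → A,
    (∀ n, S.ι (v n) ∈ S.HB ∅ ∧ S.Bd 1 (v n)) ∧ ∃ l0, ∀ l ≥ l0,
      ‖(1 / (N : ℂ)) • ∑ n, S.ι (S.UA (k • bb p β (φ l)) (v n) * star (v n))
        - S.PR (W p (φ l)) (S.ι (S.UA (k • bb p β (φ l)) f * star f))‖ ≤ ε

def T_FA : Prop := ∀ (Λ : Type) [CommRing Λ] (A : Type) [CommRing A] [StarRing A] [Algebra ℂ A]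
    [StarModule ℂ A] (H : Type) [NormedAddCommGroup H] [InnerProductSpace ℂ H] [CompleteSpace H]
    (S : Sys Λ A H) (p : ℕ) [Fact p.Prime] (ρ : Λ →+* ZMod p) (β : ℕ → Λ) (k : Λ) (f : A),
  Exh ρ β → IsUnit k → S.ι f ∈ S.HB ∅ → S.Bd 1 f → S.LLN p β k f →
  ∃ φ : ℕ → ℕ, StrictMono φ ∧ FA S p β k f φ

/-! ## K: the compact operator -/

/-- the first properties of the operator `K` -/
structure KProp0 {Λ : Type} [CommRing Λ] {A : Type} [CommRing A] [StarRing A] [Algebra ℂ A]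
    [StarModule ℂ A] {H : Type} [NormedAddCommGroup H] [InnerProductSpace ℂ H] [CompleteSpace H]
    (S : Sys Λ A H) (p : ℕ) (β : ℕ → Λ) (k : Λ) (f : A) (φ : ℕ → ℕ) (K : H →L[ℂ] H) : Prop where
  compact : IsCompactOperator K
  symm : ∀ z w, ⟪K z, w⟫_ℂ = ⟪z, K w⟫_ℂ
  base : ∀ z, K z ∈ S.HB ∅
  PH : ∀ z, K (S.PH ∅ z) = K z
  bdd : ∀ z, ∃ a : A, S.ι a = K z ∧ S.Bd ‖z‖ a
  lim : ∀ z w : A, S.ι z ∈ S.HB ∅ → S.ι w ∈ S.HB ∅ →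
    ∀ F : ℕ → A, (∀ l, S.ι (F l) =
      S.PR (W p (φ l)) (S.ι (S.UA (k • bb p β (φ l)) f * star f))) →
    Tendsto (fun l => ⟪S.ι (F l * w), S.ι (S.UA (k • bb p β (φ l)) z)⟫_ℂ) atTop
      (𝓝 ⟪S.ι w, K (S.ι z)⟫_ℂ)

/-- `K` commutes with the operators `z ↦ PH_∅ (r T^c z)` -/
def KComm {Λ : Type} [CommRing Λ] {A : Type} [CommRing A] [StarRing A] [Algebra ℂ A]
    [StarModule ℂ A] {H : Type} [NormedAddCommGroup H] [InnerProductSpace ℂ H] [CompleteSpace H]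
    (S : Sys Λ A H) (K : H →L[ℂ] H) : Prop :=
  ∀ (B : Finset ℕ) (r : A) (c : Y Λ) (z z' : A), S.ι r ∈ S.RB B → c.1.support ⊆ B →
    S.ι z ∈ S.HB ∅ → S.ι z' = K (S.ι z) →
    K (S.PH ∅ (S.ι (r * S.UA c z))) = S.PH ∅ (S.ι (r * S.UA c z'))

/-- `T^c K z` lies in the closed span of `R_B ⬝ base` -/
def KClos {Λ : Type} [CommRing Λ] {A : Type} [CommRing A] [StarRing A] [Algebra ℂ A]
    [StarModule ℂ A] {H : Type} [NormedAddCommGroup H] [InnerProductSpace ℂ H] [CompleteSpace H]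
    (S : Sys Λ A H) (K : H →L[ℂ] H) : Prop :=
  ∀ (B : Finset ℕ) (c : Y Λ) (z z' : A), c.1.support ⊆ B → S.ι z ∈ S.HB ∅ →
    S.ι z' = K (S.ι z) →
    S.ι (S.UA c z') ∈ closure (Submodule.span ℂ
      {x | ∃ r w : A, S.ι r ∈ S.RB B ∧ S.ι w ∈ S.HB ∅ ∧ x = S.ι (r * w)} : Set H)

/-- all properties of `K` -/
structure KProp {Λ : Type} [CommRing Λ] {A : Type} [CommRing A] [StarRing A] [Algebra ℂ A]
    [StarModule ℂ A] {H : Type} [NormedAddCommGroup H] [InnerProductSpace ℂ H] [CompleteSpace H]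
    (S : Sys Λ A H) (p : ℕ) (β : ℕ → Λ) (k : Λ) (f : A) (φ : ℕ → ℕ) (K : H →L[ℂ] H) : Prop
    extends KProp0 S p β k f φ K where
  comm : KComm S K
  clos : KClos S K

def T_K1 : Prop := ∀ (Λ : Type) [CommRing Λ] (A : Type) [CommRing A] [StarRing A] [Algebra ℂ A]
    [StarModule ℂ A] (H : Type) [NormedAddCommGroup H] [InnerProductSpace ℂ H] [CompleteSpace H]
    (S : Sys Λ A H) (p : ℕ) [Fact p.Prime] (ρ : Λ →+* ZMod p) (β : ℕ → Λ) (k : Λ) (f : A)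
    (φ : ℕ → ℕ),
  Exh ρ β → IsUnit k → S.ι f ∈ S.HB ∅ → S.Bd 1 f → StrictMono φ → FA S p β k f φ →
  ∃ K : H →L[ℂ] H, KProp0 S p β k f φ K

def T_K2 : Prop := ∀ (Λ : Type) [CommRing Λ] (A : Type) [CommRing A] [StarRing A] [Algebra ℂ A]
    [StarModule ℂ A] (H : Type) [NormedAddCommGroup H] [InnerProductSpace ℂ H] [CompleteSpace H]
    (S : Sys Λ A H) (p : ℕ) [Fact p.Prime] (ρ : Λ →+* ZMod p) (β : ℕ → Λ) (k : Λ) (f : A)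
    (φ : ℕ → ℕ) (K : H →L[ℂ] H),
  Exh ρ β → IsUnit k → S.ι f ∈ S.HB ∅ → S.Bd 1 f → StrictMono φ → FA S p β k f φ →
  KProp0 S p β k f φ K → KComm S K ∧ KClos S K

/-! ## STR: structure theorem -/

/-- elementary facts on eigenfunctions and their eigenvalues -/
def T_EIG : Prop := ∀ (Λ : Type) [CommRing Λ] (A : Type) [CommRing A] [StarRing A] [Algebra ℂ A]
    [StarModule ℂ A] (H : Type) [NormedAddCommGroup H] [InnerProductSpace ℂ H] [CompleteSpace H]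
    (S : Sys Λ A H),
  S.IsEig 1 ∧ (∀ ψ, S.IsEig ψ → S.IsEig (star ψ)) ∧
  (∀ ψ ψ', S.IsEig ψ → S.IsEig ψ' → S.IsEig (ψ * ψ')) ∧
  (∀ ψ ψ', S.IsEig ψ → S.IsEig ψ' → ⟪S.ι ψ, S.ι ψ'⟫_ℂ ≠ 0 → ∃ c : ℂ, ψ' = c • ψ) ∧
  (∃ F : Set A, S.EigSet F)

/-- if `K ≠ 0` on the orthogonal complement of the eigenfunctions then there would be one more -/
def T_Kzero : Prop := ∀ (Λ : Type) [CommRing Λ] (A : Type) [CommRing A] [StarRing A] [Algebra ℂ A]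
    [StarModule ℂ A] (H : Type) [NormedAddCommGroup H] [InnerProductSpace ℂ H] [CompleteSpace H]
    (S : Sys Λ A H) (p : ℕ) (β : ℕ → Λ) (k : Λ) (f : A) (φ : ℕ → ℕ) (K : H →L[ℂ] H),
  KProp S p β k f φ K → (∀ ψ, S.IsEig ψ → ∃ c : ℂ, K (S.ι ψ) = c • S.ι ψ) →
  ∀ z ∈ S.HB ∅, (∀ ψ, S.IsEig ψ → ⟪S.ι ψ, z⟫_ℂ = 0) → K z = 0

/-- eigenfunctions are eigenvectors of `K`, and the formula for the seminorm of `f - F_J` -/
def T_Keig : Prop := ∀ (Λ : Type) [CommRing Λ] (A : Type) [CommRing A] [StarRing A] [Algebra ℂ A]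
    [StarModule ℂ A] (H : Type) [NormedAddCommGroup H] [InnerProductSpace ℂ H] [CompleteSpace H]
    (S : Sys Λ A H) (p : ℕ) [Fact p.Prime] (ρ : Λ →+* ZMod p) (β : ℕ → Λ) (k : Λ) (f : A)
    (φ : ℕ → ℕ) (K : H →L[ℂ] H),
  Exh ρ β → IsUnit k → S.ι f ∈ S.HB ∅ → S.Bd 1 f → StrictMono φ → KProp S p β k f φ K →
  (∀ ψ, S.IsEig ψ → K (S.ι ψ) = ((‖⟪S.ι ψ, S.ι f⟫_ℂ‖ ^ 2 : ℝ) : ℂ) • S.ι ψ) ∧
  (∀ (F : Set A) (J : Finset A), S.EigSet F → ↑J ⊆ F →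
    Tendsto (fun l => S.q p β k (φ l) (f - S.Fpr f J) ^ 2) atTop
      (𝓝 ((⟪S.ι f, K (S.ι f)⟫_ℂ).re - ∑ ψ ∈ J, ‖⟪S.ι ψ, S.ι f⟫_ℂ‖ ^ 4)))

/-- the structure theorem -/
def T_STR : Prop := ∀ (Λ : Type) [CommRing Λ] (A : Type) [CommRing A] [StarRing A] [Algebra ℂ A]
    [StarModule ℂ A] (H : Type) [NormedAddCommGroup H] [InnerProductSpace ℂ H] [CompleteSpace H]
    (S : Sys Λ A H) (p : ℕ) [Fact p.Prime] (ρ : Λ →+* ZMod p) (β : ℕ → Λ) (k : Λ) (f : A)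
    (F : Set A),
  Exh ρ β → IsUnit k → S.ι f ∈ S.HB ∅ → S.Bd 1 f → S.LLN p β k f → S.EigSet F →
  ∀ ε : ℝ, 0 < ε → ∃ J0 : Finset A, ↑J0 ⊆ F ∧ ∀ J : Finset A, J0 ⊆ J → ↑J ⊆ F →
    ∃ m0, ∀ m ≥ m0, S.q p β k m (f - S.Fpr f J) ≤ ε

/-! ## ALG: the algebraic lemma -/

/-- The algebraic lemma for cocycles. -/
def T_ALG : Prop := ∀ (p : ℕ) [Fact p.Prime] (Λ : Type) [CommRing Λ] (ρ : Λ →+* ZMod p)
    (M : Type) [AddCommGroup M] (act : Y Λ → M →+ M) (D1 D2 : Y Λ → M) (k1 k2 : Λ) (κ : M),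
  p ≠ 2 → IsUnit k1 → IsUnit k2 → IsUnit (k1 - k2) →
  (∀ x, act 0 x = x) → (∀ y y' x, act (y + y') x = act y (act y' x)) →
  (∀ y y', D1 (y + y') = D1 y + act y (D1 y')) → (∀ y y', D2 (y + y') = D2 y + act y (D2 y')) →
  (∀ y u, Dsj y u → act u (D1 y) = D1 y) → (∀ y u, Dsj y u → act u (D2 y) = D2 y) →
  (∀ u, act u κ = κ) →
  (∀ (b : Y Λ) (t : ℕ), Adm ρ b → units ρ b = p * t → D1 (k1 • b) + D2 (k2 • b) = t • κ) →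
  κ = 0

/-! ## FIN -/

/-- `λ_c(ψ)` -/
noncomputable def lam {Λ : Type} [CommRing Λ] {A : Type} [CommRing A] [StarRing A] [Algebra ℂ A]
    [StarModule ℂ A] {H : Type} [NormedAddCommGroup H] [InnerProductSpace ℂ H] [CompleteSpace H]
    (S : Sys Λ A H) (c : Y Λ) (ψ : A) : A := S.UA c ψ * star ψ

/-- `χ_g(Ψ1, Ψ2) = λ_{k1 g}(Ψ1) λ_{k2 g}(Ψ2)` -/
noncomputable def chr {Λ : Type} [CommRing Λ] {A : Type} [CommRing A] [StarRing A] [Algebra ℂ A]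
    [StarModule ℂ A] {H : Type} [NormedAddCommGroup H] [InnerProductSpace ℂ H] [CompleteSpace H]
    (S : Sys Λ A H) (k1 k2 : Λ) (g : Y Λ) (P : A × A) : A :=
  lam S (k1 • g) P.1 * lam S (k2 • g) P.2

/-- elementary facts on `chr` -/
def T_CHR : Prop := ∀ (Λ : Type) [CommRing Λ] (A : Type) [CommRing A] [StarRing A] [Algebra ℂ A]
    [StarModule ℂ A] (H : Type) [NormedAddCommGroup H] [InnerProductSpace ℂ H] [CompleteSpace H]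
    (S : Sys Λ A H) (k1 k2 : Λ) (P : A × A), S.IsEig P.1 → S.IsEig P.2 →
  (∀ g, S.ι (chr S k1 k2 g P) ∈ S.RB g.1.support) ∧
  (∀ g, chr S k1 k2 g P * star (chr S k1 k2 g P) = 1) ∧
  (∀ g, ‖S.tr (chr S k1 k2 g P)‖ ≤ 1) ∧
  (∀ g, ‖S.tr (chr S k1 k2 g P)‖ = 1 → chr S k1 k2 g P = S.tr (chr S k1 k2 g P) • (1 : A)) ∧
  (chr S k1 k2 0 P = 1) ∧
  (∀ g g', Dsj g g' → chr S k1 k2 (g + g') P = chr S k1 k2 g P * chr S k1 k2 g' P) ∧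
  (∀ g g', Dsj g g' →
    S.tr (chr S k1 k2 (g + g') P) = S.tr (chr S k1 k2 g P) * S.tr (chr S k1 k2 g' P)) ∧
  (∀ g g', IsCopy g g' → S.tr (chr S k1 k2 g' P) = S.tr (chr S k1 k2 g P))

/-- the algebraic lemma in terms of eigenfunctions -/
def T_WIT : Prop := ∀ (Λ : Type) [CommRing Λ] (A : Type) [CommRing A] [StarRing A] [Algebra ℂ A]
    [StarModule ℂ A] (H : Type) [NormedAddCommGroup H] [InnerProductSpace ℂ H] [CompleteSpace H]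
    (S : Sys Λ A H) (p : ℕ) [Fact p.Prime] (ρ : Λ →+* ZMod p) (k1 k2 : Λ) (P : A × A) (ζ : ℂ),
  p ≠ 2 → IsUnit k1 → IsUnit k2 → IsUnit (k1 - k2) → S.IsEig P.1 → S.IsEig P.2 → ‖ζ‖ = 1 →
  (∀ (b : Y Λ) (t : ℕ), Adm ρ b → units ρ b = p * t → chr S k1 k2 b P = (ζ ^ t) • (1 : A)) →
  ζ = 1

open Classical in
/-- The averaging statement. -/
def T_ASYM : Prop := ∀ (Λ : Type) [CommRing Λ] (A : Type) [CommRing A] [StarRing A] [Algebra ℂ A]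
    [StarModule ℂ A] (H : Type) [NormedAddCommGroup H] [InnerProductSpace ℂ H] [CompleteSpace H]
    (S : Sys Λ A H) (p : ℕ) [Fact p.Prime] (ρ : Λ →+* ZMod p) (β : ℕ → Λ) (k1 k2 : Λ)
    (Ps : Finset (A × A)) (m m' : ℕ) (ε : ℝ),
  p ≠ 2 → Exh ρ β → IsUnit k1 → IsUnit k2 → IsUnit (k1 - k2) →
  (∀ P ∈ Ps, S.IsEig P.1 ∧ S.IsEig P.2) → 0 < ε →
  ∃ (n : ℕ) (g h : Y Λ) (y : Fin n → Y Λ) (t : Fin n → ℕ) (Tr : Finset (A × A)),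
    0 < n ∧ IsCopy (hh p β 0 m) g ∧ IsCopy (hh p β 0 m') h ∧ Dsj g h ∧
    (∀ j, Dsj g (y j) ∧ Dsj h (y j)) ∧
    (∀ j, Adm ρ (g + h + y j) ∧ units ρ (g + h + y j) = p * t j) ∧
    Tr ⊆ Ps ∧ (((1 : A), (1 : A)) ∈ Ps → ((1 : A), (1 : A)) ∈ Tr) ∧
    (∀ P ∈ Ps, ‖(1 / (n : ℂ)) * ∑ j, S.tr (chr S k1 k2 (g + h + y j) P)
      - (if P ∈ Tr then 1 else 0)‖ ≤ ε) ∧
    (∀ P ∈ Ps, ‖(1 / (n : ℂ)) * ∑ j ∈ Finset.univ.filter (fun j => t j ≡ 1 [MOD p]),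
        S.tr (chr S k1 k2 (g + h + y j) P)
      - (if P ∈ Tr then 1 / (p : ℂ) else 0)‖ ≤ ε)

/-- the abstract main theorem -/
def T_MainAbs : Prop := ∀ (Λ : Type) [CommRing Λ] (A : Type) [CommRing A] [StarRing A]
    [Algebra ℂ A] [StarModule ℂ A] (H : Type) [NormedAddCommGroup H] [InnerProductSpace ℂ H]
    [CompleteSpace H] (S : Sys Λ A H) (p : ℕ) [Fact p.Prime] (ρ : Λ →+* ZMod p) (β : ℕ → Λ)
    (k1 k2 : Λ) (f : A),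
  p ≠ 2 → Exh ρ β → IsUnit k1 → IsUnit k2 → IsUnit (k1 - k2) →
  star f = f → f * f = f → f ≠ 0 → S.ι f ∈ S.HB ∅ → S.LLN p β k1 f → S.LLN p β k2 f →
  (∀ (g : Y Λ) (t : ℕ), Adm ρ g → units ρ g = p * t → t ≡ 1 [MOD p] →
    f * S.UA (k1 • g) f * S.UA (k2 • g) f = 0) → False

end Pool.Agent.H84.B
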