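import Mathlib
import Pool.Agent.H84.B.Targets
import Pool.Agent.H84.B.AlgCore

/-!
# Module ALG (helper25): the algebraic lemma `T_ALG`
-/

namespace Pool.Agent.H84.B

section Vec

variable {Λ : Type} [CommRing Λ]

theorem alg_dsj_iff {y y' : Y Λ} : Dsj y y' ↔ ∀ i, y.1 i = 0 ∨ y'.1 i = 0 := by
  unfold Dsj
  rw [Finset.disjoint_left]
  constructor
  · intro h i
    by_contra hcon
    push Not at hcon
    exact h (Finsupp.mem_support_iff.mpr hcon.1) (Finsupp.mem_support_iff.mpr hcon.2)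
  · intro h i h1 h2
    rcases h i with h3 | h3
    · exact Finsupp.mem_support_iff.mp h1 h3
    · exact Finsupp.mem_support_iff.mp h2 h3

theorem alg_pr_apply (c : Λ) (i j n : ℕ) :
    (pr c i j).1 n = (if i = n then c else 0) - (if j = n then c else 0) := by
  change (Finsupp.single i c - Finsupp.single j c) n = _
  rw [Finsupp.sub_apply, Finsupp.single_apply, Finsupp.single_apply]

theorem alg_add_apply (y y' : Y Λ) (n : ℕ) : (y + y').1 n = y.1 n + y'.1 n := rfl
theorem alg_neg_apply (y : Y Λ) (n : ℕ) : (-y).1 n = -(y.1 n) := rfl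
theorem alg_sub_apply (y y' : Y Λ) (n : ℕ) : (y - y').1 n = y.1 n - y'.1 n := rfl
theorem alg_smul_apply (k : Λ) (y : Y Λ) (n : ℕ) : (k • y).1 n = k * y.1 n := rfl
theorem alg_zero_apply (n : ℕ) : (0 : Y Λ).1 n = 0 := rfl

theorem alg_ext {y y' : Y Λ} (h : ∀ n, y.1 n = y'.1 n) : y = y' :=
  Subtype.ext (Finsupp.ext h)

/-- the vector with coordinates `L` at `o, o+1, ...` and `- L.sum` at `0` -/
noncomputable def algb : ℕ → List Λ → Y Λ
  | _, [] => 0
  | o, g :: L => pr g o 0 + algb (o + 1) L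

theorem algb_zero (L : List Λ) : ∀ o : ℕ, 0 < o → (algb o L).1 0 = -L.sum := by
  induction L with
  | nil => intro o _; simp [algb]
  | cons g L ih =>
    intro o ho
    rw [algb, alg_add_apply, alg_pr_apply, ih _ (Nat.succ_pos o), if_neg ho.ne', if_pos rfl,
      List.sum_cons]
    ring

theorem algb_apply (L : List Λ) : ∀ o i : ℕ, 0 < i →
    (algb o L).1 i = if i < o then 0 else L.getD (i - o) 0 := by
  induction L with
  | nil => intro o i _; simp [algb]
  | cons g L ih =>
    intro o i hi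
    rw [algb, alg_add_apply, alg_pr_apply, ih _ i hi, if_neg hi.ne, sub_zero]
    rcases lt_trichotomy i o with h | h | h
    · rw [if_neg (by omega), if_pos (by omega), if_pos h, add_zero]
    · subst h
      rw [if_pos rfl, if_pos (by omega), if_neg (by omega)]
      simp
    · rw [if_neg (by omega), if_neg (by omega), if_neg (by omega), zero_add]
      have : i - o = (i - (o + 1)) + 1 := by omega
      rw [this, List.getD_cons_succ]

theorem alg_units_eq {p : ℕ} [Fact p.Prime] (ρ : Λ →+* ZMod p) (y : Y Λ) (n : ℕ)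
    (hn : ∀ i, n ≤ i → y.1 i = 0) :
    units ρ y = ∑ i ∈ Finset.range n, if ρ (y.1 i) = 1 then 1 else 0 := by
  classical
  unfold units
  rw [← Finset.card_filter]
  congr 1
  ext i
  simp only [Finset.mem_filter, Finsupp.mem_support_iff, Finset.mem_range]
  constructor
  · rintro ⟨h1, h2⟩
    refine ⟨?_, h2⟩
    by_contra hcon
    exact h1 (hn i (not_lt.mp hcon))
  · rintro ⟨_, h2⟩
    refine ⟨?_, h2⟩
    intro h0
    rw [h0, map_zero] at h2
    exact zero_ne_one h2

theorem alg_count {p : ℕ} (ρ : Λ →+* ZMod p) (L : List Λ) :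
    ∑ i ∈ Finset.range L.length, (if ρ (L.getD i 0) = 1 then 1 else 0)
      = L.countP (fun g => decide (ρ g = 1)) := by
  induction L with
  | nil => simp
  | cons g L ih =>
    rw [List.length_cons, Finset.sum_range_succ', List.countP_cons]
    simp only [List.getD_cons_succ, List.getD_cons_zero]
    rw [ih]
    simp

theorem alg_units_b {p : ℕ} [Fact p.Prime] (ρ : Λ →+* ZMod p) (L : List Λ) :
    units ρ (algb 1 L) = L.countP (fun g => decide (ρ g = 1))
      + (if ρ (-L.sum) = 1 then 1 else 0) := by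
  rw [alg_units_eq ρ _ (L.length + 1) (fun i hi => by
    rw [algb_apply L 1 i (by omega), if_neg (by omega)]
    exact List.getD_eq_default _ _ (by omega))]
  rw [Finset.sum_range_succ', algb_zero L 1 one_pos, ← alg_count]
  congr 1
  refine Finset.sum_congr rfl fun i _ => ?_
  have e : (algb 1 L).1 (i + 1) = L.getD i 0 := by
    rw [algb_apply L 1 (i + 1) (by omega), if_neg (by omega : ¬ i + 1 < 1), Nat.add_sub_cancel]
  rw [e]

theorem alg_adm_b {p : ℕ} (ρ : Λ →+* ZMod p) (L : List Λ) (o : ℕ) (ho : 0 < o)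
    (h1 : ∀ g ∈ L, ρ g = 0 ∨ ρ g = 1) (h2 : ρ (-L.sum) = 0 ∨ ρ (-L.sum) = 1) :
    Adm ρ (algb o L) := by
  intro i
  rcases Nat.eq_zero_or_pos i with rfl | hi
  · rw [algb_zero L o ho]; exact h2
  · rw [algb_apply L o i hi]
    split_ifs with h
    · left; exact map_zero ρ
    · by_cases hlen : i - o < L.length
      · rw [List.getD_eq_getElem _ _ hlen]
        exact h1 _ (List.getElem_mem hlen)
      · rw [List.getD_eq_default _ _ (by omega)]
        left; exact map_zero ρ

end Vec

section Alg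

variable {Λ : Type} [CommRing Λ] {N : Type} [AddCommGroup N] {act : Y Λ → N →+ N}

/-- the translate of a cocycle value depends only on the coordinates in its support -/
theorem alg_act_congr {D : Y Λ → N} (hadd : ∀ y y' x, act (y + y') x = act y (act y' x))
    (hloc : ∀ y u, Dsj y u → act u (D y) = D y) {y u u' : Y Λ}
    (h : ∀ i, y.1 i = 0 ∨ u.1 i = u'.1 i) : act u (D y) = act u' (D y) := by
  have h1 : act (u - u') (D y) = D y := by
    refine hloc y _ (alg_dsj_iff.mpr fun i => ?_)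
    rcases h i with h | h
    · exact Or.inl h
    · right; rw [alg_sub_apply, h, sub_self]
  have h2 : u = u' + (u - u') := by abel
  rw [h2, hadd, h1]

/-- `M_{l,j}(g; d)` -/
noncomputable def algM (act : Y Λ → N →+ N) (D : Y Λ → N) (l j : ℕ) (g d : Λ) : N :=
  act (pr g 0 l) (D (pr d 0 j)) - D (pr d 0 j)

variable {D : Y Λ → N}

theorem algM_symm (hcoc : ∀ y y', D (y + y') = D y + act y (D y')) (l j : ℕ) (g d : Λ) :
    algM act D l j g d = algM act D j l d g := by
  unfold algM
  have h1 := hcoc (pr g 0 l) (pr d 0 j)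
  have h2 := hcoc (pr d 0 j) (pr g 0 l)
  rw [add_comm (pr d 0 j) (pr g 0 l), h1] at h2
  rw [sub_eq_sub_iff_add_eq_add, add_comm, h2, add_comm]

theorem algM_left (hadd : ∀ y y' x, act (y + y') x = act y (act y' x))
    (hloc : ∀ y u, Dsj y u → act u (D y) = D y) {l l' j : ℕ} (hl : l ≠ 0) (hl' : l' ≠ 0)
    (hlj : l ≠ j) (hlj' : l' ≠ j) (g d : Λ) : algM act D l j g d = algM act D l' j g d := by
  unfold algM
  congr 1
  refine alg_act_congr hadd hloc fun i => ?_
  rw [alg_pr_apply, alg_pr_apply, alg_pr_apply]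
  by_cases h0 : 0 = i
  · subst h0
    right
    rw [if_neg hl, if_neg hl']
  · by_cases hj : j = i
    · subst hj
      right
      rw [if_neg hlj, if_neg hlj']
    · left
      rw [if_neg h0, if_neg hj, sub_zero]

theorem algM_indep (hadd : ∀ y y' x, act (y + y') x = act y (act y' x))
    (hcoc : ∀ y y', D (y + y') = D y + act y (D y'))
    (hloc : ∀ y u, Dsj y u → act u (D y) = D y) {l j : ℕ} (hl : l ≠ 0) (hj : j ≠ 0)
    (hlj : l ≠ j) (g d : Λ) : algM act D l j g d = algM act D 1 2 g d := by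
  set z := l + j + 3 with hz
  rw [algM_left hadd hloc hl (l' := z) (by omega) hlj (by omega), algM_symm hcoc z j,
    algM_left hadd hloc hj (l' := 2) (by omega) (by omega) (by omega), algM_symm hcoc 2 z,
    algM_left hadd hloc (by omega) (l' := 1) (by omega) (by omega) (by omega)]

/-- fresh index -/
theorem alg_fresh (u : Y Λ) : ∃ n : ℕ, 3 ≤ n ∧ ∀ i, n ≤ i → u.1 i = 0 := by
  refine ⟨u.1.support.sup id + 3, by omega, fun i hi => ?_⟩
  by_contra hcon
  have : i ≤ u.1.support.sup id :=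
    Finset.le_sup (f := id) (Finsupp.mem_support_iff.mpr hcon)
  omega

theorem algM_act (hadd : ∀ y y' x, act (y + y') x = act y (act y' x))
    (hcoc : ∀ y y', D (y + y') = D y + act y (D y'))
    (hloc : ∀ y u, Dsj y u → act u (D y) = D y) {u u' : Y Λ} (huu : u.1 0 = u'.1 0) (g d : Λ) :
    act u (algM act D 1 2 g d) = act u' (algM act D 1 2 g d) := by
  obtain ⟨n, hn3, hn⟩ := alg_fresh u
  obtain ⟨n', hn3', hn'⟩ := alg_fresh u'
  set j := n + n' with hj
  rw [← algM_indep hadd hcoc hloc (l := j + 1) (j := j) (by omega) (by omega) (by omega)]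
  unfold algM
  rw [map_sub, map_sub, ← hadd, ← hadd]
  congr 1
  · refine alg_act_congr hadd hloc fun i => ?_
    rw [alg_pr_apply, alg_add_apply, alg_add_apply]
    by_cases h0 : 0 = i
    · subst h0
      right; rw [huu]
    · by_cases hji : j = i
      · subst hji
        right
        rw [hn _ (by omega), hn' _ (by omega)]
      · left
        rw [if_neg h0, if_neg hji, sub_zero]
  · refine alg_act_congr hadd hloc fun i => ?_
    rw [alg_pr_apply]
    by_cases h0 : 0 = i
    · subst h0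
      right; rw [huu]
    · by_cases hji : j = i
      · subst hji
        right
        rw [hn _ (by omega), hn' _ (by omega)]
      · left
        rw [if_neg h0, if_neg hji, sub_zero]

theorem algM_coc (hadd : ∀ y y' x, act (y + y') x = act y (act y' x)) (g g' d : Λ) :
    algM act D 1 2 (g + g') d = algM act D 1 2 g d + act (pr g 0 1) (algM act D 1 2 g' d) := by
  unfold algM
  have : (pr (g + g') 0 1 : Y Λ) = pr g 0 1 + pr g' 0 1 := by
    refine alg_ext fun n => ?_
    rw [alg_add_apply, alg_pr_apply, alg_pr_apply, alg_pr_apply]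
    split_ifs <;> ring
  rw [this, hadd, map_sub]
  abel

theorem alg_pr_add (g h : Λ) (i j : ℕ) : (pr (g + h) i j : Y Λ) = pr g i j + pr h i j := by
  refine alg_ext fun n => ?_
  rw [alg_add_apply, alg_pr_apply, alg_pr_apply, alg_pr_apply]
  split_ifs <;> ring

theorem alg_pr_zero (i j : ℕ) : (pr 0 i j : Y Λ) = 0 := by
  refine alg_ext fun n => ?_
  rw [alg_pr_apply, alg_zero_apply]
  split_ifs <;> ring

theorem alg_smul_pr (k g : Λ) (o : ℕ) : (k • pr g o 0 : Y Λ) = pr (-(k * g)) 0 o := by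
  refine alg_ext fun n => ?_
  rw [alg_smul_apply, alg_pr_apply, alg_pr_apply]
  split_ifs <;> ring

/-- a list of admissible coordinates with sum `-g` -/
theorem alg_list {p : ℕ} [Fact p.Prime] (ρ : Λ →+* ZMod p) (g : Λ) (hg : ρ g = 0 ∨ ρ g = 1) :
    ∃ L : List Λ, (∀ x ∈ L, ρ x = 0 ∨ ρ x = 1) ∧ -L.sum = g := by
  have hp : 0 < p := (Fact.out : p.Prime).pos
  have hp1 : p - 1 + 1 = p := Nat.sub_add_cancel hp
  have hcast : ((p - 1 : ℕ) : ZMod p) = -1 := by
    have h : ((p - 1 + 1 : ℕ) : ZMod p) = 0 := by rw [hp1]; exact ZMod.natCast_self p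
    rw [Nat.cast_add, Nat.cast_one] at h
    exact eq_neg_of_add_eq_zero_left h
  rcases hg with hg | hg
  · refine ⟨[-g], ?_, by simp⟩
    intro x hx
    rw [List.mem_singleton.mp hx, map_neg, hg, neg_zero]
    exact Or.inl rfl
  · refine ⟨(-g - ((p - 1 : ℕ) : Λ)) :: List.replicate (p - 1) 1, ?_, ?_⟩
    · intro x hx
      rcases List.mem_cons.mp hx with rfl | hx
      · left
        rw [map_sub, map_neg, hg, map_natCast, hcast, sub_self]
      · right
        rw [(List.mem_replicate.mp hx).2, map_one]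
    · rw [List.sum_cons, List.sum_replicate, nsmul_eq_mul, mul_one]
      ring

/-- the transposition `(0 o)` -/
noncomputable def algSwap (o : ℕ) : FP := ⟨Equiv.swap 0 o, by
  change {i | Equiv.swap 0 o i ≠ i}.Finite
  refine Set.Finite.subset (Set.toFinite ({0, o} : Set ℕ)) ?_
  intro i hi
  by_contra hcon
  simp only [Set.mem_insert_iff, Set.mem_singleton_iff, not_or] at hcon
  exact hi (Equiv.swap_apply_of_ne_of_ne hcon.1 hcon.2)⟩

/-- **Step B.** -/
theorem alg_stepB (hadm : T_adm) {p : ℕ} [Fact p.Prime] (ρ : Λ →+* ZMod p) {D1 D2 : Y Λ → N}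
    {k1 k2 : Λ} {κ : N} (hzero : ∀ x, act 0 x = x)
    (hadd : ∀ y y' x, act (y + y') x = act y (act y' x))
    (hcoc1 : ∀ y y', D1 (y + y') = D1 y + act y (D1 y'))
    (hcoc2 : ∀ y y', D2 (y + y') = D2 y + act y (D2 y'))
    (hloc1 : ∀ y u, Dsj y u → act u (D1 y) = D1 y) (hloc2 : ∀ y u, Dsj y u → act u (D2 y) = D2 y)
    (H : ∀ (b : Y Λ) (t : ℕ), Adm ρ b → units ρ b = p * t → D1 (k1 • b) + D2 (k2 • b) = t • κ)
    {g : Λ} (hg : ρ g = 0 ∨ ρ g = 1) {o l : ℕ} (ho : o ≠ 0) (hl : l ≠ 0) (hlo : l ≠ o) :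
    D2 (k2 • pr g o 0) = -act (pr ((k1 - k2) * g) 0 l) (D1 (k1 • pr g o 0)) := by
  obtain ⟨L, hL, hsum⟩ := alg_list ρ g hg
  set b' : Y Λ := algb (o + 1) L with hb'
  have h0 : b'.1 0 = g := by rw [hb', algb_zero L _ (Nat.succ_pos o), hsum]
  have h1 : b'.1 o = 0 := by
    rw [hb', algb_apply L _ o (Nat.pos_of_ne_zero ho), if_pos (Nat.lt_succ_self o)]
  have hA' : Adm ρ b' := alg_adm_b ρ L (o + 1) (Nat.succ_pos o) hL (by rw [hsum]; exact hg)
  obtain ⟨hperm, hunits, -, -, -, -, hdvd⟩ := hadm Λ p ρ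
  obtain ⟨t, ht⟩ := hdvd b' hA'
  set b : Y Λ := b' + pr g o 0 with hb
  have hbs : b = pY (algSwap o) b' := by
    refine alg_ext fun i => ?_
    rw [pY_apply, hb, alg_add_apply, alg_pr_apply]
    change _ = b'.1 ((Equiv.swap 0 o).symm i)
    rw [Equiv.symm_swap]
    by_cases hi0 : i = 0
    · subst hi0
      rw [Equiv.swap_apply_left, h0, h1, if_neg ho, if_pos rfl]
      ring
    · by_cases hio : i = o
      · subst hio
        rw [Equiv.swap_apply_right, h0, h1, if_pos rfl, if_neg (Ne.symm hi0)]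
        ring
      · rw [Equiv.swap_apply_of_ne_of_ne hi0 hio, if_neg (Ne.symm hio), if_neg (Ne.symm hi0)]
        ring
  have hA : Adm ρ b := by rw [hbs]; exact (hperm _ _).mpr hA'
  have hu : units ρ b = p * t := by rw [hbs, hunits, ht]
  have e1 := H b t hA hu
  have e2 := H b' t hA' ht
  rw [hb, smul_add, smul_add, hcoc1, hcoc2] at e1
  have e3 : act (k1 • b') (D1 (k1 • pr g o 0)) + act (k2 • b') (D2 (k2 • pr g o 0)) = 0 := by
    have : D1 (k1 • b') + act (k1 • b') (D1 (k1 • pr g o 0))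
        + (D2 (k2 • b') + act (k2 • b') (D2 (k2 • pr g o 0)))
        = (D1 (k1 • b') + D2 (k2 • b'))
          + (act (k1 • b') (D1 (k1 • pr g o 0)) + act (k2 • b') (D2 (k2 • pr g o 0))) := by abel
    rw [this, e2] at e1
    exact left_eq_add.mp e1.symm
  have hc : ∀ (k : Λ) (i : ℕ), (k • pr g o 0 : Y Λ).1 i = 0 ∨
      (k • b').1 i = (pr (k * g) 0 l : Y Λ).1 i := by
    intro k i
    rw [alg_smul_apply, alg_smul_apply, alg_pr_apply, alg_pr_apply]
    by_cases hi0 : 0 = i
    · subst hi0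
      right
      rw [h0, if_pos rfl, if_neg hl, sub_zero]
    · by_cases hio : o = i
      · subst hio
        right
        rw [h1, if_neg hi0, if_neg hlo, sub_zero, mul_zero]
      · left
        rw [if_neg hio, if_neg hi0, sub_zero, mul_zero]
  rw [alg_act_congr hadd hloc1 (hc k1), alg_act_congr hadd hloc2 (hc k2)] at e3
  have e4 := congrArg (act (pr (-(k2 * g)) 0 l)) e3
  rw [map_add, map_zero, ← hadd, ← hadd, ← alg_pr_add, ← alg_pr_add, neg_add_cancel, alg_pr_zero,
    hzero] at e4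
  have e5 : -(k2 * g) + k1 * g = (k1 - k2) * g := by ring
  rw [e5] at e4
  exact eq_neg_of_add_eq_zero_right e4

/-- **Step C.** -/
theorem alg_stepC (hadm : T_adm) {p : ℕ} [Fact p.Prime] (ρ : Λ →+* ZMod p) {D1 D2 : Y Λ → N}
    {k1 k2 : Λ} {κ : N} (hzero : ∀ x, act 0 x = x)
    (hadd : ∀ y y' x, act (y + y') x = act y (act y' x))
    (hcoc1 : ∀ y y', D1 (y + y') = D1 y + act y (D1 y'))
    (hcoc2 : ∀ y y', D2 (y + y') = D2 y + act y (D2 y'))
    (hloc1 : ∀ y u, Dsj y u → act u (D1 y) = D1 y) (hloc2 : ∀ y u, Dsj y u → act u (D2 y) = D2 y)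
    (H : ∀ (b : Y Λ) (t : ℕ), Adm ρ b → units ρ b = p * t → D1 (k1 • b) + D2 (k2 • b) = t • κ)
    (L : List Λ) : (∀ g ∈ L, ρ g = 0 ∨ ρ g = 1) → ∀ (o : ℕ) (y₀ : Y Λ), 0 < o →
    (∀ i, o ≤ i → y₀.1 i = 0) →
    act (k1 • y₀) (D1 (k1 • algb o L)) + act (k2 • y₀) (D2 (k2 • algb o L))
      = algF (fun g => act (pr g 0 1)) (algM act D1 1 2) k1 k2 (-(y₀.1 0)) L := by
  induction L with
  | nil =>
    intro _ o y₀ _ _
    have z1 : D1 0 = 0 := by
      have := hcoc1 0 0
      rw [add_zero, hzero] at this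
      exact left_eq_add.mp this
    have z2 : D2 0 = 0 := by
      have := hcoc2 0 0
      rw [add_zero, hzero] at this
      exact left_eq_add.mp this
    rw [algb, algF, smul_zero, smul_zero, z1, z2, map_zero, map_zero, add_zero]
  | cons g L ih =>
    intro hL o y₀ ho hy₀
    have hgL : ρ g = 0 ∨ ρ g = 1 := hL g (List.mem_cons_self)
    have hB := alg_stepB hadm ρ hzero hadd hcoc1 hcoc2 hloc1 hloc2 H hgL (o := o) (l := o + 1)
      ho.ne' (by omega) (by omega)
    have hIH := ih (fun x hx => hL x (List.mem_cons_of_mem _ hx)) (o + 1) (y₀ + pr g o 0)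
      (Nat.succ_pos o) (fun i hi => by
        rw [alg_add_apply, hy₀ i (by omega), alg_pr_apply, if_neg (by omega), if_neg (by omega)]
        ring)
    have es : -((y₀ + pr g o 0).1 0) = -(y₀.1 0) + g := by
      rw [alg_add_apply, alg_pr_apply, if_neg ho.ne', if_pos rfl]
      ring
    rw [es, smul_add, smul_add, hadd, hadd] at hIH
    rw [algb, algF, smul_add, smul_add, hcoc1, hcoc2, map_add, map_add, ← hIH]
    set A : N := D1 (k1 • pr g o 0) with hA
    set s : Λ := -(y₀.1 0) with hs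
    have hc : ∀ (k : Λ) (i : ℕ), (k • pr g o 0 : Y Λ).1 i = 0 ∨
        (k • y₀).1 i = (pr (-(k * s)) 0 (o + 1) : Y Λ).1 i := by
      intro k i
      rw [alg_smul_apply, alg_smul_apply, alg_pr_apply, alg_pr_apply]
      by_cases hi0 : 0 = i
      · subst hi0
        right
        rw [if_pos rfl, if_neg (by omega), hs]
        ring
      · by_cases hio : o = i
        · subst hio
          right
          rw [hy₀ o le_rfl, if_neg hi0, if_neg (by omega), sub_zero, mul_zero]
        · left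
          rw [if_neg hio, if_neg hi0, sub_zero, mul_zero]
    have f1 : act (k1 • y₀) A = act (pr (-(k1 * s)) 0 (o + 1)) A :=
      alg_act_congr hadd hloc1 (hc k1)
    have f2 : act (k2 • y₀) (D2 (k2 • pr g o 0))
        = -act (pr (-(k2 * s) + (k1 - k2) * g) 0 (o + 1)) A := by
      rw [alg_act_congr hadd hloc2 (hc k2), hB, map_neg, ← hadd, ← alg_pr_add]
    have f3 : act (pr (-(k2 * s) + (k1 - k2) * g) 0 1)
        (algM act D1 1 2 (-((k1 - k2) * (s + g))) (-(k1 * g)))
        = act (pr (-(k1 * s)) 0 (o + 1)) A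
          - act (pr (-(k2 * s) + (k1 - k2) * g) 0 (o + 1)) A := by
      rw [algM_act hadd hcoc1 hloc1 (u' := pr (-(k2 * s) + (k1 - k2) * g) 0 (o + 1)) (by
        rw [alg_pr_apply, alg_pr_apply, if_pos rfl, if_neg one_ne_zero, if_neg (by omega)])]
      rw [← algM_indep hadd hcoc1 hloc1 (l := o + 1) (j := o) (by omega) ho.ne' (by omega)]
      unfold algM
      have eA : D1 (pr (-(k1 * g)) 0 o) = A := by rw [hA, alg_smul_pr k1 g o]
      rw [eA, map_sub, ← hadd, ← alg_pr_add]
      have e : -(k2 * s) + (k1 - k2) * g + -((k1 - k2) * (s + g)) = -(k1 * s) := by ring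
      rw [e]
    rw [f1, f2, f3]
    abel

end Alg

/-- **Module ALG.** -/
theorem alg (hadm : T_adm) : T_ALG := by
  intro p _ Λ _ ρ N _ act D1 D2 k1 k2 κ _ hk1 hk2 ha hzero hadd hcoc1 hcoc2 hloc1 hloc2 hκ H
  refine alg_core (X := fun g => act (pr g 0 1)) (M := algM act D1 1 2) ρ ⟨?_, ?_, ?_, ?_⟩
    (fun g => hκ _) hk1 hk2 ha ?_
  · intro x
    rw [alg_pr_zero, hzero]
  · intro g h x
    rw [alg_pr_add, hadd]
  · intro g d
    rw [algM_symm hcoc1, algM_indep hadd hcoc1 hloc1 (by omega) (by omega) (by omega)]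
  · intro g g' d
    exact algM_coc hadd g g' d
  · intro L t hL
    have h1 := alg_stepC hadm ρ hzero hadd hcoc1 hcoc2 hloc1 hloc2 H L hL.1 1 0 one_pos
      (fun i _ => rfl)
    have h2 := H (algb 1 L) t (alg_adm_b ρ L 1 one_pos hL.1 hL.2.1) (by
      rw [alg_units_b]; exact hL.2.2)
    rw [smul_zero, smul_zero, hzero, hzero, h2] at h1
    have e : -((0 : Y Λ).1 0) = 0 := by rw [alg_zero_apply, neg_zero]
    rw [e] at h1
    exact h1.symm

end Pool.Agent.H84.B
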