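import Mathlib
import Pool.Agent.H84.B.TargetsM

/-!
# C1: the exchangeable limit measure (`MP_02e9fb_an`)
-/

set_option autoImplicit false

open scoped ENNReal
open Filter Topology MeasureTheory

namespace Pool.Agent.H84.B.C1

section Fl

variable {Λ : Type} [CommRing Λ] [CharZero Λ]

/-- `q v` is an integer -/
def Ok (q : ℕ) (v : Λ) : Prop := ∃ z : ℤ, (z : Λ) = (q : Λ) * v

open Classical in
/-- the integer `q v`, or `0` -/
noncomputable def fl (q : ℕ) (v : Λ) : ℤ :=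
  if h : ∃ z : ℤ, (z : Λ) = (q : Λ) * v then h.choose else 0

lemma fl_eq {q : ℕ} {v : Λ} {z : ℤ} (h : (z : Λ) = (q : Λ) * v) : fl q v = z := by
  have hex : ∃ z : ℤ, (z : Λ) = (q : Λ) * v := ⟨z, h⟩
  unfold fl
  rw [dif_pos hex]
  have h1 := hex.choose_spec
  exact Int.cast_injective (h1.trans h.symm)

lemma fl_spec {q : ℕ} {v : Λ} (h : Ok q v) : (fl q v : Λ) = (q : Λ) * v := by
  obtain ⟨z, hz⟩ := h
  rw [fl_eq hz, hz]

omit [CharZero Λ] in
lemma ok_zero (q : ℕ) : Ok q (0 : Λ) := ⟨0, by simp⟩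

lemma fl_zero (q : ℕ) : fl q (0 : Λ) = 0 := fl_eq (by simp)

lemma fl_add {q : ℕ} {u v : Λ} (hu : Ok q u) (hv : Ok q v) : fl q (u + v) = fl q u + fl q v := by
  apply fl_eq
  push_cast
  rw [fl_spec hu, fl_spec hv]
  ring

lemma fl_smul {q : ℕ} {v : Λ} (k : ℤ) (hv : Ok q v) : fl q ((k : Λ) * v) = k * fl q v := by
  apply fl_eq
  push_cast
  rw [fl_spec hv]
  ring

/-- the exponent -/
noncomputable def SS (q M : ℕ) (nn : ℕ → ℤ) (τ : Equiv.Perm ℕ) (u : ℕ →₀ Λ) : ℤ :=
  u.sum fun j v => fl q v * nn (M + τ j)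

omit [CharZero Λ] in
lemma SS_zero (q M : ℕ) (nn : ℕ → ℤ) (τ : Equiv.Perm ℕ) : SS q M nn τ (0 : ℕ →₀ Λ) = 0 := by
  unfold SS
  exact Finsupp.sum_zero_index

lemma SS_add {q M : ℕ} {nn : ℕ → ℤ} {τ : Equiv.Perm ℕ} {u h : ℕ →₀ Λ} (hu : ∀ j, Ok q (u j))
    (hh : ∀ j, Ok q (h j)) : SS q M nn τ (u + h) = SS q M nn τ u + SS q M nn τ h := by
  classical
  unfold SS
  have h0 : ∀ i ∈ u.support ∪ h.support, fl q (0 : Λ) * nn (M + τ i) = 0 := by
    intro i _
    rw [fl_zero, zero_mul]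
  rw [Finsupp.sum_of_support_subset (u + h) Finsupp.support_add _ h0,
    Finsupp.sum_of_support_subset u Finset.subset_union_left _ h0,
    Finsupp.sum_of_support_subset h Finset.subset_union_right _ h0, ← Finset.sum_add_distrib]
  apply Finset.sum_congr rfl
  intro i _
  rw [Finsupp.add_apply, fl_add (hu i) (hh i)]
  ring

lemma SS_smul {q M : ℕ} {nn : ℕ → ℤ} {τ : Equiv.Perm ℕ} {g : ℕ →₀ Λ} (k : ℤ)
    (hg : ∀ j, Ok q (g j)) : SS q M nn τ ((k : Λ) • g) = k * SS q M nn τ g := by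
  classical
  unfold SS
  have h0 : ∀ i ∈ g.support, fl q (0 : Λ) * nn (M + τ i) = 0 := by
    intro i _
    rw [fl_zero, zero_mul]
  rw [Finsupp.sum_of_support_subset ((k : Λ) • g) Finsupp.support_smul _ h0,
    Finsupp.sum_of_support_subset g (Finset.Subset.refl _) _ h0, Finset.mul_sum]
  apply Finset.sum_congr rfl
  intro i _
  rw [Finsupp.smul_apply, smul_eq_mul, fl_smul k (hg i)]
  ring

omit [CharZero Λ] in
lemma SS_perm (q M : ℕ) (nn : ℕ → ℤ) (τ σ : Equiv.Perm ℕ) (u : ℕ →₀ Λ) :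
    SS q M nn τ (Finsupp.equivMapDomain σ u) = SS q M nn (τ * σ) u := by
  unfold SS
  rw [Finsupp.sum_equivMapDomain]
  rfl

/-- the integer vector attached to `g` -/
noncomputable def vec (q M : ℕ) (τ : Equiv.Perm ℕ) (g : ℕ →₀ Λ) : ℕ →₀ ℤ :=
  (g.mapRange (fl q) (fl_zero q)).embDomain (τ.toEmbedding.trans (addLeftEmbedding M))

lemma vec_apply (q M : ℕ) (τ : Equiv.Perm ℕ) (g : ℕ →₀ Λ) (j : ℕ) :
    vec q M τ g (M + τ j) = fl q (g j) := by
  unfold vec
  have : M + τ j = (τ.toEmbedding.trans (addLeftEmbedding M)) j := rfl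
  rw [this, Finsupp.embDomain_apply_self, Finsupp.mapRange_apply]

lemma vec_notin (q M : ℕ) (τ : Equiv.Perm ℕ) (g : ℕ →₀ Λ) (i : ℕ) (h : ∀ j, M + τ j ≠ i) :
    vec q M τ g i = 0 := by
  unfold vec
  apply Finsupp.embDomain_of_notMem_range
  rintro ⟨j, hj⟩
  exact h j hj

lemma vec_sum (q M : ℕ) (nn : ℕ → ℤ) (τ : Equiv.Perm ℕ) (g : ℕ →₀ Λ) :
    ((vec q M τ g).sum fun i x => x * nn i) = SS q M nn τ g := by
  unfold vec SS
  rw [Finsupp.sum_embDomain, Finsupp.sum_mapRange_index (by intro a; rw [zero_mul])]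
  rfl

end Fl

section Smp

variable {X : Type*} [MeasurableSpace X] {μ : Measure X} {T : X ≃ᵐ X}

lemma mp_zpow (hT : MeasurePreserving T μ μ) (s : ℤ) :
    MeasurePreserving (T.toEquiv ^ s : Equiv.Perm X) μ μ := by
  induction s using Int.induction_on with
  | zero => simpa using MeasurePreserving.id μ
  | succ i ih =>
    have : ((T.toEquiv ^ ((i : ℤ) + 1) : Equiv.Perm X) : X → X)
        = (T.toEquiv ^ (i : ℤ) : Equiv.Perm X) ∘ T := by
      rw [zpow_add_one]
      rfl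
    rw [this]
    exact ih.comp hT
  | pred i ih =>
    have : ((T.toEquiv ^ (-(i : ℤ) - 1) : Equiv.Perm X) : X → X)
        = (T.toEquiv ^ (-(i : ℤ)) : Equiv.Perm X) ∘ T.symm := by
      rw [zpow_sub_one]
      rfl
    rw [this]
    exact ih.comp hT.symm

lemma meas_zpow (s : ℤ) : Measurable (T.toEquiv ^ s : Equiv.Perm X) := by
  induction s using Int.induction_on with
  | zero => simpa using measurable_id
  | succ i ih =>
    have : ((T.toEquiv ^ ((i : ℤ) + 1) : Equiv.Perm X) : X → X)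
        = (T.toEquiv ^ (i : ℤ) : Equiv.Perm X) ∘ T := by
      rw [zpow_add_one]
      rfl
    rw [this]
    exact ih.comp T.measurable
  | pred i ih =>
    have : ((T.toEquiv ^ (-(i : ℤ) - 1) : Equiv.Perm X) : X → X)
        = (T.toEquiv ^ (-(i : ℤ)) : Equiv.Perm X) ∘ T.symm := by
      rw [zpow_sub_one]
      rfl
    rw [this]
    exact ih.comp T.symm.measurable

variable {Λ : Type} [CommRing Λ] [CharZero Λ]

open Classical in
/-- the sample -/
noncomputable def smp (T : X ≃ᵐ X) (A : Set X) (q M : ℕ) (nn : ℕ → ℤ) (τ : Equiv.Perm ℕ) (x : X) :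
    Om Λ := fun u => decide ((T.toEquiv ^ SS q M nn τ u : Equiv.Perm X) x ∈ A)

omit [CharZero Λ] in
lemma smp_true (T : X ≃ᵐ X) (A : Set X) (q M : ℕ) (nn : ℕ → ℤ) (τ : Equiv.Perm ℕ) (x : X)
    (u : ℕ →₀ Λ) :
    smp T A q M nn τ x u = true ↔ (T.toEquiv ^ SS q M nn τ u : Equiv.Perm X) x ∈ A := by
  simp [smp]

omit [CharZero Λ] in
lemma meas_smp {A : Set X} (hA : MeasurableSet A) (q M : ℕ) (nn : ℕ → ℤ) (τ : Equiv.Perm ℕ) :
    Measurable (smp (Λ := Λ) T A q M nn τ) := by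
  rw [measurable_pi_iff]
  intro u
  apply measurable_to_bool
  have : (fun x => smp (Λ := Λ) T A q M nn τ x u) ⁻¹' {true}
      = (T.toEquiv ^ SS q M nn τ u : Equiv.Perm X) ⁻¹' A := by
    ext x
    simp only [Set.mem_preimage, Set.mem_singleton_iff]
    exact smp_true T A q M nn τ x u
  rw [this]
  exact meas_zpow _ hA

/-- finite groups of permutations -/
abbrev PM (M : ℕ) : Type := {f : Equiv.Perm ℕ // ∀ a, ¬ a < M → f a = a}

instance (M : ℕ) : Finite (PM M) := by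
  have h1 : Finite {i : ℕ // i < M} := (Set.finite_lt_nat M).to_subtype
  exact Finite.of_equiv (Equiv.Perm {i : ℕ // i < M}) (Equiv.Perm.subtypeEquivSubtypePerm (· < M))

noncomputable instance (M : ℕ) : Fintype (PM M) := Fintype.ofFinite _

instance (M : ℕ) : Nonempty (PM M) := ⟨⟨1, fun _ _ => rfl⟩⟩

/-- the averaged law -/
noncomputable def mR (μ : Measure X) (T : X ≃ᵐ X) (A : Set X) (q M : ℕ) (nn : ℕ → ℤ) :
    Measure (Om Λ) :=
  ((Fintype.card (PM M) : ℝ≥0∞))⁻¹ • ∑ τ : PM M, μ.map (smp T A q M nn τ.1)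

lemma mR_apply {A : Set X} (hA : MeasurableSet A) (q M : ℕ) (nn : ℕ → ℤ) {C : Set (Om Λ)}
    (hC : MeasurableSet C) :
    mR μ T A q M nn C = ((Fintype.card (PM M) : ℝ≥0∞))⁻¹ *
      ∑ τ : PM M, μ (smp T A q M nn τ.1 ⁻¹' C) := by
  unfold mR
  rw [Measure.smul_apply, Measure.finsetSum_apply, smul_eq_mul]
  congr 1
  apply Finset.sum_congr rfl
  intro τ _
  rw [Measure.map_apply (meas_smp hA q M nn τ.1) hC]

lemma card_ne (M : ℕ) : (Fintype.card (PM M) : ℝ≥0∞) ≠ 0 := by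
  exact_mod_cast Fintype.card_ne_zero

lemma mR_const {A : Set X} (hA : MeasurableSet A) (q M : ℕ) (nn : ℕ → ℤ) {C : Set (Om Λ)}
    (hC : MeasurableSet C) {c : ℝ≥0∞} (h : ∀ τ : PM M, μ (smp T A q M nn τ.1 ⁻¹' C) = c) :
    mR μ T A q M nn C = c := by
  rw [mR_apply hA q M nn hC]
  simp_rw [h]
  rw [Finset.sum_const, Finset.card_univ, nsmul_eq_mul, ← mul_assoc,
    ENNReal.inv_mul_cancel (card_ne M) (ENNReal.natCast_ne_top _), one_mul]

lemma mR_prob [IsProbabilityMeasure μ] {A : Set X} (hA : MeasurableSet A) (q M : ℕ)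
    (nn : ℕ → ℤ) : IsProbabilityMeasure (mR (Λ := Λ) μ T A q M nn) := by
  refine ⟨mR_const hA q M nn MeasurableSet.univ (fun τ => ?_)⟩
  rw [Set.preimage_univ, measure_univ]

/-- invariance under permutations -/
lemma mR_perm {A : Set X} (hA : MeasurableSet A) (q M : ℕ) (nn : ℕ → ℤ) {σ : Equiv.Perm ℕ}
    (hσ : ∀ a, ¬ a < M → σ a = a) {C : Set (Om Λ)}
    (hC : MeasurableSet C) (hC' : MeasurableSet (permOm σ ⁻¹' C)) :
    mR μ T A q M nn (permOm σ ⁻¹' C) = mR μ T A q M nn C := by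
  rw [mR_apply hA q M nn hC, mR_apply hA q M nn hC']
  congr 1
  have h1 : ∀ τ : PM M, smp (Λ := Λ) T A q M nn τ.1 ⁻¹' (permOm σ ⁻¹' C)
      = smp T A q M nn (τ.1 * σ) ⁻¹' C := by
    intro τ
    rw [← Set.preimage_comp]
    congr 1
    ext x u
    change smp T A q M nn τ.1 x (Finsupp.equivMapDomain σ u) = smp T A q M nn (τ.1 * σ) x u
    unfold smp
    rw [SS_perm]
  simp_rw [h1]
  have hσ' : ∀ a, ¬ a < M → σ⁻¹ a = a := by
    intro a ha
    rw [Equiv.Perm.inv_eq_iff_eq]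
    exact (hσ a ha).symm
  let e : PM M ≃ PM M :=
    { toFun := fun τ => ⟨τ.1 * σ, fun a ha => by
        rw [Equiv.Perm.mul_apply, hσ a ha, τ.2 a ha]⟩
      invFun := fun τ => ⟨τ.1 * σ⁻¹, fun a ha => by
        rw [Equiv.Perm.mul_apply, hσ' a ha, τ.2 a ha]⟩
      left_inv := fun τ => by
        apply Subtype.ext
        simp
      right_inv := fun τ => by
        apply Subtype.ext
        simp }
  exact Equiv.sum_comp e (fun τ => μ (smp T A q M nn τ.1 ⁻¹' C))

/-- invariance under shifts -/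
lemma mR_shift (hT : MeasurePreserving T μ μ) {A : Set X} (hA : MeasurableSet A) (q M : ℕ)
    (nn : ℕ → ℤ) {h : ℕ →₀ Λ} (hh : ∀ j, Ok q (h j)) {s : Finset (ℕ →₀ Λ)}
    (hs : ∀ u ∈ s, ∀ j, Ok q (u j)) {C : Set (Om Λ)}
    (hCs : ∀ a b : Om Λ, (∀ i ∈ s, a i = b i) → (a ∈ C ↔ b ∈ C))
    (hC : MeasurableSet C) (hC' : MeasurableSet (shiftOm h ⁻¹' C)) :
    mR μ T A q M nn (shiftOm h ⁻¹' C) = mR μ T A q M nn C := by
  rw [mR_apply hA q M nn hC, mR_apply hA q M nn hC']
  congr 1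
  apply Finset.sum_congr rfl
  intro τ _
  have h1 : smp (Λ := Λ) T A q M nn τ.1 ⁻¹' (shiftOm h ⁻¹' C)
      = (T.toEquiv ^ SS q M nn τ.1 h : Equiv.Perm X) ⁻¹' (smp T A q M nn τ.1 ⁻¹' C) := by
    ext x
    simp only [Set.mem_preimage]
    apply hCs
    intro u hu
    change smp T A q M nn τ.1 x (u + h)
      = smp T A q M nn τ.1 ((T.toEquiv ^ SS q M nn τ.1 h : Equiv.Perm X) x) u
    unfold smp
    rw [SS_add (hs u hu) hh, zpow_add, Equiv.Perm.mul_apply]
  rw [h1]
  exact (mp_zpow hT _).measure_preimage (meas_smp hA q M nn τ.1 hC).nullMeasurableSet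

end Smp

/-- the bound for the integer entries -/
lemma fl_bound {Λ : Type} [CommRing Λ] [CharZero Λ] {Q : ℕ → ℕ}
    (hQ : ∀ R, Q R ≠ 0) (v : Λ) (hOk : ∀ᶠ R in atTop, Ok (Q R) v) :
    ∀ᶠ R in atTop, (fl (Q R) v).natAbs ≤ Q R * R := by
  obtain ⟨R0, hR0⟩ := hOk.exists
  filter_upwards [hOk, eventually_ge_atTop (fl (Q R0) v).natAbs] with R h1 h2
  have h3 : (Q R0 : ℤ) * fl (Q R) v = Q R * fl (Q R0) v := by
    apply Int.cast_injective (α := Λ)
    push_cast
    rw [fl_spec h1, fl_spec hR0]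
    ring
  have h4 : Q R0 * (fl (Q R) v).natAbs = Q R * (fl (Q R0) v).natAbs := by
    have := congrArg Int.natAbs h3
    rwa [Int.natAbs_mul, Int.natAbs_mul, Int.natAbs_natCast, Int.natAbs_natCast] at this
  calc (fl (Q R) v).natAbs ≤ Q R0 * (fl (Q R) v).natAbs :=
        Nat.le_mul_of_pos_left _ (Nat.pos_of_ne_zero (hQ R0))
    _ = Q R * (fl (Q R0) v).natAbs := h4
    _ ≤ Q R * R := Nat.mul_le_mul_left _ h2

/-- admissibility of the integer vector -/
lemma vec_adm {Λ : Type} [CommRing Λ] [CharZero Λ] {p : ℕ} {ρ : Λ →+* ZMod p} {q : ℕ}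
    (hq : (q : ZMod p) = 1) (M : ℕ) (τ : Equiv.Perm ℕ) {g : ℕ →₀ Λ} (hg : ∀ j, Ok q (g j))
    (hadm : AdmF ρ g) : AdmF (Int.castRingHom (ZMod p)) (vec q M τ g) := by
  have hval : ∀ j, (Int.castRingHom (ZMod p)) (vec q M τ g (M + τ j)) = ρ (g j) := by
    intro j
    rw [vec_apply]
    have h1 := congrArg ρ (fl_spec (hg j))
    rw [map_intCast, map_mul, map_natCast, hq, one_mul] at h1
    exact h1
  obtain ⟨h1, t, h2, h3⟩ := hadm
  refine ⟨?_, t, ?_, h3⟩
  · intro i
    by_cases hi : ∃ j, M + τ j = i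
    · obtain ⟨j, rfl⟩ := hi
      rw [hval]
      exact h1 j
    · push Not at hi
      left
      rw [vec_notin q M τ g i hi, map_zero]
  · rw [← h2]
    have h4 : {i | (Int.castRingHom (ZMod p)) (vec q M τ g i) = 1}
        = (fun j => M + τ j) '' {j | ρ (g j) = 1} ∨ (1 : ZMod p) = 0 := by
      by_cases h10 : (1 : ZMod p) = 0
      · right; exact h10
      · left
        ext i
        simp only [Set.mem_ofPred_eq, Set.mem_image]
        constructor
        · intro hi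
          by_cases hj : ∃ j, M + τ j = i
          · obtain ⟨j, rfl⟩ := hj
            rw [hval] at hi
            exact ⟨j, hi, rfl⟩
          · push Not at hj
            rw [vec_notin q M τ g i hj, map_zero] at hi
            exact absurd hi.symm h10
        · rintro ⟨j, hj, rfl⟩
          rw [hval]
          exact hj
    rcases h4 with h4 | h4
    · rw [h4]
      apply Set.ncard_image_of_injective
      intro a b hab
      exact τ.injective (Nat.add_left_cancel hab)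
    · -- trivial ring: both sets are everything
      have hz : ∀ x : ZMod p, x = 1 := by
        intro x
        calc x = x * 1 := (mul_one x).symm
          _ = x * 0 := by rw [h4]
          _ = 0 := mul_zero x
          _ = 1 := h4.symm
      have e1 : {i | (Int.castRingHom (ZMod p)) (vec q M τ g i) = 1} = Set.univ := by
        ext i; simp only [Set.mem_ofPred_eq, Set.mem_univ, iff_true]; exact hz _
      have e2 : {i | ρ (g i) = 1} = Set.univ := by
        ext i; simp only [Set.mem_ofPred_eq, Set.mem_univ, iff_true]; exact hz _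
      rw [e1, e2]

end Pool.Agent.H84.B.C1

namespace Pool.Agent.H84.B

open C1 in
/-- the exchangeable limit measure -/
theorem c1.{u} (hlim0 : T_lim) (hcyl : T_cylext) : T_C1.{u} := by
  classical
  intro p _ Λ _ _ _ ρ Q X _ μ T A k1 k2 nn G hQ hOk0 hμ hT hA hG hzero
  have hQ0 : ∀ R, Q R ≠ 0 := by
    intro R h0
    have := hQ R
    rw [h0, Nat.cast_zero] at this
    exact zero_ne_one this
  have hOk : ∀ u : Λ, ∀ᶠ R in atTop, Ok (Q R) u := hOk0
  have hOkF : ∀ u : ℕ →₀ Λ, ∀ᶠ R in atTop, ∀ j, Ok (Q R) (u j) := by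
    intro u
    have h1 : ∀ᶠ R in atTop, ∀ j ∈ u.support, Ok (Q R) (u j) := by
      rw [Filter.eventually_all_finset]
      intro j _
      exact hOk _
    filter_upwards [h1] with R hR j
    by_cases hj : j ∈ u.support
    · exact hR j hj
    · rw [Finsupp.notMem_support_iff.mp hj]
      exact ok_zero _
  have hM : ∀ R, ∃ M, R ≤ M ∧ ∀ i ≥ M, Q R * R ≤ G i := by
    intro R
    obtain ⟨M, hM⟩ := (tendsto_atTop_atTop.mp hG) (Q R * R)
    exact ⟨max R M, le_max_left _ _, fun i hi => hM i (le_trans (le_max_right _ _) hi)⟩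
  choose M hMR hMG using hM
  obtain ⟨m, hm, U, hU, hlim⟩ := hlim0 (ℕ →₀ Λ) (fun R => mR μ T A (Q R) (M R) nn)
    (fun R => mR_prob hA _ _ _)
  -- a map that eventually preserves cylinders preserves `m`
  have hpres : ∀ (F : Om Λ → Om Λ) (φ : (ℕ →₀ Λ) → (ℕ →₀ Λ)),
      (∀ a u, F a u = a (φ u)) →
      (∀ (s : Finset (ℕ →₀ Λ)) (C : Set (Om Λ)),
        (∀ a b : Om Λ, (∀ i ∈ s, a i = b i) → (a ∈ C ↔ b ∈ C)) → MeasurableSet C →
        MeasurableSet (F ⁻¹' C) →
        ∀ᶠ R in atTop, mR μ T A (Q R) (M R) nn (F ⁻¹' C) = mR μ T A (Q R) (M R) nn C) →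
      MeasurePreserving F m m := by
    intro F φ hF hev
    have hFm : Measurable F := by
      rw [measurable_pi_iff]
      intro u
      simp_rw [hF]
      exact measurable_pi_apply _
    refine ⟨hFm, ?_⟩
    apply hcyl (ℕ →₀ Λ) (m.map F) m (Measure.isProbabilityMeasure_map hFm.aemeasurable) hm
    intro s C hC
    obtain ⟨hCm, hC1⟩ := hlim s C hC
    have hC' : ∀ a b : Om Λ, (∀ i ∈ s.image φ, a i = b i) → (a ∈ F ⁻¹' C ↔ b ∈ F ⁻¹' C) := by
      intro a b hab
      apply hC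
      intro i hi
      rw [hF, hF]
      exact hab _ (Finset.mem_image_of_mem φ hi)
    obtain ⟨hC'm, hC2⟩ := hlim (s.image φ) (F ⁻¹' C) hC'
    rw [Measure.map_apply hFm hCm]
    refine tendsto_nhds_unique hC2 (hC1.congr' ?_)
    filter_upwards [hU (hev s C hC hCm hC'm)] with R hR
    exact hR.symm
  refine ⟨m, ⟨hm, ?_, ?_⟩, ?_, ?_⟩
  · intro h
    apply hpres (shiftOm h) (fun u => u + h) (fun a u => rfl)
    intro s C hC hCm hC'm
    have h1 : ∀ᶠ R in atTop, ∀ u ∈ s, ∀ j, Ok (Q R) (u j) := by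
      rw [Filter.eventually_all_finset]
      intro u _
      exact hOkF u
    filter_upwards [h1, hOkF h] with R h1 h2
    exact mR_shift hT hA (Q R) (M R) nn h2 h1 hC hCm hC'm
  · intro σ
    apply hpres (permOm σ.1) (fun u => Finsupp.equivMapDomain σ.1 u) (fun a u => rfl)
    intro s C hC hCm hC'm
    have hfin : {i | σ.1 i ≠ i}.Finite := σ.2
    obtain ⟨K, hK⟩ := hfin.bddAbove
    filter_upwards [eventually_gt_atTop K] with R hR
    apply mR_perm hA (Q R) (M R) nn _ hCm hC'm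
    intro a ha
    by_contra hne
    have h1 : a ≤ K := hK hne
    have h2 := hMR R
    omega
  · have hC : ∀ a b : Om Λ, (∀ i ∈ ({0} : Finset (ℕ →₀ Λ)), a i = b i) →
        (a ∈ {a : Om Λ | a 0 = true} ↔ b ∈ {a : Om Λ | a 0 = true}) := by
      intro a b hab
      simp only [Set.mem_ofPred_eq]
      rw [hab 0 (by simp)]
    obtain ⟨hCm, hC1⟩ := hlim _ _ hC
    have h2 : ∀ R, mR μ T A (Q R) (M R) nn {a : Om Λ | a 0 = true} = μ A := by
      intro R
      apply mR_const hA _ _ _ hCm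
      intro τ
      congr 1
      ext x
      simp only [Set.mem_preimage, Set.mem_ofPred_eq]
      rw [smp_true, SS_zero, zpow_zero, Equiv.Perm.one_apply]
    refine tendsto_nhds_unique hC1 ?_
    simp_rw [h2]
    exact tendsto_const_nhds
  · intro g hg
    have hC : ∀ a b : Om Λ, (∀ i ∈ ({0, (k1 : Λ) • g, (k2 : Λ) • g} : Finset (ℕ →₀ Λ)),
        a i = b i) →
        (a ∈ {a : Om Λ | a 0 = true ∧ a ((k1 : Λ) • g) = true ∧ a ((k2 : Λ) • g) = true}
          ↔ b ∈ {a : Om Λ | a 0 = true ∧ a ((k1 : Λ) • g) = true ∧ a ((k2 : Λ) • g) = true}) := by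
      intro a b hab
      simp only [Set.mem_ofPred_eq]
      rw [hab 0 (by simp), hab ((k1 : Λ) • g) (by simp), hab ((k2 : Λ) • g) (by simp)]
    obtain ⟨hCm, hC1⟩ := hlim _ _ hC
    have hbd : ∀ᶠ R in atTop, ∀ j ∈ g.support, (fl (Q R) (g j)).natAbs ≤ Q R * R := by
      rw [Filter.eventually_all_finset]
      intro j _
      exact fl_bound hQ0 (g j) (hOk _)
    have h2 : ∀ᶠ R in atTop, mR μ T A (Q R) (M R) nn
        {a : Om Λ | a 0 = true ∧ a ((k1 : Λ) • g) = true ∧ a ((k2 : Λ) • g) = true} = 0 := by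
      filter_upwards [hbd, hOkF g] with R hR hO
      apply mR_const hA _ _ _ hCm
      intro τ
      have hz := hzero (vec (Q R) (M R) τ.1 g) ?_ (vec_adm (hQ R) (M R) τ.1 hO hg)
      · rw [← hz]
        congr 1
        ext x
        simp only [Set.mem_preimage, Set.mem_ofPred_eq, Set.mem_inter_iff]
        rw [smp_true, smp_true, smp_true, SS_zero, SS_smul k1 hO, SS_smul k2 hO, zpow_zero,
          Equiv.Perm.one_apply, vec_sum]
        tauto
      · intro i
        by_cases hi : ∃ j, M R + τ.1 j = i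
        · obtain ⟨j, rfl⟩ := hi
          rw [vec_apply]
          by_cases hj : j ∈ g.support
          · exact (hR j hj).trans (hMG R _ (Nat.le_add_right _ _))
          · rw [Finsupp.notMem_support_iff.mp hj, fl_zero]
            simp
        · push Not at hi
          rw [vec_notin _ _ _ _ _ hi]
          simp
    refine tendsto_nhds_unique (hC1.congr' (hU h2)) ?_
    exact tendsto_const_nhds

end Pool.Agent.H84.B
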