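import Pool.Agent.H84.B.TargetsM

/-!
# C3: from the abstract theorem to measure preserving systems
-/

open scoped ComplexConjugate InnerProductSpace
open Filter Topology MeasureTheory

namespace Pool.Agent.H84.B

namespace C3

section Alg

variable (Ω : Type) [MeasurableSpace Ω]

/-- bounded measurable functions -/
noncomputable def BM : StarSubalgebra ℂ (Ω → ℂ) where
  carrier := {f | Measurable f ∧ ∃ C : ℝ, ∀ ω, ‖f ω‖ ≤ C}
  mul_mem' := by
    rintro f g ⟨hf, C, hC⟩ ⟨hg, D, hD⟩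
    refine ⟨hf.mul hg, C * D, fun ω => ?_⟩
    rw [Pi.mul_apply, norm_mul]
    exact mul_le_mul (hC ω) (hD ω) (norm_nonneg _) ((norm_nonneg _).trans (hC ω))
  add_mem' := by
    rintro f g ⟨hf, C, hC⟩ ⟨hg, D, hD⟩
    exact ⟨hf.add hg, C + D, fun ω => (norm_add_le _ _).trans (add_le_add (hC ω) (hD ω))⟩
  algebraMap_mem' := by
    intro r
    refine ⟨measurable_const, ‖r‖, fun ω => ?_⟩
    simp
  star_mem' := by
    rintro f ⟨hf, C, hC⟩
    refine ⟨?_, C, fun ω => ?_⟩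
    · exact (continuous_star.measurable).comp hf
    · simpa using hC ω

variable {Ω} (ν : Measure Ω)

/-- null functions -/
noncomputable def NI : Ideal (BM Ω) where
  carrier := {f | (f : Ω → ℂ) =ᵐ[ν] 0}
  add_mem' := by
    intro a b ha hb
    have := EventuallyEq.add (l := ae ν) ha hb
    simpa using this
  zero_mem' := EventuallyEq.refl (ae ν) (0 : Ω → ℂ)
  smul_mem' := by
    intro c x hx
    have : ((c : Ω → ℂ) * (x : Ω → ℂ)) =ᵐ[ν] (c : Ω → ℂ) * 0 :=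
      EventuallyEq.mul EventuallyEq.rfl hx
    simpa using this

/-- bounded measurable functions modulo null functions -/
abbrev AA : Type := BM Ω ⧸ NI ν

variable {ν}

/-- the class of a bounded measurable function -/
noncomputable def mk (f : BM Ω) : AA ν := Ideal.Quotient.mk (NI ν) f

lemma mk_surj (a : AA ν) : ∃ f : BM Ω, mk f = a := Ideal.Quotient.mk_surjective a

lemma mk_eq_iff (f g : BM Ω) : (mk f : AA ν) = mk g ↔ (f : Ω → ℂ) =ᵐ[ν] g := by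
  unfold mk
  rw [Ideal.Quotient.mk_eq_mk_iff_sub_mem]
  change (((f - g : BM Ω) : Ω → ℂ) =ᵐ[ν] 0) ↔ _
  constructor
  · intro h
    filter_upwards [h] with ω hω
    have : (f : Ω → ℂ) ω - (g : Ω → ℂ) ω = 0 := by simpa using hω
    exact sub_eq_zero.mp this
  · intro h
    filter_upwards [h] with ω hω
    simp [hω]

lemma star_NI : NI ν ≤ Ideal.comap (starRingEnd (BM Ω)) (NI ν) := by
  intro f hf
  have hf' : (f : Ω → ℂ) =ᵐ[ν] 0 := hf
  change (((starRingEnd (BM Ω)) f : BM Ω) : Ω → ℂ) =ᵐ[ν] 0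
  filter_upwards [hf'] with ω hω
  change star ((f : Ω → ℂ) ω) = 0
  rw [hω]; simp

noncomputable instance : Star (AA ν) := ⟨fun a => Ideal.quotientMap (NI ν) (starRingEnd (BM Ω)) star_NI a⟩

lemma star_mk (f : BM Ω) : star (mk f : AA ν) = mk (star f) := rfl

noncomputable instance : StarRing (AA ν) where
  star_involutive := by
    intro a
    obtain ⟨f, rfl⟩ := mk_surj a
    rw [star_mk, star_mk, star_star]
  star_mul := by
    intro a b
    obtain ⟨f, rfl⟩ := mk_surj a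
    obtain ⟨g, rfl⟩ := mk_surj b
    have h : (mk f : AA ν) * mk g = mk (f * g) := rfl
    rw [h, star_mk, star_mk, star_mk, star_mul]
    rfl
  star_add := by
    intro a b
    obtain ⟨f, rfl⟩ := mk_surj a
    obtain ⟨g, rfl⟩ := mk_surj b
    have h : (mk f : AA ν) + mk g = mk (f + g) := rfl
    rw [h, star_mk, star_mk, star_mk, star_add]
    rfl

noncomputable instance : StarModule ℂ (AA ν) where
  star_smul := by
    intro c a
    obtain ⟨f, rfl⟩ := mk_surj a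
    have h : c • (mk f : AA ν) = mk (c • f) := rfl
    rw [h, star_mk, star_mk, star_smul]
    rfl

lemma mk_mul (f g : BM Ω) : (mk f : AA ν) * mk g = mk (f * g) := rfl
lemma mk_add (f g : BM Ω) : (mk f : AA ν) + mk g = mk (f + g) := rfl
lemma mk_smul (c : ℂ) (f : BM Ω) : c • (mk f : AA ν) = mk (c • f) := rfl
lemma mk_one : (1 : AA ν) = mk 1 := rfl
lemma mk_zero : (0 : AA ν) = mk 0 := rfl

/-- composition with a measurable equivalence -/
noncomputable def cmp (e : Ω ≃ᵐ Ω) : BM Ω →⋆ₐ[ℂ] BM Ω where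
  toFun f := ⟨fun ω => (f : Ω → ℂ) (e ω), by
    obtain ⟨hf, C, hC⟩ := f.2
    exact ⟨hf.comp e.measurable, C, fun ω => hC _⟩⟩
  map_one' := rfl
  map_mul' _ _ := rfl
  map_zero' := rfl
  map_add' _ _ := rfl
  commutes' _ := rfl
  map_star' _ := rfl

lemma cmp_NI (e : Ω ≃ᵐ Ω) (he : MeasurePreserving e ν ν) :
    NI ν ≤ Ideal.comap (cmp e).toAlgHom (NI ν) := by
  intro f hf
  have hf' : (f : Ω → ℂ) =ᵐ[ν] 0 := hf
  change (((cmp e) f : BM Ω) : Ω → ℂ) =ᵐ[ν] 0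
  exact he.quasiMeasurePreserving.ae_eq_comp hf'

/-- composition on classes -/
noncomputable def cmpA (e : Ω ≃ᵐ Ω) (he : MeasurePreserving e ν ν) : AA ν →⋆ₐ[ℂ] AA ν where
  toAlgHom := Ideal.quotientMapₐ (NI ν) (cmp e).toAlgHom (cmp_NI e he)
  map_star' := by
    intro a
    obtain ⟨f, rfl⟩ := mk_surj a
    rfl

lemma cmpA_mk (e : Ω ≃ᵐ Ω) (he : MeasurePreserving e ν ν) (f : BM Ω) :
    cmpA e he (mk f) = mk (cmp e f) := rfl

end Alg

section Lp2

variable {Ω : Type} [MeasurableSpace Ω] {ν : Measure Ω}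

lemma memLp_BM [IsProbabilityMeasure ν] (f : BM Ω) : MemLp (f : Ω → ℂ) 2 ν := by
  obtain ⟨hf, C, hC⟩ := f.2
  exact MemLp.of_bound hf.aestronglyMeasurable C (Eventually.of_forall hC)

variable [IsProbabilityMeasure ν]

/-- the class in `L²` of a bounded function -/
noncomputable def toL (f : BM Ω) : Lp ℂ 2 ν := (memLp_BM f).toLp _

lemma toL_ae (f : BM Ω) : (toL f : Lp ℂ 2 ν) =ᵐ[ν] (f : Ω → ℂ) := (memLp_BM f).coeFn_toLp

lemma toL_eq_iff (f g : BM Ω) : (toL f : Lp ℂ 2 ν) = toL g ↔ (f : Ω → ℂ) =ᵐ[ν] g :=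
  MemLp.toLp_eq_toLp_iff _ _

/-- the map `A → L²` -/
noncomputable def io : AA ν →ₗ[ℂ] Lp ℂ 2 ν where
  toFun a := toL (Classical.choose (mk_surj a))
  map_add' := by
    intro a b
    have ha := Classical.choose_spec (mk_surj a)
    have hb := Classical.choose_spec (mk_surj b)
    have hab := Classical.choose_spec (mk_surj (a + b))
    set f := Classical.choose (mk_surj a)
    set g := Classical.choose (mk_surj b)
    set h := Classical.choose (mk_surj (a + b))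
    have h1 : (mk h : AA ν) = mk (f + g) := by rw [hab, ← mk_add, ha, hb]
    rw [mk_eq_iff] at h1
    rw [(toL_eq_iff h (f + g)).2 h1]
    exact MemLp.toLp_add (memLp_BM f) (memLp_BM g)
  map_smul' := by
    intro c a
    have ha := Classical.choose_spec (mk_surj a)
    have hca := Classical.choose_spec (mk_surj (c • a))
    set f := Classical.choose (mk_surj a)
    set h := Classical.choose (mk_surj (c • a))
    have h1 : (mk h : AA ν) = mk (c • f) := by rw [hca, ← mk_smul, ha]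
    rw [mk_eq_iff] at h1
    rw [(toL_eq_iff h (c • f)).2 h1]
    exact MemLp.toLp_const_smul c (memLp_BM f)

lemma io_mk (f : BM Ω) : io (mk f : AA ν) = toL f := by
  have h := Classical.choose_spec (mk_surj (mk f : AA ν))
  exact (toL_eq_iff _ _).2 ((mk_eq_iff _ _).1 h)

lemma io_inj : Function.Injective (io : AA ν → Lp ℂ 2 ν) := by
  intro a b h
  obtain ⟨f, rfl⟩ := mk_surj a
  obtain ⟨g, rfl⟩ := mk_surj b
  rw [io_mk, io_mk, toL_eq_iff] at h
  exact (mk_eq_iff _ _).2 h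

lemma io_dense : DenseRange (io : AA ν → Lp ℂ 2 ν) := by
  have h := Lp.simpleFunc.dense (E := ℂ) (μ := ν) (p := 2) (by norm_num)
  rw [DenseRange]
  refine Dense.mono ?_ h
  intro z hz
  set s := Lp.simpleFunc.toSimpleFunc (⟨z, hz⟩ : Lp.simpleFunc ℂ 2 ν) with hs
  obtain ⟨C, hC⟩ := s.exists_forall_norm_le
  refine ⟨mk ⟨s, s.measurable, C, hC⟩, ?_⟩
  rw [io_mk]
  refine Lp.ext ?_
  refine (toL_ae _).trans ?_
  exact Lp.simpleFunc.toSimpleFunc_eq_toFun (⟨z, hz⟩ : Lp.simpleFunc ℂ 2 ν)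

lemma norm_io_one : ‖io (1 : AA ν)‖ = 1 := by
  rw [mk_one, io_mk, toL, Lp.norm_toLp]
  change (eLpNorm (fun _ => (1 : ℂ)) 2 ν).toReal = 1
  rw [eLpNorm_const _ two_ne_zero (IsProbabilityMeasure.ne_zero ν)]
  simp

lemma inner_io (a b c : AA ν) : ⟪io (a * b), io c⟫_ℂ = ⟪io b, io (star a * c)⟫_ℂ := by
  obtain ⟨f, rfl⟩ := mk_surj a
  obtain ⟨g, rfl⟩ := mk_surj b
  obtain ⟨h, rfl⟩ := mk_surj c
  rw [star_mk, mk_mul, mk_mul, io_mk, io_mk, io_mk, io_mk]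
  rw [L2.inner_def, L2.inner_def]
  refine integral_congr_ae ?_
  filter_upwards [toL_ae (ν := ν) (f * g), toL_ae (ν := ν) h, toL_ae (ν := ν) g,
    toL_ae (ν := ν) (star f * h)] with ω h1 h2 h3 h4
  rw [h1, h2, h3, h4]
  simp only [RCLike.inner_apply]
  change (h : Ω → ℂ) ω * (starRingEnd ℂ) ((f : Ω → ℂ) ω * (g : Ω → ℂ) ω) =
    (star ((f : Ω → ℂ) ω) * (h : Ω → ℂ) ω) * (starRingEnd ℂ) ((g : Ω → ℂ) ω)
  rw [map_mul]
  change _ = ((starRingEnd ℂ) ((f : Ω → ℂ) ω) * (h : Ω → ℂ) ω) * (starRingEnd ℂ) ((g : Ω → ℂ) ω)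
  ring

lemma norm_io_mul_le (f g : BM Ω) (C : ℝ) (hf : ∀ᵐ ω ∂ν, ‖(f : Ω → ℂ) ω‖ ≤ C) :
    ‖io (mk f * mk g : AA ν)‖ ≤ C * ‖io (mk g : AA ν)‖ := by
  rw [mk_mul, io_mk, io_mk]
  refine Lp.norm_le_mul_norm_of_ae_le_mul ?_
  filter_upwards [toL_ae (ν := ν) (f * g), toL_ae (ν := ν) g, hf] with ω h1 h2 h3
  rw [h1, h2]
  change ‖(f : Ω → ℂ) ω * (g : Ω → ℂ) ω‖ ≤ _
  rw [norm_mul]
  exact mul_le_mul_of_nonneg_right h3 (norm_nonneg _)

/-- the converse: the multiplier norm bounds the function -/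
lemma ae_le_of_mul_le (f : BM Ω) (C : ℝ)
    (h : ∀ b : AA ν, ‖io (mk f * b : AA ν)‖ ≤ C * ‖io b‖) :
    0 ≤ C ∧ ∀ᵐ ω ∂ν, ‖(f : Ω → ℂ) ω‖ ≤ C := by
  have h0 : 0 ≤ C := by
    have h1 := h 1
    rw [norm_io_one] at h1
    linarith [norm_nonneg (io (mk f * 1 : AA ν))]
  refine ⟨h0, ?_⟩
  have key : ∀ ε : ℝ, 0 < ε → ∀ᵐ ω ∂ν, ‖(f : Ω → ℂ) ω‖ < C + ε := by
    intro ε hε
    have hpos : 0 < C + ε := by linarith
    set E : Set Ω := {ω | C + ε ≤ ‖(f : Ω → ℂ) ω‖} with hE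
    have hEm : MeasurableSet E := measurableSet_le measurable_const f.2.1.norm
    set b : BM Ω := ⟨E.indicator (fun _ => (1 : ℂ)), measurable_const.indicator hEm, 1, by
      intro ω
      by_cases hω : ω ∈ E <;> simp [hω]⟩ with hb
    have h1 : ‖io (mk b : AA ν)‖ ≤ (C + ε)⁻¹ * ‖io (mk f * mk b : AA ν)‖ := by
      rw [mk_mul, io_mk, io_mk]
      refine Lp.norm_le_mul_norm_of_ae_le_mul ?_
      filter_upwards [toL_ae (ν := ν) (f * b), toL_ae (ν := ν) b] with ω h1 h2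
      rw [h1, h2]
      change ‖E.indicator (fun _ => (1 : ℂ)) ω‖ ≤
        (C + ε)⁻¹ * ‖(f : Ω → ℂ) ω * E.indicator (fun _ => (1 : ℂ)) ω‖
      by_cases hω : ω ∈ E
      · rw [Set.indicator_of_mem hω, mul_one, norm_one]
        have h3 : C + ε ≤ ‖(f : Ω → ℂ) ω‖ := hω
        rw [inv_mul_eq_div, le_div_iff₀ hpos]
        simpa using h3
      · rw [Set.indicator_of_notMem hω]; simp
    have h2 := h (mk b)
    have h3 : (C + ε) * ‖io (mk b : AA ν)‖ ≤ ‖io (mk f * mk b : AA ν)‖ := by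
      rw [inv_mul_eq_div, le_div_iff₀ hpos] at h1
      linarith
    have h4 : ‖io (mk b : AA ν)‖ = 0 := by
      have h5 : 0 ≤ ‖io (mk b : AA ν)‖ := norm_nonneg _
      nlinarith
    have h5 : io (mk b : AA ν) = io (mk 0 : AA ν) := by
      rw [norm_eq_zero.mp h4, ← mk_zero, map_zero]
    have h6 := (mk_eq_iff _ _).1 (io_inj h5)
    filter_upwards [h6] with ω hω
    by_contra hcon
    push Not at hcon
    have hmem : ω ∈ E := hcon
    have h7 : E.indicator (fun _ => (1 : ℂ)) ω = 0 := hω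
    rw [Set.indicator_of_mem hmem] at h7
    exact one_ne_zero h7
  have hall : ∀ᵐ ω ∂ν, ∀ n : ℕ, ‖(f : Ω → ℂ) ω‖ < C + 1 / ((n : ℝ) + 1) :=
    ae_all_iff.mpr fun n => key _ (by positivity)
  filter_upwards [hall] with ω hω
  refine le_of_forall_pos_lt_add fun ε hε => ?_
  obtain ⟨n, hn⟩ := exists_nat_one_div_lt hε
  linarith [hω n]

/-- composition on `L²` -/
noncomputable def cmpL (e : Ω ≃ᵐ Ω) (he : MeasurePreserving e ν ν) :
    Lp ℂ 2 ν ≃ₗᵢ[ℂ] Lp ℂ 2 ν :=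
  LinearIsometryEquiv.ofSurjective (Lp.compMeasurePreservingₗᵢ ℂ e he) (by
    intro z
    refine ⟨Lp.compMeasurePreserving e.symm (MeasurePreserving.symm e he) z, ?_⟩
    refine Lp.ext ?_
    refine (Lp.coeFn_compMeasurePreserving _ he).trans ?_
    have h1 := he.quasiMeasurePreserving.ae_eq_comp
      (Lp.coeFn_compMeasurePreserving z (MeasurePreserving.symm e he))
    refine h1.trans ?_
    filter_upwards with ω
    simp)

lemma cmpL_ae (e : Ω ≃ᵐ Ω) (he : MeasurePreserving e ν ν) (z : Lp ℂ 2 ν) :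
    cmpL e he z =ᵐ[ν] z ∘ e := Lp.coeFn_compMeasurePreserving z he

lemma cmpL_id (e : Ω ≃ᵐ Ω) (he : MeasurePreserving e ν ν) (h : ∀ ω, e ω = ω) (z : Lp ℂ 2 ν) :
    cmpL e he z = z := by
  refine Lp.ext ((cmpL_ae e he z).trans ?_)
  filter_upwards with ω
  simp [h ω]

lemma cmpL_comp (e e₁ e₂ : Ω ≃ᵐ Ω) (he : MeasurePreserving e ν ν) (he₁ : MeasurePreserving e₁ ν ν)
    (he₂ : MeasurePreserving e₂ ν ν) (h : ∀ ω, e ω = e₂ (e₁ ω)) (z : Lp ℂ 2 ν) :
    cmpL e he z = cmpL e₁ he₁ (cmpL e₂ he₂ z) := by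
  refine Lp.ext ((cmpL_ae e he z).trans ?_)
  refine EventuallyEq.trans ?_ (cmpL_ae e₁ he₁ _).symm
  refine EventuallyEq.trans ?_ (he₁.quasiMeasurePreserving.ae_eq_comp (cmpL_ae e₂ he₂ z)).symm
  filter_upwards with ω
  simp [h ω]

lemma io_cmp (e : Ω ≃ᵐ Ω) (he : MeasurePreserving e ν ν) (a : AA ν) :
    io (cmpA e he a) = cmpL e he (io a) := by
  obtain ⟨f, rfl⟩ := mk_surj a
  rw [cmpA_mk, io_mk, io_mk]
  refine Lp.ext ((toL_ae _).trans ?_)
  refine EventuallyEq.trans ?_ (cmpL_ae e he _).symm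
  exact (he.quasiMeasurePreserving.ae_eq_comp (toL_ae (ν := ν) f)).symm

lemma bd_complete (C : ℝ) (a : ℕ → AA ν) (h : ∀ n b, ‖io (a n * b)‖ ≤ C * ‖io b‖)
    (hc : CauchySeq (fun n => io (a n))) :
    ∃ b : AA ν, (∀ c, ‖io (b * c)‖ ≤ C * ‖io c‖) ∧
      Tendsto (fun n => io (a n)) atTop (𝓝 (io b)) := by
  obtain ⟨z, hz⟩ := cauchySeq_tendsto_of_complete hc
  have h0 : 0 ≤ C := by
    have h1 := h 0 1
    rw [norm_io_one] at h1
    linarith [norm_nonneg (io (a 0 * 1 : AA ν))]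
  choose f hf using fun n => mk_surj (a n)
  have hb : ∀ n, ∀ᵐ ω ∂ν, ‖(f n : Ω → ℂ) ω‖ ≤ C := fun n =>
    (ae_le_of_mul_le (f n) C (fun b => by rw [hf n]; exact h n b)).2
  obtain ⟨φ, -, hφ⟩ := (tendstoInMeasure_of_tendsto_Lp hz).exists_seq_tendsto_ae
  have hzC : ∀ᵐ ω ∂ν, ‖z ω‖ ≤ C := by
    have h2 : ∀ᵐ ω ∂ν, ∀ n, (io (a n) : Lp ℂ 2 ν) ω = (f n : Ω → ℂ) ω := by
      refine ae_all_iff.mpr fun n => ?_
      rw [← hf n, io_mk]
      exact toL_ae _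
    filter_upwards [hφ, h2, ae_all_iff.mpr hb] with ω h3 h4 h5
    refine le_of_tendsto h3.norm (Eventually.of_forall fun n => ?_)
    rw [h4]
    exact h5 _
  obtain ⟨z', hz'm, hz'⟩ := (Lp.aestronglyMeasurable z)
  set g : BM Ω := ⟨{ω | ‖z' ω‖ ≤ C}.indicator z', hz'm.measurable.indicator
      (measurableSet_le hz'm.measurable.norm measurable_const), C, by
    intro ω
    by_cases hω : ω ∈ {ω | ‖z' ω‖ ≤ C}
    · rw [Set.indicator_of_mem hω]; exact hω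
    · rw [Set.indicator_of_notMem hω]; simpa using h0⟩ with hg
  have hgz : toL g = z := by
    refine Lp.ext ((toL_ae g).trans ?_)
    filter_upwards [hz', hzC] with ω h1 h2
    change {ω | ‖z' ω‖ ≤ C}.indicator z' ω = z ω
    rw [Set.indicator_of_mem (show ω ∈ {ω | ‖z' ω‖ ≤ C} by rw [Set.mem_ofPred_eq, ← h1]; exact h2), h1]
  refine ⟨mk g, fun c => ?_, ?_⟩
  · obtain ⟨c, rfl⟩ := mk_surj c
    refine norm_io_mul_le g c C (Eventually.of_forall fun ω => ?_)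
    change ‖{ω | ‖z' ω‖ ≤ C}.indicator z' ω‖ ≤ C
    by_cases hω : ω ∈ {ω | ‖z' ω‖ ≤ C}
    · rw [Set.indicator_of_mem hω]; exact hω
    · rw [Set.indicator_of_notMem hω]; simpa using h0
  · rw [io_mk, hgz]
    exact hz

end Lp2

section Main

variable {Λ : Type} [CommRing Λ] {Ω : Type} [MeasurableSpace Ω] {ν : Measure Ω}

/-- the abstract system of a measure preserving system -/
noncomputable def sys [IsProbabilityMeasure ν] (M : MSys Λ Ω ν) : Sys Λ (AA ν) (Lp ℂ 2 ν) where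
  U y := cmpL (M.U y) (M.U_mp y)
  V σ := cmpL (M.V σ) (M.V_mp σ)
  U_zero z := cmpL_id _ _ M.U_zero z
  U_add y y' z := by
    refine cmpL_comp _ _ _ _ _ _ (fun ω => ?_) z
    rw [← M.U_add, add_comm]
  V_one z := cmpL_id _ _ M.V_one z
  V_mul σ τ z := cmpL_comp _ _ _ _ _ _ (fun ω => M.V_mul σ τ ω) z
  VU σ y z := by
    have hmp : MeasurePreserving ((M.V σ).trans (M.U y)) ν ν := (M.V_mp σ).trans (M.U_mp y)
    rw [← cmpL_comp ((M.V σ).trans (M.U y)) (M.V σ) (M.U y) hmp _ _ (fun ω => rfl) z]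
    refine cmpL_comp _ _ _ _ _ _ (fun ω => ?_) z
    exact M.VU σ y ω
  ι := io
  ι_inj := io_inj
  ι_dense := io_dense
  norm_one := norm_io_one
  inner_mul := inner_io
  bd_exists a := by
    obtain ⟨f, rfl⟩ := mk_surj a
    obtain ⟨C, hC⟩ := f.2.2
    refine ⟨max C 0, le_max_right _ _, fun b => ?_⟩
    obtain ⟨g, rfl⟩ := mk_surj b
    exact norm_io_mul_le f g _ (Eventually.of_forall fun ω => (hC ω).trans (le_max_left _ _))
  bd_complete := bd_complete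
  UA y := cmpA (M.U y) (M.U_mp y)
  VA σ := cmpA (M.V σ) (M.V_mp σ)
  ι_U y a := io_cmp _ _ a
  ι_V σ a := io_cmp _ _ a
  erg := by
    intro z hU hV
    obtain ⟨c, hc⟩ := M.erg z (Lp.memLp z) (fun y => by
      have h1 := cmpL_ae (M.U y) (M.U_mp y) z
      rw [hU y] at h1
      exact h1.symm) (fun σ => by
      have h1 := cmpL_ae (M.V σ) (M.V_mp σ) z
      rw [hV σ] at h1
      exact h1.symm)
    refine ⟨c, ?_⟩
    rw [mk_one, ← map_smul, mk_smul, io_mk]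
    refine Lp.ext (hc.trans ?_)
    refine EventuallyEq.trans ?_ (toL_ae _).symm
    filter_upwards with ω
    change c = c • (1 : ℂ)
    simp

lemma ind_meas {E : Set Ω} (hE : MeasurableSet E) : Measurable (ind E) :=
  measurable_const.indicator hE

/-- the class of an indicator function -/
noncomputable def bmi (E : Set Ω) (hE : MeasurableSet E) : BM Ω :=
  ⟨fun ω => ((ind E ω : ℝ) : ℂ), Complex.measurable_ofReal.comp (ind_meas hE), 1, by
    intro ω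
    unfold ind
    by_cases hω : ω ∈ E <;> simp [hω]⟩

lemma bmi_apply (E : Set Ω) (hE : MeasurableSet E) (ω : Ω) :
    (bmi E hE : Ω → ℂ) ω = ((ind E ω : ℝ) : ℂ) := rfl

lemma ind_mul_self (E : Set Ω) (ω : Ω) : ind E ω * ind E ω = ind E ω := by
  unfold ind
  by_cases hω : ω ∈ E <;> simp [hω]

lemma star_bmi (E : Set Ω) (hE : MeasurableSet E) : star (bmi E hE) = bmi E hE := by
  apply Subtype.ext
  funext ω
  change star ((ind E ω : ℝ) : ℂ) = ((ind E ω : ℝ) : ℂ)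
  exact Complex.conj_ofReal _

lemma bmi_mul_self (E : Set Ω) (hE : MeasurableSet E) : bmi E hE * bmi E hE = bmi E hE := by
  apply Subtype.ext
  funext ω
  change ((ind E ω : ℝ) : ℂ) * ((ind E ω : ℝ) : ℂ) = ((ind E ω : ℝ) : ℂ)
  rw [← Complex.ofReal_mul, ind_mul_self]

variable [IsProbabilityMeasure ν]

lemma mem_HB_of (M : MSys Λ Ω ν) (E : Set Ω) (hE : MeasurableSet E)
    (h : ∀ σ, (M.V σ) ⁻¹' E = E) : (sys M).ι (mk (bmi E hE)) ∈ (sys M).HB ∅ := by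
  intro σ _
  change cmpL (M.V σ) (M.V_mp σ) (io (mk (bmi E hE))) = io (mk (bmi E hE))
  rw [← io_cmp, cmpA_mk]
  congr 2
  apply Subtype.ext
  funext ω
  change ((ind E (M.V σ ω) : ℝ) : ℂ) = ((ind E ω : ℝ) : ℂ)
  have h1 : (M.V σ ω ∈ E) ↔ ω ∈ E := by
    have := h σ
    rw [Set.ext_iff] at this
    exact this ω
  unfold ind
  by_cases hω : ω ∈ E
  · rw [Set.indicator_of_mem hω, Set.indicator_of_mem (h1.2 hω)]
  · rw [Set.indicator_of_notMem hω, Set.indicator_of_notMem (fun h2 => hω (h1.1 h2))]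

lemma Bd_bmi (M : MSys Λ Ω ν) (E : Set Ω) (hE : MeasurableSet E) :
    (sys M).Bd 1 (mk (bmi E hE)) := by
  refine ⟨zero_le_one, fun b => ?_⟩
  obtain ⟨g, rfl⟩ := mk_surj b
  refine norm_io_mul_le _ g 1 (Eventually.of_forall fun ω => ?_)
  rw [bmi_apply]
  unfold ind
  by_cases hω : ω ∈ E <;> simp [hω]

/-- the norm of a class represented by a real function -/
lemma norm_io_le (f : BM Ω) (g : Ω → ℝ) (h : ∀ ω, (f : Ω → ℂ) ω = ((g ω : ℝ) : ℂ)) (ε : ℝ)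
    (hε : 0 ≤ ε) (hi : ∫ ω, (g ω) ^ 2 ∂ν ≤ ε ^ 2) : ‖io (mk f : AA ν)‖ ≤ ε := by
  rw [io_mk]
  refine abs_le_of_sq_le_sq' ?_ hε |>.2
  rw [@norm_sq_eq_re_inner ℂ, L2.inner_def]
  refine le_trans (le_of_eq ?_) hi
  have h1 : ∫ ω, ⟪(toL f : Lp ℂ 2 ν) ω, (toL f : Lp ℂ 2 ν) ω⟫_ℂ ∂ν =
      ∫ ω, (((g ω) ^ 2 : ℝ) : ℂ) ∂ν := by
    refine integral_congr_ae ?_
    filter_upwards [toL_ae (ν := ν) f] with ω h1
    rw [h1, h, RCLike.inner_apply, Complex.conj_ofReal]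
    push_cast
    ring
  rw [h1]
  have h2 : ∫ ω, (((g ω) ^ 2 : ℝ) : ℂ) ∂ν = ((∫ ω, (g ω) ^ 2 ∂ν : ℝ) : ℂ) :=
    integral_ofReal (𝕜 := ℂ)
  rw [h2]
  exact Complex.ofReal_re _

/-- evaluation at a point -/
noncomputable def ev (ω : Ω) : BM Ω →ₐ[ℂ] ℂ where
  toFun f := (f : Ω → ℂ) ω
  map_one' := rfl
  map_mul' _ _ := rfl
  map_zero' := rfl
  map_add' _ _ := rfl
  commutes' _ := rfl

lemma LLN_of (M : MSys Λ Ω ν) (p : ℕ) (β : ℕ → Λ) (k : Λ) (E : Set Ω) (hE : MeasurableSet E)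
    (h : M.LLN p β k E) : (sys M).LLN p β k (mk (bmi E hE)) := by
  obtain ⟨φ, hφ, hL⟩ := h
  refine ⟨φ, hφ, fun r ε hε => ?_⟩
  obtain ⟨N, hN, hNε, v, hv, hc⟩ := hL r ε hε
  refine ⟨N, hN, hNε, fun n => mk (bmi (v n) (hv n).1), fun n =>
    ⟨mem_HB_of M _ _ (hv n).2, Bd_bmi M _ _⟩, ?_⟩
  intro l c h1 h2 h3
  have h4 := hc l c h1 h2 h3
  set F : BM Ω := (1 / (N : ℂ)) • ∑ n, (cmp (M.U (k • bb p β (φ l))) (bmi (v n) (hv n).1) *
      star (bmi (v n) (hv n).1)) - (1 / (N : ℂ)) • ∑ n, cmp (M.U (k • c n))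
      (cmp (M.U (k • bb p β (φ l))) (bmi E hE) * star (bmi E hE)) with hF
  have h5 : (1 / (N : ℂ)) • ∑ n, (sys M).ι ((sys M).UA (k • bb p β (φ l)) (mk (bmi (v n) (hv n).1))
        * star (mk (bmi (v n) (hv n).1)))
      - (1 / (N : ℂ)) • ∑ n, (sys M).ι ((sys M).UA (k • c n)
        ((sys M).UA (k • bb p β (φ l)) (mk (bmi E hE)) * star (mk (bmi E hE)))) =
      io (mk F : AA ν) := by
    have e1 : (mk F : AA ν) = (1 / (N : ℂ)) • ∑ n, ((sys M).UA (k • bb p β (φ l))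
        (mk (bmi (v n) (hv n).1)) * star (mk (bmi (v n) (hv n).1)))
      - (1 / (N : ℂ)) • ∑ n, ((sys M).UA (k • c n)
        ((sys M).UA (k • bb p β (φ l)) (mk (bmi E hE)) * star (mk (bmi E hE)))) := by
      have e2 : (mk F : AA ν) = Ideal.Quotient.mkₐ ℂ (NI ν) F := rfl
      rw [e2, hF, map_sub, map_smul, map_smul, map_sum, map_sum]
      rfl
    rw [e1, map_sub, map_smul, map_smul, map_sum, map_sum]
    rfl
  rw [h5]
  refine norm_io_le F _ (fun ω => ?_) ε hε.le h4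
  have e3 : (F : Ω → ℂ) ω = ev ω F := rfl
  rw [e3, hF, map_sub, map_smul, map_smul, map_sum, map_sum]
  push_cast
  rw [smul_eq_mul, smul_eq_mul]
  congr 2
  · refine Finset.sum_congr rfl fun n _ => ?_
    rw [star_bmi]
    rfl
  · refine Finset.sum_congr rfl fun n _ => ?_
    rw [star_bmi]
    rfl

end Main

end C3

theorem C3 : T_C3 := by
  intro hAbs Λ _ Ω _ ν M p _ ρ β k1 k2 E hp hβ hk1 hk2 hk hE hV hν hL1 hL2 hzero
  have := M.prob
  refine hAbs Λ (C3.AA ν) (Lp ℂ 2 ν) (C3.sys M) p ρ β k1 k2 (C3.mk (C3.bmi E hE)) hp hβ hk1 hk2 hk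
    ?_ ?_ ?_ (C3.mem_HB_of M E hE hV) (C3.LLN_of M p β k1 E hE hL1) (C3.LLN_of M p β k2 E hE hL2) ?_
  · rw [C3.star_mk, C3.star_bmi]
  · rw [C3.mk_mul, C3.bmi_mul_self]
  · intro h0
    rw [C3.mk_zero, C3.mk_eq_iff] at h0
    apply hν
    have h1 : ∀ᵐ ω ∂ν, ω ∉ E := by
      filter_upwards [h0] with ω hω hmem
      rw [C3.bmi_apply] at hω
      unfold ind at hω
      rw [Set.indicator_of_mem hmem] at hω
      simp at hω
    rw [ae_iff] at h1
    simpa using h1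
  · intro g t hg ht1 ht2
    have h1 := hzero g t hg ht1 ht2
    change C3.mk (C3.bmi E hE) * C3.cmpA _ (M.U_mp (k1 • g)) (C3.mk (C3.bmi E hE)) *
      C3.cmpA _ (M.U_mp (k2 • g)) (C3.mk (C3.bmi E hE)) = 0
    rw [C3.cmpA_mk, C3.cmpA_mk, C3.mk_mul, C3.mk_mul, C3.mk_zero, C3.mk_eq_iff]
    have h2 : ∀ᵐ ω ∂ν, ω ∉ E ∩ (M.U (k1 • g)) ⁻¹' E ∩ (M.U (k2 • g)) ⁻¹' E :=
      measure_eq_zero_iff_ae_notMem.mp h1
    filter_upwards [h2] with ω hω
    change ((ind E ω : ℝ) : ℂ) * ((ind E (M.U (k1 • g) ω) : ℝ) : ℂ) *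
      ((ind E (M.U (k2 • g) ω) : ℝ) : ℂ) = 0
    unfold ind
    by_cases h3 : ω ∈ E
    · by_cases h4 : M.U (k1 • g) ω ∈ E
      · have h5 : M.U (k2 • g) ω ∉ E := fun h5 => hω ⟨⟨h3, h4⟩, h5⟩
        rw [Set.indicator_of_notMem h5]; simp
      · rw [Set.indicator_of_notMem h4]; simp
    · rw [Set.indicator_of_notMem h3]; simp

end Pool.Agent.H84.B
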