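import Mathlib

/-!
# Bergelson's question (MP_02e9fb_an): definitions shared by all modules

Abstract setting.  `Λ` is a commutative ring with a ring homomorphism `ρ : Λ →+* ZMod p`
(in the application `Λ` is the ring of rationals with denominator prime to `p`).
`Y Λ` is the group of finitely supported `y : ℕ →₀ Λ` with sum zero.
`FP` is the group of finitary permutations of `ℕ`.
-/

open scoped ComplexConjugate InnerProductSpace
open Filter Topology

namespace Pool.Agent.H84.B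

section Index

variable (Λ : Type) [CommRing Λ]

/-- the sum map `y ↦ ∑ y i` -/
noncomputable def sumMap : (ℕ →₀ Λ) →ₗ[Λ] Λ := Finsupp.linearCombination Λ (fun _ : ℕ => (1 : Λ))

/-- finitely supported vectors with sum zero -/
noncomputable def Y : Submodule Λ (ℕ →₀ Λ) := LinearMap.ker (sumMap Λ)

/-- finitary permutations of `ℕ` -/
def FP : Subgroup (Equiv.Perm ℕ) where
  carrier := {σ | {i | σ i ≠ i}.Finite}
  one_mem' := by simp
  mul_mem' := by
    intro σ τ hσ hτ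
    refine Set.Finite.subset (hσ.union hτ) ?_
    intro i hi
    by_contra h
    simp only [Set.mem_union, Set.mem_ofPred_eq, not_or, not_not] at h
    apply hi
    simp [Equiv.Perm.mul_apply, h.1, h.2]
  inv_mem' := by
    intro σ hσ
    refine Set.Finite.subset hσ ?_
    intro i hi h
    apply hi
    rw [Equiv.Perm.inv_eq_iff_eq]
    exact h.symm

variable {Λ}

/-- the action of a permutation on `Y`: `(pY σ y) (σ i) = y i` -/
noncomputable def pY (σ : FP) (y : Y Λ) : Y Λ :=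
  ⟨Finsupp.equivMapDomain σ.1 y.1, by
    have hy : sumMap Λ y.1 = 0 := y.2
    change sumMap Λ _ = 0
    rw [← hy, Finsupp.equivMapDomain_eq_mapDomain]
    simp [sumMap, Finsupp.linearCombination_mapDomain, Function.comp_def]⟩

@[simp] lemma pY_apply (σ : FP) (y : Y Λ) (i : ℕ) : (pY σ y).1 i = y.1 (σ.1.symm i) := rfl

/-- two elements of `Y` have disjoint supports -/
def Dsj (y y' : Y Λ) : Prop := Disjoint y.1.support y'.1.support

/-- `y` vanishes on `B` -/
def Off (y : Y Λ) (B : Finset ℕ) : Prop := Disjoint y.1.support B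

/-- `y'` is a copy of `y` -/
def IsCopy (y y' : Y Λ) : Prop := ∃ σ : FP, y' = pY σ y

/-- the vector `c (e_i - e_j)` -/
noncomputable def pr (c : Λ) (i j : ℕ) : Y Λ :=
  ⟨Finsupp.single i c - Finsupp.single j c, by
    change sumMap Λ _ = 0
    simp [sumMap]⟩

/-- the block `b (e_{o+1} + ... + e_{o+p}) - p b e_o`, written as a sum of pairs -/
noncomputable def Dblk (p : ℕ) (b : Λ) (o : ℕ) : Y Λ := ∑ j ∈ Finset.range p, pr b (o + 1 + j) o

/-- the concatenation of the blocks of `β 0, ..., β (m-1)`, starting at position `o` -/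
noncomputable def hh (p : ℕ) (β : ℕ → Λ) (o m : ℕ) : Y Λ :=
  ∑ l ∈ Finset.range m, Dblk p (β l) (o + (p + 1) * l)

/-- the difference of two disjoint copies of `hh p β 0 m`, supported in `range (2*(p+1)*m)` -/
noncomputable def bb (p : ℕ) (β : ℕ → Λ) (m : ℕ) : Y Λ :=
  hh p β ((p + 1) * m) m - hh p β 0 m

/-- the window of `bb` -/
def W (p m : ℕ) : Finset ℕ := Finset.range (2 * ((p + 1) * m))

/-- `β` lists each element of `1 + ker ρ` infinitely often -/
def Exh {p : ℕ} (ρ : Λ →+* ZMod p) (β : ℕ → Λ) : Prop :=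
  (∀ l, ρ (β l) = 1) ∧ ∀ b : Λ, ρ b = 1 → ∀ n, ∃ l, n ≤ l ∧ β l = b

/-- admissible vectors: all residues are `0` or `1` -/
def Adm {p : ℕ} (ρ : Λ →+* ZMod p) (y : Y Λ) : Prop := ∀ i, ρ (y.1 i) = 0 ∨ ρ (y.1 i) = 1

open Classical in
/-- the number of coordinates with residue `1` -/
noncomputable def units {p : ℕ} (ρ : Λ →+* ZMod p) (y : Y Λ) : ℕ :=
  (y.1.support.filter (fun i => ρ (y.1 i) = 1)).card

end Index

section Rep

/-- A unitary representation of `Y Λ` and of the finitary permutations. -/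
structure Rep (Λ : Type) [CommRing Λ] (H : Type*) [NormedAddCommGroup H] [InnerProductSpace ℂ H]
    [CompleteSpace H] where
  U : Y Λ → (H ≃ₗᵢ[ℂ] H)
  V : FP → (H ≃ₗᵢ[ℂ] H)
  U_zero : ∀ z, U 0 z = z
  U_add : ∀ y y' z, U (y + y') z = U y (U y' z)
  V_one : ∀ z, V 1 z = z
  V_mul : ∀ σ τ z, V (σ * τ) z = V σ (V τ z)
  VU : ∀ σ y z, V σ (U y z) = U (pY σ y) (V σ z)

variable {Λ : Type} [CommRing Λ] {H : Type*} [NormedAddCommGroup H] [InnerProductSpace ℂ H]
    [CompleteSpace H]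

namespace Rep

variable (R : Rep Λ H)

/-- vectors fixed by the finitary permutations that fix `B` pointwise -/
def HB (B : Finset ℕ) : Submodule ℂ H where
  carrier := {z | ∀ σ : FP, (∀ i ∈ B, σ.1 i = i) → R.V σ z = z}
  add_mem' := by
    intro a b ha hb σ hσ
    rw [map_add, ha σ hσ, hb σ hσ]
  zero_mem' := by intro σ _; simp
  smul_mem' := by
    intro c a ha σ hσ
    rw [map_smul, ha σ hσ]

/-- vectors of `HB B` which are fixed by all `U y`, `y` vanishing on `B` -/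
def RB (B : Finset ℕ) : Submodule ℂ H where
  carrier := {z | z ∈ R.HB B ∧ ∀ y : Y Λ, Off y B → R.U y z = z}
  add_mem' := by
    intro a b ha hb
    refine ⟨Submodule.add_mem _ ha.1 hb.1, fun y hy => ?_⟩
    rw [map_add, ha.2 y hy, hb.2 y hy]
  zero_mem' := ⟨Submodule.zero_mem _, fun y _ => by simp⟩
  smul_mem' := by
    intro c a ha
    refine ⟨Submodule.smul_mem _ c ha.1, fun y hy => ?_⟩
    rw [map_smul, ha.2 y hy]

lemma isClosed_HB (B : Finset ℕ) : IsClosed (R.HB B : Set H) := by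
  have : (R.HB B : Set H) = ⋂ (σ : FP) (_ : ∀ i ∈ B, σ.1 i = i), {z | R.V σ z = z} := by
    ext z; simp [HB]
  rw [this]
  exact isClosed_iInter fun σ => isClosed_iInter fun _ =>
    isClosed_eq (R.V σ).continuous continuous_id

lemma isClosed_RB (B : Finset ℕ) : IsClosed (R.RB B : Set H) := by
  have : (R.RB B : Set H) = (R.HB B : Set H) ∩ ⋂ (y : Y Λ) (_ : Off y B), {z | R.U y z = z} := by
    ext z; simp [RB]
  rw [this]
  exact (R.isClosed_HB B).inter (isClosed_iInter fun y => isClosed_iInter fun _ =>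
    isClosed_eq (R.U y).continuous continuous_id)

instance (B : Finset ℕ) : CompleteSpace (R.HB B) := (R.isClosed_HB B).completeSpace_coe
instance (B : Finset ℕ) : CompleteSpace (R.RB B) := (R.isClosed_RB B).completeSpace_coe

/-- orthogonal projection onto `HB B` -/
noncomputable def PH (B : Finset ℕ) : H →L[ℂ] H := (R.HB B).starProjection

/-- orthogonal projection onto `RB B` -/
noncomputable def PR (B : Finset ℕ) : H →L[ℂ] H := (R.RB B).starProjection

end Rep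

end Rep

section Sys

/-- A system: `A` plays the role of `L^∞`, `H` of `L^2`. -/
structure Sys (Λ : Type) [CommRing Λ] (A : Type*) [CommRing A] [StarRing A] [Algebra ℂ A]
    [StarModule ℂ A] (H : Type*) [NormedAddCommGroup H] [InnerProductSpace ℂ H]
    [CompleteSpace H] extends Rep Λ H where
  ι : A →ₗ[ℂ] H
  ι_inj : Function.Injective ι
  ι_dense : DenseRange ι
  norm_one : ‖ι 1‖ = 1
  inner_mul : ∀ a b c : A, ⟪ι (a * b), ι c⟫_ℂ = ⟪ι b, ι (star a * c)⟫_ℂ
  bd_exists : ∀ a : A, ∃ C : ℝ, 0 ≤ C ∧ ∀ b, ‖ι (a * b)‖ ≤ C * ‖ι b‖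
  bd_complete : ∀ (C : ℝ) (a : ℕ → A), (∀ n b, ‖ι (a n * b)‖ ≤ C * ‖ι b‖) →
    CauchySeq (fun n => ι (a n)) →
    ∃ b, (∀ c, ‖ι (b * c)‖ ≤ C * ‖ι c‖) ∧ Tendsto (fun n => ι (a n)) atTop (𝓝 (ι b))
  UA : Y Λ → (A →⋆ₐ[ℂ] A)
  VA : FP → (A →⋆ₐ[ℂ] A)
  ι_U : ∀ y a, ι (UA y a) = U y (ι a)
  ι_V : ∀ σ a, ι (VA σ a) = V σ (ι a)
  erg : ∀ z : H, (∀ y, U y z = z) → (∀ σ, V σ z = z) → ∃ c : ℂ, z = c • ι 1

variable {Λ : Type} [CommRing Λ] {A : Type*} [CommRing A] [StarRing A] [Algebra ℂ A]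
    [StarModule ℂ A] {H : Type*} [NormedAddCommGroup H] [InnerProductSpace ℂ H] [CompleteSpace H]

namespace Sys

variable (S : Sys Λ A H)

/-- `|a| ≤ C` -/
def Bd (C : ℝ) (a : A) : Prop := 0 ≤ C ∧ ∀ b, ‖S.ι (a * b)‖ ≤ C * ‖S.ι b‖

/-- the trace (integral) -/
noncomputable def tr (a : A) : ℂ := ⟪S.ι 1, S.ι a⟫_ℂ

/-- unimodular eigenfunctions -/
def IsEig (ψ : A) : Prop :=
  S.ι ψ ∈ S.HB ∅ ∧ ψ * star ψ = 1 ∧
    ∀ c : Y Λ, S.ι (S.UA c ψ * star ψ) ∈ S.RB c.1.support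

/-- the `m`-th approximation of the van der Corput seminorm of `u` -/
noncomputable def q (p : ℕ) (β : ℕ → Λ) (k : Λ) (m : ℕ) (u : A) : ℝ :=
  ‖S.PR (W p m) (S.ι (S.UA (k • bb p β m) u * star u))‖

/-- the projection of `f` on the span of the finite orthonormal set `J` -/
noncomputable def Fpr (f : A) (J : Finset A) : A := ∑ ψ ∈ J, ⟪S.ι ψ, S.ι f⟫_ℂ • ψ

/-- A complete choice of eigenfunctions, one for each line. -/
structure EigSet (F : Set A) : Prop where
  one_mem : (1 : A) ∈ F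
  eig : ∀ ψ ∈ F, S.IsEig ψ
  orth : ∀ ψ ∈ F, ∀ ψ' ∈ F, ψ ≠ ψ' → ⟪S.ι ψ, S.ι ψ'⟫_ℂ = 0
  full : ∀ ψ, S.IsEig ψ → ∃ ψ' ∈ F, ∃ c : ℂ, ψ = c • ψ'

/-- The law of large numbers that links the active coordinates with the frozen ones:
along a subsequence, averages of `U_{k c_n} (U_{k b} f * star f)` over copies `c_n` of `hh 0 r`
are approximated by averages of `U_{k b} v_n * star v_n` with `v_n` in the base. -/
def LLN (p : ℕ) (β : ℕ → Λ) (k : Λ) (f : A) : Prop :=
  ∃ φ : ℕ → ℕ, StrictMono φ ∧ ∀ (r : ℕ) (ε : ℝ), 0 < ε →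
    ∃ N : ℕ, 0 < N ∧ (1 : ℝ) / N ≤ ε ∧ ∃ v : Fin N → A,
      (∀ n, S.ι (v n) ∈ S.HB ∅ ∧ S.Bd 1 (v n)) ∧
      ∀ l : ℕ, ∀ c : Fin N → Y Λ, (∀ n, IsCopy (hh p β 0 r) (c n)) →
        (∀ n, Off (c n) (W p (φ l))) → (∀ n n', n ≠ n' → Dsj (c n) (c n')) →
        ‖(1 / (N : ℂ)) • ∑ n, S.ι (S.UA (k • bb p β (φ l)) (v n) * star (v n))
          - (1 / (N : ℂ)) • ∑ n, S.ι (S.UA (k • c n) (S.UA (k • bb p β (φ l)) f * star f))‖ ≤ ε

end Sys

end Sys

end Pool.Agent.H84.B
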