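import Pool.Agent.H84.B.Pb2

/-!
# Module EIG of MP_02e9fb_an: `T_EIG`
-/

open scoped ComplexConjugate InnerProductSpace
open Filter Topology

namespace Pool.Agent.H84.B

section EIG

variable {Λ : Type} [CommRing Λ] {A : Type} [CommRing A] [StarRing A] [Algebra ℂ A]
    [StarModule ℂ A] {H : Type} [NormedAddCommGroup H] [InnerProductSpace ℂ H] [CompleteSpace H]

lemma eig_one (S : Sys Λ A H) : S.IsEig 1 := by
  refine ⟨(pb1_RB_one S ∅).1, by simp, fun c => ?_⟩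
  have : S.UA c 1 * star (1 : A) = 1 := by simp
  rw [this]
  exact pb1_RB_one S _

lemma eig_star (S : Sys Λ A H) (ψ : A) (h : S.IsEig ψ) : S.IsEig (star ψ) := by
  refine ⟨pb1_HB_star S ∅ ψ h.1, by rw [star_star, mul_comm]; exact h.2.1, fun c => ?_⟩
  have : S.UA c (star ψ) * star (star ψ) = star (S.UA c ψ * star ψ) := by
    rw [map_star, star_mul, mul_comm]
  rw [this]
  exact pb1_RB_star S _ _ (h.2.2 c)

lemma eig_mul (S : Sys Λ A H) (ψ ψ' : A) (h : S.IsEig ψ) (h' : S.IsEig ψ') :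
    S.IsEig (ψ * ψ') := by
  refine ⟨pb1_HB_mul S ∅ ψ ψ' h.1 h'.1, ?_, fun c => ?_⟩
  · have : ψ * ψ' * star (ψ * ψ') = (ψ * star ψ) * (ψ' * star ψ') := by
      rw [star_mul]; ring
    rw [this, h.2.1, h'.2.1, one_mul]
  · have : S.UA c (ψ * ψ') * star (ψ * ψ') = (S.UA c ψ * star ψ) * (S.UA c ψ' * star ψ') := by
      rw [map_mul, star_mul]; ring
    rw [this]
    exact pb1_RB_mul S _ _ _ (h.2.2 c) (h'.2.2 c)

lemma eig_const (hh : T_hh) (hpe : T_perm_extend) (S : Sys Λ A H) (x : A) (hx : S.IsEig x)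
    (h0 : S.tr x ≠ 0) : ∃ c : ℂ, x = c • (1 : A) := by
  have hU : ∀ c, S.U c (S.ι x) = S.ι x := by
    intro c
    obtain ⟨-, r2, -, r4, -⟩ := rbind hh hpe Λ A H S c.1.support
    obtain ⟨-, -, -, -, -, cm, -⟩ := cond Λ A H S c.1.support
    have e1 : S.PR c.1.support (S.U c (S.ι x)) = S.tr x • S.ι 1 :=
      r4 c _ (Finset.Subset.refl _) hx.1
    have e2 : S.ι (S.tr x • (1 : A)) = S.PR c.1.support (S.ι x) := by
      rw [r2 ∅ _ (by simp) hx.1, map_smul]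
      rfl
    have e3 := cm (S.UA c x * star x) x (S.tr x • (1 : A)) (hx.2.2 c) e2
    have e4 : S.UA c x * star x * x = S.UA c x := by
      rw [mul_assoc, mul_comm (star x) x, hx.2.1, mul_one]
    rw [e4, S.ι_U, e1, mul_smul_comm, mul_one, map_smul] at e3
    have e5 : S.ι 1 = S.ι (S.UA c x * star x) := by
      have := congrArg (fun v => (S.tr x)⁻¹ • v) e3
      simpa [smul_smul, inv_mul_cancel₀ h0] using this
    have e6 : (1 : A) = S.UA c x * star x := S.ι_inj e5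
    rw [← S.ι_U, ← e4, ← e6, one_mul]
  obtain ⟨c, hc⟩ := S.erg _ hU (fun σ => hx.1 σ (by simp))
  exact ⟨c, S.ι_inj (by rw [hc, map_smul])⟩

lemma eig_prop (hh : T_hh) (hpe : T_perm_extend) (S : Sys Λ A H) (ψ ψ' : A) (h : S.IsEig ψ)
    (h' : S.IsEig ψ') (h0 : ⟪S.ι ψ, S.ι ψ'⟫_ℂ ≠ 0) : ∃ c : ℂ, ψ' = c • ψ := by
  rw [← pb1_tr_star_mul] at h0
  obtain ⟨c, hc⟩ := eig_const hh hpe S _ (eig_mul S _ _ (eig_star S ψ h) h') h0
  refine ⟨c, ?_⟩
  have : ψ' = ψ * (star ψ * ψ') := by rw [← mul_assoc, h.2.1, one_mul]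
  rw [this, hc, mul_smul_comm, mul_one]

lemma eig_ne_zero (S : Sys Λ A H) (ψ : A) (h : S.IsEig ψ) : ψ ≠ 0 := by
  rintro rfl
  have h1 := h.2.1
  rw [zero_mul] at h1
  have h2 := S.norm_one
  rw [← h1, map_zero, norm_zero] at h2
  exact zero_ne_one h2

lemma eig_symm (S : Sys Λ A H) (ψ ψ' : A) (h' : S.IsEig ψ') (hc : ∃ c : ℂ, ψ' = c • ψ) :
    ∃ c : ℂ, ψ = c • ψ' := by
  obtain ⟨c, hc⟩ := hc
  have hc0 : c ≠ 0 := by
    rintro rfl
    rw [zero_smul] at hc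
    exact eig_ne_zero S ψ' h' hc
  exact ⟨c⁻¹, by rw [hc, smul_smul, inv_mul_cancel₀ hc0, one_smul]⟩

lemma eig_set (hh : T_hh) (hpe : T_perm_extend) (S : Sys Λ A H) : ∃ F : Set A, S.EigSet F := by
  classical
  set cls : A → Set A := fun ψ => {ψ' | S.IsEig ψ' ∧ ∃ c : ℂ, ψ' = c • ψ} with hcls
  set r : Set A → A := fun s => if (1 : A) ∈ s then 1 else if h : s.Nonempty then h.some else 1
    with hr
  have hmem : ∀ ψ, S.IsEig ψ → r (cls ψ) ∈ cls ψ := by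
    intro ψ hψ
    have hne : (cls ψ).Nonempty := ⟨ψ, hψ, 1, by simp⟩
    simp only [hr]
    split_ifs with h1
    · exact h1
    · exact hne.some_mem
  have htrans : ∀ ψ ψ' : A, S.IsEig ψ' → (∃ c : ℂ, ψ' = c • ψ) → cls ψ' = cls ψ := by
    intro ψ ψ' h' hc
    obtain ⟨d, hd⟩ := eig_symm S ψ ψ' h' hc
    obtain ⟨c, hc⟩ := hc
    ext x
    constructor
    · rintro ⟨hx, e, he⟩
      exact ⟨hx, e * c, by rw [he, hc, smul_smul]⟩
    · rintro ⟨hx, e, he⟩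
      exact ⟨hx, e * d, by rw [he, mul_smul, ← hd]⟩
  refine ⟨{x | ∃ ψ, S.IsEig ψ ∧ x = r (cls ψ)}, ⟨?_, ?_, ?_, ?_⟩⟩
  · refine ⟨1, eig_one S, ?_⟩
    have : (1 : A) ∈ cls 1 := ⟨eig_one S, 1, by simp⟩
    simp only [hr]
    rw [if_pos this]
  · rintro _ ⟨ψ, hψ, rfl⟩
    exact (hmem ψ hψ).1
  · rintro _ ⟨ψ, hψ, rfl⟩ _ ⟨ψ', hψ', rfl⟩ hne
    by_contra h0
    apply hne
    have h1 := hmem ψ hψ
    have h2 := hmem ψ' hψ'
    have h3 := eig_prop hh hpe S _ _ h1.1 h2.1 h0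
    have e1 := htrans ψ _ h1.1 h1.2
    have e2 := htrans ψ' _ h2.1 h2.2
    have e3 := htrans _ _ h2.1 h3
    rw [← e1, ← e2, e3]
  · intro ψ hψ
    have h1 := hmem ψ hψ
    exact ⟨r (cls ψ), ⟨ψ, hψ, rfl⟩, eig_symm S _ _ h1.1 h1.2⟩

theorem eig (hh : T_hh) (hpe : T_perm_extend) : T_EIG := by
  intro Λ _ A _ _ _ _ H _ _ _ S
  exact ⟨eig_one S, eig_star S, eig_mul S, eig_prop hh hpe S, eig_set hh hpe S⟩

end EIG

end Pool.Agent.H84.B
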