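import Pool.Agent.H84.B.Targets

/-!
# MP_02e9fb_an, module FIN, part A: unpacked facts and algebra of characters
-/

open scoped ComplexConjugate InnerProductSpace
open Filter Topology

namespace Pool.Agent.H84.B

section

variable {Λ : Type} [CommRing Λ] {A : Type} [CommRing A] [StarRing A] [Algebra ℂ A]
    [StarModule ℂ A] {H : Type} [NormedAddCommGroup H] [InnerProductSpace ℂ H] [CompleteSpace H]

/-- unpacked version of `T_Bd` -/
structure BdC (S : Sys Λ A H) : Prop where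
  tr_star_mul : ∀ a b : A, S.tr (star a * b) = ⟪S.ι a, S.ι b⟫_ℂ
  tr_star : ∀ a : A, S.tr (star a) = conj (S.tr a)
  ex : ∀ a : A, ∃ C, S.Bd C a
  norm_le : ∀ C (a : A), S.Bd C a → ‖S.ι a‖ ≤ C
  bstar : ∀ C (a : A), S.Bd C a → S.Bd C (star a)
  bmul : ∀ C D (a b : A), S.Bd C a → S.Bd D b → S.Bd (C * D) (a * b)
  badd : ∀ C D (a b : A), S.Bd C a → S.Bd D b → S.Bd (C + D) (a + b)
  bmono : ∀ C D (a : A), S.Bd C a → C ≤ D → S.Bd D a
  bsmul : ∀ (c : ℂ) C (a : A), S.Bd C a → S.Bd (‖c‖ * C) (c • a)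
  bUA : ∀ C (a : A) (y : Y Λ), S.Bd C a → S.Bd C (S.UA y a)
  bVA : ∀ C (a : A) (σ : FP), S.Bd C a → S.Bd C (S.VA σ a)
  bunit : ∀ a : A, a * star a = 1 → S.Bd 1 a
  bproj : ∀ a : A, star a = a → a * a = a → S.Bd 1 a
  HBmul : ∀ (B : Finset ℕ) (a b : A), S.ι a ∈ S.HB B → S.ι b ∈ S.HB B → S.ι (a * b) ∈ S.HB B
  HBstar : ∀ (B : Finset ℕ) (a : A), S.ι a ∈ S.HB B → S.ι (star a) ∈ S.HB B
  RBmul : ∀ (B : Finset ℕ) (a b : A), S.ι a ∈ S.RB B → S.ι b ∈ S.RB B → S.ι (a * b) ∈ S.RB B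
  RBstar : ∀ (B : Finset ℕ) (a : A), S.ι a ∈ S.RB B → S.ι (star a) ∈ S.RB B
  RBone : ∀ (B : Finset ℕ), S.ι 1 ∈ S.RB B
  UA_zero : ∀ a : A, S.UA 0 a = a
  UA_add : ∀ (y y' : Y Λ) (a : A), S.UA (y + y') a = S.UA y (S.UA y' a)
  VA_UA : ∀ (σ : FP) (y : Y Λ) (a : A), S.VA σ (S.UA y a) = S.UA (pY σ y) (S.VA σ a)
  tr_UA : ∀ (y : Y Λ) (a : A), S.tr (S.UA y a) = S.tr a
  tr_VA : ∀ (σ : FP) (a : A), S.tr (S.VA σ a) = S.tr a

lemma mkBdC (h : T_Bd) (S : Sys Λ A H) : BdC S := by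
  obtain ⟨h1, h2, h3, h4, h5, h6, h7, h8, h9, h10, h11, h12, h13, h14, h15, h16, h17, h18, h19,
    h20, h21, h22, h23⟩ := h Λ A H S
  exact ⟨h1, h2, h3, h4, h5, h6, h7, h8, h9, h10, h11, h12, h13, h14, h15, h16, h17, h18, h19,
    h20, h21, h22, h23⟩

namespace Sys

variable (S : Sys Λ A H)

lemma tr_add (a b : A) : S.tr (a + b) = S.tr a + S.tr b := by
  simp [tr, map_add]

lemma tr_sub (a b : A) : S.tr (a - b) = S.tr a - S.tr b := by
  simp [tr, map_sub]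

lemma tr_smul (c : ℂ) (a : A) : S.tr (c • a) = c * S.tr a := by
  simp [tr, map_smul]

lemma tr_sum {ι : Type*} (s : Finset ι) (a : ι → A) : S.tr (∑ i ∈ s, a i) = ∑ i ∈ s, S.tr (a i) := by
  simp [tr, map_sum]

end Sys

variable {S : Sys Λ A H} (hS : BdC S)

include hS

lemma BdC.normsq (a : A) : (S.tr (star a * a)) = ((‖S.ι a‖ ^ 2 : ℝ) : ℂ) := by
  rw [hS.tr_star_mul, inner_self_eq_norm_sq_to_K]; norm_cast

/-- `|tr (f₀ x)| ≤ ‖f₀‖ ‖x‖`-type bound with a bounded weight -/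
lemma BdC.tr_bound (s x y f : A) (hf : S.Bd 1 f) :
    ‖S.tr (star s * s * f * star x * y)‖ ≤ ‖S.ι (s * x)‖ * ‖S.ι (s * y)‖ := by
  have h1 : star s * s * f * star x * y = star (s * x) * (f * (s * y)) := by
    rw [star_mul]; ring
  rw [h1, hS.tr_star_mul]
  refine (norm_inner_le_norm _ _).trans ?_
  have := hf.2 (s * y)
  rw [one_mul] at this
  gcongr

/-- multiplication by a unitary preserves norms -/
lemma BdC.norm_unit_mul (u a : A) (hu : u * star u = 1) : ‖S.ι (u * a)‖ = ‖S.ι a‖ := by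
  have h : ⟪S.ι (u * a), S.ι (u * a)⟫_ℂ = ⟪S.ι a, S.ι a⟫_ℂ := by
    rw [← hS.tr_star_mul, ← hS.tr_star_mul]
    congr 1
    rw [star_mul]
    calc star a * star u * (u * a) = (u * star u) * (star a * a) := by ring
      _ = star a * a := by rw [hu, one_mul]
  have h2 := congrArg Complex.re h
  rw [inner_self_eq_norm_sq_to_K, inner_self_eq_norm_sq_to_K] at h2
  norm_cast at h2
  exact (pow_left_inj₀ (norm_nonneg _) (norm_nonneg _) two_ne_zero).1 h2

lemma BdC.norm_star (a : A) : ‖S.ι (star a)‖ = ‖S.ι a‖ := by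
  have h : ⟪S.ι (star a), S.ι (star a)⟫_ℂ = ⟪S.ι a, S.ι a⟫_ℂ := by
    rw [← hS.tr_star_mul, ← hS.tr_star_mul, star_star, mul_comm]
  have h2 := congrArg Complex.re h
  rw [inner_self_eq_norm_sq_to_K, inner_self_eq_norm_sq_to_K] at h2
  norm_cast at h2
  exact (pow_left_inj₀ (norm_nonneg _) (norm_nonneg _) two_ne_zero).1 h2

omit hS in
/-- `lam` is multiplicative -/
lemma lam_mul (c : Y Λ) (ψ ψ' : A) : lam S c (ψ * ψ') = lam S c ψ * lam S c ψ' := by
  simp only [lam, map_mul, star_mul]; ring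

omit hS in
lemma lam_one (c : Y Λ) : lam S c (1 : A) = 1 := by simp [lam]

omit hS in
lemma lam_star (c : Y Λ) (ψ : A) : lam S c (star ψ) = star (lam S c ψ) := by
  simp only [lam, map_star, star_mul, star_star]; ring

omit hS in
lemma chr_mul (k1 k2 : Λ) (g : Y Λ) (P P' : A × A) :
    chr S k1 k2 g (P * P') = chr S k1 k2 g P * chr S k1 k2 g P' := by
  simp only [chr, Prod.fst_mul, Prod.snd_mul, lam_mul]; ring

omit hS in
lemma chr_one (k1 k2 : Λ) (g : Y Λ) : chr S k1 k2 g (1 : A × A) = 1 := by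
  simp [chr, lam_one]

omit hS in
lemma chr_star (k1 k2 : Λ) (g : Y Λ) (P : A × A) :
    chr S k1 k2 g (star P) = star (chr S k1 k2 g P) := by
  simp only [chr, Prod.fst_star, Prod.snd_star, lam_star, star_mul]; ring

omit hS in
/-- `chr` as a monoid homomorphism -/
noncomputable def chrHom (S : Sys Λ A H) (k1 k2 : Λ) (g : Y Λ) : (A × A) →* A where
  toFun := chr S k1 k2 g
  map_one' := chr_one k1 k2 g
  map_mul' := chr_mul k1 k2 g

omit hS in
@[simp] lemma chrHom_apply (k1 k2 : Λ) (g : Y Λ) (P : A × A) :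
    chrHom S k1 k2 g P = chr S k1 k2 g P := rfl

/-! ### Fejér type kernels -/

/-- the Fejér factor: for a finite family of pairs `E j`, `j ∈ ι`, and sets of exponents `T j` -/
noncomputable def sT (S : Sys Λ A H) (k1 k2 : Λ) {J : Type} [Fintype J] (E : J → A × A)
    (T : J → Finset ℕ) (g : Y Λ) : A :=
  ∏ j, ∑ v ∈ T j, (chr S k1 k2 g (E j)) ^ v

omit hS in
lemma sT_eq (k1 k2 : Λ) {J : Type} [Fintype J] [DecidableEq J] (E : J → A × A)
    (T : J → Finset ℕ) (g : Y Λ) :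
    sT S k1 k2 E T g = ∑ t ∈ Fintype.piFinset T, chr S k1 k2 g (∏ j, (E j) ^ (t j)) := by
  rw [sT, Finset.prod_univ_sum]
  refine Finset.sum_congr rfl fun t _ => ?_
  rw [← chrHom_apply, map_prod]
  simp [map_pow]

/-- the pair attached to `(t,t')` -/
noncomputable def PP {J : Type} [Fintype J] (E : J → A × A) (t t' : J → ℕ) : A × A :=
  star (∏ j, (E j) ^ (t j)) * ∏ j, (E j) ^ (t' j)

lemma sT_norm (k1 k2 : Λ) {J : Type} [Fintype J] [DecidableEq J] (E : J → A × A)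
    (T : J → Finset ℕ) (g : Y Λ) :
    ((‖S.ι (sT S k1 k2 E T g)‖ ^ 2 : ℝ) : ℂ) =
      ∑ t ∈ Fintype.piFinset T, ∑ t' ∈ Fintype.piFinset T, S.tr (chr S k1 k2 g (PP E t t')) := by
  rw [← hS.normsq, sT_eq, star_sum, Finset.sum_mul_sum]
  rw [S.tr_sum]
  refine Finset.sum_congr rfl fun t _ => ?_
  rw [S.tr_sum]
  refine Finset.sum_congr rfl fun t' _ => ?_
  rw [PP, chr_mul, chr_star]

omit hS in
lemma PP_isEig (hE : T_EIG) {J : Type} [Fintype J] (E : J → A × A)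
    (h1 : ∀ j, S.IsEig (E j).1 ∧ S.IsEig (E j).2) (t t' : J → ℕ) :
    S.IsEig (PP E t t').1 ∧ S.IsEig (PP E t t').2 := by
  obtain ⟨hone, hst, hmul, -⟩ := hE Λ A H S
  have hpow : ∀ (ψ : A) (n : ℕ), S.IsEig ψ → S.IsEig (ψ ^ n) := by
    intro ψ n hψ
    induction n with
    | zero => simpa using hone
    | succ n ih => rw [pow_succ]; exact hmul _ _ ih hψ
  have hprod : ∀ (s : Finset J) (t : J → ℕ), S.IsEig (∏ j ∈ s, (E j) ^ (t j)).1 ∧
      S.IsEig (∏ j ∈ s, (E j) ^ (t j)).2 := by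
    intro s t
    classical
    induction s using Finset.induction_on with
    | empty => simpa using hone
    | insert a s ha ih =>
      rw [Finset.prod_insert ha]
      exact ⟨hmul _ _ (hpow _ _ (h1 a).1) ih.1, hmul _ _ (hpow _ _ (h1 a).2) ih.2⟩
  exact ⟨hmul _ _ (hst _ (hprod _ _).1) (hprod _ _).1, hmul _ _ (hst _ (hprod _ _).2) (hprod _ _).2⟩

omit hS [Algebra ℂ A] [StarModule ℂ A] in
lemma PP_self {J : Type} [Fintype J] (E : J → A × A)
    (h1 : ∀ j, (E j).1 * star (E j).1 = 1 ∧ (E j).2 * star (E j).2 = 1) (t : J → ℕ) :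
    PP E t t = 1 := by
  have h : ∀ j, star (E j) * E j = 1 := by
    intro j
    ext
    · simpa [mul_comm] using (h1 j).1
    · simpa [mul_comm] using (h1 j).2
  rw [PP, star_prod, ← Finset.prod_mul_distrib]
  refine Finset.prod_eq_one fun j _ => ?_
  rw [star_pow, ← mul_pow, h j, one_pow]

end

end Pool.Agent.H84.B
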