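import Pool.Agent.H84.B.FinA

/-!
# MP_02e9fb_an, module FIN, part B: Fejér kernels and their means
-/

open scoped ComplexConjugate InnerProductSpace
open Filter Topology

namespace Pool.Agent.H84.B

section

variable {Λ : Type} [CommRing Λ] {A : Type} [CommRing A] [StarRing A] [Algebra ℂ A]
    [StarModule ℂ A] {H : Type} [NormedAddCommGroup H] [InnerProductSpace ℂ H] [CompleteSpace H]
    {S : Sys Λ A H} {J : Type} [Fintype J] [DecidableEq J]

open Classical in
/-- the number of trivial pairs -/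
noncomputable def cnt (E : J → A × A) (Tr : Finset (A × A)) (T : J → Finset ℕ) : ℝ :=
  ∑ t ∈ Fintype.piFinset T, ∑ t' ∈ Fintype.piFinset T, if PP E t t' ∈ Tr then (1 : ℝ) else 0

/-- the full exponent set -/
def TF (J : Type) (L : ℕ) : J → Finset ℕ := fun _ => Finset.range L

/-- the exponent set with the exponent at `i` frozen to `v` -/
def TV (L : ℕ) (i : J) (v : ℕ) : J → Finset ℕ := Function.update (TF J L) i {v}

lemma piFinset_TV_subset (L : ℕ) (i : J) (v : ℕ) (hv : v < L) :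
    Fintype.piFinset (TV L i v) ⊆ Fintype.piFinset (TF J L) := by
  intro t ht
  rw [Fintype.mem_piFinset] at ht ⊢
  intro j
  have := ht j
  by_cases hj : j = i
  · subst hj
    simp only [TV, Function.update_self, Finset.mem_singleton] at this
    simp [TF, this, hv]
  · simpa [TV, Function.update_of_ne hj] using this

omit [Algebra ℂ A] [StarModule ℂ A] in
lemma cnt_nonneg (E : J → A × A) (Tr : Finset (A × A)) (T : J → Finset ℕ) : 0 ≤ cnt E Tr T := by
  unfold cnt
  refine Finset.sum_nonneg fun t _ => Finset.sum_nonneg fun t' _ => ?_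
  split_ifs <;> norm_num

lemma card_TF (L : ℕ) : (Fintype.piFinset (TF J L)).card = L ^ Fintype.card J := by
  rw [Fintype.card_piFinset]; simp [TF]

omit [Algebra ℂ A] [StarModule ℂ A] in
lemma le_cnt (E : J → A × A) (Tr : Finset (A × A)) (L : ℕ)
    (h1 : ∀ j, (E j).1 * star (E j).1 = 1 ∧ (E j).2 * star (E j).2 = 1)
    (hTr : (1 : A × A) ∈ Tr) : ((L ^ Fintype.card J : ℕ) : ℝ) ≤ cnt E Tr (TF J L) := by
  classical
  rw [← card_TF (J := J) L]
  have h : ((Fintype.piFinset (TF J L)).card : ℝ) =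
      ∑ t ∈ Fintype.piFinset (TF J L), (1 : ℝ) := by simp
  rw [h, cnt]
  refine Finset.sum_le_sum fun t ht => ?_
  have h2 : (1 : ℝ) = if PP E t t ∈ Tr then (1 : ℝ) else 0 := by
    rw [PP_self E h1, if_pos hTr]
  calc (1 : ℝ) = if PP E t t ∈ Tr then (1 : ℝ) else 0 := h2
    _ ≤ ∑ t' ∈ Fintype.piFinset (TF J L), if PP E t t' ∈ Tr then (1 : ℝ) else 0 := by
      refine Finset.single_le_sum (f := fun t' => if PP E t t' ∈ Tr then (1 : ℝ) else 0) ?_ ht
      intro t' _
      split_ifs <;> norm_num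

omit [Algebra ℂ A] [StarModule ℂ A] in
lemma sum_cnt_le (E : J → A × A) (Tr : Finset (A × A)) (L : ℕ) (i : J) :
    ∑ v ∈ Finset.range L, cnt E Tr (TV L i v) ≤ cnt E Tr (TF J L) := by
  classical
  have hmem : ∀ v t, t ∈ Fintype.piFinset (TV L i v) → v < L →
      (t ∈ Fintype.piFinset (TF J L) ∧ t i = v) := by
    intro v t ht hv
    refine ⟨piFinset_TV_subset L i v hv ht, ?_⟩
    have := Fintype.mem_piFinset.1 ht i
    simpa [TV] using this
  have hmem2 : ∀ v, v < L → Fintype.piFinset (TV L i v) =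
      (Fintype.piFinset (TF J L)).filter (fun t => t i = v) := by
    intro v hv
    ext t
    constructor
    · intro ht
      rw [Finset.mem_filter]
      exact hmem v t ht hv
    · intro ht
      rw [Finset.mem_filter] at ht
      rw [Fintype.mem_piFinset] at ht ⊢
      intro j
      by_cases hj : j = i
      · subst hj; simp [TV, ht.2]
      · have := ht.1 j
        simpa [TV, Function.update_of_ne hj] using this
  have h1 : ∀ v ∈ Finset.range L, cnt E Tr (TV L i v) =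
      ∑ t ∈ (Fintype.piFinset (TF J L)).filter (fun t => t i = v),
        ∑ t' ∈ (Fintype.piFinset (TF J L)).filter (fun t => t i = v),
          if PP E t t' ∈ Tr then (1 : ℝ) else 0 := by
    intro v hv
    rw [cnt, hmem2 v (Finset.mem_range.1 hv)]
  rw [Finset.sum_congr rfl h1]
  have h2 : ∀ v ∈ Finset.range L,
      ∑ t ∈ (Fintype.piFinset (TF J L)).filter (fun t => t i = v),
        ∑ t' ∈ (Fintype.piFinset (TF J L)).filter (fun t => t i = v),
          (if PP E t t' ∈ Tr then (1 : ℝ) else 0)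
      ≤ ∑ t ∈ (Fintype.piFinset (TF J L)).filter (fun t => t i = v),
        ∑ t' ∈ (Fintype.piFinset (TF J L)), if PP E t t' ∈ Tr then (1 : ℝ) else 0 := by
    intro v _
    refine Finset.sum_le_sum fun t _ => ?_
    refine Finset.sum_le_sum_of_subset_of_nonneg (Finset.filter_subset _ _) ?_
    intro t' _ _
    split_ifs <;> norm_num
  refine (Finset.sum_le_sum h2).trans ?_
  rw [cnt]
  rw [← Finset.sum_fiberwise_of_maps_to (s := Fintype.piFinset (TF J L)) (t := Finset.range L)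
    (g := fun t => t i)]
  intro t ht
  have := Fintype.mem_piFinset.1 ht i
  simpa [TF] using this

/-- abstract averaging: a finite weighted family of elements `g_j` -/
lemma mean_sT (hS : BdC S) (k1 k2 : Λ) (E : J → A × A) (T : J → Finset ℕ) {n : ℕ}
    (g : Fin n → Y Λ) (R : Finset (Fin n)) (Tr : Finset (A × A)) (r ε : ℝ)
    (hm : ∀ t ∈ Fintype.piFinset T, ∀ t' ∈ Fintype.piFinset T,
      open Classical in
      ‖(1 / (n : ℂ)) * ∑ j ∈ R, S.tr (chr S k1 k2 (g j) (PP E t t'))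
        - (if PP E t t' ∈ Tr then (r : ℂ) else 0)‖ ≤ ε) :
    |(1 / (n : ℝ)) * ∑ j ∈ R, ‖S.ι (sT S k1 k2 E T (g j))‖ ^ 2 - r * cnt E Tr T|
      ≤ ((Fintype.piFinset T).card : ℝ) ^ 2 * ε := by
  classical
  have key : (((1 / (n : ℝ)) * ∑ j ∈ R, ‖S.ι (sT S k1 k2 E T (g j))‖ ^ 2 - r * cnt E Tr T : ℝ) : ℂ)
      = ∑ t ∈ Fintype.piFinset T, ∑ t' ∈ Fintype.piFinset T,
        ((1 / (n : ℂ)) * ∑ j ∈ R, S.tr (chr S k1 k2 (g j) (PP E t t'))
          - (if PP E t t' ∈ Tr then (r : ℂ) else 0)) := by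
    push_cast
    have h1 : ∀ j ∈ R, ((‖S.ι (sT S k1 k2 E T (g j))‖ : ℂ)) ^ 2 =
        ∑ t ∈ Fintype.piFinset T, ∑ t' ∈ Fintype.piFinset T,
          S.tr (chr S k1 k2 (g j) (PP E t t')) := by
      intro j _
      rw [← sT_norm hS]; push_cast; rfl
    rw [Finset.sum_congr rfl h1]
    rw [Finset.sum_comm]
    simp_rw [Finset.sum_sub_distrib]
    congr 1
    · rw [Finset.mul_sum]
      refine Finset.sum_congr rfl fun t _ => ?_
      rw [Finset.sum_comm, Finset.mul_sum]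
    · rw [cnt]
      push_cast
      rw [Finset.mul_sum]
      refine Finset.sum_congr rfl fun t _ => ?_
      rw [Finset.mul_sum]
      refine Finset.sum_congr rfl fun t' _ => ?_
      split_ifs <;> simp
  rw [← Real.norm_eq_abs, ← Complex.norm_real, key]
  refine (norm_sum_le _ _).trans ?_
  have h2 : ∀ t ∈ Fintype.piFinset T,
      ‖∑ t' ∈ Fintype.piFinset T, ((1 / (n : ℂ)) * ∑ j ∈ R, S.tr (chr S k1 k2 (g j) (PP E t t'))
          - (if PP E t t' ∈ Tr then (r : ℂ) else 0))‖ ≤ ((Fintype.piFinset T).card : ℝ) * ε := by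
    intro t ht
    refine (norm_sum_le _ _).trans ?_
    refine (Finset.sum_le_sum fun t' ht' => hm t ht t' ht').trans ?_
    simp
  refine (Finset.sum_le_sum h2).trans ?_
  simp only [Finset.sum_const, nsmul_eq_mul]
  apply le_of_eq; ring

/-- freezing one exponent -/
lemma sT_TV (k1 k2 : Λ) (E : J → A × A) (L : ℕ) (i : J) (v : ℕ) (g : Y Λ) :
    sT S k1 k2 E (TV L i v) g = (chr S k1 k2 g (E i)) ^ v * sT S k1 k2 E (TV L i 0) g := by
  unfold sT
  rw [← Finset.mul_prod_erase Finset.univ _ (Finset.mem_univ i),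
    ← Finset.mul_prod_erase Finset.univ (fun j => ∑ v ∈ TV L i 0 j, (chr S k1 k2 g (E j)) ^ v)
      (Finset.mem_univ i)]
  have h : ∀ w, ∏ j ∈ Finset.univ.erase i, ∑ v ∈ TV L i w j, (chr S k1 k2 g (E j)) ^ v =
      ∏ j ∈ Finset.univ.erase i, ∑ v ∈ TF J L j, (chr S k1 k2 g (E j)) ^ v := by
    intro w
    refine Finset.prod_congr rfl fun j hj => ?_
    rw [TV, Function.update_of_ne (Finset.ne_of_mem_erase hj)]
  rw [h v, h 0]
  simp [TV]

lemma sT_TF (k1 k2 : Λ) (E : J → A × A) (L : ℕ) (i : J) (g : Y Λ) :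
    sT S k1 k2 E (TF J L) g * (chr S k1 k2 g (E i) - 1) =
      ((chr S k1 k2 g (E i)) ^ L - 1) * sT S k1 k2 E (TV L i 0) g := by
  unfold sT
  rw [← Finset.mul_prod_erase Finset.univ _ (Finset.mem_univ i),
    ← Finset.mul_prod_erase Finset.univ (fun j => ∑ v ∈ TV L i 0 j, (chr S k1 k2 g (E j)) ^ v)
      (Finset.mem_univ i)]
  have h : ∏ j ∈ Finset.univ.erase i, ∑ v ∈ TV L i 0 j, (chr S k1 k2 g (E j)) ^ v =
      ∏ j ∈ Finset.univ.erase i, ∑ v ∈ TF J L j, (chr S k1 k2 g (E j)) ^ v := by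
    refine Finset.prod_congr rfl fun j hj => ?_
    rw [TV, Function.update_of_ne (Finset.ne_of_mem_erase hj)]
  rw [h, ← geom_sum_mul]
  simp only [TV, TF, Function.update_self, Finset.sum_singleton, pow_zero, one_mul]
  ring

lemma norm_sT_TF (hS : BdC S) (k1 k2 : Λ) (E : J → A × A) (L : ℕ) (i : J) (g : Y Λ)
    (hu : chr S k1 k2 g (E i) * star (chr S k1 k2 g (E i)) = 1) :
    (L : ℝ) * ‖S.ι (sT S k1 k2 E (TF J L) g * (chr S k1 k2 g (E i) - 1))‖ ^ 2 ≤
      4 * ∑ v ∈ Finset.range L, ‖S.ι (sT S k1 k2 E (TV L i v) g)‖ ^ 2 := by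
  have hup : ∀ v : ℕ, (chr S k1 k2 g (E i)) ^ v * star ((chr S k1 k2 g (E i)) ^ v) = 1 := by
    intro v
    rw [star_pow, ← mul_pow, hu, one_pow]
  have h1 : ∀ v, ‖S.ι (sT S k1 k2 E (TV L i v) g)‖ = ‖S.ι (sT S k1 k2 E (TV L i 0) g)‖ := by
    intro v
    rw [sT_TV, hS.norm_unit_mul _ _ (hup v)]
  have h2 : ‖S.ι (sT S k1 k2 E (TF J L) g * (chr S k1 k2 g (E i) - 1))‖ ≤
      2 * ‖S.ι (sT S k1 k2 E (TV L i 0) g)‖ := by
    rw [sT_TF, sub_mul, one_mul, map_sub]
    refine (norm_sub_le _ _).trans ?_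
    rw [hS.norm_unit_mul _ _ (hup L)]
    linarith
  have h3 : ‖S.ι (sT S k1 k2 E (TF J L) g * (chr S k1 k2 g (E i) - 1))‖ ^ 2 ≤
      4 * ‖S.ι (sT S k1 k2 E (TV L i 0) g)‖ ^ 2 := by
    have := pow_le_pow_left₀ (norm_nonneg _) h2 2
    calc _ ≤ _ := this
      _ = _ := by ring
  simp only [h1]
  simp only [Finset.sum_const, Finset.card_range, nsmul_eq_mul]
  calc (L : ℝ) * ‖S.ι (sT S k1 k2 E (TF J L) g * (chr S k1 k2 g (E i) - 1))‖ ^ 2
      ≤ (L : ℝ) * (4 * ‖S.ι (sT S k1 k2 E (TV L i 0) g)‖ ^ 2) := by gcongr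
    _ = _ := by ring

end

end Pool.Agent.H84.B
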