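import Pool.Agent.H84.B.FinB

/-!
# MP_02e9fb_an, module FIN, part C: projections on eigenfunctions, `q` of products
-/

open scoped ComplexConjugate InnerProductSpace
open Filter Topology

namespace Pool.Agent.H84.B

section

variable {Λ : Type} [CommRing Λ] {A : Type} [CommRing A] [StarRing A] [Algebra ℂ A]
    [StarModule ℂ A] {H : Type} [NormedAddCommGroup H] [InnerProductSpace ℂ H] [CompleteSpace H]
    {S : Sys Λ A H}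

/-- the coefficient -/
noncomputable def cf (S : Sys Λ A H) (f ψ : A) : ℂ := ⟪S.ι ψ, S.ι f⟫_ℂ

lemma norm_eig (hS : BdC S) {ψ : A} (h : S.IsEig ψ) : ‖S.ι ψ‖ = 1 := by
  have := hS.norm_unit_mul ψ 1 h.2.1
  rw [mul_one, S.norm_one] at this
  exact this

lemma ι_Fpr (f : A) (J : Finset A) : S.ι (S.Fpr f J) = ∑ ψ ∈ J, cf S f ψ • S.ι ψ := by
  simp [Sys.Fpr, cf, map_sum]

open Classical in
lemma inner_eig (hS : BdC S) {F : Set A} (hF : S.EigSet F) {ψ ψ' : A} (h : ψ ∈ F) (h' : ψ' ∈ F) :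
    ⟪S.ι ψ, S.ι ψ'⟫_ℂ = if ψ = ψ' then 1 else 0 := by
  split_ifs with hh
  · subst hh
    rw [inner_self_eq_norm_sq_to_K, norm_eig hS (hF.eig _ h)]; norm_num
  · exact hF.orth _ h _ h' hh

lemma inner_eig_Fpr (hS : BdC S) {F : Set A} (hF : S.EigSet F) (f : A) {J : Finset A}
    (hJ : ↑J ⊆ F) {ψ : A} (h : ψ ∈ J) : ⟪S.ι ψ, S.ι (S.Fpr f J)⟫_ℂ = cf S f ψ := by
  classical
  rw [ι_Fpr, inner_sum]
  have : ∀ ψ' ∈ J, ⟪S.ι ψ, cf S f ψ' • S.ι ψ'⟫_ℂ = if ψ = ψ' then cf S f ψ' else 0 := by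
    intro ψ' h'
    rw [inner_smul_right, inner_eig hS hF (hJ h) (hJ h')]
    split_ifs <;> simp
  rw [Finset.sum_congr rfl this]
  simp [h]

lemma inner_Fpr_Fpr (hS : BdC S) {F : Set A} (hF : S.EigSet F) (f : A) {J J' : Finset A}
    (hJ : J ⊆ J') (hJ' : ↑J' ⊆ F) :
    ⟪S.ι (S.Fpr f J), S.ι (S.Fpr f J')⟫_ℂ = ((∑ ψ ∈ J, ‖cf S f ψ‖ ^ 2 : ℝ) : ℂ) := by
  rw [ι_Fpr f J, sum_inner]
  push_cast
  refine Finset.sum_congr rfl fun ψ hψ => ?_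
  rw [inner_smul_left, inner_eig_Fpr hS hF f hJ' (hJ hψ)]
  rw [← Complex.normSq_eq_conj_mul_self, Complex.normSq_eq_norm_sq]
  push_cast; rfl

lemma inner_Fpr_f (f : A) (J : Finset A) :
    ⟪S.ι (S.Fpr f J), S.ι f⟫_ℂ = ((∑ ψ ∈ J, ‖cf S f ψ‖ ^ 2 : ℝ) : ℂ) := by
  rw [ι_Fpr f J, sum_inner]
  push_cast
  refine Finset.sum_congr rfl fun ψ hψ => ?_
  rw [inner_smul_left]
  change conj (cf S f ψ) * cf S f ψ = _
  rw [← Complex.normSq_eq_conj_mul_self, Complex.normSq_eq_norm_sq]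
  push_cast; rfl

lemma norm_Fpr_sq (hS : BdC S) {F : Set A} (hF : S.EigSet F) (f : A) {J : Finset A}
    (hJ : ↑J ⊆ F) : ‖S.ι (S.Fpr f J)‖ ^ 2 = ∑ ψ ∈ J, ‖cf S f ψ‖ ^ 2 := by
  have h := inner_Fpr_Fpr hS hF f (Finset.Subset.refl J) hJ
  rw [← hS.tr_star_mul, hS.normsq] at h
  exact_mod_cast h

lemma norm_Fpr_sub_sq (hS : BdC S) {F : Set A} (hF : S.EigSet F) (f : A) {J J' : Finset A}
    (hJ : J ⊆ J') (hJ' : ↑J' ⊆ F) : ‖S.ι (S.Fpr f J' - S.Fpr f J)‖ ^ 2 =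
      ∑ ψ ∈ J', ‖cf S f ψ‖ ^ 2 - ∑ ψ ∈ J, ‖cf S f ψ‖ ^ 2 := by
  have hJF : (↑J : Set A) ⊆ F := (Finset.coe_subset.2 hJ).trans hJ'
  rw [map_sub, @norm_sub_sq ℂ, norm_Fpr_sq hS hF f hJ', norm_Fpr_sq hS hF f hJF]
  have h := inner_Fpr_Fpr hS hF f hJ hJ'
  have h2 : RCLike.re ⟪S.ι (S.Fpr f J'), S.ι (S.Fpr f J)⟫_ℂ = ∑ ψ ∈ J, ‖cf S f ψ‖ ^ 2 := by
    rw [← inner_conj_symm, h, Complex.conj_ofReal]; exact Complex.ofReal_re _
  rw [h2]; ring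

lemma norm_sub_Fpr_sq (hS : BdC S) {F : Set A} (hF : S.EigSet F) (f : A) {J : Finset A}
    (hJ : ↑J ⊆ F) : ‖S.ι (f - S.Fpr f J)‖ ^ 2 = ‖S.ι f‖ ^ 2 - ∑ ψ ∈ J, ‖cf S f ψ‖ ^ 2 := by
  rw [map_sub, @norm_sub_sq ℂ, norm_Fpr_sq hS hF f hJ]
  have h := inner_Fpr_f (S := S) f J
  have h2 : RCLike.re ⟪S.ι f, S.ι (S.Fpr f J)⟫_ℂ = ∑ ψ ∈ J, ‖cf S f ψ‖ ^ 2 := by
    rw [← inner_conj_symm, h, Complex.conj_ofReal]; exact Complex.ofReal_re _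
  rw [h2]; ring

lemma sum_cf_le (hS : BdC S) {F : Set A} (hF : S.EigSet F) (f : A) {J : Finset A}
    (hJ : ↑J ⊆ F) : ∑ ψ ∈ J, ‖cf S f ψ‖ ^ 2 ≤ ‖S.ι f‖ ^ 2 := by
  have := norm_sub_Fpr_sq hS hF f hJ
  have h2 := sq_nonneg ‖S.ι (f - S.Fpr f J)‖
  linarith

lemma norm_Fpr_le (hS : BdC S) {F : Set A} (hF : S.EigSet F) (f : A) {J : Finset A}
    (hJ : ↑J ⊆ F) : ‖S.ι (S.Fpr f J)‖ ≤ ‖S.ι f‖ := by
  have h1 := norm_Fpr_sq hS hF f hJ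
  have h2 := sum_cf_le hS hF f hJ
  exact (pow_le_pow_iff_left₀ (norm_nonneg _) (norm_nonneg _) two_ne_zero).1 (by rw [h1]; exact h2)

/-- a finite set that captures almost all of the coefficients -/
lemma exists_J0 (hS : BdC S) {F : Set A} (hF : S.EigSet F) (f : A) (η : ℝ) (hη : 0 < η) :
    ∃ J0 : Finset A, ↑J0 ⊆ F ∧ (1 : A) ∈ J0 ∧ ∀ J : Finset A, J0 ⊆ J → ↑J ⊆ F →
      ‖S.ι (S.Fpr f J - S.Fpr f J0)‖ ≤ η := by
  classical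
  set X : Set ℝ := {x | ∃ J : Finset A, ↑J ⊆ F ∧ x = ∑ ψ ∈ J, ‖cf S f ψ‖ ^ 2} with hX
  have hbdd : BddAbove X := ⟨‖S.ι f‖ ^ 2, by
    rintro x ⟨J, hJ, rfl⟩
    exact sum_cf_le hS hF f hJ⟩
  have hne : X.Nonempty := ⟨0, ∅, by simp, by simp⟩
  obtain ⟨x, ⟨J1, hJ1, rfl⟩, hx⟩ := exists_lt_of_lt_csSup hne
    (show sSup X - η ^ 2 < sSup X by nlinarith [sq_pos_of_pos hη])
  refine ⟨insert 1 J1, ?_, by simp, ?_⟩
  · intro ψ hψ
    rw [Finset.mem_coe, Finset.mem_insert] at hψ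
    rcases hψ with rfl | hψ
    · exact hF.one_mem
    · exact hJ1 hψ
  intro J hJ hJF
  have h1 := norm_Fpr_sub_sq hS hF f hJ hJF
  have h2 : ∑ ψ ∈ J, ‖cf S f ψ‖ ^ 2 ≤ sSup X := le_csSup hbdd ⟨J, hJF, rfl⟩
  have h3 : ∑ ψ ∈ J1, ‖cf S f ψ‖ ^ 2 ≤ ∑ ψ ∈ insert 1 J1, ‖cf S f ψ‖ ^ 2 :=
    Finset.sum_le_sum_of_subset_of_nonneg (Finset.subset_insert _ _)
      (fun _ _ _ => by positivity)
  have h4 : ‖S.ι (S.Fpr f J - S.Fpr f (insert 1 J1))‖ ^ 2 ≤ η ^ 2 := by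
    rw [h1]; linarith
  exact (pow_le_pow_iff_left₀ (norm_nonneg _) hη.le two_ne_zero).1 h4

/-- the main term -/
lemma main_term (hS : BdC S) (f : A) (hf1 : star f = f)
    (hf2 : f * f = f) {J : Finset A} (h1 : (1 : A) ∈ J) :
    ∃ x : ℝ, S.tr (f * star (S.Fpr f J) * S.Fpr f J) = x ∧ ‖S.ι f‖ ^ 6 ≤ x := by
  refine ⟨‖S.ι (f * S.Fpr f J)‖ ^ 2, ?_, ?_⟩
  · rw [← hS.normsq]
    congr 1
    rw [star_mul, hf1]
    calc f * star (S.Fpr f J) * S.Fpr f J = (f * f) * star (S.Fpr f J) * S.Fpr f J := by rw [hf2]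
      _ = star (S.Fpr f J) * f * (f * S.Fpr f J) := by ring
  · set d : ℝ := ‖S.ι f‖ ^ 2 with hd
    have hf : (S.tr f) = (d : ℂ) := by
      rw [hd, ← hS.normsq, hf1, hf2]
    have hc1 : cf S f 1 = (d : ℂ) := hf
    have h2 : ⟪S.ι f, S.ι (f * S.Fpr f J)⟫_ℂ = ((∑ ψ ∈ J, ‖cf S f ψ‖ ^ 2 : ℝ) : ℂ) := by
      rw [← hS.tr_star_mul, hf1, ← mul_assoc, hf2, ← inner_Fpr_f, ← hS.tr_star_mul]
      rw [← Complex.conj_conj (S.tr (star (S.Fpr f J) * f)), ← hS.tr_star, star_mul, star_star,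
        hf1]
      have h3 : (S.tr (f * S.Fpr f J)) = conj (S.tr (star (S.Fpr f J) * f)) := by
        rw [← hS.tr_star, star_mul, star_star, hf1]
      have h4 : S.tr (star (S.Fpr f J) * f) = ((∑ ψ ∈ J, ‖cf S f ψ‖ ^ 2 : ℝ) : ℂ) := by
        rw [hS.tr_star_mul, inner_Fpr_f]
      rw [h3, h4]; simp
    have h3 : ‖cf S f 1‖ ^ 2 ≤ ∑ ψ ∈ J, ‖cf S f ψ‖ ^ 2 :=
      Finset.single_le_sum (f := fun ψ => ‖cf S f ψ‖ ^ 2) (fun _ _ => by positivity) h1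
    have h4 : d ^ 2 ≤ ∑ ψ ∈ J, ‖cf S f ψ‖ ^ 2 := by
      rw [hc1] at h3
      simpa using h3
    have h5 : d ^ 2 ≤ ‖S.ι f‖ * ‖S.ι (f * S.Fpr f J)‖ := by
      refine h4.trans ?_
      have := norm_inner_le_norm (𝕜 := ℂ) (S.ι f) (S.ι (f * S.Fpr f J))
      rw [h2, Complex.norm_real, Real.norm_of_nonneg
        (Finset.sum_nonneg fun _ _ => by positivity)] at this
      exact this
    rcases (norm_nonneg (S.ι f)).eq_or_lt with h6 | h6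
    · rw [← h6]
      simp
    · have h7 : ‖S.ι f‖ ^ 3 ≤ ‖S.ι (f * S.Fpr f J)‖ := by
        have : ‖S.ι f‖ * ‖S.ι f‖ ^ 3 ≤ ‖S.ι f‖ * ‖S.ι (f * S.Fpr f J)‖ := by
          calc _ = d ^ 2 := by rw [hd]; ring
            _ ≤ _ := h5
        exact le_of_mul_le_mul_left this h6
      calc ‖S.ι f‖ ^ 6 = (‖S.ι f‖ ^ 3) ^ 2 := by ring
        _ ≤ _ := by gcongr

/-- support of `k • bb` -/
lemma supp_bb (hh' : T_hh) (p : ℕ) (β : ℕ → Λ) (k : Λ) (m : ℕ) :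
    (k • bb p β m).1.support ⊆ W p m := by
  obtain ⟨-, -, -, -, -, -, -, -, -, -, -, -, h, -⟩ := hh' Λ
  intro i hi
  rw [Finsupp.mem_support_iff] at hi
  rw [W, Finset.mem_range]
  by_contra hcon
  apply hi
  have h1 : (hh p β ((p + 1) * m) m).1 i = 0 := by
    by_contra h2
    have := (h p β _ m i h2).2
    omega
  have h2 : (hh p β 0 m).1 i = 0 := by
    by_contra h2
    have := (h p β _ m i h2).2
    omega
  change k • (bb p β m).1 i = 0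
  rw [show (bb p β m).1 i = (hh p β ((p + 1) * m) m).1 i - (hh p β 0 m).1 i from rfl, h1, h2]
  simp

/-- `q` is unchanged by multiplication by an eigenfunction -/
lemma q_eig_mul (hS : BdC S) (hC : T_cond) (hb : T_basic) (hh' : T_hh) (p : ℕ) (β : ℕ → Λ)
    (k : Λ) (m : ℕ) (P u : A) (hP : S.IsEig P) :
    S.q p β k m (P * u) = S.q p β k m u := by
  obtain ⟨-, hR, -, -, -, hmod, -⟩ := hC Λ A H S (W p m)
  obtain ⟨-, hmono, -⟩ := hb Λ H S.toRep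
  obtain ⟨C, hCa⟩ := hS.ex (S.UA (k • bb p β m) u * star u)
  obtain ⟨a', ha', -⟩ := hR C _ hCa
  have hlam : S.ι (lam S (k • bb p β m) P) ∈ S.RB (W p m) :=
    hmono _ _ (supp_bb hh' p β k m) (hP.2.2 _)
  have h1 : S.UA (k • bb p β m) (P * u) * star (P * u) =
      lam S (k • bb p β m) P * (S.UA (k • bb p β m) u * star u) := by
    rw [lam, map_mul, star_mul]; ring
  unfold Sys.q
  rw [h1, hmod _ _ _ hlam ha', ← ha']
  refine hS.norm_unit_mul _ _ ?_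
  rw [lam, star_mul, star_star, ← map_star]
  calc S.UA (k • bb p β m) P * star P * (P * S.UA (k • bb p β m) (star P))
      = S.UA (k • bb p β m) (P * star P) * (P * star P) := by rw [map_mul]; ring
    _ = 1 := by rw [hP.2.1, map_one, one_mul]

lemma q_star (hS : BdC S) (hC : T_cond) (p : ℕ) (β : ℕ → Λ) (k : Λ) (m : ℕ) (u : A) :
    S.q p β k m (star u) = S.q p β k m u := by
  obtain ⟨-, hR, -, hst, -, -, -⟩ := hC Λ A H S (W p m)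
  obtain ⟨C, hCa⟩ := hS.ex (S.UA (k • bb p β m) u * star u)
  obtain ⟨a', ha', -⟩ := hR C _ hCa
  have h1 : S.UA (k • bb p β m) (star u) * star (star u) =
      star (S.UA (k • bb p β m) u * star u) := by
    rw [star_mul, star_star, map_star]; ring
  unfold Sys.q
  rw [h1, ← hst _ _ ha', ← ha', hS.norm_star]

lemma q_nonneg (p : ℕ) (β : ℕ → Λ) (k : Λ) (m : ℕ) (u : A) : 0 ≤ S.q p β k m u := norm_nonneg _

end

end Pool.Agent.H84.B
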