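import Pool.Agent.H84.B.FinC

/-!
# MP_02e9fb_an, module FIN, part D: the pointwise estimate and the van der Corput terms
-/

open scoped ComplexConjugate InnerProductSpace
open Filter Topology

namespace Pool.Agent.H84.B

section

variable {Λ : Type} [CommRing Λ] {A : Type} [CommRing A] [StarRing A] [Algebra ℂ A]
    [StarModule ℂ A] {H : Type} [NormedAddCommGroup H] [InnerProductSpace ℂ H] [CompleteSpace H]
    {S : Sys Λ A H}

lemma supp_smul (k : Λ) (g : Y Λ) : (k • g).1.support ⊆ g.1.support := by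
  intro i hi
  rw [Finsupp.mem_support_iff] at hi ⊢
  intro h
  apply hi
  change k • g.1 i = 0
  rw [h, smul_zero]

lemma norm_s_T (hS : BdC S) (hR : T_RBind) (g c : Y Λ) (s D : A) (hc : c.1.support ⊆ g.1.support)
    (hs : S.ι s ∈ S.RB g.1.support) (hD : S.ι D ∈ S.HB ∅) :
    ‖S.ι (s * S.UA c D)‖ = ‖S.ι s‖ * ‖S.ι D‖ := by
  obtain ⟨-, -, -, -, h5⟩ := hR Λ A H S g.1.support
  have h1 : S.tr (star (s * S.UA c D) * (s * S.UA c D)) =
      S.tr (star s * s) * S.tr (star D * D) := by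
    rw [← h5 c _ _ hc (hS.RBmul _ _ _ (hS.RBstar _ _ hs) hs)
      (hS.HBmul _ _ _ (hS.HBstar _ _ hD) hD)]
    congr 1
    rw [star_mul, map_mul, map_star]; ring
  rw [hS.normsq, hS.normsq, hS.normsq] at h1
  have h2 : ‖S.ι (s * S.UA c D)‖ ^ 2 = (‖S.ι s‖ * ‖S.ι D‖) ^ 2 := by
    rw [mul_pow]; exact_mod_cast h1
  exact (pow_left_inj₀ (norm_nonneg _) (by positivity) two_ne_zero).1 h2

lemma norm_s_base (hS : BdC S) (hR : T_RBind) (g : Y Λ) (s D : A)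
    (hs : S.ι s ∈ S.RB g.1.support) (hD : S.ι D ∈ S.HB ∅) :
    ‖S.ι (s * D)‖ = ‖S.ι s‖ * ‖S.ι D‖ := by
  have h := norm_s_T hS hR g 0 s D (by simp) hs hD
  rwa [hS.UA_zero] at h

lemma tr_W_base (hS : BdC S) (hR : T_RBind) (g : Y Λ) (s z : A)
    (hs : S.ι s ∈ S.RB g.1.support) (hz : S.ι z ∈ S.HB ∅) :
    S.tr (star s * s * z) = ((‖S.ι s‖ ^ 2 : ℝ) : ℂ) * S.tr z := by
  obtain ⟨-, -, h3, -, -⟩ := hR Λ A H S g.1.support
  rw [h3 ∅ _ _ (by simp) (hS.RBmul _ _ _ (hS.RBstar _ _ hs) hs) hz, hS.normsq]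

/-- The pointwise estimate. -/
lemma pointwise (hS : BdC S) (hR : T_RBind) (k1 k2 : Λ) (g : Y Λ) (s f F0 F1 F2 : A)
    (hf1 : star f = f) (hf2 : f * f = f) (hfb : S.ι f ∈ S.HB ∅)
    (hs : S.ι s ∈ S.RB g.1.support) (h0 : S.ι F0 ∈ S.HB ∅) (h1 : S.ι F1 ∈ S.HB ∅)
    (h2 : S.ι F2 ∈ S.HB ∅) (hn0 : ‖S.ι F0‖ ≤ 1) (hn2 : ‖S.ι F2‖ ≤ 1)
    (hz : f * S.UA (k1 • g) f * S.UA (k2 • g) f = 0) (x : ℝ)
    (hx : S.tr (f * star F0 * F0) = x) (η : ℝ) (hη1 : ‖S.ι (F1 - F0)‖ ≤ η)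
    (hη2 : ‖S.ι (F2 - F0)‖ ≤ η) :
    ‖S.ι s‖ ^ 2 * x ≤
      ‖S.tr (star s * s * f * S.UA (k1 • g) (star (f - F1)) * S.UA (k2 • g) f)‖ +
      ‖S.tr (star s * s * f * S.UA (k1 • g) (star F1) * S.UA (k2 • g) (f - F2))‖ +
      2 * η * ‖S.ι s‖ ^ 2 +
      ‖S.ι s‖ * (‖S.ι (s * (S.UA (k1 • g) F0 - F0))‖ + ‖S.ι (s * (S.UA (k2 • g) F0 - F0))‖) := by
  have hfB : S.Bd 1 f := hS.bproj f hf1 hf2
  set T1 := S.UA (k1 • g) with hT1
  set T2 := S.UA (k2 • g) with hT2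
  have hsub1 : (k1 • g).1.support ⊆ g.1.support := supp_smul k1 g
  have hsub2 : (k2 • g).1.support ⊆ g.1.support := supp_smul k2 g
  -- the decomposition
  have hdec : (0 : ℂ) = S.tr (star s * s * f * T1 (star (f - F1)) * T2 f) +
      S.tr (star s * s * f * T1 (star F1) * T2 (f - F2)) +
      S.tr (star s * s * f * star (T1 (F1 - F0)) * T2 F2) +
      S.tr (star s * s * f * star (T1 F0) * T2 (F2 - F0)) +
      S.tr (star s * s * f * star (T1 F0 - F0) * T2 F0) +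
      S.tr (star s * s * f * star F0 * (T2 F0 - F0)) +
      S.tr (star s * s * (f * star F0 * F0)) := by
    simp only [← S.tr_add]
    have : star s * s * f * T1 (star (f - F1)) * T2 f + star s * s * f * T1 (star F1) * T2 (f - F2)
        + star s * s * f * star (T1 (F1 - F0)) * T2 F2
        + star s * s * f * star (T1 F0) * T2 (F2 - F0)
        + star s * s * f * star (T1 F0 - F0) * T2 F0
        + star s * s * f * star F0 * (T2 F0 - F0) + star s * s * (f * star F0 * F0) =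
        star s * s * (f * T1 f * T2 f) := by
      simp only [map_sub, map_star, star_sub, hf1]
      ring
    rw [this, hz, mul_zero]
    simp [Sys.tr]
  have hmain : S.tr (star s * s * (f * star F0 * F0)) = ((‖S.ι s‖ ^ 2 * x : ℝ) : ℂ) := by
    rw [tr_W_base hS hR g s _ hs (hS.HBmul _ _ _ (hS.HBmul _ _ _ hfb (hS.HBstar _ _ h0)) h0), hx]
    push_cast; ring
  have hnorm : ‖S.ι s‖ ^ 2 * x ≤ ‖((‖S.ι s‖ ^ 2 * x : ℝ) : ℂ)‖ := by
    rw [Complex.norm_real]; exact le_abs_self _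
  rw [hmain] at hdec
  have hsol : ((‖S.ι s‖ ^ 2 * x : ℝ) : ℂ) = -(S.tr (star s * s * f * T1 (star (f - F1)) * T2 f) +
      S.tr (star s * s * f * T1 (star F1) * T2 (f - F2)) +
      S.tr (star s * s * f * star (T1 (F1 - F0)) * T2 F2) +
      S.tr (star s * s * f * star (T1 F0) * T2 (F2 - F0)) +
      S.tr (star s * s * f * star (T1 F0 - F0) * T2 F0) +
      S.tr (star s * s * f * star F0 * (T2 F0 - F0))) := by
    linear_combination -hdec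
  rw [hsol, norm_neg] at hnorm
  have hsD1 : S.ι (F1 - F0) ∈ S.HB ∅ := by rw [map_sub]; exact Submodule.sub_mem _ h1 h0
  have hsD2 : S.ι (F2 - F0) ∈ S.HB ∅ := by rw [map_sub]; exact Submodule.sub_mem _ h2 h0
  have hη0 : 0 ≤ η := (norm_nonneg _).trans hη1
  have e3 : ‖S.tr (star s * s * f * star (T1 (F1 - F0)) * T2 F2)‖ ≤ η * ‖S.ι s‖ ^ 2 := by
    refine (hS.tr_bound s _ _ f hfB).trans ?_
    rw [norm_s_T hS hR g _ s _ hsub1 hs hsD1, norm_s_T hS hR g _ s _ hsub2 hs h2]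
    have : ‖S.ι s‖ * ‖S.ι (F1 - F0)‖ * (‖S.ι s‖ * ‖S.ι F2‖) ≤
        ‖S.ι s‖ * η * (‖S.ι s‖ * 1) := by gcongr
    calc _ ≤ _ := this
      _ = _ := by ring
  have e4 : ‖S.tr (star s * s * f * star (T1 F0) * T2 (F2 - F0))‖ ≤ η * ‖S.ι s‖ ^ 2 := by
    refine (hS.tr_bound s _ _ f hfB).trans ?_
    rw [norm_s_T hS hR g _ s _ hsub1 hs h0, norm_s_T hS hR g _ s _ hsub2 hs hsD2]
    have : ‖S.ι s‖ * ‖S.ι F0‖ * (‖S.ι s‖ * ‖S.ι (F2 - F0)‖) ≤
        ‖S.ι s‖ * 1 * (‖S.ι s‖ * η) := by gcongr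
    calc _ ≤ _ := this
      _ = _ := by ring
  have e5 : ‖S.tr (star s * s * f * star (T1 F0 - F0) * T2 F0)‖ ≤
      ‖S.ι s‖ * ‖S.ι (s * (T1 F0 - F0))‖ := by
    refine (hS.tr_bound s _ _ f hfB).trans ?_
    rw [norm_s_T hS hR g _ s _ hsub2 hs h0]
    have : ‖S.ι (s * (T1 F0 - F0))‖ * (‖S.ι s‖ * ‖S.ι F0‖) ≤
        ‖S.ι (s * (T1 F0 - F0))‖ * (‖S.ι s‖ * 1) := by gcongr
    calc _ ≤ _ := this
      _ = _ := by ring
  have e6 : ‖S.tr (star s * s * f * star F0 * (T2 F0 - F0))‖ ≤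
      ‖S.ι s‖ * ‖S.ι (s * (T2 F0 - F0))‖ := by
    refine (hS.tr_bound s _ _ f hfB).trans ?_
    rw [norm_s_base hS hR g s _ hs h0]
    have : ‖S.ι s‖ * ‖S.ι F0‖ * ‖S.ι (s * (T2 F0 - F0))‖ ≤
        ‖S.ι s‖ * 1 * ‖S.ι (s * (T2 F0 - F0))‖ := by gcongr
    calc _ ≤ _ := this
      _ = _ := by ring
  refine hnorm.trans ?_
  refine (norm_add_le _ _).trans ?_
  refine (add_le_add (norm_add_le _ _) le_rfl).trans ?_
  refine (add_le_add (add_le_add (norm_add_le _ _) le_rfl) le_rfl).trans ?_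
  refine (add_le_add (add_le_add (add_le_add (norm_add_le _ _) le_rfl) le_rfl) le_rfl).trans ?_
  refine (add_le_add (add_le_add (add_le_add (add_le_add (norm_add_le _ _) le_rfl) le_rfl)
    le_rfl) le_rfl).trans ?_
  linarith

/-- the character in front is absorbed -/
lemma absorb (k1 k2 : Λ) (g : Y Λ) (P : A × A) (f x y : A) :
    chr S k1 k2 g P * f * S.UA (k1 • g) x * S.UA (k2 • g) y =
      (f * star P.1 * star P.2) * S.UA (k1 • g) (P.1 * x) * S.UA (k2 • g) (P.2 * y) := by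
  simp only [chr, lam, map_mul]; ring

/-- van der Corput with a character in front, second slot -/
lemma vdc_slot2 (hS : BdC S) (hV : T_VDC) (hC : T_cond) (hb : T_basic) (hh' : T_hh)
    (p : ℕ) [Fact p.Prime] (ρ : Λ →+* ZMod p) (β : ℕ → Λ) (k1 k2 : Λ) (hβ : Exh ρ β)
    (hk1 : IsUnit k1) (hk2 : IsUnit k2) (hk : IsUnit (k2 - k1)) (Ps : Finset (A × A))
    (hPs : ∀ P ∈ Ps, S.IsEig P.1 ∧ S.IsEig P.2) (f x y : A) (hf1 : star f = f) (hf2 : f * f = f)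
    (hfb : S.ι f ∈ S.HB ∅) (hx : S.ι x ∈ S.HB ∅) (hy : S.ι y ∈ S.HB ∅) (C : ℝ) (hCx : S.Bd C x)
    (m : ℕ) (ε : ℝ) (hε : 0 < ε) :
    ∃ M, ∀ m' ≥ M, ∀ g h z : Y Λ, IsCopy (hh p β 0 m) g → IsCopy (hh p β 0 m') h →
      Dsj g h → Dsj g z → Dsj h z → ∀ P ∈ Ps,
      ‖S.tr (chr S k1 k2 (g + h + z) P * f * S.UA (k1 • (g + h + z)) x *
        S.UA (k2 • (g + h + z)) y)‖ ^ 2 ≤ C ^ 2 * S.q p β k2 m y + ε := by
  have hone : ∀ P ∈ Ps, ∃ M, ∀ m' ≥ M, ∀ g h z : Y Λ, IsCopy (hh p β 0 m) g →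
      IsCopy (hh p β 0 m') h → Dsj g h → Dsj g z → Dsj h z →
      ‖S.tr (chr S k1 k2 (g + h + z) P * f * S.UA (k1 • (g + h + z)) x *
        S.UA (k2 • (g + h + z)) y)‖ ^ 2 ≤ C ^ 2 * S.q p β k2 m y + ε := by
    intro P hP
    obtain ⟨h1, h2⟩ := hPs P hP
    have hB1 : S.Bd (1 * C) (P.1 * x) := hS.bmul _ _ _ _ (hS.bunit _ h1.2.1) hCx
    rw [one_mul] at hB1
    obtain ⟨M, hM⟩ := hV Λ A H S p ρ β k1 k2 (P.1 * x) (P.2 * y) C m ε hβ hk1 hk2 hk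
      (hS.HBmul _ _ _ h1.1 hx) (hS.HBmul _ _ _ h2.1 hy) hB1 hε
    refine ⟨M, fun m' hm' g h z hg hh hd1 hd2 hd3 => ?_⟩
    have hb0 : S.ι (f * star P.1 * star P.2) ∈ S.HB ∅ :=
      hS.HBmul _ _ _ (hS.HBmul _ _ _ hfb (hS.HBstar _ _ h1.1)) (hS.HBstar _ _ h2.1)
    have key := hM m' hm' g h z hg hh hd1 hd2 hd3 _ hb0
    rw [absorb]
    refine key.trans ?_
    rw [q_eig_mul hS hC hb hh' p β k2 m P.2 y h2]
    have hn : ‖S.ι (f * star P.1 * star P.2)‖ ≤ 1 := by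
      have hB : S.Bd (1 * 1 * 1) (f * star P.1 * star P.2) :=
        hS.bmul _ _ _ _ (hS.bmul _ _ _ _ (hS.bproj f hf1 hf2)
          (hS.bstar _ _ (hS.bunit _ h1.2.1))) (hS.bstar _ _ (hS.bunit _ h2.2.1))
      have := hS.norm_le _ _ hB
      simpa using this
    have hq := q_nonneg (S := S) p β k2 m y
    have hn2 : ‖S.ι (f * star P.1 * star P.2)‖ ^ 2 ≤ 1 := by
      calc _ ≤ (1 : ℝ) ^ 2 := by gcongr
        _ = 1 := one_pow 2
    have h3 : 0 ≤ C ^ 2 * S.q p β k2 m y + ε := by positivity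
    calc _ ≤ 1 * (C ^ 2 * S.q p β k2 m y + ε) := by gcongr
      _ = _ := one_mul _
  choose! M hM using hone
  refine ⟨Ps.sup M, fun m' hm' g h z hg hh hd1 hd2 hd3 P hP => ?_⟩
  exact hM P hP m' ((Finset.le_sup (f := M) hP).trans hm') g h z hg hh hd1 hd2 hd3

/-- van der Corput with a character in front, first slot -/
lemma vdc_slot1 (hS : BdC S) (hV : T_VDC) (hC : T_cond) (hb : T_basic) (hh' : T_hh)
    (p : ℕ) [Fact p.Prime] (ρ : Λ →+* ZMod p) (β : ℕ → Λ) (k1 k2 : Λ) (hβ : Exh ρ β)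
    (hk1 : IsUnit k1) (hk2 : IsUnit k2) (hk : IsUnit (k1 - k2)) (Ps : Finset (A × A))
    (hPs : ∀ P ∈ Ps, S.IsEig P.1 ∧ S.IsEig P.2) (f x y : A) (hf1 : star f = f) (hf2 : f * f = f)
    (hfb : S.ι f ∈ S.HB ∅) (hx : S.ι x ∈ S.HB ∅) (hy : S.ι y ∈ S.HB ∅) (C : ℝ) (hCy : S.Bd C y)
    (m : ℕ) (ε : ℝ) (hε : 0 < ε) :
    ∃ M, ∀ m' ≥ M, ∀ g h z : Y Λ, IsCopy (hh p β 0 m) g → IsCopy (hh p β 0 m') h →
      Dsj g h → Dsj g z → Dsj h z → ∀ P ∈ Ps,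
      ‖S.tr (chr S k1 k2 (g + h + z) P * f * S.UA (k1 • (g + h + z)) x *
        S.UA (k2 • (g + h + z)) y)‖ ^ 2 ≤ C ^ 2 * S.q p β k1 m x + ε := by
  classical
  obtain ⟨M, hM⟩ := vdc_slot2 hS hV hC hb hh' p ρ β k2 k1 hβ hk2 hk1 hk
    (Ps.image Prod.swap) (by
      intro P hP
      obtain ⟨Q, hQ, rfl⟩ := Finset.mem_image.1 hP
      exact ⟨(hPs Q hQ).2, (hPs Q hQ).1⟩) f y x hf1 hf2 hfb hy hx C hCy m ε hε
  refine ⟨M, fun m' hm' g h z hg hh hd1 hd2 hd3 P hP => ?_⟩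
  have := hM m' hm' g h z hg hh hd1 hd2 hd3 P.swap (Finset.mem_image_of_mem _ hP)
  have hsw : chr S k2 k1 (g + h + z) P.swap = chr S k1 k2 (g + h + z) P := by
    simp only [chr, Prod.fst_swap, Prod.snd_swap]; ring
  rw [hsw] at this
  have h2 : chr S k1 k2 (g + h + z) P * f * S.UA (k1 • (g + h + z)) x *
      S.UA (k2 • (g + h + z)) y = chr S k1 k2 (g + h + z) P * f * S.UA (k2 • (g + h + z)) y *
      S.UA (k1 • (g + h + z)) x := by ring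
  rw [h2]; exact this

/-- expansion of the weight -/
lemma weight_expand {J : Type} [Fintype J] [DecidableEq J] (k1 k2 : Λ) (E : J → A × A)
    (T : J → Finset ℕ) (g : Y Λ) (z : A) (e : ℝ)
    (hz : ∀ t ∈ Fintype.piFinset T, ∀ t' ∈ Fintype.piFinset T,
      ‖S.tr (chr S k1 k2 g (PP E t t') * z)‖ ≤ e) :
    ‖S.tr (star (sT S k1 k2 E T g) * sT S k1 k2 E T g * z)‖ ≤
      ((Fintype.piFinset T).card : ℝ) ^ 2 * e := by
  have h1 : star (sT S k1 k2 E T g) * sT S k1 k2 E T g * z =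
      ∑ t ∈ Fintype.piFinset T, ∑ t' ∈ Fintype.piFinset T, chr S k1 k2 g (PP E t t') * z := by
    rw [sT_eq, star_sum, Finset.sum_mul_sum, Finset.sum_mul]
    refine Finset.sum_congr rfl fun t _ => ?_
    rw [Finset.sum_mul]
    refine Finset.sum_congr rfl fun t' _ => ?_
    rw [PP, chr_mul, chr_star]
  rw [h1, S.tr_sum]
  refine (norm_sum_le _ _).trans ?_
  have h2 : ∀ t ∈ Fintype.piFinset T,
      ‖S.tr (∑ t' ∈ Fintype.piFinset T, chr S k1 k2 g (PP E t t') * z)‖ ≤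
        ((Fintype.piFinset T).card : ℝ) * e := by
    intro t ht
    rw [S.tr_sum]
    refine (norm_sum_le _ _).trans ?_
    refine (Finset.sum_le_sum fun t' ht' => hz t ht t' ht').trans ?_
    simp
  refine (Finset.sum_le_sum h2).trans ?_
  simp only [Finset.sum_const, nsmul_eq_mul]
  apply le_of_eq; ring

/-- the kernel lies in `R_{supp g}` -/
lemma sT_mem (hE : T_EIG) (hCh : T_CHR) {J : Type} [Fintype J] [DecidableEq J]
    (k1 k2 : Λ) (E : J → A × A) (h1 : ∀ j, S.IsEig (E j).1 ∧ S.IsEig (E j).2)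
    (T : J → Finset ℕ) (g : Y Λ) : S.ι (sT S k1 k2 E T g) ∈ S.RB g.1.support := by
  rw [sT_eq, map_sum]
  refine Submodule.sum_mem _ fun t _ => ?_
  have h := PP_isEig (S := S) hE E h1 0 t
  have h2 : PP E (0 : J → ℕ) t = ∏ j, (E j) ^ (t j) := by
    simp [PP]
  rw [h2] at h
  exact (hCh Λ A H S k1 k2 _ h.1 h.2).1 g

/-- the two differences in terms of the kernel factors -/
lemma diff_bound (hS : BdC S) {F : Set A} (hF : S.EigSet F) (f : A) (hf : ‖S.ι f‖ ≤ 1)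
    {J0 : Finset A} (hJ : ↑J0 ⊆ F) (c : Y Λ) (s : A) :
    ‖S.ι (s * (S.UA c (S.Fpr f J0) - S.Fpr f J0))‖ ≤
      ∑ ψ ∈ J0, ‖S.ι (s * (lam S c ψ - 1))‖ := by
  have h1 : s * (S.UA c (S.Fpr f J0) - S.Fpr f J0) =
      ∑ ψ ∈ J0, cf S f ψ • (ψ * (s * (lam S c ψ - 1))) := by
    rw [Sys.Fpr, map_sum, ← Finset.sum_sub_distrib, Finset.mul_sum]
    refine Finset.sum_congr rfl fun ψ hψ => ?_
    have hu : ψ * star ψ = 1 := (hF.eig _ (hJ hψ)).2.1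
    rw [map_smul]
    change s * (cf S f ψ • S.UA c ψ - cf S f ψ • ψ) = _
    rw [← smul_sub, mul_smul_comm]
    congr 1
    rw [lam]
    calc s * (S.UA c ψ - ψ) = s * (S.UA c ψ * 1 - ψ) := by rw [mul_one]
      _ = s * (S.UA c ψ * (ψ * star ψ) - ψ) := by rw [hu]
      _ = _ := by ring
  rw [h1, map_sum]
  refine (norm_sum_le _ _).trans (Finset.sum_le_sum fun ψ hψ => ?_)
  have hu : ψ * star ψ = 1 := (hF.eig _ (hJ hψ)).2.1
  rw [map_smul, norm_smul, hS.norm_unit_mul ψ _ hu]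
  have hc : ‖cf S f ψ‖ ≤ 1 := by
    have := norm_inner_le_norm (𝕜 := ℂ) (S.ι ψ) (S.ι f)
    rw [norm_eig hS (hF.eig _ (hJ hψ)), one_mul] at this
    exact this.trans hf
  calc _ ≤ 1 * ‖S.ι (s * (lam S c ψ - 1))‖ := by gcongr
    _ = _ := one_mul _

end

end Pool.Agent.H84.B
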