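import Pool.Agent.H84.B.FinD

/-!
# MP_02e9fb_an, module FIN, part E: the abstract main theorem
-/

open scoped ComplexConjugate InnerProductSpace
open Filter Topology

namespace Pool.Agent.H84.B

/-- final numerical contradiction -/
lemma numeric (κ p c K L ε e D E1 : ℝ) (hκ : 0 < κ) (hp : 0 < p) (hc : 1 ≤ c)
    (hL : 0 < L)
    (h1 : 3 * κ / 4 * E1 ≤ e + 2 * D / κ * (D * (4 / L * (c + L * (K ^ 2 * ε)))))
    (h2 : c / p - K ^ 2 * ε ≤ E1)
    (h3 : 32 * D ^ 2 * p ≤ κ ^ 2 * L)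
    (h4 : 8 * p * e < κ)
    (h5 : 8 * p * (K ^ 2 * ε * (1 + L)) ≤ 1)
    (h6 : 0 ≤ K ^ 2 * ε) (hp1 : 1 ≤ p) : False := by
  -- 8 D^2/(κ L) ≤ κ/(4p)
  set z := K ^ 2 * ε with hz
  have h7 : 8 * D ^ 2 / (κ * L) ≤ κ / (4 * p) := by
    rw [div_le_div_iff₀ (by positivity) (by positivity)]
    nlinarith
  have h8 : 2 * D / κ * (D * (4 / L * (c + L * z))) = 8 * D ^ 2 / (κ * L) * (c + L * z) := by
    field_simp; ring
  rw [h8] at h1
  have h9 : 8 * D ^ 2 / (κ * L) * (c + L * z) ≤ κ / (4 * p) * (c + L * z) := by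
    have : 0 ≤ c + L * z := by positivity
    gcongr
  have h10 : 3 * κ / 4 * (c / p - z) ≤ e + κ / (4 * p) * (c + L * z) := by
    calc 3 * κ / 4 * (c / p - z) ≤ 3 * κ / 4 * E1 := by gcongr
      _ ≤ _ := h1
      _ ≤ _ := by linarith
  -- multiply by p
  have h11 : 3 * κ / 4 * (c - p * z) ≤ p * e + κ / 4 * (c + L * z) := by
    have := mul_le_mul_of_nonneg_left h10 hp.le
    have e1 : p * (3 * κ / 4 * (c / p - z)) = 3 * κ / 4 * (c - p * z) := by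
      field_simp
    have e2 : p * (e + κ / (4 * p) * (c + L * z)) = p * e + κ / 4 * (c + L * z) := by
      field_simp
    rwa [e1, e2] at this
  have h12 : p * z ≤ 1 / 8 := by nlinarith [mul_nonneg (mul_nonneg hp.le h6) hL.le]
  have h13 : L * z ≤ 1 / 8 := by
    have : L * z ≤ p * (L * z) := by nlinarith [mul_nonneg hL.le h6]
    nlinarith [mul_nonneg hp.le h6]
  have h14 : p * e < κ / 8 := by linarith
  nlinarith [mul_pos hκ (lt_of_lt_of_le one_pos hc)]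

section

variable {Λ : Type} [CommRing Λ] {A : Type} [CommRing A] [StarRing A] [Algebra ℂ A]
    [StarModule ℂ A] {H : Type} [NormedAddCommGroup H] [InnerProductSpace ℂ H] [CompleteSpace H]
    {S : Sys Λ A H}

open Classical in
/-- the family of pairs used in the kernel -/
noncomputable def EJ {A : Type} [CommRing A] (J0 : Finset A) : {ψ : A // ψ ∈ J0} × Bool → A × A :=
  fun j => if j.2 then ((1 : A), j.1.1) else (j.1.1, (1 : A))

lemma EJ_eig (hE : T_EIG) {F : Set A} (hF : S.EigSet F) {J0 : Finset A} (hJ : ↑J0 ⊆ F)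
    (j : {ψ : A // ψ ∈ J0} × Bool) : S.IsEig (EJ J0 j).1 ∧ S.IsEig (EJ J0 j).2 := by
  obtain ⟨hone, -⟩ := hE Λ A H S
  rcases j with ⟨⟨ψ, hψ⟩, b⟩
  cases b
  · exact ⟨by simpa [EJ] using hF.eig _ (hJ hψ), by simpa [EJ] using hone⟩
  · exact ⟨by simpa [EJ] using hone, by simpa [EJ] using hF.eig _ (hJ hψ)⟩

lemma sum_EJ (k1 k2 : Λ) (g : Y Λ) (J0 : Finset A) (s : A) :
    ∑ ψ ∈ J0, ‖S.ι (s * (lam S (k1 • g) ψ - 1))‖ + ∑ ψ ∈ J0, ‖S.ι (s * (lam S (k2 • g) ψ - 1))‖ =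
      ∑ j : {ψ : A // ψ ∈ J0} × Bool, ‖S.ι (s * (chr S k1 k2 g (EJ J0 j) - 1))‖ := by
  rw [Fintype.sum_prod_type]
  simp only [Fintype.sum_bool]
  rw [Finset.sum_add_distrib, add_comm]
  congr 1
  · rw [← Finset.sum_coe_sort J0 (fun ψ => ‖S.ι (s * (lam S (k2 • g) ψ - 1))‖)]
    refine Finset.sum_congr rfl fun ψ _ => ?_
    simp [EJ, chr, lam_one]
  · rw [← Finset.sum_coe_sort J0 (fun ψ => ‖S.ι (s * (lam S (k1 • g) ψ - 1))‖)]
    refine Finset.sum_congr rfl fun ψ _ => ?_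
    simp [EJ, chr, lam_one]

lemma Fpr_base {F : Set A} (hF : S.EigSet F) (f : A) {J : Finset A} (hJ : ↑J ⊆ F) :
    S.ι (S.Fpr f J) ∈ S.HB ∅ := by
  rw [ι_Fpr]
  exact Submodule.sum_mem _ fun ψ hψ => Submodule.smul_mem _ _ (hF.eig _ (hJ hψ)).1

end

/-- the abstract main theorem -/
theorem mainAbs (hBd : T_Bd) (hC : T_cond) (hb : T_basic) (hh' : T_hh) (hR : T_RBind)
    (hV : T_VDC) (hE : T_EIG) (hStr : T_STR) (hCh : T_CHR) (hAs : T_ASYM) : T_MainAbs := by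
  intro Λ _ A _ _ _ _ H _ _ _ S p _ ρ β k1 k2 f hp2 hβ hk1 hk2 hk hf1 hf2 hf0 hfb hL1 hL2 hzero
  classical
  have hS : BdC S := mkBdC hBd S
  have hfB : S.Bd 1 f := hS.bproj f hf1 hf2
  have hk' : IsUnit (k2 - k1) := by rw [← neg_sub]; exact hk.neg
  have hfn : ‖S.ι f‖ ≤ 1 := hS.norm_le _ _ hfB
  have hp0 : 0 < (p : ℝ) := by exact_mod_cast (Fact.out (p := p.Prime)).pos
  have hp1 : 1 ≤ (p : ℝ) := by exact_mod_cast (Fact.out (p := p.Prime)).one_lt.le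
  obtain ⟨F, hF⟩ := (hE Λ A H S).2.2.2.2
  set κ : ℝ := ‖S.ι f‖ ^ 6 with hκdef
  have hκ : 0 < κ := by
    have : 0 < ‖S.ι f‖ := by
      rw [norm_pos_iff]
      intro h
      apply hf0
      apply S.ι_inj
      rw [h, map_zero]
    positivity
  set η : ℝ := κ / 16 with hη
  obtain ⟨J0, hJ0F, h1J0, hJ0⟩ := exists_J0 hS hF f η (by positivity)
  -- the kernel
  set J := {ψ : A // ψ ∈ J0} × Bool with hJdef
  set D : ℝ := (Fintype.card J : ℝ) with hD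
  obtain ⟨L, hLD⟩ := exists_nat_ge (32 * D ^ 2 * p / κ ^ 2 + 1)
  have hLpos : 0 < (L : ℝ) := lt_of_lt_of_le (by positivity) hLD
  have hLpos' : 0 < L := by exact_mod_cast hLpos
  have hL3 : 32 * D ^ 2 * p ≤ κ ^ 2 * L := by
    have h1 : 32 * D ^ 2 * p / κ ^ 2 ≤ L := by linarith
    rw [div_le_iff₀ (by positivity)] at h1
    linarith
  set K : ℝ := ((Fintype.piFinset (TF J L)).card : ℝ) with hK
  have hK1 : 1 ≤ K := by
    rw [hK, card_TF]
    exact_mod_cast Nat.one_le_pow _ _ hLpos'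
  set E := EJ J0 with hEdef
  have hEeig : ∀ j, S.IsEig (E j).1 ∧ S.IsEig (E j).2 := fun j => EJ_eig hE hF hJ0F j
  set Ps : Finset (A × A) := ((Fintype.piFinset (TF J L)) ×ˢ (Fintype.piFinset (TF J L))).image
    (fun tt => PP E tt.1 tt.2) with hPs
  have hPsE : ∀ P ∈ Ps, S.IsEig P.1 ∧ S.IsEig P.2 := by
    intro P hP
    obtain ⟨tt, -, rfl⟩ := Finset.mem_image.1 hP
    exact PP_isEig hE E hEeig _ _
  have hPsmem : ∀ t ∈ Fintype.piFinset (TF J L), ∀ t' ∈ Fintype.piFinset (TF J L),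
      PP E t t' ∈ Ps := fun t ht t' ht' =>
    Finset.mem_image.2 ⟨(t, t'), Finset.mem_product.2 ⟨ht, ht'⟩, rfl⟩
  -- van der Corput accuracy
  set e1 : ℝ := κ / (32 * p * K ^ 2) with he1
  have he1pos : 0 < e1 := by positivity
  obtain ⟨J1', hJ1'F, hJ1'⟩ := hStr Λ A H S p ρ β k1 f F hβ hk1 hfb hfB hL1 hF (e1 ^ 2 / 2)
    (by positivity)
  set J1 := J0 ∪ J1' with hJ1
  have hJ1F : ↑J1 ⊆ F := by
    rw [hJ1, Finset.coe_union]; exact Set.union_subset hJ0F hJ1'F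
  obtain ⟨m1, hm1⟩ := hJ1' J1 Finset.subset_union_right hJ1F
  obtain ⟨C, hC1⟩ := hS.ex (star (S.Fpr f J1))
  obtain ⟨J2', hJ2'F, hJ2'⟩ := hStr Λ A H S p ρ β k2 f F hβ hk2 hfb hfB hL2 hF
    (e1 ^ 2 / (2 * (C ^ 2 + 1))) (by positivity)
  set J2 := J1 ∪ J2' with hJ2
  have hJ2F : ↑J2 ⊆ F := by
    rw [hJ2, Finset.coe_union]; exact Set.union_subset hJ1F hJ2'F
  obtain ⟨m2, hm2⟩ := hJ2' J2 Finset.subset_union_right hJ2F
  set m := max m1 m2 with hm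
  have hq1 : S.q p β k1 m (f - S.Fpr f J1) ≤ e1 ^ 2 / 2 := hm1 m (le_max_left _ _)
  have hq2 : S.q p β k2 m (f - S.Fpr f J2) ≤ e1 ^ 2 / (2 * (C ^ 2 + 1)) :=
    hm2 m (le_max_right _ _)
  have hJ01 : J0 ⊆ J1 := Finset.subset_union_left
  have hJ02 : J0 ⊆ J2 := hJ01.trans Finset.subset_union_left
  have hb0 := Fpr_base hF f hJ0F
  have hb1 := Fpr_base hF f hJ1F
  have hb2 := Fpr_base hF f hJ2F
  have hu1 : S.ι (f - S.Fpr f J1) ∈ S.HB ∅ := by rw [map_sub]; exact Submodule.sub_mem _ hfb hb1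
  have hu2 : S.ι (f - S.Fpr f J2) ∈ S.HB ∅ := by rw [map_sub]; exact Submodule.sub_mem _ hfb hb2
  obtain ⟨M1, hM1⟩ := vdc_slot1 hS hV hC hb hh' p ρ β k1 k2 hβ hk1 hk2 hk Ps hPsE f
    (star (f - S.Fpr f J1)) f hf1 hf2 hfb (hS.HBstar _ _ hu1) hfb 1 hfB m (e1 ^ 2 / 2)
    (by positivity)
  obtain ⟨M2, hM2⟩ := vdc_slot2 hS hV hC hb hh' p ρ β k1 k2 hβ hk1 hk2 hk' Ps hPsE f
    (star (S.Fpr f J1)) (f - S.Fpr f J2) hf1 hf2 hfb (hS.HBstar _ _ hb1) hu2 C hC1 m (e1 ^ 2 / 2)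
    (by positivity)
  set m' := max M1 M2 with hm'
  set ε : ℝ := 1 / (8 * p * (K ^ 2 * (1 + L))) with hε
  have hεpos : 0 < ε := by positivity
  obtain ⟨n, g, h, y, t, Tr, hn, hg, hh, hd1, hd2, hadm, hTrs, hTr1, hmean, hmeanR⟩ :=
    hAs Λ A H S p ρ β k1 k2 Ps m m' ε hp2 hβ hk1 hk2 hk hPsE hεpos
  have hn' : 0 < (n : ℝ) := by exact_mod_cast hn
  -- notation
  set G : Fin n → Y Λ := fun j => g + h + y j with hG
  set s : Fin n → A := fun j => sT S k1 k2 E (TF J L) (G j) with hs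
  set R : Finset (Fin n) := Finset.univ.filter (fun j => t j ≡ 1 [MOD p]) with hRdef
  have hunit : ∀ j, (E j).1 * star (E j).1 = 1 ∧ (E j).2 * star (E j).2 = 1 :=
    fun j => ⟨(hEeig j).1.2.1, (hEeig j).2.2.1⟩
  have h1Ps : (1 : A × A) ∈ Ps := by
    have h0 : (fun _ => 0 : J → ℕ) ∈ Fintype.piFinset (TF J L) := by
      rw [Fintype.mem_piFinset]; intro a; simp [TF, hLpos']
    have := hPsmem _ h0 _ h0
    rwa [PP_self E hunit] at this
  have hTr1' : (1 : A × A) ∈ Tr := hTr1 h1Ps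
  set c : ℝ := cnt E Tr (TF J L) with hc
  have hcK : K ≤ c := by
    rw [hK, card_TF]
    exact le_cnt E Tr L hunit hTr1'
  have hc1 : 1 ≤ c := hK1.trans hcK
  -- restricted mean of the squared norm
  have hm3 : c / p - K ^ 2 * ε ≤ (1 / (n : ℝ)) * ∑ j ∈ R, ‖S.ι (s j)‖ ^ 2 := by
    have := mean_sT hS k1 k2 E (TF J L) G R Tr (1 / p) ε (by
      intro a ha b hb
      have := hmeanR _ (hPsmem a ha b hb)
      convert this using 3
      split_ifs <;> simp)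
    have h2 := (abs_le.1 this).1
    have h3 : (1 / (p : ℝ)) * cnt E Tr (TF J L) = c / p := by rw [hc]; ring
    rw [h3] at h2
    linarith
  -- mean of the differences
  have hm4 : ∀ i : J, (1 / (n : ℝ)) * ∑ j, ‖S.ι (s j * (chr S k1 k2 (G j) (E i) - 1))‖ ^ 2 ≤
      4 / L * (c + L * (K ^ 2 * ε)) := by
    intro i
    have h1 : ∀ j, (L : ℝ) * ‖S.ι (s j * (chr S k1 k2 (G j) (E i) - 1))‖ ^ 2 ≤
        4 * ∑ v ∈ Finset.range L, ‖S.ι (sT S k1 k2 E (TV L i v) (G j))‖ ^ 2 := fun j =>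
      norm_sT_TF hS k1 k2 E L i (G j) ((hCh Λ A H S k1 k2 (E i) (hEeig i).1 (hEeig i).2).2.1 _)
    have h2 : ∀ v ∈ Finset.range L,
        (1 / (n : ℝ)) * ∑ j, ‖S.ι (sT S k1 k2 E (TV L i v) (G j))‖ ^ 2 ≤
          cnt E Tr (TV L i v) + K ^ 2 * ε := by
      intro v hv
      have hsub := piFinset_TV_subset L i v (Finset.mem_range.1 hv)
      have := mean_sT hS k1 k2 E (TV L i v) G Finset.univ Tr 1 ε (by
        intro a ha b hb
        have := hmean _ (hPsmem a (hsub ha) b (hsub hb))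
        convert this using 3
        split_ifs <;> simp)
      have h2 := (abs_le.1 this).2
      have hcard : ((Fintype.piFinset (TV L i v)).card : ℝ) ^ 2 * ε ≤ K ^ 2 * ε := by
        have : ((Fintype.piFinset (TV L i v)).card : ℝ) ≤ K := by
          rw [hK]; exact Nat.cast_le.2 (Finset.card_le_card hsub)
        gcongr
      rw [one_mul] at h2
      linarith
    have h3 : (1 / (n : ℝ)) * ∑ j, (L : ℝ) * ‖S.ι (s j * (chr S k1 k2 (G j) (E i) - 1))‖ ^ 2 ≤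
        4 * (c + L * (K ^ 2 * ε)) := by
      calc (1 / (n : ℝ)) * ∑ j, (L : ℝ) * ‖S.ι (s j * (chr S k1 k2 (G j) (E i) - 1))‖ ^ 2
          ≤ (1 / (n : ℝ)) * ∑ j, 4 * ∑ v ∈ Finset.range L,
              ‖S.ι (sT S k1 k2 E (TV L i v) (G j))‖ ^ 2 :=
            mul_le_mul_of_nonneg_left (Finset.sum_le_sum fun j _ => h1 j) (by positivity)
        _ = 4 * ∑ v ∈ Finset.range L, (1 / (n : ℝ)) * ∑ j,
              ‖S.ι (sT S k1 k2 E (TV L i v) (G j))‖ ^ 2 := by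
            rw [← Finset.mul_sum, ← Finset.mul_sum, Finset.sum_comm]; ring
        _ ≤ 4 * ∑ v ∈ Finset.range L, (cnt E Tr (TV L i v) + K ^ 2 * ε) :=
            mul_le_mul_of_nonneg_left (Finset.sum_le_sum h2) (by norm_num)
        _ ≤ 4 * (c + L * (K ^ 2 * ε)) := by
            rw [Finset.sum_add_distrib]
            have := sum_cnt_le E Tr L i
            simp only [Finset.sum_const, Finset.card_range, nsmul_eq_mul]
            linarith
    rw [← Finset.mul_sum] at h3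
    have h4 : (L : ℝ) * ((1 / (n : ℝ)) * ∑ j, ‖S.ι (s j * (chr S k1 k2 (G j) (E i) - 1))‖ ^ 2) ≤
        4 * (c + L * (K ^ 2 * ε)) := by
      calc _ = (1 / (n : ℝ)) * ((L : ℝ) *
            ∑ j, ‖S.ι (s j * (chr S k1 k2 (G j) (E i) - 1))‖ ^ 2) := by ring
        _ ≤ _ := h3
    rw [← le_div_iff₀' hLpos] at h4
    calc _ ≤ _ := h4
      _ = _ := by ring
  -- the pointwise inequality for j ∈ R
  obtain ⟨x, hx, hκx⟩ := main_term hS f hf1 hf2 h1J0 (J := J0)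
  have hpt : ∀ j ∈ R, 3 * κ / 4 * ‖S.ι (s j)‖ ^ 2 ≤ K ^ 2 * e1 + K ^ 2 * e1 +
      2 * D / κ * ∑ i : J, ‖S.ι (s j * (chr S k1 k2 (G j) (E i) - 1))‖ ^ 2 := by
    intro j hj
    have htj : t j ≡ 1 [MOD p] := (Finset.mem_filter.1 hj).2
    have hz := hzero (G j) (t j) (hadm j).1 (hadm j).2 htj
    have hsR : S.ι (s j) ∈ S.RB (G j).1.support := sT_mem hE hCh k1 k2 E hEeig _ _
    have hp := pointwise hS hR k1 k2 (G j) (s j) f (S.Fpr f J0) (S.Fpr f J1) (S.Fpr f J2) hf1 hf2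
      hfb hsR hb0 hb1 hb2 ((norm_Fpr_le hS hF f hJ0F).trans hfn)
      ((norm_Fpr_le hS hF f hJ2F).trans hfn) hz x hx η (hJ0 J1 hJ01 hJ1F) (hJ0 J2 hJ02 hJ2F)
    -- the two vdC terms
    have hv1 : ‖S.tr (star (s j) * s j * f * S.UA (k1 • G j) (star (f - S.Fpr f J1)) *
        S.UA (k2 • G j) f)‖ ≤ K ^ 2 * e1 := by
      have : star (s j) * s j * f * S.UA (k1 • G j) (star (f - S.Fpr f J1)) *
          S.UA (k2 • G j) f = star (s j) * s j * (f * S.UA (k1 • G j) (star (f - S.Fpr f J1)) *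
          S.UA (k2 • G j) f) := by ring
      rw [this]
      refine weight_expand k1 k2 E (TF J L) (G j) _ e1 fun a ha b hb => ?_
      have h1 := hM1 m' (le_max_left _ _) g h (y j) hg hh hd1 (hd2 j).1 (hd2 j).2 _
        (hPsmem a ha b hb)
      rw [q_star hS hC] at h1
      have h2 : chr S k1 k2 (G j) (PP E a b) * (f * S.UA (k1 • G j) (star (f - S.Fpr f J1)) *
          S.UA (k2 • G j) f) = chr S k1 k2 (G j) (PP E a b) * f *
          S.UA (k1 • G j) (star (f - S.Fpr f J1)) * S.UA (k2 • G j) f := by ring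
      rw [h2]
      have h3 : ‖S.tr (chr S k1 k2 (G j) (PP E a b) * f * S.UA (k1 • G j)
          (star (f - S.Fpr f J1)) * S.UA (k2 • G j) f)‖ ^ 2 ≤ e1 ^ 2 := by
        refine h1.trans ?_
        rw [one_pow, one_mul]; linarith
      exact (pow_le_pow_iff_left₀ (norm_nonneg _) he1pos.le two_ne_zero).1 h3
    have hv2 : ‖S.tr (star (s j) * s j * f * S.UA (k1 • G j) (star (S.Fpr f J1)) *
        S.UA (k2 • G j) (f - S.Fpr f J2))‖ ≤ K ^ 2 * e1 := by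
      have : star (s j) * s j * f * S.UA (k1 • G j) (star (S.Fpr f J1)) *
          S.UA (k2 • G j) (f - S.Fpr f J2) = star (s j) * s j * (f * S.UA (k1 • G j)
          (star (S.Fpr f J1)) * S.UA (k2 • G j) (f - S.Fpr f J2)) := by ring
      rw [this]
      refine weight_expand k1 k2 E (TF J L) (G j) _ e1 fun a ha b hb => ?_
      have h1 := hM2 m' (le_max_right _ _) g h (y j) hg hh hd1 (hd2 j).1 (hd2 j).2 _
        (hPsmem a ha b hb)
      have h2 : chr S k1 k2 (G j) (PP E a b) * (f * S.UA (k1 • G j) (star (S.Fpr f J1)) *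
          S.UA (k2 • G j) (f - S.Fpr f J2)) = chr S k1 k2 (G j) (PP E a b) * f *
          S.UA (k1 • G j) (star (S.Fpr f J1)) * S.UA (k2 • G j) (f - S.Fpr f J2) := by ring
      rw [h2]
      have h3 : ‖S.tr (chr S k1 k2 (G j) (PP E a b) * f * S.UA (k1 • G j)
          (star (S.Fpr f J1)) * S.UA (k2 • G j) (f - S.Fpr f J2))‖ ^ 2 ≤ e1 ^ 2 := by
        refine h1.trans ?_
        have h4 : C ^ 2 * S.q p β k2 m (f - S.Fpr f J2) ≤ e1 ^ 2 / 2 := by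
          calc C ^ 2 * S.q p β k2 m (f - S.Fpr f J2)
              ≤ (C ^ 2 + 1) * (e1 ^ 2 / (2 * (C ^ 2 + 1))) := by
                have := q_nonneg (S := S) p β k2 m (f - S.Fpr f J2)
                gcongr
                linarith
            _ = e1 ^ 2 / 2 := by field_simp
        linarith
      exact (pow_le_pow_iff_left₀ (norm_nonneg _) he1pos.le two_ne_zero).1 h3
    have hdb1 := diff_bound hS hF f hfn hJ0F (k1 • G j) (s j)
    have hdb2 := diff_bound hS hF f hfn hJ0F (k2 • G j) (s j)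
    have hsum := sum_EJ (S := S) k1 k2 (G j) J0 (s j)
    set b : J → ℝ := fun i => ‖S.ι (s j * (chr S k1 k2 (G j) (E i) - 1))‖ with hb'
    have hbs : ‖S.ι (s j * (S.UA (k1 • G j) (S.Fpr f J0) - S.Fpr f J0))‖ +
        ‖S.ι (s j * (S.UA (k2 • G j) (S.Fpr f J0) - S.Fpr f J0))‖ ≤ ∑ i, b i := by
      rw [← hsum]; linarith
    have hcs : (∑ i, b i) ^ 2 ≤ D * ∑ i, b i ^ 2 := by
      have := sq_sum_le_card_mul_sum_sq (s := (Finset.univ : Finset J)) (f := b)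
      simpa [hD] using this
    set a : ℝ := ‖S.ι (s j)‖ with ha
    have ha0 : 0 ≤ a := norm_nonneg _
    have h1 : a ^ 2 * κ ≤ a ^ 2 * x := by gcongr
    have h2 : a * (‖S.ι (s j * (S.UA (k1 • G j) (S.Fpr f J0) - S.Fpr f J0))‖ +
        ‖S.ι (s j * (S.UA (k2 • G j) (S.Fpr f J0) - S.Fpr f J0))‖) ≤ a * ∑ i, b i := by gcongr
    have h3 : a * ∑ i, b i ≤ κ / 8 * a ^ 2 + 2 / κ * (∑ i, b i) ^ 2 := by
      have h4 : 0 ≤ (κ / 8) * (a - 4 / κ * ∑ i, b i) ^ 2 := by positivity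
      have h5 : (κ / 8) * (a - 4 / κ * ∑ i, b i) ^ 2 =
          κ / 8 * a ^ 2 + 2 / κ * (∑ i, b i) ^ 2 - a * ∑ i, b i := by
        field_simp; ring
      linarith
    have h6 : 2 / κ * (∑ i, b i) ^ 2 ≤ 2 / κ * (D * ∑ i, b i ^ 2) := by gcongr
    have h7 : 2 / κ * (D * ∑ i, b i ^ 2) = 2 * D / κ * ∑ i, b i ^ 2 := by ring
    have h8 : 2 * η * a ^ 2 = κ / 8 * a ^ 2 := by rw [hη]; ring
    nlinarith
  -- sum over R
  have hsumR : 3 * κ / 4 * ((1 / (n : ℝ)) * ∑ j ∈ R, ‖S.ι (s j)‖ ^ 2) ≤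
      (K ^ 2 * e1 + K ^ 2 * e1) + 2 * D / κ * (D * (4 / L * (c + L * (K ^ 2 * ε)))) := by
    have h1 : 3 * κ / 4 * ((1 / (n : ℝ)) * ∑ j ∈ R, ‖S.ι (s j)‖ ^ 2) =
        (1 / (n : ℝ)) * ∑ j ∈ R, 3 * κ / 4 * ‖S.ι (s j)‖ ^ 2 := by
      rw [← Finset.mul_sum]; ring
    rw [h1]
    have h2 : (1 / (n : ℝ)) * ∑ j ∈ R, 3 * κ / 4 * ‖S.ι (s j)‖ ^ 2 ≤
        (1 / (n : ℝ)) * ∑ j ∈ R, (K ^ 2 * e1 + K ^ 2 * e1 +
          2 * D / κ * ∑ i : J, ‖S.ι (s j * (chr S k1 k2 (G j) (E i) - 1))‖ ^ 2) := by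
      gcongr with j hj; exact hpt j hj
    refine h2.trans ?_
    have h3 : ∑ j ∈ R, (K ^ 2 * e1 + K ^ 2 * e1 +
          2 * D / κ * ∑ i : J, ‖S.ι (s j * (chr S k1 k2 (G j) (E i) - 1))‖ ^ 2) ≤
        ∑ j, (K ^ 2 * e1 + K ^ 2 * e1 +
          2 * D / κ * ∑ i : J, ‖S.ι (s j * (chr S k1 k2 (G j) (E i) - 1))‖ ^ 2) :=
      Finset.sum_le_sum_of_subset_of_nonneg (Finset.subset_univ _)
        (fun _ _ _ => by positivity)
    have h4 : (1 / (n : ℝ)) * ∑ j, (K ^ 2 * e1 + K ^ 2 * e1 +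
          2 * D / κ * ∑ i : J, ‖S.ι (s j * (chr S k1 k2 (G j) (E i) - 1))‖ ^ 2) =
        (K ^ 2 * e1 + K ^ 2 * e1) + 2 * D / κ * ∑ i : J, ((1 / (n : ℝ)) *
          ∑ j, ‖S.ι (s j * (chr S k1 k2 (G j) (E i) - 1))‖ ^ 2) := by
      rw [Finset.sum_add_distrib, ← Finset.mul_sum, Finset.sum_comm, ← Finset.mul_sum]
      simp only [Finset.sum_const, Finset.card_univ, Fintype.card_fin, nsmul_eq_mul]
      field_simp
    calc _ ≤ _ := mul_le_mul_of_nonneg_left h3 (by positivity)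
      _ = _ := h4
      _ ≤ (K ^ 2 * e1 + K ^ 2 * e1) + 2 * D / κ *
          ∑ i : J, (4 / L * (c + L * (K ^ 2 * ε))) := by
        have h5 := Finset.sum_le_sum fun (i : J) (_ : i ∈ Finset.univ) => hm4 i
        have h6 := mul_le_mul_of_nonneg_left h5 (show 0 ≤ 2 * D / κ by positivity)
        linarith
      _ = _ := by
        rw [Finset.sum_const, Finset.card_univ, nsmul_eq_mul]
  refine numeric κ p c K L ε (K ^ 2 * e1 + K ^ 2 * e1) D _ hκ hp0 hc1 hLpos hsumR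
    hm3 hL3 ?_ ?_ (by positivity) hp1
  · rw [he1]
    have hKne : K ≠ 0 := by positivity
    have : 8 * (p : ℝ) * (K ^ 2 * (κ / (32 * p * K ^ 2)) + K ^ 2 * (κ / (32 * p * K ^ 2))) =
        κ / 2 := by field_simp; ring
    rw [this]; linarith
  · rw [hε]
    apply le_of_eq
    have hKne : K ≠ 0 := by positivity
    have hL1 : (1 + (L : ℝ)) ≠ 0 := by positivity
    field_simp

end Pool.Agent.H84.B
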