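import Pool.Agent.H84.B.Targets

/-!
# Module K2 of MP_02e9fb_an: the target `T_K2`

By helper17.  Everything is stated with the targets of PERM, HIL1, HIL2, PB1 as hypotheses.
-/

open scoped ComplexConjugate InnerProductSpace
open Filter Topology

namespace Pool.Agent.H84.B

namespace K2

set_option linter.unusedSectionVars false

variable {Λ : Type} [CommRing Λ] {A : Type} [CommRing A] [StarRing A] [Algebra ℂ A]
  [StarModule ℂ A] {H : Type} [NormedAddCommGroup H] [InnerProductSpace ℂ H] [CompleteSpace H]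
  (S : Sys Λ A H)

/-- the hypotheses from other modules -/
structure Hyp : Prop where
  ext : T_perm_extend
  hh : T_hh
  bas : T_basic
  ind : T_indep
  bbl : T_bblim
  bd : T_Bd
  con : T_cond

/-! ## projections -/

lemma PH_mem (B : Finset ℕ) (z : H) : S.PH B z ∈ S.HB B :=
  Submodule.starProjection_apply_mem _ _

lemma PR_mem (B : Finset ℕ) (z : H) : S.PR B z ∈ S.RB B :=
  Submodule.starProjection_apply_mem _ _

lemma PH_of_mem {B : Finset ℕ} {z : H} (hz : z ∈ S.HB B) : S.PH B z = z :=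
  Submodule.starProjection_eq_self_iff.2 hz

lemma PH_inner (B : Finset ℕ) (x y : H) : ⟪S.PH B x, y⟫_ℂ = ⟪x, S.PH B y⟫_ℂ :=
  Submodule.inner_starProjection_left_eq_right _ _ _

lemma PR_inner (B : Finset ℕ) (x y : H) : ⟪S.PR B x, y⟫_ℂ = ⟪x, S.PR B y⟫_ℂ :=
  Submodule.inner_starProjection_left_eq_right _ _ _

lemma PR_of_mem {B : Finset ℕ} {z : H} (hz : z ∈ S.RB B) : S.PR B z = z :=
  Submodule.starProjection_eq_self_iff.2 hz

lemma PH_inner_mem {B : Finset ℕ} {x : H} (hx : x ∈ S.HB B) (y : H) :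
    ⟪x, S.PH B y⟫_ℂ = ⟪x, y⟫_ℂ := by
  rw [← PH_inner, PH_of_mem S hx]

lemma PH_inner_mem' {B : Finset ℕ} {x : H} (hx : x ∈ S.HB B) (y : H) :
    ⟪S.PH B y, x⟫_ℂ = ⟪y, x⟫_ℂ := by
  rw [PH_inner, PH_of_mem S hx]

lemma U_adj (y : Y Λ) (x z : H) : ⟪x, S.U y z⟫_ℂ = ⟪S.U (-y) x, z⟫_ℂ := by
  have h : y + -y = 0 := add_neg_cancel y
  rw [← LinearIsometryEquiv.inner_map_map (S.U y) (S.U (-y) x) z, ← S.U_add, h, S.U_zero]

/-- `H_B` and `H_{B'}` are independent over `H_∅` when `B ∩ B' = ∅` -/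
lemma inner_off (hy : Hyp) {B B' : Finset ℕ} (hd : Disjoint B B') {x y : H} (hx : x ∈ S.HB B)
    (hyy : y ∈ S.HB B') : ⟪x, y⟫_ℂ = ⟪x, S.PH ∅ y⟫_ℂ := by
  have h := hy.ind Λ H S.toRep B B' y hyy
  rw [Finset.disjoint_iff_inter_eq_empty.1 hd] at h
  rw [← h, PH_inner_mem S hx]

/-! ## elements of `A` -/

lemma star_norm (hy : Hyp) (a : A) : ‖S.ι (star a)‖ = ‖S.ι a‖ := by
  have h1 := (hy.bd Λ A H S).1
  have e1 : ⟪S.ι (star a), S.ι (star a)⟫_ℂ = ⟪S.ι a, S.ι a⟫_ℂ := by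
    rw [← h1, ← h1, star_star, mul_comm]
  rw [inner_self_eq_norm_sq_to_K, inner_self_eq_norm_sq_to_K] at e1
  have e2 : ‖S.ι (star a)‖ ^ 2 = ‖S.ι a‖ ^ 2 := by exact_mod_cast e1
  exact (sq_eq_sq₀ (norm_nonneg _) (norm_nonneg _)).1 e2

lemma HB_mul (hy : Hyp) {B : Finset ℕ} {a b : A} (ha : S.ι a ∈ S.HB B) (hb : S.ι b ∈ S.HB B) :
    S.ι (a * b) ∈ S.HB B :=
  (hy.bd Λ A H S).2.2.2.2.2.2.2.2.2.2.2.2.2.1 B a b ha hb

lemma HB_star (hy : Hyp) {B : Finset ℕ} {a : A} (ha : S.ι a ∈ S.HB B) :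
    S.ι (star a) ∈ S.HB B :=
  (hy.bd Λ A H S).2.2.2.2.2.2.2.2.2.2.2.2.2.2.1 B a ha

lemma RB_star (hy : Hyp) {B : Finset ℕ} {a : A} (ha : S.ι a ∈ S.RB B) :
    S.ι (star a) ∈ S.RB B :=
  (hy.bd Λ A H S).2.2.2.2.2.2.2.2.2.2.2.2.2.2.2.2.1 B a ha

lemma Bd_exists (hy : Hyp) (a : A) : ∃ C, S.Bd C a :=
  (hy.bd Λ A H S).2.2.1 a

lemma UA_add (hy : Hyp) (y y' : Y Λ) (a : A) : S.UA (y + y') a = S.UA y (S.UA y' a) :=
  (hy.bd Λ A H S).2.2.2.2.2.2.2.2.2.2.2.2.2.2.2.2.2.2.2.1 y y' a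

lemma VA_UA (hy : Hyp) (σ : FP) (y : Y Λ) (a : A) :
    S.VA σ (S.UA y a) = S.UA (pY σ y) (S.VA σ a) :=
  (hy.bd Λ A H S).2.2.2.2.2.2.2.2.2.2.2.2.2.2.2.2.2.2.2.2.1 σ y a

lemma UA_of_RB {B : Finset ℕ} {r : A} (hr : S.ι r ∈ S.RB B) {y : Y Λ} (hoff : Off y B) :
    S.UA y r = r := by
  apply S.ι_inj
  rw [S.ι_U]
  exact hr.2 y hoff

lemma VA_of_base {z : A} (hz : S.ι z ∈ S.HB ∅) (σ : FP) : S.VA σ z = z := by
  apply S.ι_inj
  rw [S.ι_V]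
  exact hz σ (by simp)

lemma HB_mono (hy : Hyp) {B B' : Finset ℕ} (h : B ⊆ B') {z : H} (hz : z ∈ S.HB B) :
    z ∈ S.HB B' := (hy.bas Λ H S.toRep).1 B B' h hz

lemma HB_of_base (hy : Hyp) (B : Finset ℕ) {z : H} (hz : z ∈ S.HB ∅) : z ∈ S.HB B :=
  HB_mono S hy (Finset.empty_subset B) hz

lemma U_mem (hy : Hyp) {B : Finset ℕ} {c : Y Λ} {z : H} (hc : c.1.support ⊆ B)
    (hz : z ∈ S.HB B) : S.U c z ∈ S.HB B := (hy.bas Λ H S.toRep).2.2.1 B c z hc hz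

/-- density of the elements of `A` in `HB B` -/
lemma dense (hy : Hyp) (B : Finset ℕ) {z : H} (hz : z ∈ S.HB B) {ε : ℝ} (hε : 0 < ε) :
    ∃ a : A, S.ι a ∈ S.HB B ∧ ‖z - S.ι a‖ ≤ ε :=
  (hy.con Λ A H S B).2.2.2.2.2.2 z ε hz hε

/-- a bound tested on elements of `A` bounds the norm -/
lemma norm_le_of_test (hy : Hyp) (B : Finset ℕ) {u : H} (hu : u ∈ S.HB B) {C : ℝ}
    (h : ∀ w : A, S.ι w ∈ S.HB B → ‖⟪S.ι w, u⟫_ℂ‖ ≤ C * ‖S.ι w‖) : ‖u‖ ≤ C := by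
  have h1 : ∀ ε : ℝ, 0 < ε → ‖u‖ ^ 2 ≤ C * ‖u‖ + (|C| + ‖u‖) * ε := by
    intro ε hε
    obtain ⟨a, ha, hd⟩ := dense S hy B hu hε
    have e1 : ‖⟪S.ι a, u⟫_ℂ‖ ≤ C * ‖S.ι a‖ := h a ha
    have e2 : ⟪u, u⟫_ℂ = ⟪u - S.ι a, u⟫_ℂ + ⟪S.ι a, u⟫_ℂ := by
      rw [← inner_add_left, sub_add_cancel]
    have e3 : ‖⟪u, u⟫_ℂ‖ = ‖u‖ ^ 2 := by
      rw [inner_self_eq_norm_sq_to_K, norm_pow]
      simp
    have e4 : ‖⟪u - S.ι a, u⟫_ℂ‖ ≤ ε * ‖u‖ :=
      (norm_inner_le_norm _ _).trans (by gcongr)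
    have e5 : ‖u‖ ^ 2 ≤ ε * ‖u‖ + C * ‖S.ι a‖ := by
      rw [← e3, e2]
      exact (norm_add_le _ _).trans (add_le_add e4 e1)
    have e6 : |‖S.ι a‖ - ‖u‖| ≤ ε := by
      rw [abs_sub_comm]
      exact (abs_norm_sub_norm_le _ _).trans hd
    have e7 : C * ‖S.ι a‖ ≤ C * ‖u‖ + |C| * ε := by
      have : C * (‖S.ι a‖ - ‖u‖) ≤ |C| * ε := by
        refine (le_abs_self _).trans ?_
        rw [abs_mul]
        gcongr
      linarith
    linarith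
  have h2 : ‖u‖ ^ 2 ≤ C * ‖u‖ := by
    refine le_of_forall_pos_le_add fun δ hδ => ?_
    have h3 := h1 (δ / (|C| + ‖u‖ + 1)) (by positivity)
    have h4 : (|C| + ‖u‖) * (δ / (|C| + ‖u‖ + 1)) ≤ δ := by
      rw [mul_div_assoc', div_le_iff₀ (by positivity)]
      nlinarith [abs_nonneg C, norm_nonneg u]
    linarith
  have h0 : 0 ≤ C := by
    by_contra hcon
    push Not at hcon
    have h5 := h 1 ?_
    · rw [S.norm_one] at h5
      have := norm_nonneg ⟪S.ι 1, u⟫_ℂ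
      linarith
    · exact ((hy.bd Λ A H S).2.2.2.2.2.2.2.2.2.2.2.2.2.2.2.2.2.1 B).1
  rcases eq_or_lt_of_le (norm_nonneg u) with h6 | h6
  · rw [← h6]; exact h0
  · have : ‖u‖ * ‖u‖ ≤ C * ‖u‖ := by rw [← sq]; exact h2
    exact le_of_mul_le_mul_right this h6

/-- equality tested on elements of `A` -/
lemma eq_of_test (hy : Hyp) (B : Finset ℕ) {u v : H} (hu : u ∈ S.HB B) (hv : v ∈ S.HB B)
    (h : ∀ w : A, S.ι w ∈ S.HB B → ⟪S.ι w, u⟫_ℂ = ⟪S.ι w, v⟫_ℂ) : u = v := by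
  have h1 : ‖u - v‖ ≤ 0 := by
    refine norm_le_of_test S hy B (Submodule.sub_mem _ hu hv) (C := 0) fun w hw => ?_
    rw [inner_sub_right, h w hw, sub_self, norm_zero, zero_mul]
  exact sub_eq_zero.1 (norm_le_zero_iff.1 h1)

/-! ## moving the window -/

lemma exists_move (hy : Hyp) (X B : Finset ℕ) : ∃ σ : FP, ∀ i ∈ X, σ.1 i ∉ B := by
  obtain ⟨σ, h1, -⟩ := hy.ext X (fun i => i + (B.sup id + 1)) (by
    intro x _ y _ h
    simpa using h)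
  refine ⟨σ, fun i hi hB => ?_⟩
  rw [h1 i hi] at hB
  have := Finset.le_sup (f := id) hB
  simp only [id_eq] at this
  omega

lemma off_iff {y : Y Λ} {B : Finset ℕ} : Off y B ↔ ∀ x, y.1 x ≠ 0 → x ∉ B := by
  unfold Off
  rw [Finset.disjoint_left]
  simp only [Finsupp.mem_support_iff]

lemma dsj_iff {y y' : Y Λ} : Dsj y y' ↔ ∀ x, y.1 x ≠ 0 → y'.1 x = 0 := by
  unfold Dsj
  rw [Finset.disjoint_left]
  simp only [Finsupp.mem_support_iff, not_not]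

lemma smul_support (k : Λ) (y : Y Λ) : (k • y).1.support ⊆ y.1.support := by
  intro i hi
  rw [Finsupp.mem_support_iff] at hi ⊢
  intro h
  apply hi
  change (k • y.1) i = 0
  simp [h]

lemma neg_support (y : Y Λ) : (-y).1.support = y.1.support := by
  ext i
  rw [Finsupp.mem_support_iff, Finsupp.mem_support_iff]
  change (-y.1) i ≠ 0 ↔ _
  simp

lemma hh_supp (hy : Hyp) (p : ℕ) (β : ℕ → Λ) (o m i : ℕ) (h : (hh p β o m).1 i ≠ 0) :
    o ≤ i ∧ i < o + (p + 1) * m := (hy.hh Λ).2.2.2.2.2.2.2.2.2.2.2.2.1 p β o m i h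

lemma hh_copy (hy : Hyp) (p : ℕ) (β : ℕ → Λ) (o m : ℕ) : IsCopy (hh p β 0 m) (hh p β o m) :=
  (hy.hh Λ).2.2.2.2.2.2.2.2.2.2.1 p β o m

/-- data: moved windows and elements of `A` for `PR_W (T^{kb} f · f*)` -/
structure Data (p : ℕ) (β : ℕ → Λ) (k : Λ) (f : A) (φ : ℕ → ℕ) (B : Finset ℕ) where
  σ : ℕ → FP
  hσ : ∀ l, ∀ i ∈ W p (φ l), (σ l).1 i ∉ B
  F : ℕ → A
  hF : ∀ l, S.ι (F l) = S.PR (W p (φ l)) (S.ι (S.UA (k • bb p β (φ l)) f * star f))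

lemma exists_data (hy : Hyp) (p : ℕ) (β : ℕ → Λ) (k : Λ) (f : A) (φ : ℕ → ℕ) (B : Finset ℕ) :
    Nonempty (Data S p β k f φ B) := by
  have h1 : ∀ l, ∃ σ : FP, ∀ i ∈ W p (φ l), σ.1 i ∉ B := fun l => exists_move hy _ _
  choose σ hσ using h1
  have h2 : ∀ l, ∃ a : A, S.ι a = S.PR (W p (φ l)) (S.ι (S.UA (k • bb p β (φ l)) f * star f)) := by
    intro l
    obtain ⟨C, hC⟩ := Bd_exists S hy (S.UA (k • bb p β (φ l)) f * star f)
    obtain ⟨a, ha, -⟩ := (hy.con Λ A H S (W p (φ l))).2.1 C _ hC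
    exact ⟨a, ha⟩
  choose F hF using h2
  exact ⟨⟨σ, hσ, F, hF⟩⟩

namespace Data

variable {S} {p : ℕ} {β : ℕ → Λ} {k : Λ} {f : A} {φ : ℕ → ℕ} {B : Finset ℕ}
  (D : Data S p β k f φ B)

/-- the moved window -/
def Ws (l : ℕ) : Finset ℕ := (W p (φ l)).map (D.σ l).1.toEmbedding

/-- the moved difference of copies -/
noncomputable def bs (l : ℕ) : Y Λ := pY (D.σ l) (bb p β (φ l))

/-- the moved `F` -/
noncomputable def Fs (l : ℕ) : A := S.VA (D.σ l) (D.F l)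

lemma Ws_disj (l : ℕ) : Disjoint (D.Ws l) B := by
  rw [Finset.disjoint_left]
  intro x hx
  rw [Ws, Finset.mem_map] at hx
  obtain ⟨i, hi, rfl⟩ := hx
  exact D.hσ l i hi

lemma Fs_mem (hy : Hyp) (l : ℕ) : S.ι (D.Fs l) ∈ S.RB (D.Ws l) := by
  unfold Fs Ws
  rw [S.ι_V, D.hF]
  exact (hy.bas Λ H S.toRep).2.2.2.2.2.1 _ _ _ (PR_mem S _ _)

/-- the two halves of `bs` -/
noncomputable def g0 (l : ℕ) : Y Λ := pY (D.σ l) (hh p β 0 (φ l))
/-- the two halves of `bs` -/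
noncomputable def g1 (l : ℕ) : Y Λ := pY (D.σ l) (hh p β ((p + 1) * φ l) (φ l))

lemma bs_eq (l : ℕ) : D.bs l = D.g1 l - D.g0 l := by
  apply Subtype.ext
  ext x
  rfl

lemma g0_supp (hy : Hyp) (l : ℕ) (x : ℕ) (hx : (D.g0 l).1 x ≠ 0) :
    (D.σ l).1.symm x < (p + 1) * φ l := by
  unfold g0 at hx
  rw [pY_apply] at hx
  have := (hh_supp hy p β _ _ _ hx).2
  omega

lemma g1_supp (hy : Hyp) (l : ℕ) (x : ℕ) (hx : (D.g1 l).1 x ≠ 0) :
    (p + 1) * φ l ≤ (D.σ l).1.symm x ∧ (D.σ l).1.symm x < 2 * ((p + 1) * φ l) := by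
  unfold g1 at hx
  rw [pY_apply] at hx
  have := (hh_supp hy p β _ _ _ hx)
  omega

lemma mem_Ws (l : ℕ) (x : ℕ) (hx : (D.σ l).1.symm x < 2 * ((p + 1) * φ l)) : x ∈ D.Ws l := by
  rw [Ws, Finset.mem_map]
  refine ⟨(D.σ l).1.symm x, ?_, ?_⟩
  · rw [W, Finset.mem_range]; exact hx
  · simp

lemma bs_supp (hy : Hyp) (l : ℕ) : (D.bs l).1.support ⊆ D.Ws l := by
  intro x hx
  rw [Finsupp.mem_support_iff, bs_eq] at hx
  by_cases h : (D.g0 l).1 x = 0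
  · have h1 : (D.g1 l).1 x ≠ 0 := by
      intro h2
      apply hx
      change (D.g1 l).1 x - (D.g0 l).1 x = 0
      rw [h, h2, sub_zero]
    exact D.mem_Ws l x (D.g1_supp hy l x h1).2
  · have := D.g0_supp hy l x h
    exact D.mem_Ws l x (by omega)

lemma g0_off (hy : Hyp) (l : ℕ) : Off (D.g0 l) B := by
  rw [off_iff]
  intro x hx hB
  have h1 := D.g0_supp hy l x hx
  exact Finset.disjoint_left.1 (D.Ws_disj l) (D.mem_Ws l x (by omega)) hB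

lemma g1_off (hy : Hyp) (l : ℕ) : Off (D.g1 l) B := by
  rw [off_iff]
  intro x hx hB
  have h1 := D.g1_supp hy l x hx
  exact Finset.disjoint_left.1 (D.Ws_disj l) (D.mem_Ws l x h1.2) hB

lemma g_dsj (hy : Hyp) (l : ℕ) : Dsj (D.g0 l) (D.g1 l) := by
  rw [dsj_iff]
  intro x hx
  have h1 := D.g0_supp hy l x hx
  by_contra h2
  have := D.g1_supp hy l x h2
  omega

lemma g0_copy (l : ℕ) : IsCopy (hh p β 0 (φ l)) (D.g0 l) := ⟨D.σ l, rfl⟩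

lemma g1_copy (hy : Hyp) (l : ℕ) : IsCopy (hh p β 0 (φ l)) (D.g1 l) :=
  (hy.hh Λ).2.2.2.2.2.2.2.1 _ _ _ (hh_copy hy p β _ _) ⟨D.σ l, rfl⟩

lemma kbs_supp (hy : Hyp) (l : ℕ) : (k • D.bs l).1.support ⊆ D.Ws l :=
  (smul_support k _).trans (D.bs_supp hy l)

lemma kbs_off (hy : Hyp) (l : ℕ) : Off (k • D.bs l) B :=
  Disjoint.mono_left (D.kbs_supp hy l) (D.Ws_disj l)

/-- `Fs` is fixed by `U_c`, `c` supported in `B` -/
lemma UA_Fs (hy : Hyp) (l : ℕ) {c : Y Λ} (hc : c.1.support ⊆ B) : S.UA c (D.Fs l) = D.Fs l :=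
  UA_of_RB S (D.Fs_mem hy l) (Disjoint.mono_left hc (D.Ws_disj l).symm)

lemma U_kbs (hy : Hyp) (l : ℕ) (z : H) (hz : z ∈ S.HB ∅) :
    S.U (k • D.bs l) z = S.V (D.σ l) (S.U (k • bb p β (φ l)) z) := by
  rw [S.VU, (hy.hh Λ).2.1, hz (D.σ l) (by simp)]
  rfl

lemma inv (hy : Hyp) (l : ℕ) {z w : A} (hz : S.ι z ∈ S.HB ∅) (hw : S.ι w ∈ S.HB ∅) :
    ⟪S.ι (D.Fs l * w), S.U (k • D.bs l) (S.ι z)⟫_ℂ
      = ⟪S.ι (D.F l * w), S.ι (S.UA (k • bb p β (φ l)) z)⟫_ℂ := by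
  have h1 : S.ι (D.Fs l * w) = S.V (D.σ l) (S.ι (D.F l * w)) := by
    rw [← S.ι_V, map_mul (S.VA (D.σ l)), VA_of_base S hw]
    rfl
  rw [h1, D.U_kbs hy l _ hz, LinearIsometryEquiv.inner_map_map, S.ι_U]

variable {K : H →L[ℂ] H}

/-- limit (i) -/
lemma lim1 (hy : Hyp) (hK : KProp0 S p β k f φ K) {w x : A} (hw : S.ι w ∈ S.HB ∅)
    (hx : S.ι x ∈ S.HB B) :
    Tendsto (fun l => ⟪S.ι (D.Fs l * w), S.U (k • D.bs l) (S.ι x)⟫_ℂ) atTop
      (𝓝 ⟪S.ι w, K (S.ι x)⟫_ℂ) := by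
  obtain ⟨C, hC⟩ := Bd_exists S hy x
  obtain ⟨x0, hx0, -⟩ := (hy.con Λ A H S ∅).1 C x hC
  have hx0b : S.ι x0 ∈ S.HB ∅ := by rw [hx0]; exact PH_mem S _ _
  have h1 : K (S.ι x) = K (S.ι x0) := by rw [hx0, hK.PH]
  rw [h1]
  refine (hK.lim x0 w hx0b hw D.F D.hF).congr fun l => ?_
  rw [← D.inv hy l hx0b hw, U_adj, U_adj]
  have h2 : S.U (-(k • D.bs l)) (S.ι (D.Fs l * w)) ∈ S.HB (D.Ws l) := by
    refine U_mem S hy ?_ (HB_mul S hy (D.Fs_mem hy l).1 (HB_of_base S hy _ hw))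
    rw [neg_support]
    exact D.kbs_supp hy l
  rw [inner_off S hy (D.Ws_disj l) h2 hx, hx0]

/-- limit (ii) -/
lemma lim2 (hy : Hyp) (hK : KProp0 S p β k f φ K) {w z : A} (hw : S.ι w ∈ S.HB B)
    (hz : S.ι z ∈ S.HB ∅) :
    Tendsto (fun l => ⟪S.ι (D.Fs l * w), S.U (k • D.bs l) (S.ι z)⟫_ℂ) atTop
      (𝓝 ⟪S.ι w, K (S.ι z)⟫_ℂ) := by
  obtain ⟨C, hC⟩ := Bd_exists S hy w
  obtain ⟨w0, hw0, -⟩ := (hy.con Λ A H S ∅).1 C w hC
  have hw0b : S.ι w0 ∈ S.HB ∅ := by rw [hw0]; exact PH_mem S _ _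
  have h1 : ⟪S.ι w, K (S.ι z)⟫_ℂ = ⟪S.ι w0, K (S.ι z)⟫_ℂ := by
    rw [hw0, PH_inner_mem' S (hK.base _)]
  rw [h1]
  refine (hK.lim z w0 hz hw0b D.F D.hF).congr fun l => ?_
  rw [← D.inv hy l hz hw0b, ← S.ι_U, S.inner_mul, S.inner_mul]
  have h2 : S.ι (star (D.Fs l) * S.UA (k • D.bs l) z) ∈ S.HB (D.Ws l) := by
    refine HB_mul S hy (HB_star S hy (D.Fs_mem hy l).1) ?_
    rw [S.ι_U]
    exact U_mem S hy (D.kbs_supp hy l) (HB_of_base S hy _ hz)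
  rw [hw0, PH_inner, ← inner_off S hy (D.Ws_disj l).symm hw h2]

/-- limit (iii) -/
lemma lim3 (hy : Hyp) [Fact p.Prime] {ρ : Λ →+* ZMod p} (hE : Exh ρ β) (hk : IsUnit k)
    (hφ : StrictMono φ) {x y : H} (hx : x ∈ S.HB B) (hyy : y ∈ S.HB B) :
    Tendsto (fun l => ⟪y, S.U (k • D.bs l) x⟫_ℂ) atTop (𝓝 ⟪S.PR B y, S.PR B x⟫_ℂ) := by
  rw [Metric.tendsto_atTop]
  intro ε hε
  obtain ⟨M, hM⟩ := hy.bbl Λ H S.toRep p ρ β k B x y (ε / 2) hE hk hx hyy (by positivity)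
  refine ⟨M, fun l hl => ?_⟩
  have h1 := hM (φ l) (hl.le.trans (hφ.id_le l)) (D.g0 l) (D.g1 l) (D.g0_copy l)
    (D.g1_copy hy l) (D.g0_off hy l) (D.g1_off hy l) (D.g_dsj hy l)
  rw [dist_eq_norm, D.bs_eq]
  exact h1.trans_lt (by linarith)

lemma UA_kbs_RB (hy : Hyp) (l : ℕ) {r : A} (hr : S.ι r ∈ S.RB B) :
    S.UA (k • D.bs l) r = r := UA_of_RB S hr (D.kbs_off hy l)

end Data

lemma UA_comm (hy : Hyp) (y y' : Y Λ) (a : A) : S.UA y (S.UA y' a) = S.UA y' (S.UA y a) := by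
  rw [← UA_add S hy, ← UA_add S hy, add_comm]

/-- `K` commutes with `z ↦ PH_∅ (r T^c z)` -/
theorem kcomm (hy : Hyp) {p : ℕ} {β : ℕ → Λ} {k : Λ} {f : A} {φ : ℕ → ℕ} {K : H →L[ℂ] H}
    (hK : KProp0 S p β k f φ K) : KComm S K := by
  intro B r c z z' hr hc hz hz'
  obtain ⟨D⟩ := exists_data S hy p β k f φ B
  have hcz : S.ι (S.UA c z) ∈ S.HB B := by
    rw [S.ι_U]; exact U_mem S hy hc (HB_of_base S hy B hz)
  have hx : S.ι (r * S.UA c z) ∈ S.HB B := HB_mul S hy hr.1 hcz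
  refine eq_of_test S hy ∅ (hK.base _) (PH_mem S _ _) fun w hw => ?_
  have l1 := D.lim1 hy hK hw hx
  set w' := S.UA (-c) (star r * w) with hw'd
  have hcn : (-c).1.support ⊆ B := by rw [neg_support]; exact hc
  have hw' : S.ι w' ∈ S.HB B := by
    rw [hw'd, S.ι_U]
    exact U_mem S hy hcn (HB_mul S hy (HB_star S hy hr.1) (HB_of_base S hy B hw))
  have l2 := D.lim2 hy hK hw' hz
  have e : ∀ l, ⟪S.ι (D.Fs l * w), S.U (k • D.bs l) (S.ι (r * S.UA c z))⟫_ℂ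
      = ⟪S.ι (D.Fs l * w'), S.U (k • D.bs l) (S.ι z)⟫_ℂ := by
    intro l
    have h1 := S.inner_mul (star r) (D.Fs l * w) (S.UA c (S.UA (k • D.bs l) z))
    rw [star_star] at h1
    rw [← S.ι_U, map_mul (S.UA (k • D.bs l)), D.UA_kbs_RB hy l hr, UA_comm S hy, ← h1,
      S.ι_U c, U_adj, ← S.ι_U (-c), ← S.ι_U]
    have h2 : star r * (D.Fs l * w) = D.Fs l * (star r * w) := by ring
    rw [h2, map_mul (S.UA (-c)), D.UA_Fs hy l hcn]
  have e2 := tendsto_nhds_unique (l1.congr e) l2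
  have h3 := S.inner_mul (star r) w (S.UA c z')
  rw [star_star] at h3
  rw [hK.PH, e2, PH_inner_mem S hw, ← h3, ← hz', S.ι_U c, U_adj, ← S.ι_U (-c)]

/-- `T^c K z` lies in the closed span of `R_B ⬝ base` -/
theorem kclos (hy : Hyp) {p : ℕ} [Fact p.Prime] {ρ : Λ →+* ZMod p} {β : ℕ → Λ} {k : Λ} {f : A}
    {φ : ℕ → ℕ} {K : H →L[ℂ] H} (hE : Exh ρ β) (hk : IsUnit k) (hφ : StrictMono φ)
    (hFA : FA S p β k f φ) (hK : KProp0 S p β k f φ K) : KClos S K := by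
  intro B c z z' hc hz hz'
  rw [Metric.mem_closure_iff]
  intro ε hε
  set x := S.UA c z with hxd
  have hx : S.ι x ∈ S.HB B := by
    rw [hxd, S.ι_U]; exact U_mem S hy hc (HB_of_base S hy B hz)
  obtain ⟨Cx, hCx⟩ := Bd_exists S hy x
  have hCx0 : 0 ≤ Cx := hCx.1
  set δ : ℝ := ε / (Cx + 1) / 2 with hδ
  have hδ0 : 0 < δ := by positivity
  obtain ⟨N, hN, v, hv, l0, hl0⟩ := hFA δ hδ0
  obtain ⟨D⟩ := exists_data S hy p β k f φ B
  have hr : ∀ n, ∃ r : A, S.ι r = S.PR B (S.ι (star (v n) * x)) := by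
    intro n
    obtain ⟨C, hC⟩ := Bd_exists S hy (star (v n) * x)
    obtain ⟨a, ha, -⟩ := (hy.con Λ A H S B).2.1 C _ hC
    exact ⟨a, ha⟩
  choose r hr using hr
  have hrm : ∀ n, S.ι (r n) ∈ S.RB B := by
    intro n; rw [hr]; exact PR_mem S _ _
  set tot : A := (1 / (N : ℂ)) • ∑ n, r n * v n with htot
  have hz'b : S.ι z' ∈ S.HB ∅ := by rw [hz']; exact hK.base _
  have hvB : ∀ n, S.ι (v n) ∈ S.HB B := fun n => HB_of_base S hy B (hv n).1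
  have hcn : (-c).1.support ⊆ B := by rw [neg_support]; exact hc
  refine ⟨S.ι tot, ?_, ?_⟩
  · -- in the span
    rw [htot, map_smul, map_sum]
    refine Submodule.smul_mem _ _ (Submodule.sum_mem _ fun n _ => Submodule.subset_span ?_)
    exact ⟨r n, v n, hrm n, (hv n).1, rfl⟩
  · rw [dist_eq_norm]
    have hmain : ‖S.ι (S.UA c z') - S.ι tot‖ ≤ δ * Cx := by
      have hm1 : S.ι (S.UA c z') ∈ S.HB B := by
        rw [S.ι_U]; exact U_mem S hy hc (HB_of_base S hy B hz'b)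
      have hm2 : S.ι tot ∈ S.HB B := by
        rw [htot, map_smul, map_sum]
        exact Submodule.smul_mem _ _ (Submodule.sum_mem _ fun n _ =>
          HB_mul S hy (hrm n).1 (hvB n))
      refine norm_le_of_test S hy B (Submodule.sub_mem _ hm1 hm2) fun w hw => ?_
      -- the moved approximant
      set Es : ℕ → A := fun l => (1 / (N : ℂ)) • ∑ n, S.UA (k • D.bs l) (v n) * star (v n)
        with hEs
      -- limit a
      have la : Tendsto (fun l => ⟪S.ι (D.Fs l * w), S.U (k • D.bs l) (S.ι x)⟫_ℂ) atTop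
          (𝓝 ⟪S.ι w, S.ι (S.UA c z')⟫_ℂ) := by
        have hw' : S.ι (S.UA (-c) w) ∈ S.HB B := by
          rw [S.ι_U]; exact U_mem S hy hcn hw
        have h1 := D.lim2 hy hK hw' hz
        have h2 : ⟪S.ι (S.UA (-c) w), K (S.ι z)⟫_ℂ = ⟪S.ι w, S.ι (S.UA c z')⟫_ℂ := by
          rw [← hz', S.ι_U, S.ι_U, U_adj]
        rw [h2] at h1
        refine h1.congr fun l => ?_
        rw [hxd, ← S.ι_U, ← S.ι_U, UA_comm S hy (k • D.bs l) c, S.ι_U c, U_adj,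
          ← S.ι_U (-c), map_mul (S.UA (-c)), D.UA_Fs hy l hcn]
      -- limit b
      have lb : Tendsto (fun l => ⟪S.ι (Es l * w), S.U (k • D.bs l) (S.ι x)⟫_ℂ) atTop
          (𝓝 ⟪S.ι w, S.ι tot⟫_ℂ) := by
        have h1 : ∀ n, Tendsto (fun l => ⟪S.ι (star (v n) * w),
            S.U (k • D.bs l) (S.ι (star (v n) * x))⟫_ℂ) atTop
            (𝓝 ⟪S.PR B (S.ι (star (v n) * w)), S.PR B (S.ι (star (v n) * x))⟫_ℂ) := fun n =>
          D.lim3 hy hE hk hφ (HB_mul S hy (HB_star S hy (hvB n)) hx)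
            (HB_mul S hy (HB_star S hy (hvB n)) hw)
        have h2 := (tendsto_finsetSum Finset.univ fun n _ => h1 n).const_mul (1 / (N : ℂ))
        have h3 : (1 / (N : ℂ)) * ∑ n, ⟪S.PR B (S.ι (star (v n) * w)),
            S.PR B (S.ι (star (v n) * x))⟫_ℂ = ⟪S.ι w, S.ι tot⟫_ℂ := by
          rw [htot, map_smul, map_sum, inner_smul_right, inner_sum]
          congr 1
          refine Finset.sum_congr rfl fun n _ => ?_
          rw [PR_inner, PR_of_mem S (PR_mem S _ _), ← hr, S.inner_mul, star_star, mul_comm]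
        rw [h3] at h2
        refine h2.congr fun l => ?_
        rw [hEs]
        simp only
        rw [smul_mul_assoc, Finset.sum_mul, map_smul, map_sum, inner_smul_left, sum_inner]
        have h4 : (starRingEnd ℂ) (1 / (N : ℂ)) = 1 / (N : ℂ) := by simp
        rw [h4]
        congr 1
        refine Finset.sum_congr rfl fun n _ => ?_
        rw [mul_assoc, ← S.ι_U, ← S.ι_U, S.inner_mul (S.UA (k • D.bs l) (v n)),
          map_mul (S.UA (k • D.bs l)), map_star]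
      -- the difference
      have lc := la.sub lb
      rw [← inner_sub_right] at lc
      refine le_of_tendsto lc.norm ?_
      filter_upwards [eventually_ge_atTop l0] with l hl
      have e1 : S.VA (D.σ l) ((1 / (N : ℂ)) • ∑ n, S.UA (k • bb p β (φ l)) (v n) * star (v n))
          = Es l := by
        rw [hEs]
        simp only
        rw [map_smul (S.VA (D.σ l)), map_sum (S.VA (D.σ l))]
        congr 1
        refine Finset.sum_congr rfl fun n _ => ?_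
        rw [map_mul (S.VA (D.σ l)), VA_UA S hy, map_star, VA_of_base S (hv n).1, (hy.hh Λ).2.1]
        rfl
      have e2 : ‖S.ι (D.Fs l - Es l)‖ ≤ δ := by
        have e3 : D.Fs l - Es l = S.VA (D.σ l) (D.F l
            - (1 / (N : ℂ)) • ∑ n, S.UA (k • bb p β (φ l)) (v n) * star (v n)) := by
          rw [map_sub (S.VA (D.σ l)), e1]
          rfl
        rw [e3, S.ι_V, LinearIsometryEquiv.norm_map, map_sub, D.hF, map_smul, map_sum,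
          norm_sub_rev]
        exact hl0 l hl
      have e4 : ⟪S.ι (D.Fs l * w), S.U (k • D.bs l) (S.ι x)⟫_ℂ
          - ⟪S.ι (Es l * w), S.U (k • D.bs l) (S.ι x)⟫_ℂ
          = ⟪S.ι (D.Fs l - Es l), S.ι (star w * S.UA (k • D.bs l) x)⟫_ℂ := by
        rw [← inner_sub_left, ← map_sub, ← sub_mul, mul_comm _ w, ← S.ι_U, S.inner_mul]
      rw [e4]
      have e5 : ‖S.ι (star w * S.UA (k • D.bs l) x)‖ ≤ Cx * ‖S.ι w‖ := by
        have h5 := ((hy.bd Λ A H S).2.2.2.2.2.2.2.2.2.1 Cx x (k • D.bs l) hCx).2 (star w)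
        rw [mul_comm, ← star_norm S hy w]
        exact h5
      calc ‖⟪S.ι (D.Fs l - Es l), S.ι (star w * S.UA (k • D.bs l) x)⟫_ℂ‖
          ≤ ‖S.ι (D.Fs l - Es l)‖ * ‖S.ι (star w * S.UA (k • D.bs l) x)‖ :=
            norm_inner_le_norm _ _
        _ ≤ δ * (Cx * ‖S.ι w‖) := by gcongr
        _ = δ * Cx * ‖S.ι w‖ := by ring
    refine hmain.trans_lt ?_
    have : δ * (Cx + 1) = ε / 2 := by
      rw [hδ]; field_simp
    nlinarith

end K2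

open K2 in
/-- target `T_K2` -/
theorem K2thm (h1 : T_perm_extend) (h2 : T_hh) (h3 : T_basic) (h4 : T_indep) (h5 : T_bblim)
    (h6 : T_Bd) (h7 : T_cond) : T_K2 := by
  intro Λ _ A _ _ _ _ H _ _ _ S p _ ρ β k f φ K hE hk _ _ hφ hFA hK
  have hy : Hyp := ⟨h1, h2, h3, h4, h5, h6, h7⟩
  exact ⟨kcomm S hy hK, kclos S hy hE hk hφ hFA hK⟩

end Pool.Agent.H84.B
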