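import Pool.Agent.H84.B.Eig

/-!
# Module KE of MP_02e9fb_an: `T_Keig`
-/

open scoped ComplexConjugate InnerProductSpace
open Filter Topology

namespace Pool.Agent.H84.B

section KE

variable {Λ : Type} [CommRing Λ] {A : Type} [CommRing A] [StarRing A] [Algebra ℂ A]
    [StarModule ℂ A] {H : Type} [NormedAddCommGroup H] [InnerProductSpace ℂ H] [CompleteSpace H]

lemma ke_hh (Hh : T_hh) (p : ℕ) (β : ℕ → Λ) (o m i : ℕ) (h : (hh p β o m).1 i ≠ 0) :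
    o ≤ i ∧ i < o + (p + 1) * m := by
  obtain ⟨-, -, -, -, -, -, -, -, -, -, -, -, h1, -⟩ := Hh Λ
  exact h1 p β o m i h

lemma ke_supp (Hh : T_hh) (p : ℕ) (β : ℕ → Λ) (k : Λ) (m : ℕ) :
    (k • bb p β m).1.support ⊆ W p m := by
  intro i hi
  rw [Finsupp.mem_support_iff] at hi
  unfold W
  rw [Finset.mem_range]
  by_contra hlt
  apply hi
  have e : (k • bb p β m).1 i = k * ((hh p β ((p + 1) * m) m).1 i - (hh p β 0 m).1 i) := rfl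
  rw [e]
  have h1 : (hh p β ((p + 1) * m) m).1 i = 0 := by
    by_contra h
    have := ke_hh Hh p β _ m i h
    omega
  have h2 : (hh p β 0 m).1 i = 0 := by
    by_contra h
    have := ke_hh Hh p β _ m i h
    omega
  rw [h1, h2]
  simp

lemma ke_dsj (Hh : T_hh) (p : ℕ) (β : ℕ → Λ) (m : ℕ) :
    Dsj (hh p β 0 m) (hh p β ((p + 1) * m) m) := by
  unfold Dsj
  rw [Finset.disjoint_left]
  intro i hi hi'
  have h1 := ke_hh Hh p β _ m i (Finsupp.mem_support_iff.1 hi)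
  have h2 := ke_hh Hh p β _ m i (Finsupp.mem_support_iff.1 hi')
  omega

lemma ke_lim (Hh : T_hh) (hpe : T_perm_extend) (hbb : T_bblim) (S : Sys Λ A H) (p : ℕ)
    [Fact p.Prime] (ρ : Λ →+* ZMod p) (β : ℕ → Λ) (k : Λ) (φ : ℕ → ℕ) (he : Exh ρ β)
    (hk : IsUnit k) (hφ : StrictMono φ) (x y : H) (hx : x ∈ S.HB ∅) (hy : y ∈ S.HB ∅) :
    Tendsto (fun l => ⟪y, S.U (k • bb p β (φ l)) x⟫_ℂ) atTop
      (𝓝 (⟪y, S.ι 1⟫_ℂ * ⟪S.ι 1, x⟫_ℂ)) := by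
  obtain ⟨-, two, -⟩ := rbind Hh hpe Λ A H S ∅
  obtain ⟨-, -, -, -, -, -, -, -, -, -, hcopy, -⟩ := Hh Λ
  have h2 : ⟪S.PR ∅ y, S.PR ∅ x⟫_ℂ = ⟪y, S.ι 1⟫_ℂ * ⟪S.ι 1, x⟫_ℂ := by
    rw [two ∅ x (by simp) hx, two ∅ y (by simp) hy, inner_smul_left, inner_smul_right,
      inner_conj_symm]
    have : ⟪S.ι 1, S.ι 1⟫_ℂ = 1 := by
      rw [inner_self_eq_norm_sq_to_K, S.norm_one]
      simp
    rw [this, mul_one]
  rw [Metric.tendsto_atTop]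
  intro ε hε
  obtain ⟨M, hM⟩ := hbb Λ H S.toRep p ρ β k ∅ x y (ε / 2) he hk hx hy (half_pos hε)
  refine ⟨M, fun l hl => ?_⟩
  have h3 := hM (φ l) (hl.trans hφ.le_apply) (hh p β 0 (φ l))
    (hh p β ((p + 1) * φ l) (φ l)) (hcopy p β 0 _) (hcopy p β _ _) (by simp [Off]) (by simp [Off])
    (ke_dsj Hh p β _)
  rw [h2] at h3
  rw [dist_eq_norm]
  exact h3.trans_lt (half_lt_self hε)

omit [CompleteSpace H] in
lemma ke_projL (K : Submodule ℂ H) [K.HasOrthogonalProjection] (u w : H) (hw : w ∈ K) :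
    ⟪K.starProjection u, w⟫_ℂ = ⟪u, w⟫_ℂ := by
  rw [← inner_conj_symm, pb1_inner_proj K w u hw, inner_conj_symm]

lemma ke_one_inner (S : Sys Λ A H) : ⟪S.ι 1, S.ι 1⟫_ℂ = 1 := by
  rw [inner_self_eq_norm_sq_to_K, S.norm_one]
  simp

lemma ke_conj_tr (S : Sys Λ A H) (a : A) : ⟪S.ι a, S.ι 1⟫_ℂ = conj (S.tr a) := by
  unfold Sys.tr
  rw [inner_conj_symm]

lemma ke_lamRB (S : Sys Λ A H) (B : Finset ℕ) (b : Y Λ) (hb : b.1.support ⊆ B) (ψ : A)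
    (h : S.IsEig ψ) : S.ι (S.UA b ψ * star ψ) ∈ S.RB B :=
  hil1_RB_mono S.toRep hb (h.2.2 b)

lemma ke_lam_mul (S : Sys Λ A H) (b : Y Λ) (ψ : A) (h : S.IsEig ψ) :
    (S.UA b ψ * star ψ) * ψ = S.UA b ψ := by
  rw [mul_assoc, mul_comm (star ψ) ψ, h.2.1, mul_one]

lemma ke_UA_unit (S : Sys Λ A H) (b : Y Λ) (ψ : A) (h : S.IsEig ψ) :
    S.UA b ψ * S.UA b (star ψ) = 1 := by
  rw [← map_mul, h.2.1, map_one]

lemma ke_a1 (S : Sys Λ A H) (B : Finset ℕ) (b : Y Λ) (hb : b.1.support ⊆ B) (f F ψ : A)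
    (h : S.IsEig ψ) (hF : S.ι F = S.PR B (S.ι (S.UA b f * star f))) :
    ⟪S.ι F, S.ι (S.UA b ψ * star ψ)⟫_ℂ
      = ⟪S.ι (star f * ψ), S.U b (S.ι (star f * ψ))⟫_ℂ := by
  have h1 : ⟪S.PR B (S.ι (S.UA b f * star f)), S.ι (S.UA b ψ * star ψ)⟫_ℂ
      = ⟪S.ι (S.UA b f * star f), S.ι (S.UA b ψ * star ψ)⟫_ℂ :=
    ke_projL _ _ _ (ke_lamRB S B b hb ψ h)
  rw [hF, h1, ← S.ι_U, ← pb1_tr_star_mul, ← pb1_tr_star_mul]
  congr 1
  rw [map_mul, star_mul, star_mul, star_star, map_star]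
  ring

lemma ke_a2 (Hh : T_hh) (hpe : T_perm_extend) (S : Sys Λ A H) (B : Finset ℕ) (b : Y Λ)
    (hb : b.1.support ⊆ B) (F w ψ : A) (h : S.IsEig ψ) (hF : S.ι F ∈ S.RB B)
    (hw : S.ι w ∈ S.HB ∅) :
    ⟪S.ι (F * w), S.U b (S.ι ψ)⟫_ℂ
      = ⟪S.ι F, S.ι (S.UA b ψ * star ψ)⟫_ℂ * ⟪S.ι w, S.ι ψ⟫_ℂ := by
  obtain ⟨-, -, three, -⟩ := rbind Hh hpe Λ A H S B
  rw [← S.ι_U, ← pb1_tr_star_mul, ← pb1_tr_star_mul, ← pb1_tr_star_mul]
  rw [← three ∅ (star F * (S.UA b ψ * star ψ)) (star w * ψ) (by simp)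
    (pb1_RB_mul S _ _ _ (pb1_RB_star S _ _ hF) (ke_lamRB S B b hb ψ h))
    (pb1_HB_mul S _ _ _ (pb1_HB_star S _ _ hw) h.1)]
  congr 1
  rw [← ke_lam_mul S b ψ h, star_mul]
  have := ke_lam_mul S b ψ h
  generalize S.UA b ψ = x at *
  have e : x * star ψ * ψ * star ψ = x * star ψ := by rw [this]
  rw [e]
  ring

lemma ke_x2 (Hh : T_hh) (hpe : T_perm_extend) (S : Sys Λ A H) (B : Finset ℕ) (b : Y Λ)
    (hb : b.1.support ⊆ B) (g ψ : A) (h : S.IsEig ψ) (hg : S.ι g ∈ S.HB ∅) :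
    S.PR B (S.ι (S.UA b ψ * g)) = S.tr (ψ * g) • S.ι (S.UA b ψ * star ψ) := by
  obtain ⟨-, two, -, -, -⟩ := rbind Hh hpe Λ A H S B
  obtain ⟨-, -, -, -, -, cm, -⟩ := cond Λ A H S B
  have e2 : S.ι (S.tr (ψ * g) • (1 : A)) = S.PR B (S.ι (ψ * g)) := by
    rw [two ∅ _ (by simp) (pb1_HB_mul S _ _ _ h.1 hg), map_smul]
    rfl
  have e3 := cm (S.UA b ψ * star ψ) (ψ * g) _ (ke_lamRB S B b hb ψ h) e2
  rw [← mul_assoc, ke_lam_mul S b ψ h, mul_smul_comm, mul_one, map_smul] at e3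
  exact e3

lemma ke_x1 (Hh : T_hh) (hpe : T_perm_extend) (S : Sys Λ A H) (B : Finset ℕ) (b : Y Λ)
    (hb : b.1.support ⊆ B) (g ψ : A) (h : S.IsEig ψ) (hg : S.ι g ∈ S.HB ∅) :
    S.PR B (S.ι (S.UA b g * star ψ)) = S.tr (g * star ψ) • S.ι (S.UA b ψ * star ψ) := by
  obtain ⟨-, -, -, four, -⟩ := rbind Hh hpe Λ A H S B
  obtain ⟨-, -, -, -, -, cm, -⟩ := cond Λ A H S B
  have e2 : S.ι (S.tr (g * star ψ) • (1 : A)) = S.PR B (S.ι (S.UA b (g * star ψ))) := by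
    rw [S.ι_U, four b _ hb (pb1_HB_mul S _ _ _ hg (pb1_HB_star S _ _ h.1)), map_smul]
    rfl
  have e3 := cm (S.UA b ψ * star ψ) (S.UA b (g * star ψ)) _ (ke_lamRB S B b hb ψ h) e2
  have e4 : S.UA b ψ * star ψ * S.UA b (g * star ψ) = S.UA b g * star ψ := by
    rw [map_mul]
    calc S.UA b ψ * star ψ * (S.UA b g * S.UA b (star ψ))
        = (S.UA b ψ * S.UA b (star ψ)) * (S.UA b g * star ψ) := by ring
      _ = S.UA b g * star ψ := by rw [ke_UA_unit S b ψ h, one_mul]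
  rw [e4, mul_smul_comm, mul_one, map_smul] at e3
  exact e3

theorem keig (Hh : T_hh) (hpe : T_perm_extend) (hbb : T_bblim) : T_Keig := by
  classical
  intro Λ _ A _ _ _ _ H _ _ _ S p _ ρ β k f φ K he hk hf hf1 hφ hK
  -- notation
  set b : ℕ → Y Λ := fun l => k • bb p β (φ l) with hb
  have hbs : ∀ l, (b l).1.support ⊆ W p (φ l) := fun l => ke_supp Hh p β k (φ l)
  have hH : ∀ a : A, ∃ a' : A, S.ι a' = (S.HB ∅).starProjection (S.ι a) := by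
    intro a
    obtain ⟨C, h0, hC⟩ := S.bd_exists a
    obtain ⟨a', h1, -⟩ := pb1_condH S ∅ C a ⟨h0, hC⟩
    exact ⟨a', h1⟩
  have hF0 : ∀ l, ∃ F : A, S.ι F = S.PR (W p (φ l)) (S.ι (S.UA (b l) f * star f)) := by
    intro l
    obtain ⟨C, h0, hC⟩ := S.bd_exists (S.UA (b l) f * star f)
    obtain ⟨a', h1, -⟩ := pb1_condR S (W p (φ l)) C _ ⟨h0, hC⟩
    exact ⟨a', h1⟩
  choose F hF using hF0
  have hFR : ∀ l, S.ι (F l) ∈ S.RB (W p (φ l)) := by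
    intro l
    rw [hF l]
    exact Submodule.starProjection_apply_mem _ _
  have hlim := fun x y hx hy => ke_lim Hh hpe hbb S p ρ β k φ he hk hφ x y hx hy
  -- the limit of `⟪F_l, lam_ψ⟫`
  have hFlam : ∀ ψ, S.IsEig ψ → Tendsto (fun l => ⟪S.ι (F l), S.ι (S.UA (b l) ψ * star ψ)⟫_ℂ)
      atTop (𝓝 (((‖⟪S.ι ψ, S.ι f⟫_ℂ‖ ^ 2 : ℝ) : ℂ))) := by
    intro ψ hψ
    have h1 : (fun l => ⟪S.ι (F l), S.ι (S.UA (b l) ψ * star ψ)⟫_ℂ)
        = fun l => ⟪S.ι (star f * ψ), S.U (b l) (S.ι (star f * ψ))⟫_ℂ := by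
      funext l
      exact ke_a1 S _ (b l) (hbs l) f (F l) ψ hψ (hF l)
    have hbase : S.ι (star f * ψ) ∈ S.HB ∅ := pb1_HB_mul S _ _ _ (pb1_HB_star S _ _ hf) hψ.1
    have h2 := hlim _ _ hbase hbase
    rw [h1]
    convert h2 using 2
    rw [ke_conj_tr]
    have h3 : ⟪S.ι 1, S.ι (star f * ψ)⟫_ℂ = S.tr (star f * ψ) := rfl
    rw [h3, mul_comm, Complex.mul_conj, Complex.normSq_eq_norm_sq, pb1_tr_star_mul,
      norm_inner_symm]
  have partA : ∀ ψ, S.IsEig ψ →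
      K (S.ι ψ) = ((‖⟪S.ι ψ, S.ι f⟫_ℂ‖ ^ 2 : ℝ) : ℂ) • S.ι ψ := by
    intro ψ hψ
    have h1 : ((‖⟪S.ι ψ, S.ι f⟫_ℂ‖ ^ 2 : ℝ) : ℂ) • S.ι ψ
        = (S.HB ∅).starProjection (K (S.ι ψ)) := by
      apply pb1_char S (S.HB ∅) hH
      · exact Submodule.smul_mem _ _ hψ.1
      · intro w hw
        have e1 := hK.lim ψ w hψ.1 hw F hF
        have e2 : (fun l => ⟪S.ι (F l * w), S.ι (S.UA (k • bb p β (φ l)) ψ)⟫_ℂ)
            = fun l => ⟪S.ι (F l), S.ι (S.UA (b l) ψ * star ψ)⟫_ℂ * ⟪S.ι w, S.ι ψ⟫_ℂ := by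
          funext l
          rw [S.ι_U]
          exact ke_a2 Hh hpe S _ (b l) (hbs l) (F l) w ψ hψ (hFR l) hw
        rw [e2] at e1
        have e3 := (hFlam ψ hψ).mul_const ⟪S.ι w, S.ι ψ⟫_ℂ
        rw [tendsto_nhds_unique e1 e3, inner_smul_right]
    rw [h1, Submodule.starProjection_eq_self_iff.2 (hK.base _)]
  refine ⟨partA, ?_⟩
  intro Fs J hFs hJ
  have hJe : ∀ ψ ∈ J, S.IsEig ψ := fun ψ hψ => hFs.eig ψ (hJ hψ)
  set c : A → ℂ := fun ψ => ⟪S.ι ψ, S.ι f⟫_ℂ with hc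
  set n : A → ℂ := fun ψ => ((‖c ψ‖ ^ 2 : ℝ) : ℂ) with hn
  have hself : ∀ ψ, S.IsEig ψ → ⟪S.ι ψ, S.ι ψ⟫_ℂ = 1 := by
    intro ψ hψ
    rw [← pb1_tr_star_mul, mul_comm, hψ.2.1]
    exact ke_one_inner S
  have hcFJ : ∀ ψ ∈ J, ⟪S.ι ψ, S.ι (S.Fpr f J)⟫_ℂ = c ψ := by
    intro ψ hψ
    unfold Sys.Fpr
    rw [map_sum, inner_sum, Finset.sum_eq_single ψ]
    · rw [map_smul, inner_smul_right, hself ψ (hJe ψ hψ), mul_one]
    · intro ψ' hψ' hne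
      rw [map_smul, inner_smul_right, hFs.orth ψ (hJ hψ) ψ' (hJ hψ') (Ne.symm hne), mul_zero]
    · intro h
      exact absurd hψ h
  have hFJb : S.ι (S.Fpr f J) ∈ S.HB ∅ := by
    unfold Sys.Fpr
    rw [map_sum]
    refine Submodule.sum_mem _ fun ψ hψ => ?_
    rw [map_smul]
    exact Submodule.smul_mem _ _ (hJe ψ hψ).1
  have htrs : ∀ a g : A, S.tr (a * star g) = ⟪S.ι g, S.ι a⟫_ℂ := by
    intro a g
    rw [mul_comm, pb1_tr_star_mul]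
  have hcc : ∀ ψ, c ψ * conj (c ψ) = n ψ := by
    intro ψ
    simp only [hn]
    rw [Complex.mul_conj, Complex.normSq_eq_norm_sq]
  -- the formula for the projection
  have hproj : ∀ l, S.PR (W p (φ l)) (S.ι (S.UA (b l) (f - S.Fpr f J) * star (f - S.Fpr f J)))
      = S.ι (F l) - ∑ ψ ∈ J, n ψ • S.ι (S.UA (b l) ψ * star ψ) := by
    intro l
    have e0 : S.UA (b l) (f - S.Fpr f J) * star (f - S.Fpr f J)
        = S.UA (b l) f * star f - S.UA (b l) f * star (S.Fpr f J)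
          - S.UA (b l) (S.Fpr f J) * star f + S.UA (b l) (S.Fpr f J) * star (S.Fpr f J) := by
      rw [map_sub, star_sub]
      ring
    have e1 : S.PR (W p (φ l)) (S.ι (S.UA (b l) f * star (S.Fpr f J)))
        = ∑ ψ ∈ J, n ψ • S.ι (S.UA (b l) ψ * star ψ) := by
      have : S.UA (b l) f * star (S.Fpr f J)
          = ∑ ψ ∈ J, conj (c ψ) • (S.UA (b l) f * star ψ) := by
        unfold Sys.Fpr
        rw [star_sum, Finset.mul_sum]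
        refine Finset.sum_congr rfl fun ψ _ => ?_
        rw [star_smul, mul_smul_comm]
        rfl
      rw [this, map_sum, map_sum]
      refine Finset.sum_congr rfl fun ψ hψ => ?_
      rw [map_smul, map_smul, ke_x1 Hh hpe S _ (b l) (hbs l) f ψ (hJe ψ hψ) hf, smul_smul, htrs,
        ← hcc, mul_comm]
    have e2 : S.PR (W p (φ l)) (S.ι (S.UA (b l) (S.Fpr f J) * star f))
        = ∑ ψ ∈ J, n ψ • S.ι (S.UA (b l) ψ * star ψ) := by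
      have : S.UA (b l) (S.Fpr f J) * star f = ∑ ψ ∈ J, c ψ • (S.UA (b l) ψ * star f) := by
        unfold Sys.Fpr
        rw [map_sum, Finset.sum_mul]
        refine Finset.sum_congr rfl fun ψ _ => ?_
        rw [map_smul, smul_mul_assoc]
      rw [this, map_sum, map_sum]
      refine Finset.sum_congr rfl fun ψ hψ => ?_
      rw [map_smul, map_smul, ke_x2 Hh hpe S _ (b l) (hbs l) (star f) ψ (hJe ψ hψ)
        (pb1_HB_star S _ _ hf), smul_smul, htrs, ← hcc, ← inner_conj_symm (S.ι f)]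
    have e3 : S.PR (W p (φ l)) (S.ι (S.UA (b l) (S.Fpr f J) * star (S.Fpr f J)))
        = ∑ ψ ∈ J, n ψ • S.ι (S.UA (b l) ψ * star ψ) := by
      have : S.UA (b l) (S.Fpr f J) * star (S.Fpr f J)
          = ∑ ψ ∈ J, c ψ • (S.UA (b l) ψ * star (S.Fpr f J)) := by
        conv_lhs => rw [show S.UA (b l) (S.Fpr f J) = ∑ ψ ∈ J, c ψ • S.UA (b l) ψ by
          unfold Sys.Fpr
          rw [map_sum]
          exact Finset.sum_congr rfl fun ψ _ => map_smul _ _ _]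
        rw [Finset.sum_mul]
        exact Finset.sum_congr rfl fun ψ _ => smul_mul_assoc _ _ _
      rw [this, map_sum, map_sum]
      refine Finset.sum_congr rfl fun ψ hψ => ?_
      rw [map_smul, map_smul, ke_x2 Hh hpe S _ (b l) (hbs l) (star (S.Fpr f J)) ψ (hJe ψ hψ)
        (pb1_HB_star S _ _ hFJb), smul_smul, htrs, ← hcc, ← inner_conj_symm (S.ι (S.Fpr f J)),
        hcFJ ψ hψ]
    rw [e0, map_add, map_sub, map_sub, map_add, map_sub, map_sub, e1, e2, e3, ← hF l]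
    abel
  -- the limits
  have hlamlam : ∀ ψ ∈ J, ∀ ψ' ∈ J, Tendsto (fun l => ⟪S.ι (S.UA (b l) ψ * star ψ),
      S.ι (S.UA (b l) ψ' * star ψ')⟫_ℂ) atTop (𝓝 (if ψ = ψ' then 1 else 0)) := by
    intro ψ hψ ψ' hψ'
    have hbase : S.ι (star ψ * ψ') ∈ S.HB ∅ :=
      pb1_HB_mul S _ _ _ (pb1_HB_star S _ _ (hJe ψ hψ).1) (hJe ψ' hψ').1
    have h1 : (fun l => ⟪S.ι (S.UA (b l) ψ * star ψ), S.ι (S.UA (b l) ψ' * star ψ')⟫_ℂ)
        = fun l => ⟪S.ι (star ψ * ψ'), S.U (b l) (S.ι (star ψ * ψ'))⟫_ℂ := by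
      funext l
      rw [← S.ι_U, ← pb1_tr_star_mul, ← pb1_tr_star_mul]
      congr 1
      rw [map_mul, star_mul, star_mul, star_star, map_star]
      ring
    rw [h1]
    have h2 := hlim _ _ hbase hbase
    convert h2 using 2
    rw [ke_conj_tr]
    have h3 : ⟪S.ι 1, S.ι (star ψ * ψ')⟫_ℂ = S.tr (star ψ * ψ') := rfl
    rw [h3, mul_comm, Complex.mul_conj, Complex.normSq_eq_norm_sq, pb1_tr_star_mul]
    split_ifs with h
    · subst h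
      rw [hself ψ (hJe ψ hψ)]
      simp
    · rw [hFs.orth ψ (hJ hψ) ψ' (hJ hψ') h]
      simp
  have hFF : Tendsto (fun l => ⟪S.ι (F l), S.ι (F l)⟫_ℂ) atTop (𝓝 ⟪S.ι f, K (S.ι f)⟫_ℂ) := by
    have h1 := hK.lim f f hf hf F hF
    convert h1 using 2 with l
    have h2 : ⟪S.ι (F l), S.ι (F l)⟫_ℂ = ⟪S.ι (F l), S.ι (S.UA (b l) f * star f)⟫_ℂ := by
      conv_lhs => rhs; rw [hF l]
      exact pb1_inner_proj _ _ _ (hFR l)
    rw [h2, ← pb1_tr_star_mul, ← pb1_tr_star_mul]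
    congr 1
    rw [star_mul]
    ring
  have hFy : Tendsto (fun l => ⟪S.ι (F l), ∑ ψ ∈ J, n ψ • S.ι (S.UA (b l) ψ * star ψ)⟫_ℂ) atTop
      (𝓝 (∑ ψ ∈ J, n ψ * n ψ)) := by
    have : (fun l => ⟪S.ι (F l), ∑ ψ ∈ J, n ψ • S.ι (S.UA (b l) ψ * star ψ)⟫_ℂ)
        = fun l => ∑ ψ ∈ J, n ψ * ⟪S.ι (F l), S.ι (S.UA (b l) ψ * star ψ)⟫_ℂ := by
      funext l
      rw [inner_sum]
      exact Finset.sum_congr rfl fun ψ _ => inner_smul_right _ _ _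
    rw [this]
    exact tendsto_finsetSum _ fun ψ hψ => (hFlam ψ (hJe ψ hψ)).const_mul _
  have hyy : Tendsto (fun l => ⟪∑ ψ ∈ J, n ψ • S.ι (S.UA (b l) ψ * star ψ),
      ∑ ψ ∈ J, n ψ • S.ι (S.UA (b l) ψ * star ψ)⟫_ℂ) atTop (𝓝 (∑ ψ ∈ J, n ψ * n ψ)) := by
    have h1 : (fun l => ⟪∑ ψ ∈ J, n ψ • S.ι (S.UA (b l) ψ * star ψ),
        ∑ ψ ∈ J, n ψ • S.ι (S.UA (b l) ψ * star ψ)⟫_ℂ)
        = fun l => ∑ ψ ∈ J, ∑ ψ' ∈ J, n ψ * (n ψ' * ⟪S.ι (S.UA (b l) ψ * star ψ),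
          S.ι (S.UA (b l) ψ' * star ψ')⟫_ℂ) := by
      funext l
      rw [sum_inner]
      refine Finset.sum_congr rfl fun ψ _ => ?_
      rw [inner_sum]
      refine Finset.sum_congr rfl fun ψ' _ => ?_
      rw [inner_smul_left, inner_smul_right]
      have : conj (n ψ) = n ψ := by simp only [hn]; exact Complex.conj_ofReal _
      rw [this]
    rw [h1]
    have h2 : ∑ ψ ∈ J, n ψ * n ψ = ∑ ψ ∈ J, ∑ ψ' ∈ J, n ψ * (n ψ' * (if ψ = ψ' then 1 else 0)) := by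
      refine Finset.sum_congr rfl fun ψ hψ => ?_
      rw [Finset.sum_eq_single ψ]
      · simp
      · intro ψ' _ hne
        simp [Ne.symm hne]
      · intro h
        exact absurd hψ h
    rw [h2]
    exact tendsto_finsetSum _ fun ψ hψ => tendsto_finsetSum _ fun ψ' hψ' =>
      ((hlamlam ψ hψ ψ' hψ').const_mul _).const_mul _
  have hq : ∀ l, S.q p β k (φ l) (f - S.Fpr f J) ^ 2
      = (⟪S.ι (F l), S.ι (F l)⟫_ℂ
        - 2 * ⟪S.ι (F l), ∑ ψ ∈ J, n ψ • S.ι (S.UA (b l) ψ * star ψ)⟫_ℂ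
        + ⟪∑ ψ ∈ J, n ψ • S.ι (S.UA (b l) ψ * star ψ),
            ∑ ψ ∈ J, n ψ • S.ι (S.UA (b l) ψ * star ψ)⟫_ℂ).re := by
    have gen : ∀ x y : H, ‖x - y‖ ^ 2 = (⟪x, x⟫_ℂ - 2 * ⟪x, y⟫_ℂ + ⟪y, y⟫_ℂ).re := by
      intro x y
      rw [@norm_sub_sq ℂ, @norm_sq_eq_re_inner ℂ H _ _ _ x, @norm_sq_eq_re_inner ℂ H _ _ _ y]
      simp only [Complex.add_re, Complex.sub_re, Complex.mul_re, RCLike.re_eq_complex_re]
      norm_num
    intro l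
    unfold Sys.q
    rw [hproj l]
    exact gen _ _
  have hfin := ((hFF.sub (hFy.const_mul 2)).add hyy)
  have hre := (Complex.continuous_re.tendsto _).comp hfin
  have hval : (⟪S.ι f, K (S.ι f)⟫_ℂ - 2 * ∑ ψ ∈ J, n ψ * n ψ + ∑ ψ ∈ J, n ψ * n ψ).re
      = (⟪S.ι f, K (S.ι f)⟫_ℂ).re - ∑ ψ ∈ J, ‖c ψ‖ ^ 4 := by
    have : ∑ ψ ∈ J, n ψ * n ψ = ((∑ ψ ∈ J, ‖c ψ‖ ^ 4 : ℝ) : ℂ) := by
      rw [Complex.ofReal_sum]
      refine Finset.sum_congr rfl fun ψ _ => ?_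
      simp only [hn]
      push_cast
      ring
    rw [this]
    simp only [Complex.add_re, Complex.sub_re, Complex.mul_re, Complex.ofReal_re,
      Complex.ofReal_im]
    norm_num
    ring
  rw [hval] at hre
  convert hre using 2 with l
  exact hq l

end KE

end Pool.Agent.H84.B
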