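import Pool.Agent.H84.B.Main0
import Pool.Agent.H18.BE.Mono
import Pool.Agent.H60.B.Asym

/-!
# MP_02e9fb_an: final assembly
-/

namespace Pool.Agent.H84.B

open Pool.Agent

/-- the final theorem -/
theorem main.{u} : ∃ a : ℕ → ℤ, GoodPowers.{u} a ∧ ¬ GoodCommuting.{0} a := by
  have hpe : T_perm_extend := H77.BE.perm_extend
  have hhh : T_hh := H77.BE.hh_facts
  have hbasic : T_basic := basic hhh
  have hBd : T_Bd := bd
  have hRB : T_RBind := rbind hhh hpe
  have hadm : T_adm := H77.BE.adm_facts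
  have hCh : T_CHR := H72.B.chr hbasic hBd hRB
  have hAlg : T_ALG := alg hadm
  have hWit : T_WIT := H72.B.wit hBd hAlg
  have hAs : T_ASYM := H60.B.asym H77.BE.copies hhh hadm hCh hWit
  exact main0 H18.BE.qanti H18.BE.fa hAs

end Pool.Agent.H84.B
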