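import Pool.Agent.H84.B.FinE
import Pool.Agent.H84.B.Alg
import Pool.Agent.H84.B.C1
import Pool.Agent.H84.B.C3
import Pool.Agent.H84.B.Erg
import Pool.Agent.H84.B.Ke
import Pool.Agent.H84.B.K2
import Pool.Agent.H84.B.Hil2
import Pool.Agent.H85.BC2.Main
import Pool.Agent.H85.BVdc.Main
import Pool.Agent.H77.BE.KZ
import Pool.Agent.H77.BE.Perm
import Pool.Agent.H72.B.C4
import Pool.Agent.H72.B.Chr
import Pool.Agent.H72.B.Pow
import Pool.Agent.H69.BE.C5
import Pool.Agent.H65.BE.C0
import Pool.Agent.H65.BE.Str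
import Pool.Agent.H37.B.K1

/-!
# MP_02e9fb_an: assembly of the modules
-/

namespace Pool.Agent.H84.B

open Pool.Agent

/-- everything except the modules MONO and ASYM -/
theorem main0.{u} (hq : T_qanti) (hFA : T_FA) (hAs : T_ASYM) :
    ∃ a : ℕ → ℤ, GoodPowers.{u} a ∧ ¬ GoodCommuting.{0} a := by
  have hpe : T_perm_extend := H77.BE.perm_extend
  have hcop : T_copies := H77.BE.copies
  have hconj : T_conj := H77.BE.conj
  have hhh : T_hh := H77.BE.hh_facts
  have hadm : T_adm := H77.BE.adm_facts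
  have hbasic : T_basic := basic hhh
  have hindep : T_indep := indep hpe
  have hmult : T_mult := mult hhh hconj hindep
  have hPR : T_PRlim := PRlim hpe hcop hhh hbasic hindep hmult
  have hbb : T_bblim := bblim hpe hcop hhh hbasic hindep hmult
  have hBd : T_Bd := bd
  have hcond : T_cond := cond
  have hRB : T_RBind := rbind hhh hpe
  have hVDC : T_VDC := H85.BVdc.VDC hconj hcop hhh hbasic hmult hPR hBd
  have hK1 : T_K1 := H37.B.k1 hhh hbb hBd hcond
  have hK2 : T_K2 := K2thm hpe hhh hbasic hindep hbb hBd hcond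
  have hKz : T_Kzero := H77.BE.Kzero hbasic hindep hBd hcond hRB
  have hKe : T_Keig := keig hhh hpe hbb
  have hE : T_EIG := eig hhh hpe
  have hStr : T_STR := H65.BE.str hq hFA hK1 hK2 hKz hKe
  have hCh : T_CHR := H72.B.chr hbasic hBd hRB
  have hMain : T_MainAbs := mainAbs hBd hcond hbasic hhh hRB hVDC hE hStr hCh hAs
  have hMS : T_MainMS := C3 hMain
  have hlim : T_lim := H65.BE.lim
  have hcyl : T_cylext := H65.BE.cylext
  have hC1 : T_C1.{u} := c1 hlim hcyl
  have hC2 : T_C2 := H85.BC2.C2 hconj hpe hcop hhh erg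
  have hPow : T_Powers.{u} := H72.B.pow H65.BE.zp H65.BE.exh hC1 hC2 hMS
  have hC4 : T_C4 := H72.B.c4 hlim hcyl
  exact H69.BE.c5 hPow hC4

end Pool.Agent.H84.B
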