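import Pool.Agent.H84.B.Pb1

/-!
# Module PB2 of MP_02e9fb_an: `T_RBind`
-/

open scoped ComplexConjugate InnerProductSpace
open Filter Topology

namespace Pool.Agent.H84.B

section PB2

variable {Λ : Type} [CommRing Λ] {A : Type} [CommRing A] [StarRing A] [Algebra ℂ A]
    [StarModule ℂ A] {H : Type} [NormedAddCommGroup H] [InnerProductSpace ℂ H] [CompleteSpace H]

lemma pb2_one (hh : T_hh) (hpe : T_perm_extend) (S : Sys Λ A H) (B : Finset ℕ) (r : H)
    (hr : r ∈ S.RB B) : S.PH ∅ r = ⟪S.ι 1, r⟫_ℂ • S.ι 1 := by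
  classical
  obtain ⟨-, -, -, -, -, -, bPH, -, bU, -, -, -⟩ := basic hh Λ H S.toRep
  have hV : ∀ σ, S.V σ (S.PH ∅ r) = S.PH ∅ r := fun σ =>
    (Submodule.starProjection_apply_mem (S.HB ∅) r) σ (by simp)
  have hU : ∀ y, S.U y (S.PH ∅ r) = S.PH ∅ r := by
    intro y
    obtain ⟨τ, -, hτ⟩ := hil1_away hpe y.1.support ∅ B
    have hdis : y.1.support ∩ B.map τ.1.toEmbedding = ∅ := by
      rw [← Finset.disjoint_iff_inter_eq_empty, Finset.disjoint_left]
      intro i hi hi'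
      simp only [Finset.mem_map, Equiv.coe_toEmbedding] at hi'
      obtain ⟨j, hj, rfl⟩ := hi'
      exact hτ j hj (by simp) hi
    have hr' := hil1_V_RB hh S.toRep B τ r hr
    have h1 : S.PH ∅ (S.V τ r) = S.PH ∅ r := by
      have := bPH ∅ τ r
      rw [Finset.map_empty] at this
      rw [← this, hV]
    have h2 : S.PH y.1.support (S.V τ r) = S.PH ∅ r := by
      rw [indep hpe Λ H S.toRep y.1.support (B.map τ.1.toEmbedding) _ hr'.1, hdis, h1]
    have h3 := bU y.1.support y (S.V τ r) (Finset.Subset.refl _)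
    rw [hr'.2 y (Finset.disjoint_iff_inter_eq_empty.2 hdis), h2] at h3
    exact h3
  obtain ⟨c, hc⟩ := S.erg _ hU hV
  have h1 : ⟪S.ι 1, S.PH ∅ r⟫_ℂ = ⟪S.ι 1, r⟫_ℂ :=
    pb1_inner_proj _ _ _ (pb1_RB_one S ∅).1
  have h2 : ⟪S.ι 1, S.ι 1⟫_ℂ = 1 := by
    rw [inner_self_eq_norm_sq_to_K, S.norm_one]
    simp
  rw [hc, inner_smul_right, h2, mul_one] at h1
  rw [hc, h1]

lemma pb2_inner (hh : T_hh) (hpe : T_perm_extend) (S : Sys Λ A H) (B B' : Finset ℕ) (w z : H)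
    (hd : Disjoint B B') (hw : w ∈ S.RB B) (hz : z ∈ S.HB B') :
    ⟪w, z⟫_ℂ = ⟪w, S.ι 1⟫_ℂ * ⟪S.ι 1, z⟫_ℂ := by
  classical
  rw [hil1_inner_indep (indep hpe) S.toRep B B' w z hw.1 hz,
    Finset.disjoint_iff_inter_eq_empty.1 hd]
  have h1 : ⟪w, S.PH ∅ z⟫_ℂ = ⟪S.PH ∅ w, z⟫_ℂ :=
    (Submodule.inner_starProjection_left_eq_right (S.HB ∅) w z).symm
  rw [h1, pb2_one hh hpe S B w hw, inner_smul_left, inner_conj_symm]

theorem rbind (hh : T_hh) (hpe : T_perm_extend) : T_RBind := by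
  intro Λ _ A _ _ _ _ H _ _ _ S B
  obtain ⟨-, -, -, -, -, -, -, -, -, bUR, -, -⟩ := basic hh Λ H S.toRep
  have two : ∀ (B' : Finset ℕ) (z : H), Disjoint B B' → z ∈ S.HB B' →
      S.PR B z = ⟪S.ι 1, z⟫_ℂ • S.ι 1 := by
    intro B' z hd hz
    apply Submodule.eq_starProjection_of_mem_of_inner_eq_zero
    · exact Submodule.smul_mem _ _ (pb1_RB_one S B)
    · intro w hw
      rw [← inner_conj_symm, inner_sub_right, inner_smul_right,
        pb2_inner hh hpe S B B' w z hd hw hz, mul_comm, sub_self]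
      simp
  have hU1 : ∀ c : Y Λ, S.U c (S.ι 1) = S.ι 1 := fun c => (pb1_RB_one S ∅).2 c (by simp [Off])
  have htr : ∀ r : A, ⟪S.ι (star r), S.ι 1⟫_ℂ = S.tr r := by
    intro r
    rw [← pb1_tr_star_mul, star_star, mul_one]
  refine ⟨fun r hr => pb2_one hh hpe S B r hr, two, ?_, ?_, ?_⟩
  · intro B' r z hd hr hz
    have h1 := pb1_tr_star_mul S (star r) z
    rw [star_star] at h1
    rw [h1, pb2_inner hh hpe S B B' _ _ hd (pb1_RB_star S B r hr) hz, htr]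
    rfl
  · intro c z hc hz
    rw [← bUR B c z hc, two ∅ z (by simp) hz, map_smul, hU1]
  · intro c r z hc hr hz
    have h1 := pb1_tr_star_mul S (star r) (S.UA c z)
    rw [star_star] at h1
    rw [h1, S.ι_U, hil1_inner_U, pb2_inner hh hpe S B ∅ _ _ (by simp)
      (hil1_U_RB hh S.toRep B (-c) _ (by simpa using hc) (pb1_RB_star S B r hr)) hz,
      ← hil1_inner_U, hU1, htr]
    rfl

end PB2

end Pool.Agent.H84.B
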